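import Pool.Agent.LTD.Len

set_option autoImplicit false

namespace LTD

open MvPolynomial

variable {σ τ : Type}

/-- ROW Ren. `rename f P = ∑_{α ∈ supp P} monomial (mapDomain f α) (coeff α P)`; `len_sum`,
`len_monomial`. -/
theorem len_rename_le (f : σ → τ) (P : MvPolynomial σ ℤ) : len (rename f P) ≤ len P := by
  have h1 : rename f P = ∑ m ∈ P.support, monomial (Finsupp.mapDomain f m) (P.coeff m) := by
    conv_lhs => rw [P.as_sum]
    rw [map_sum]
    exact Finset.sum_congr rfl fun m _ => by rw [rename_monomial]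
  rw [h1, len_eq_sum P P.support (Finset.Subset.refl _)]
  refine (len_sum _ _).trans (le_of_eq ?_)
  exact Finset.sum_congr rfl fun m _ => by rw [len_monomial]

theorem ev_rename (f : σ → τ) (θ : τ → ℂ) (P : MvPolynomial σ ℤ) :
    ev θ (rename f P) = ev (θ ∘ f) P := by
  unfold ev
  simp [eval₂_rename]

/-- `totalDegree_rename_le`. -/
theorem Sz.rename {P : MvPolynomial σ ℤ} {s : ℝ} (h : Sz P s) (f : σ → τ) : Sz (rename f P) s := by
  refine ⟨?_, (len_rename_le f P).trans h.2⟩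
  refine le_trans ?_ h.1
  exact_mod_cast totalDegree_rename_le f P

theorem Gap.rename {θ : τ → ℂ} {s g : ℝ} (h : Gap θ s g) (f : σ → τ) : Gap (θ ∘ f) s g := by
  intro P hP
  rw [← ev_rename]
  exact h _ (hP.rename f)

theorem Sz.mono {P : MvPolynomial σ ℤ} {s s' : ℝ} (h : Sz P s) (hs : s ≤ s') : Sz P s' :=
  ⟨h.1.trans hs, h.2.trans (Real.exp_le_exp.2 hs)⟩

theorem Gap.mono {θ : σ → ℂ} {s g s' g' : ℝ} (h : Gap θ s g) (hs : s' ≤ s) (hg : g ≤ g') :
    Gap θ s' g' := by
  intro P hP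
  exact (h P (hP.mono hs)).imp_right fun h1 => (Real.exp_le_exp.2 (neg_le_neg hg)).trans h1

/-- Without variables the values are integers. -/
theorem gap_empty [IsEmpty σ] (θ : σ → ℂ) (s g : ℝ) (hg : 0 ≤ g) : Gap θ s g := by
  intro P hP
  obtain ⟨c, hc⟩ : ∃ c : ℤ, P = C c := ⟨P.coeff 0, eq_C_of_isEmpty P⟩
  rw [hc]
  have h1 : ev θ (C c) = (c : ℂ) := by
    unfold ev
    simp
  rw [h1]
  by_cases h2 : c = 0
  · left
    rw [h2, Int.cast_zero]
  right
  have h3 : (1 : ℝ) ≤ ‖(c : ℂ)‖ := by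
    rw [Complex.norm_intCast]
    exact_mod_cast Int.one_le_abs h2
  refine le_trans ?_ h3
  rw [Real.exp_le_one_iff]
  linarith

end LTD
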