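import Pool.Agent.LTD.Alg
import Pool.Agent.LTD.Ren

set_option autoImplicit false

namespace LTD

open Finset

theorem Many_aux {σ : Type} {θ : σ → ℂ} {Θ s g p : ℝ} (hGap : Gap θ s g)
    (hg : 0 ≤ g) (hΘ : 1 ≤ Θ) (hθ : ∀ i, ‖θ i‖ ≤ Θ) (hp : 1 ≤ p) (τ : Type) [Finite τ] :
    ∀ (a : τ → ℂ) (_ : ∀ i, ‖a i‖ ≤ Θ)
    (J : τ → ℕ) (c : τ → ℕ → MvPolynomial σ ℤ) (_ : ∀ i, 1 ≤ J i) (_ : ∀ i, (J i : ℝ) ≤ p)
    (_ : ∀ i, ev θ (c i (J i)) ≠ 0)
    (_ : ∀ i, ∑ j ∈ range (J i + 1), ev θ (c i j) * a i ^ j = 0)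
    (_ : ∀ i, ∑ j ∈ range (J i + 1), len (c i j) ≤ Real.exp p)
    (_ : ∀ i, ∀ j ≤ J i, ((c i j).totalDegree : ℝ) ≤ p),
    ∀ q : ℝ, 1 ≤ q → (4 * p ^ 2) ^ (Nat.card τ) * q ≤ s →
      Gap (Sum.elim θ a) q (g + Nat.card τ * (6 * p ^ 2 * s * (1 + Real.log Θ))) := by
  have hlog : 0 ≤ Real.log Θ := Real.log_nonneg hΘ
  induction τ using Finite.induction_empty_option with
  | of_equiv e ih =>
    intro a ha J c hJ hJp hcJ hc hlen hdeg q hq hs
    rw [← Nat.card_congr e] at hs ⊢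
    have h1 := ih (a ∘ e) (fun i => ha _) (J ∘ e) (fun i => c (e i)) (fun i => hJ _)
      (fun i => hJp _) (fun i => hcJ _) (fun i => hc _) (fun i => hlen _) (fun i => hdeg _) q hq hs
    have h2 := h1.rename (Sum.map id e.symm)
    have e2 : Sum.elim θ (a ∘ e) ∘ Sum.map id e.symm = Sum.elim θ a := by
      funext x
      rcases x with x | x
      · rfl
      · show a (e (e.symm x)) = a x
        rw [e.apply_symm_apply]
    rwa [e2] at h2
  | h_empty =>
    intro a ha J c hJ hJp hcJ hc hlen hdeg q hq hs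
    have h2 := hGap.rename (Sum.elim id (fun x : PEmpty => x.elim))
    have e2 : θ ∘ Sum.elim id (fun x : PEmpty => x.elim) = Sum.elim θ a := by
      funext x
      rcases x with x | x
      · rfl
      · exact x.elim
    rw [e2] at h2
    have hc0 : Nat.card PEmpty = 0 := Nat.card_of_isEmpty
    rw [hc0, pow_zero, one_mul] at hs
    refine h2.mono hs ?_
    rw [hc0]
    simp
  | @h_option α _ ih =>
    intro a ha J c hJ hJp hcJ hc hlen hdeg q hq hs
    have hcard : Nat.card (Option α) = Nat.card α + 1 := Finite.card_option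
    rw [hcard] at hs ⊢
    have hp2 : 1 ≤ p ^ 2 := one_le_pow₀ hp
    have hp4 : 1 ≤ 4 * p ^ 2 := by linarith
    have hqs : q ≤ s := by
      have h1 : 1 ≤ (4 * p ^ 2) ^ (Nat.card α + 1) := one_le_pow₀ hp4
      have h2 : 1 * q ≤ (4 * p ^ 2) ^ (Nat.card α + 1) * q :=
        mul_le_mul_of_nonneg_right h1 (by linarith)
      linarith
    have h1 := ih (a ∘ some) (fun i => ha _) (J ∘ some) (fun i => c (some i)) (fun i => hJ _)
      (fun i => hJp _) (fun i => hcJ _) (fun i => hc _) (fun i => hlen _) (fun i => hdeg _)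
      (4 * p ^ 2 * q) (by nlinarith) (by
        rw [pow_succ] at hs
        linarith)
    have hs0 : 0 ≤ s := by linarith
    have hg' : 0 ≤ g + Nat.card α * (6 * p ^ 2 * s * (1 + Real.log Θ)) := by positivity
    have hev : ∀ P : MvPolynomial σ ℤ,
        ev (Sum.elim θ (a ∘ some)) (MvPolynomial.rename Sum.inl P) = ev θ P := by
      intro P
      rw [ev_rename]
      rfl
    have h2 := gap_alg h1 hg' hΘ (by
        intro i
        rcases i with i | i
        · exact hθ i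
        · exact ha _) (ha none) (J none) (hJ none)
      (fun j => MvPolynomial.rename Sum.inl (c none j)) (by rw [hev]; exact hcJ none) (by
        have e : ∀ j, ev (Sum.elim θ (a ∘ some)) (MvPolynomial.rename Sum.inl (c none j)) * a none ^ j
            = ev θ (c none j) * a none ^ j := fun j => by rw [hev]
        rw [Finset.sum_congr rfl fun j _ => e j]
        exact hc none) hp (by
        refine le_trans (Finset.sum_le_sum fun j _ => len_rename_le _ _) (hlen none)) (by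
        intro j hj
        refine le_trans ?_ (hdeg none j hj)
        exact_mod_cast MvPolynomial.totalDegree_rename_le _ _) (hJp none) hq (le_refl _)
    obtain ⟨f, hf⟩ : ∃ f : σ ⊕ Option α → Option (σ ⊕ α),
        f = Sum.elim (fun i => some (Sum.inl i)) (fun o => o.elim none fun i => some (Sum.inr i)) :=
      ⟨_, rfl⟩
    have h3 := h2.rename f
    have e2 : ext (Sum.elim θ (a ∘ some)) (a none) ∘ f = Sum.elim θ a := by
      rw [hf]
      funext x
      rcases x with x | x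
      · rfl
      · cases x <;> rfl
    rw [e2] at h3
    refine h3.mono le_rfl ?_
    push_cast
    have h4 : 6 * p ^ 2 * q * (1 + Real.log Θ) ≤ 6 * p ^ 2 * s * (1 + Real.log Θ) := by
      apply mul_le_mul_of_nonneg_right _ (by linarith)
      apply mul_le_mul_of_nonneg_left hqs (by positivity)
    linarith

/-- ROW Many (lemma G4b): adding finitely many coordinates algebraic over the first ones. Induction on
the index type `τ` (`Fintype.induction_empty_option`, statement with `Nat.card τ` or on `Fin M`), for all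
`q`. `τ` empty: `Gap.rename` along `σ ⊕ τ → σ` and `Gap.mono` (`q ≤ s`). Step to `Option τ`: apply the
induction hypothesis with `q' = 4p²q` (`(4p²)^{card τ} · 4p²q ≤ s`) and then `gap_alg` to the point
`Sum.elim θ (a ∘ some)` with its gap at `s = 4p²q`, the new coordinate `a none`, the polynomials
`rename Sum.inl (c none j)`: the loss is `6p²q(1 + log Θ) ≤ 6p²s(1 + log Θ)` (`q ≤ s`). Finally
`Gap.rename` along `σ ⊕ Option τ → Option (σ ⊕ τ)`. -/
theorem gap_many {σ τ : Type} [Fintype τ] {θ : σ → ℂ} {a : τ → ℂ} {Θ s g p : ℝ} (hGap : Gap θ s g)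
    (hg : 0 ≤ g) (hΘ : 1 ≤ Θ) (hθ : ∀ i, ‖θ i‖ ≤ Θ) (ha : ∀ i, ‖a i‖ ≤ Θ) (hp : 1 ≤ p)
    (J : τ → ℕ) (c : τ → ℕ → MvPolynomial σ ℤ) (hJ : ∀ i, 1 ≤ J i) (hJp : ∀ i, (J i : ℝ) ≤ p)
    (hcJ : ∀ i, ev θ (c i (J i)) ≠ 0)
    (hc : ∀ i, ∑ j ∈ range (J i + 1), ev θ (c i j) * a i ^ j = 0)
    (hlen : ∀ i, ∑ j ∈ range (J i + 1), len (c i j) ≤ Real.exp p)
    (hdeg : ∀ i, ∀ j ≤ J i, ((c i j).totalDegree : ℝ) ≤ p) :
    ∀ q : ℝ, 1 ≤ q → (4 * p ^ 2) ^ (Fintype.card τ) * q ≤ s →
      Gap (Sum.elim θ a) q (g + Fintype.card τ * (6 * p ^ 2 * s * (1 + Real.log Θ))) := by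
  have h := Many_aux hGap hg hΘ hθ hp τ a ha J c hJ hJp hcJ hc hlen hdeg
  rw [Nat.card_eq_fintype_card] at h
  exact h

end LTD
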