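import Mathlib

set_option autoImplicit false

namespace LTD

private theorem Near_prod (v : ℂ) (r : ℝ) (hr : 0 ≤ r) (s : Multiset ℂ)
    (h : ∀ x ∈ s, r ≤ ‖v - x‖) : r ^ Multiset.card s ≤ (s.map fun x => ‖v - x‖).prod := by
  induction s using Multiset.induction with
  | empty => simp
  | cons a s ih =>
    rw [Multiset.card_cons, Multiset.map_cons, Multiset.prod_cons, pow_succ, mul_comm]
    exact mul_le_mul (h a (Multiset.mem_cons_self a s))
      (ih fun x hx => h x (Multiset.mem_cons_of_mem hx)) (pow_nonneg hr _) (norm_nonneg _)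

/-- ROW Near. A polynomial of degree `J ≥ 1` with leading coefficient `c` splits:
`f = c ∏ (X - a_i)`; if `a` is the root closest to `v` then `|f(v)| = |c| ∏ |v - a_i| ≥ |c| |v - a|^J`.
(`IsAlgClosed.splits`, `Polynomial.Splits.eval_eq_prod_roots`-type lemmas,
`Multiset.exists_min_image`-type lemma or induction, `splits_iff_card_roots`.) -/
theorem near_root (f : Polynomial ℂ) (hf : 1 ≤ f.natDegree) (v : ℂ) :
    ∃ a, f.eval a = 0 ∧ ‖a - v‖ ^ f.natDegree * ‖f.leadingCoeff‖ ≤ ‖f.eval v‖ := by
  classical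
  have hs : f.Splits := IsAlgClosed.splits f
  have hcard : Multiset.card f.roots = f.natDegree := hs.natDegree_eq_card_roots.symm
  have hf0 : f ≠ 0 := by
    rintro rfl
    simp at hf
  have hne : f.roots.toFinset.Nonempty := by
    rw [Multiset.toFinset_nonempty]
    intro h0
    rw [h0, Multiset.card_zero] at hcard
    omega
  obtain ⟨a, ha, hmin⟩ := Finset.exists_min_image f.roots.toFinset (fun x => ‖v - x‖) hne
  refine ⟨a, (Polynomial.mem_roots hf0).1 (Multiset.mem_toFinset.1 ha), ?_⟩
  have h1 := hs.eq_prod_roots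
  have h2 : f.eval v = f.leadingCoeff * (f.roots.map fun x => v - x).prod := by
    conv_lhs => rw [h1]
    rw [Polynomial.eval_mul, Polynomial.eval_C, Polynomial.eval_multiset_prod, Multiset.map_map]
    congr 2
    refine Multiset.map_congr rfl fun x _ => ?_
    simp
  have h3 : ‖(f.roots.map fun x => v - x).prod‖ = (f.roots.map fun x => ‖v - x‖).prod := by
    have : ∀ s : Multiset ℂ, ‖(s.map fun x => v - x).prod‖ = (s.map fun x => ‖v - x‖).prod := by
      intro s
      induction s using Multiset.induction with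
      | empty => simp
      | cons a s ih => rw [Multiset.map_cons, Multiset.prod_cons, norm_mul, ih, Multiset.map_cons,
          Multiset.prod_cons]
    exact this _
  rw [h2, norm_mul, h3, mul_comm, norm_sub_rev a v]
  refine mul_le_mul_of_nonneg_left ?_ (norm_nonneg _)
  rw [← hcard]
  exact Near_prod v _ (norm_nonneg _) _ fun x hx => hmin x (Multiset.mem_toFinset.2 hx)

/-- The same for a sum `∑_{j ≤ J} c_j X^j` with `c_J ≠ 0`. -/
theorem near_root' (J : ℕ) (hJ : 1 ≤ J) (c : ℕ → ℂ) (hc : c J ≠ 0) (v : ℂ) :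
    ∃ a, ∑ j ∈ Finset.range (J + 1), c j * a ^ j = 0 ∧
      ‖a - v‖ ^ J * ‖c J‖ ≤ ‖∑ j ∈ Finset.range (J + 1), c j * v ^ j‖ := by
  set f : Polynomial ℂ := ∑ j ∈ Finset.range (J + 1), Polynomial.C (c j) * Polynomial.X ^ j with hf
  have hcoef : ∀ k, f.coeff k = if k < J + 1 then c k else 0 := by
    intro k
    rw [hf, Polynomial.finsetSum_coeff]
    simp only [Polynomial.coeff_C_mul_X_pow]
    by_cases hk : k < J + 1
    · rw [if_pos hk, Finset.sum_eq_single_of_mem k (Finset.mem_range.2 hk)]
      · rw [if_pos rfl]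
      · intro j _ hj
        exact if_neg fun h => hj h.symm
    · rw [if_neg hk]
      refine Finset.sum_eq_zero fun j hj => if_neg ?_
      rw [Finset.mem_range] at hj
      omega
  have hle : f.natDegree ≤ J := by
    rw [Polynomial.natDegree_le_iff_coeff_eq_zero]
    intro k hk
    rw [hcoef, if_neg (by omega)]
  have hJc : f.coeff J = c J := by rw [hcoef, if_pos (by omega)]
  have hdeg : f.natDegree = J :=
    Polynomial.natDegree_eq_of_le_of_coeff_ne_zero hle (by rw [hJc]; exact hc)
  have heval : ∀ x, f.eval x = ∑ j ∈ Finset.range (J + 1), c j * x ^ j := by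
    intro x
    rw [hf, Polynomial.eval_finsetSum]
    exact Finset.sum_congr rfl fun j _ => by simp
  obtain ⟨a, ha, hav⟩ := near_root f (by omega) v
  have hlead : f.leadingCoeff = c J := by
    rw [Polynomial.leadingCoeff, hdeg, hJc]
  rw [hlead, hdeg, heval] at hav
  rw [heval] at ha
  exact ⟨a, ha, hav⟩

end LTD
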