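import Pool.Agent.LTD.Ev
import Pool.Agent.LTD.Near

set_option autoImplicit false

namespace LTD

open Finset

/-- ROW RootC (lemma G4c): roots move little. Let `Θ ≥ 1` bound `|θ_i| + 1` and `|u|`. For
`‖θ'_i - θ_i‖ ≤ δ ≤ 1` (`norm_ev_sub_le`): `|c_j(θ') - c_j(θ)| ≤ K_j δ`, so `|c_J(θ')| ≥ |c_J(θ)|/2` for `δ ≤ δ₀`,
and `|∑ c_j(θ') u^j| = |∑ (c_j(θ') - c_j(θ)) u^j| ≤ K δ`; `near_root'` for the polynomial with coefficients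
`c_j(θ')` at `v = u`: a root `a` with `|a - u|^J |c_J(θ')| ≤ K δ`. `C = max(1, 2K/|c_J(θ)|)`. -/
theorem root_close {σ : Type} [Finite σ] (θ : σ → ℂ) (u : ℂ) (J : ℕ) (hJ : 1 ≤ J)
    (c : ℕ → MvPolynomial σ ℤ) (hc : ev θ (c J) ≠ 0)
    (h : ∑ j ∈ range (J + 1), ev θ (c j) * u ^ j = 0) :
    ∃ C δ₀ : ℝ, 1 ≤ C ∧ 0 < δ₀ ∧ ∀ δ : ℝ, 0 ≤ δ → δ ≤ δ₀ → ∀ θ' : σ → ℂ,
      (∀ i, ‖θ' i - θ i‖ ≤ δ) → ev θ' (c J) ≠ 0 ∧
        ∃ a, ∑ j ∈ range (J + 1), ev θ' (c j) * a ^ j = 0 ∧ ‖a - u‖ ^ J ≤ C * δ := by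
  obtain ⟨M, hM⟩ := (Set.finite_range (fun i => ‖θ i‖)).bddAbove
  have hM' : ∀ i, ‖θ i‖ ≤ M := fun i => hM ⟨i, rfl⟩
  obtain ⟨Θ, hΘ⟩ : ∃ Θ : ℝ, Θ = max (M + 1) (max 1 ‖u‖) := ⟨_, rfl⟩
  have hΘ1 : 1 ≤ Θ := by rw [hΘ]; exact (le_max_left _ _).trans (le_max_right _ _)
  have hΘu : ‖u‖ ≤ Θ := by rw [hΘ]; exact (le_max_right _ _).trans (le_max_right _ _)
  have hΘM : M + 1 ≤ Θ := by rw [hΘ]; exact le_max_left _ _
  obtain ⟨K, hK⟩ : ∃ K : ℕ → ℝ, ∀ j, K j = len (c j) * (c j).totalDegree * Θ ^ (c j).totalDegree :=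
    ⟨fun j => _, fun j => rfl⟩
  have hK0 : ∀ j, 0 ≤ K j := by
    intro j
    rw [hK]
    have := len_nonneg (c j)
    positivity
  have hdiff : ∀ δ : ℝ, 0 ≤ δ → δ ≤ 1 → ∀ θ' : σ → ℂ, (∀ i, ‖θ' i - θ i‖ ≤ δ) →
      ∀ j, ‖ev θ' (c j) - ev θ (c j)‖ ≤ K j * δ := by
    intro δ hδ0 hδ1 θ' hθ' j
    rw [hK]
    refine norm_ev_sub_le θ θ' Θ δ hΘ1 hδ0 (fun i => ?_) (fun i => ?_) hθ' (c j)
    · have := hM' i
      linarith
    · have h1 : θ' i = θ i + (θ' i - θ i) := by ring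
      have h2 := norm_add_le (θ i) (θ' i - θ i)
      rw [← h1] at h2
      have h3 := hM' i
      have h4 := hθ' i
      linarith
  have hL : 0 < ‖ev θ (c J)‖ := norm_pos_iff.2 hc
  obtain ⟨S, hS⟩ : ∃ S : ℝ, S = ∑ j ∈ range (J + 1), K j * Θ ^ j := ⟨_, rfl⟩
  have hS0 : 0 ≤ S := by
    rw [hS]
    exact Finset.sum_nonneg fun j _ => mul_nonneg (hK0 j) (by positivity)
  refine ⟨max 1 (2 * S / ‖ev θ (c J)‖), min 1 (‖ev θ (c J)‖ / (2 * (K J + 1))), le_max_left _ _,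
    lt_min one_pos (by have := hK0 J; positivity), ?_⟩
  intro δ hδ0 hδ θ' hθ'
  have hδ1 : δ ≤ 1 := hδ.trans (min_le_left _ _)
  have hδ2 : δ ≤ ‖ev θ (c J)‖ / (2 * (K J + 1)) := hδ.trans (min_le_right _ _)
  have hd := hdiff δ hδ0 hδ1 θ' hθ'
  have hhalf : ‖ev θ (c J)‖ / 2 ≤ ‖ev θ' (c J)‖ := by
    have h1 := hd J
    have h2 : K J * δ ≤ ‖ev θ (c J)‖ / 2 := by
      have h3 : K J * δ ≤ (K J + 1) * (‖ev θ (c J)‖ / (2 * (K J + 1))) :=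
        mul_le_mul (by linarith) hδ2 hδ0 (by linarith [hK0 J])
      have h4 : (K J + 1) * (‖ev θ (c J)‖ / (2 * (K J + 1))) = ‖ev θ (c J)‖ / 2 := by
        have := hK0 J
        field_simp
      linarith
    have h3 := norm_sub_norm_le (ev θ (c J)) (ev θ' (c J))
    rw [norm_sub_rev] at h3
    linarith
  have hne : ev θ' (c J) ≠ 0 := by
    rw [← norm_pos_iff]
    linarith
  refine ⟨hne, ?_⟩
  obtain ⟨a, ha0, ha⟩ := near_root' J hJ (fun j => ev θ' (c j)) hne u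
  refine ⟨a, ha0, ?_⟩
  have hsum : ‖∑ j ∈ range (J + 1), ev θ' (c j) * u ^ j‖ ≤ S * δ := by
    have e : ∑ j ∈ range (J + 1), ev θ' (c j) * u ^ j =
        ∑ j ∈ range (J + 1), (ev θ' (c j) - ev θ (c j)) * u ^ j := by
      have e1 : ∑ j ∈ range (J + 1), (ev θ' (c j) - ev θ (c j)) * u ^ j =
          ∑ j ∈ range (J + 1), ev θ' (c j) * u ^ j - ∑ j ∈ range (J + 1), ev θ (c j) * u ^ j := by
        rw [← Finset.sum_sub_distrib]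
        exact Finset.sum_congr rfl fun j _ => by ring
      rw [e1, h, sub_zero]
    rw [e, hS, Finset.sum_mul]
    refine (norm_sum_le _ _).trans (Finset.sum_le_sum fun j _ => ?_)
    rw [norm_mul, norm_pow]
    have h1 : ‖u‖ ^ j ≤ Θ ^ j := pow_le_pow_left₀ (norm_nonneg _) hΘu j
    calc ‖ev θ' (c j) - ev θ (c j)‖ * ‖u‖ ^ j ≤ (K j * δ) * Θ ^ j :=
          mul_le_mul (hd j) h1 (by positivity) (mul_nonneg (hK0 j) hδ0)
      _ = K j * Θ ^ j * δ := by ring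
  have h1 : ‖a - u‖ ^ J * (‖ev θ (c J)‖ / 2) ≤ S * δ :=
    (mul_le_mul_of_nonneg_left hhalf (by positivity)).trans (ha.trans hsum)
  have h2 : ‖a - u‖ ^ J ≤ (2 * S / ‖ev θ (c J)‖) * δ := by
    have e : (2 * S / ‖ev θ (c J)‖) * δ = (S * δ) / (‖ev θ (c J)‖ / 2) := by
      field_simp
    rw [e, le_div_iff₀ (by positivity)]
    exact h1
  exact h2.trans (mul_le_mul_of_nonneg_right (le_max_right _ _) hδ0)

end LTD
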