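import Pool.Agent.LTD.Def

set_option autoImplicit false

namespace LTD

theorem TrD_clear {F : IntermediateField ℚ ℂ} {ι : Type} {t' : ℕ} (x : ι → F) (e : Fin t' ≃ ι)
    (y : F) (hy : y ∈ Algebra.adjoin ℚ (Set.range x)) :
    ∃ N : ℤ, N ≠ 0 ∧ ∃ P : MvPolynomial (Fin t') ℤ,
      ev (fun i => ((x (e i) : F) : ℂ)) P = (N : ℂ) * (y : ℂ) := by
  induction hy using Algebra.adjoin_induction with
  | mem y hy =>
    obtain ⟨i, rfl⟩ := hy
    refine ⟨1, one_ne_zero, MvPolynomial.X (e.symm i), ?_⟩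
    simp [ev]
  | algebraMap r =>
    refine ⟨r.den, by exact_mod_cast r.den_nz, MvPolynomial.C r.num, ?_⟩
    have h1 : (((algebraMap ℚ F) r : F) : ℂ) = (r : ℂ) := by
      have : (((algebraMap ℚ F) r : F) : ℂ) = algebraMap ℚ ℂ r := rfl
      rw [this]
      rfl
    rw [h1]
    have h2 : (r : ℂ) = (r.num : ℂ) / (r.den : ℂ) := by
      exact_mod_cast (Rat.num_div_den r).symm
    have h3 : (r.den : ℂ) ≠ 0 := by exact_mod_cast r.den_nz
    rw [h2]
    simp only [ev, MvPolynomial.coe_eval₂Hom, MvPolynomial.eval₂_C]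
    push_cast
    field_simp
    simp
  | add y z _ _ hy hz =>
    obtain ⟨N, hN, P, hP⟩ := hy
    obtain ⟨N', hN', P', hP'⟩ := hz
    refine ⟨N * N', mul_ne_zero hN hN', MvPolynomial.C N' * P + MvPolynomial.C N * P', ?_⟩
    rw [map_add, map_mul, map_mul, hP, hP']
    simp only [ev, MvPolynomial.coe_eval₂Hom, MvPolynomial.eval₂_C]
    push_cast
    simp
    ring
  | mul y z _ _ hy hz =>
    obtain ⟨N, hN, P, hP⟩ := hy
    obtain ⟨N', hN', P', hP'⟩ := hz
    refine ⟨N * N', mul_ne_zero hN hN', P * P', ?_⟩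
    rw [map_mul, hP, hP']
    push_cast
    ring

/-- ROW TrD. Take a transcendence basis of `F` over `ℚ` (`exists_isTranscendenceBasis`), of cardinality
`t' = trdeg ≤ t`, indexed by `Fin t'`, values `θ : Fin t' → ℂ` in `F`. Every `u ∈ F` is algebraic over
`Algebra.adjoin ℚ (range θ)` (resp. over `ℚ(θ)`); multiply a nonzero polynomial relation by a common
denominator: a nonzero `f ∈ ℤ[X_1..X_t'][Y]` with `f(θ,u) = 0`, i.e. polynomials `c_0, ..., c_J` over `ℤ`
with `∑ c_j(θ) u^j = 0` and not all `c_j(θ) = 0`; let `J` be maximal with `c_J(θ) ≠ 0` (drop the higher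
ones, their values vanish: in the statement simply take this `J`). `J ≥ 1`, since `J = 0` would give
`c_0(θ) = 0`. (`IsFractionRing.isAlgebraic_iff`, `IsLocalization.integerNormalization`-type lemmas, or
`exists_integral_multiple`; alternatively: `ev θ : MvPolynomial (Fin t') ℤ →+* ℂ` and `u` is algebraic over
its range subring because the range has the same fraction field as `ℚ[θ]`.) -/
theorem trdeg_data (t : ℕ) (F : IntermediateField ℚ ℂ) (hF : Algebra.trdeg ℚ F ≤ t) :
    ∃ t' : ℕ, t' ≤ t ∧ ∃ θ : Fin t' → ℂ, ∀ u ∈ F, ∃ (J : ℕ) (c : ℕ → MvPolynomial (Fin t') ℤ),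
      1 ≤ J ∧ ev θ (c J) ≠ 0 ∧ ∑ j ∈ Finset.range (J + 1), ev θ (c j) * u ^ j = 0 := by
  obtain ⟨ι, x, hx⟩ := exists_isTranscendenceBasis' ℚ F
  have hcard : Cardinal.mk ι ≤ t := by
    rw [hx.cardinalMk_eq_trdeg]
    exact hF
  have hfin : Finite ι := by
    rw [← Cardinal.mk_lt_aleph0_iff]
    exact hcard.trans_lt (Cardinal.natCast_lt_aleph0)
  have hle : Nat.card ι ≤ t := by
    rw [← Nat.cast_card] at hcard
    exact_mod_cast hcard
  obtain ⟨e⟩ : Nonempty (Fin (Nat.card ι) ≃ ι) := ⟨(Finite.equivFin ι).symm⟩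
  refine ⟨Nat.card ι, hle, fun i => ((x (e i) : F) : ℂ), fun u hu => ?_⟩
  have halg := hx.isAlgebraic.isAlgebraic (⟨u, hu⟩ : F)
  obtain ⟨p, hp0, hp⟩ := halg
  have hcl := fun j : ℕ => TrD_clear x e ((p.coeff j : Algebra.adjoin ℚ (Set.range x)) : F)
    (p.coeff j).2
  choose N hN P hP using hcl
  obtain ⟨J, hJ⟩ : ∃ J, J = p.natDegree := ⟨_, rfl⟩
  have hprod : ∀ j ∈ Finset.range (J + 1), (∏ i ∈ (Finset.range (J + 1)).erase j, N i) * N j =
      ∏ i ∈ Finset.range (J + 1), N i := fun j hj => Finset.prod_erase_mul _ _ hj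
  have hc : ∀ j ∈ Finset.range (J + 1), ev (fun i => ((x (e i) : F) : ℂ))
      (MvPolynomial.C (∏ i ∈ (Finset.range (J + 1)).erase j, N i) * P j) =
      ((∏ i ∈ Finset.range (J + 1), N i : ℤ) : ℂ) *
        (((p.coeff j : Algebra.adjoin ℚ (Set.range x)) : F) : ℂ) := by
    intro j hj
    rw [map_mul, hP, ← hprod j hj]
    simp only [ev, MvPolynomial.coe_eval₂Hom, MvPolynomial.eval₂_C]
    push_cast
    simp
    ring
  have hpu : ∑ j ∈ Finset.range (J + 1),
      (((p.coeff j : Algebra.adjoin ℚ (Set.range x)) : F) : ℂ) * u ^ j = 0 := by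
    rw [Polynomial.aeval_eq_sum_range, ← hJ] at hp
    have h1 := congrArg (fun z : F => (z : ℂ)) hp
    simp only [Algebra.smul_def] at h1
    have h2 : ((∑ j ∈ Finset.range (J + 1), (algebraMap (Algebra.adjoin ℚ (Set.range x)) F)
        (p.coeff j) * (⟨u, hu⟩ : F) ^ j : F) : ℂ) = ∑ j ∈ Finset.range (J + 1),
        (((p.coeff j : Algebra.adjoin ℚ (Set.range x)) : F) : ℂ) * u ^ j := by
      push_cast
      rfl
    rw [← h2]
    exact h1
  have hJ1 : 1 ≤ J := by
    by_contra hlt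
    have hJ0 : J = 0 := by omega
    rw [hJ0] at hpu hJ
    simp only [zero_add, Finset.range_one, Finset.sum_singleton, pow_zero, mul_one] at hpu
    have h1 : p.coeff 0 = 0 := by
      have h2 : (((p.coeff 0 : Algebra.adjoin ℚ (Set.range x)) : F)) = 0 := by
        exact_mod_cast hpu
      exact_mod_cast h2
    apply hp0
    rw [Polynomial.eq_C_of_natDegree_eq_zero hJ.symm, h1, Polynomial.C_0]
  refine ⟨J, fun j => MvPolynomial.C (∏ i ∈ (Finset.range (J + 1)).erase j, N i) * P j, hJ1, ?_, ?_⟩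
  · rw [hc J (Finset.mem_range.2 (Nat.lt_succ_self J))]
    refine mul_ne_zero ?_ ?_
    · have : (∏ i ∈ Finset.range (J + 1), N i) ≠ 0 := Finset.prod_ne_zero_iff.2 fun i _ => hN i
      exact_mod_cast this
    · have h1 : p.coeff J ≠ 0 := by
        rw [hJ, Polynomial.coeff_natDegree]
        exact Polynomial.leadingCoeff_ne_zero.2 hp0
      intro h2
      apply h1
      have h3 : (((p.coeff J : Algebra.adjoin ℚ (Set.range x)) : F)) = 0 := by
        exact_mod_cast h2
      exact_mod_cast h3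
  · have e1 : ∀ j ∈ Finset.range (J + 1), ev (fun i => ((x (e i) : F) : ℂ))
        (MvPolynomial.C (∏ i ∈ (Finset.range (J + 1)).erase j, N i) * P j) * u ^ j =
        ((∏ i ∈ Finset.range (J + 1), N i : ℤ) : ℂ) *
        ((((p.coeff j : Algebra.adjoin ℚ (Set.range x)) : F) : ℂ) * u ^ j) := by
      intro j hj
      rw [hc j hj, mul_assoc]
    rw [Finset.sum_congr rfl e1, ← Finset.mul_sum, hpu, mul_zero]

end LTD
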