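import Pool.Agent.LTD.Gam
import Pool.Agent.LTD.TrD
import Pool.Agent.LTD.Many
import Pool.Agent.LTD.RootC

set_option autoImplicit false

namespace LTD

/-- ROW GapU (lemma G4). Let `Γ₁` be the maximum over `t' ≤ t` of the constants of
`gap_theta (Fin t') (4A) 1` (and `≥ 4`); `Γ = 2Γ₁`. Given `F, u`: `trdeg_data` gives `t' ≤ t`, `θ` and
`J_i, c_ij` for each `u_i`; choose `p ≥ 1` with `J_i ≤ p`, `deg c_ij ≤ p`, `∑_j len c_ij ≤ e^p`, constants
`C ≥ 1`, `δ₀ > 0` from `root_close` valid for all `i`, `Θ ≥ 1` with `|θ_i| + 1, |u_i| + 1 ≤ Θ`; put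
`M = card ι`, `κ = (4p²)^M ≥ 1`, `N₁ = κN`. For `N` large `gap_theta` at `N₁` gives `γ₁ ∈ [4, Γ₁]` and
`θ'` with `‖θ' - θ‖ ≤ δ := exp(-N₁^{4Aγ₁}) ≤ δ₀, 1` and `Gap θ' N₁ (N₁^{γ₁})` (`N₁^1 = N₁`). `root_close`:
roots `a_i` of `∑ c_ij(θ') Y^j` with `|a_i - u_i|^{J_i} ≤ Cδ`. For `N ≥ p + log C` (and `≥ 1`):
`N₁^{4Aγ₁} ≥ N^{2Aγ₁} N^{2Aγ₁} ≥ (p + log C) N^{2Aγ₁} ≥ J_i N^{2Aγ₁} + log C`, so `Cδ ≤ (exp(-N^{2Aγ₁}))^{J_i}`
and `|a_i - u_i| ≤ exp(-N^{2Aγ₁})`. `gap_many` with `s = N₁`, `q = N`: `Gap (Sum.elim θ' a) N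
(N₁^{γ₁} + M · 6p²N₁(1 + log Θ))`, and this exponent is `≤ (κ^{Γ₁} + 6Mp²κ(1 + log Θ)) N^{γ₁} ≤ N^{2γ₁}` for `N`
large. So `γ = 2γ₁`, `u' = a` (`Gap.rename` along `Sum.inr`, `Gap.mono`). -/
theorem gap_u (t : ℕ) (A : ℝ) (hA : 1 ≤ A) : ∃ Γ : ℝ, 1 ≤ Γ ∧ ∀ F : IntermediateField ℚ ℂ,
    Algebra.trdeg ℚ F ≤ t → ∀ (ι : Type) [Fintype ι] (u : ι → ℂ), (∀ i, u i ∈ F) →
      ∃ N₀ : ℝ, ∀ N : ℝ, N₀ ≤ N → ∃ γ : ℝ, 1 ≤ γ ∧ γ ≤ Γ ∧ ∃ u' : ι → ℂ,
        (∀ i, ‖u' i - u i‖ ≤ Real.exp (-(N ^ (A * γ)))) ∧ Gap u' N (N ^ γ) := by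
  have hA4 : (1 : ℝ) ≤ 4 * A := by linarith
  choose G hG using fun t' : ℕ => gap_theta (Fin t') (4 * A) 1 hA4 le_rfl
  set Γ₁ : ℝ := 4 + ∑ t' ∈ Finset.range (t + 1), |G t'| with hΓ₁
  have hGle : ∀ t' ≤ t, G t' ≤ Γ₁ := by
    intro t' ht'
    have h1 : |G t'| ≤ ∑ t' ∈ Finset.range (t + 1), |G t'| :=
      Finset.single_le_sum (f := fun t' => |G t'|) (fun _ _ => abs_nonneg _)
        (Finset.mem_range.mpr (by omega))
    have h2 := le_abs_self (G t')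
    linarith
  have hΓ₁4 : 4 ≤ Γ₁ := by
    have : 0 ≤ ∑ t' ∈ Finset.range (t + 1), |G t'| := Finset.sum_nonneg fun _ _ => abs_nonneg _
    linarith
  refine ⟨2 * Γ₁, by linarith, fun F hF ι _ u hu => ?_⟩
  obtain ⟨t', ht', θ, hθ⟩ := trdeg_data t F hF
  choose J c hJ hcJ hc using fun i => hθ (u i) (hu i)
  -- the bound p
  obtain ⟨p, hp1, hJp, hdeg, hlen⟩ : ∃ p : ℝ, 1 ≤ p ∧ (∀ i, (J i : ℝ) ≤ p) ∧
      (∀ i, ∀ j ≤ J i, ((c i j).totalDegree : ℝ) ≤ p) ∧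
      (∀ i, ∑ j ∈ Finset.range (J i + 1), len (c i j) ≤ Real.exp p) := by
    have hterm : ∀ i, 0 ≤ (J i : ℝ) + ∑ j ∈ Finset.range (J i + 1),
        (((c i j).totalDegree : ℝ) + len (c i j)) := by
      intro i
      have : 0 ≤ ∑ j ∈ Finset.range (J i + 1), (((c i j).totalDegree : ℝ) + len (c i j)) :=
        Finset.sum_nonneg fun j _ => add_nonneg (Nat.cast_nonneg _) (len_nonneg _)
      have h2 : (0 : ℝ) ≤ (J i : ℝ) := Nat.cast_nonneg _
      linarith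
    have hle : ∀ i, (J i : ℝ) + ∑ j ∈ Finset.range (J i + 1),
        (((c i j).totalDegree : ℝ) + len (c i j)) ≤ 1 + ∑ i, ((J i : ℝ) +
          ∑ j ∈ Finset.range (J i + 1), (((c i j).totalDegree : ℝ) + len (c i j))) := by
      intro i
      have := Finset.single_le_sum (f := fun i => (J i : ℝ) +
          ∑ j ∈ Finset.range (J i + 1), (((c i j).totalDegree : ℝ) + len (c i j)))
          (fun i _ => hterm i) (Finset.mem_univ i)
      linarith
    refine ⟨1 + ∑ i, ((J i : ℝ) + ∑ j ∈ Finset.range (J i + 1),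
        (((c i j).totalDegree : ℝ) + len (c i j))), ?_, ?_, ?_, ?_⟩
    · have : 0 ≤ ∑ i, ((J i : ℝ) + ∑ j ∈ Finset.range (J i + 1),
        (((c i j).totalDegree : ℝ) + len (c i j))) := Finset.sum_nonneg fun i _ => hterm i
      linarith
    · intro i
      have h1 : 0 ≤ ∑ j ∈ Finset.range (J i + 1), (((c i j).totalDegree : ℝ) + len (c i j)) :=
        Finset.sum_nonneg fun j _ => add_nonneg (Nat.cast_nonneg _) (len_nonneg _)
      have h2 := hle i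
      linarith
    · intro i j hj
      have h1 : ((c i j).totalDegree : ℝ) + len (c i j) ≤
          ∑ j ∈ Finset.range (J i + 1), (((c i j).totalDegree : ℝ) + len (c i j)) :=
        Finset.single_le_sum (f := fun j => ((c i j).totalDegree : ℝ) + len (c i j))
          (fun j _ => add_nonneg (Nat.cast_nonneg _) (len_nonneg _))
          (Finset.mem_range.mpr (by omega))
      have h2 := hle i
      have h3 := len_nonneg (c i j)
      have h4 : (0 : ℝ) ≤ (J i : ℝ) := Nat.cast_nonneg _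
      linarith
    · intro i
      refine le_trans ?_ (Real.add_one_le_exp _)
      have h1 : ∑ j ∈ Finset.range (J i + 1), len (c i j) ≤
          ∑ j ∈ Finset.range (J i + 1), (((c i j).totalDegree : ℝ) + len (c i j)) :=
        Finset.sum_le_sum fun j _ => by
          have : (0 : ℝ) ≤ ((c i j).totalDegree : ℝ) := Nat.cast_nonneg _
          linarith
      have h2 := hle i
      have h4 : (0 : ℝ) ≤ (J i : ℝ) := Nat.cast_nonneg _
      linarith
  -- root_close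
  choose Ci δi hCi hδi hroot using
    fun i => root_close θ (u i) (J i) (hJ i) (c i) (hcJ i) (hc i)
  -- the bound Θ
  set Θ : ℝ := 1 + ∑ i, ‖θ i‖ + ∑ i, ‖u i‖ with hΘdef
  have hθΘ : ∀ i, ‖θ i‖ + 1 ≤ Θ := by
    intro i
    have h1 : ‖θ i‖ ≤ ∑ i, ‖θ i‖ :=
      Finset.single_le_sum (f := fun i => ‖θ i‖) (fun _ _ => norm_nonneg _) (Finset.mem_univ i)
    have h2 : 0 ≤ ∑ i, ‖u i‖ := Finset.sum_nonneg fun _ _ => norm_nonneg _
    linarith
  have huΘ : ∀ i, ‖u i‖ + 1 ≤ Θ := by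
    intro i
    have h1 : ‖u i‖ ≤ ∑ i, ‖u i‖ :=
      Finset.single_le_sum (f := fun i => ‖u i‖) (fun _ _ => norm_nonneg _) (Finset.mem_univ i)
    have h2 : 0 ≤ ∑ i, ‖θ i‖ := Finset.sum_nonneg fun _ _ => norm_nonneg _
    linarith
  have hΘ1 : 1 ≤ Θ := by
    have h1 : 0 ≤ ∑ i, ‖u i‖ := Finset.sum_nonneg fun _ _ => norm_nonneg _
    have h2 : 0 ≤ ∑ i, ‖θ i‖ := Finset.sum_nonneg fun _ _ => norm_nonneg _
    linarith
  set M : ℕ := Fintype.card ι with hM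
  set κ : ℝ := (4 * p ^ 2) ^ M with hκ
  have hp2 : 1 ≤ 4 * p ^ 2 := by nlinarith
  have hκ1 : 1 ≤ κ := one_le_pow₀ hp2
  have hκ0 : 0 < κ := by linarith
  have hlogΘ : 0 ≤ Real.log Θ := Real.log_nonneg hΘ1
  obtain ⟨N₂, hN₂⟩ := hG t' Θ hΘ1
  set B : ℝ := κ ^ Γ₁ + M * (6 * p ^ 2 * κ * (1 + Real.log Θ)) with hB
  have hB0 : 0 ≤ M * (6 * p ^ 2 * κ * (1 + Real.log Θ)) := by positivity
  -- thresholds
  have hev : ∀ᶠ N : ℝ in Filter.atTop, (∀ i, Real.exp (-N) ≤ δi i) ∧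
      (∀ i, p + Real.log (Ci i) ≤ N) ∧ 1 ≤ N ∧ N₂ ≤ N ∧ B ≤ N := by
    refine Filter.Eventually.and ?_ (Filter.Eventually.and ?_ (Filter.Eventually.and ?_
      (Filter.Eventually.and ?_ ?_)))
    · refine Filter.eventually_all.mpr fun i => ?_
      have h1 : Filter.Tendsto (fun N : ℝ => Real.exp (-N)) Filter.atTop (nhds 0) :=
        Real.tendsto_exp_neg_atTop_nhds_zero
      exact (h1.eventually (gt_mem_nhds (hδi i))).mono fun N h => le_of_lt h
    · exact Filter.eventually_all.mpr fun i => Filter.eventually_ge_atTop _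
    · exact Filter.eventually_ge_atTop _
    · exact Filter.eventually_ge_atTop _
    · exact Filter.eventually_ge_atTop _
  obtain ⟨N₀, hN₀⟩ := Filter.eventually_atTop.mp hev
  refine ⟨N₀, fun N hN => ?_⟩
  obtain ⟨hδN, hpN, hN1, hN2, hBN⟩ := hN₀ N hN
  have hN0 : 0 < N := by linarith
  have hN₁N : N ≤ κ * N := by nlinarith
  have hN₁1 : 1 ≤ κ * N := by linarith
  obtain ⟨γ₁, hγ4, hγG, θ', hθ', hGap⟩ := hN₂ (κ * N) (by linarith) θ
    (fun i => by linarith [hθΘ i])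
  have hγΓ : γ₁ ≤ Γ₁ := hγG.trans (hGle t' ht')
  have hγ4' : 4 ≤ γ₁ := by linarith
  have hAγ : 1 ≤ A * γ₁ := by nlinarith
  -- closeness
  set X : ℝ := N ^ (2 * A * γ₁) with hX
  have hXN : N ≤ X := by
    calc N = N ^ (1 : ℝ) := (Real.rpow_one N).symm
      _ ≤ N ^ (2 * A * γ₁) := Real.rpow_le_rpow_of_exponent_le hN1 (by nlinarith)
  have hX0 : 0 < X := by linarith
  have hXX : X * X ≤ (κ * N) ^ (4 * A * γ₁) := by
    calc X * X = N ^ (4 * A * γ₁) := by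
          rw [hX, ← Real.rpow_add hN0]
          congr 1
          ring
      _ ≤ (κ * N) ^ (4 * A * γ₁) :=
          Real.rpow_le_rpow hN0.le hN₁N (by nlinarith)
  set δ : ℝ := Real.exp (-((κ * N) ^ (4 * A * γ₁))) with hδ
  have hδ0 : 0 ≤ δ := (Real.exp_pos _).le
  have hδN' : δ ≤ Real.exp (-N) := by
    rw [hδ]
    apply Real.exp_le_exp.mpr
    have : N ≤ X * X := by nlinarith
    linarith
  have hδ1 : δ ≤ 1 := by
    refine hδN'.trans ?_
    rw [Real.exp_le_one_iff]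
    linarith
  have hr := fun i => hroot i δ hδ0 (hδN'.trans (hδN i)) θ' hθ'
  choose a ha using fun i => (hr i).2
  have hau : ∀ i, ‖a i - u i‖ ≤ Real.exp (-X) := by
    intro i
    have h1 := (ha i).2
    have hC0 : 0 < Ci i := by linarith [hCi i]
    have hlogC : 0 ≤ Real.log (Ci i) := Real.log_nonneg (hCi i)
    have h2 : Ci i * δ ≤ Real.exp (-X) ^ J i := by
      calc Ci i * δ ≤ Real.exp (Real.log (Ci i)) * Real.exp (-(X * X)) := by
            rw [Real.exp_log hC0]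
            refine mul_le_mul_of_nonneg_left ?_ hC0.le
            rw [hδ]
            exact Real.exp_le_exp.mpr (by linarith)
        _ = Real.exp (Real.log (Ci i) - X * X) := by
            rw [← Real.exp_add]
            congr 1
        _ ≤ Real.exp ((J i : ℝ) * (-X)) := by
            apply Real.exp_le_exp.mpr
            have h3 : (p + Real.log (Ci i)) * X ≤ X * X :=
              mul_le_mul_of_nonneg_right ((hpN i).trans hXN) hX0.le
            have h4 : (J i : ℝ) * X ≤ p * X := mul_le_mul_of_nonneg_right (hJp i) hX0.le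
            have h5 : Real.log (Ci i) ≤ Real.log (Ci i) * X := by
              have : 1 ≤ X := by linarith
              nlinarith
            nlinarith
        _ = Real.exp (-X) ^ J i := by rw [← Real.exp_nat_mul]
    have h3 : ‖a i - u i‖ ^ J i ≤ Real.exp (-X) ^ J i := h1.trans h2
    have hJ0 : J i ≠ 0 := by have := hJ i; omega
    exact le_of_pow_le_pow_left₀ hJ0 (Real.exp_pos _).le h3
  have hexpX : Real.exp (-X) ≤ 1 := by
    rw [Real.exp_le_one_iff]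
    linarith
  have hθ'Θ : ∀ i, ‖θ' i‖ ≤ Θ := by
    intro i
    have h1 : ‖θ' i‖ ≤ ‖θ' i - θ i‖ + ‖θ i‖ := by
      have := norm_add_le (θ' i - θ i) (θ i)
      simpa using this
    have h2 := hθ' i
    have h3 := hθΘ i
    have h4 : ‖θ' i - θ i‖ ≤ 1 := h2.trans hδ1
    linarith
  have haΘ : ∀ i, ‖a i‖ ≤ Θ := by
    intro i
    have h1 : ‖a i‖ ≤ ‖a i - u i‖ + ‖u i‖ := by
      have := norm_add_le (a i - u i) (u i)
      simpa using this
    have h2 := (hau i).trans hexpX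
    have h3 := huΘ i
    linarith
  have hmany := gap_many hGap (Real.rpow_nonneg (by linarith) _) hΘ1 hθ'Θ haΘ hp1 J c hJ hJp
    (fun i => (hr i).1) (fun i => (ha i).1) hlen hdeg N hN1
    (by rw [Real.rpow_one])
  have hinr := hmany.rename (Sum.inr : ι → Fin t' ⊕ ι)
  have hcomp : (Sum.elim θ' a) ∘ (Sum.inr : ι → Fin t' ⊕ ι) = a := by
    funext i
    rfl
  rw [hcomp] at hinr
  refine ⟨2 * γ₁, by linarith, by linarith, a, fun i => ?_, ?_⟩
  · have : A * (2 * γ₁) = 2 * A * γ₁ := by ring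
    rw [this]
    exact hau i
  · refine hinr.mono le_rfl ?_
    rw [Real.rpow_one]
    have hNγ : N ≤ N ^ γ₁ := by
      calc N = N ^ (1 : ℝ) := (Real.rpow_one N).symm
        _ ≤ N ^ γ₁ := Real.rpow_le_rpow_of_exponent_le hN1 (by linarith)
    have hNγ0 : 0 < N ^ γ₁ := by linarith
    have h1 : (κ * N) ^ γ₁ ≤ κ ^ Γ₁ * N ^ γ₁ := by
      rw [Real.mul_rpow hκ0.le hN0.le]
      exact mul_le_mul_of_nonneg_right (Real.rpow_le_rpow_of_exponent_le hκ1 hγΓ) hNγ0.le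
    have h2 : (M : ℝ) * (6 * p ^ 2 * (κ * N) * (1 + Real.log Θ)) ≤
        M * (6 * p ^ 2 * κ * (1 + Real.log Θ)) * N ^ γ₁ := by
      have : (M : ℝ) * (6 * p ^ 2 * (κ * N) * (1 + Real.log Θ)) =
          M * (6 * p ^ 2 * κ * (1 + Real.log Θ)) * N := by ring
      rw [this]
      exact mul_le_mul_of_nonneg_left hNγ hB0
    calc (κ * N) ^ γ₁ + (Fintype.card ι : ℝ) * (6 * p ^ 2 * (κ * N) * (1 + Real.log Θ))
        ≤ κ ^ Γ₁ * N ^ γ₁ + M * (6 * p ^ 2 * κ * (1 + Real.log Θ)) * N ^ γ₁ := add_le_add h1 h2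
      _ = B * N ^ γ₁ := by rw [hB]; ring
      _ ≤ N ^ γ₁ * N ^ γ₁ := mul_le_mul_of_nonneg_right (hBN.trans hNγ) hNγ0.le
      _ = N ^ (2 * γ₁) := by
          rw [← Real.rpow_add hN0]
          congr 1
          ring

end LTD
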