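import Pool.Agent.LTD.Def

set_option autoImplicit false

namespace LTD

theorem CloR_trdeg (F : IntermediateField ℚ ℂ) (n : ℕ) (u : Fin n → ℂ) :
    Algebra.trdeg F (IntermediateField.adjoin F (Set.range u)) ≤ (n : Cardinal) := by
  set L := IntermediateField.adjoin F (Set.range u) with hL
  let u' : Fin n → L := fun i => ⟨u i, IntermediateField.subset_adjoin F _ ⟨i, rfl⟩⟩
  have hmem : ∀ r : ℂ, r ∈ Algebra.adjoin F (Set.range u) →
      ∃ r' ∈ Algebra.adjoin F (Set.range u'), (r' : ℂ) = r := by
    intro r hr
    have h1 : (Algebra.adjoin F (Set.range u')).map L.val = Algebra.adjoin F (Set.range u) := by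
      rw [AlgHom.map_adjoin]
      congr 1
      rw [← Set.range_comp]
      rfl
    rw [← h1] at hr
    obtain ⟨r', h2, h3⟩ := hr
    exact ⟨r', h2, h3⟩
  have halg : Algebra.IsAlgebraic (Algebra.adjoin F (Set.range u')) L := by
    constructor
    intro a
    obtain ⟨r, hr, s, hs, h⟩ := (IntermediateField.mem_adjoin_iff_div (F := F)
      (S := Set.range u) (x := (a : ℂ))).1 a.2
    obtain ⟨r', hr', rfl⟩ := hmem r hr
    obtain ⟨s', hs', rfl⟩ := hmem s hs
    have h1 : a = r' / s' := Subtype.ext h
    rw [h1, div_eq_mul_inv]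
    have h2 : IsAlgebraic (Algebra.adjoin F (Set.range u')) r' :=
      isAlgebraic_algebraMap (⟨r', hr'⟩ : Algebra.adjoin F (Set.range u'))
    have h3 : IsAlgebraic (Algebra.adjoin F (Set.range u')) s' :=
      isAlgebraic_algebraMap (⟨s', hs'⟩ : Algebra.adjoin F (Set.range u'))
    exact h2.mul h3.inv
  refine (Algebra.IsAlgebraic.trdeg_le_cardinalMk F (Set.range u')).trans ?_
  refine Cardinal.mk_range_le.trans ?_
  simp

/-- ROW CloR. `L = IntermediateField.adjoin F (range u)`, `F' = (algebraicClosure L ℂ).restrictScalars ℚ`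
(restrict first `L` to `ℚ`). `trdeg ℚ L = trdeg ℚ F + trdeg F L ≤ t + n` (`L` is algebraic over
`F(u_1..u_n)`, generated by `n` elements; see e.g. `Algebra.trdeg_le_cardinalMk`, or
`IsTranscendenceBasis`/matroid lemmas used in `Pool/Agent/MP_4aec10_nt/LW5.lean`,
`trdeg_add_eq`), and an algebraic extension does not change it. -/
theorem clo_adjoin (F : IntermediateField ℚ ℂ) (t n : ℕ) (hF : Algebra.trdeg ℚ F ≤ t)
    (u : Fin n → ℂ) : ∃ F' : IntermediateField ℚ ℂ, F ≤ F' ∧ Clo F' ∧
      Algebra.trdeg ℚ F' ≤ ((t + n : ℕ) : Cardinal) ∧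
      ∀ z : ℂ, z ∈ F' ↔ IsAlgebraic (IntermediateField.adjoin F (Set.range u)) z := by
  set L := IntermediateField.adjoin F (Set.range u) with hL
  let E : IntermediateField L ℂ := algebraicClosure L ℂ
  let F' : IntermediateField ℚ ℂ := E.restrictScalars ℚ
  have hmem : ∀ z : ℂ, z ∈ F' ↔ IsAlgebraic L z := fun z => mem_algebraicClosure_iff
  have h1 : Algebra.trdeg F L ≤ (n : Cardinal) := CloR_trdeg F n u
  have h2 : Algebra.trdeg ℚ F + Algebra.trdeg F L = Algebra.trdeg ℚ L := trdeg_add_eq ℚ F
  have h3 : Algebra.trdeg ℚ L + Algebra.trdeg L E = Algebra.trdeg ℚ E := trdeg_add_eq ℚ L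
  have h4 : Algebra.trdeg L E = 0 := trdeg_eq_zero
  have h5 : Algebra.trdeg ℚ F' = Algebra.trdeg ℚ E := rfl
  refine ⟨F', ?_, ?_, ?_, hmem⟩
  · intro z hz
    rw [hmem]
    exact isAlgebraic_algebraMap (algebraMap F L ⟨z, hz⟩)
  · intro z hz
    rw [hmem]
    have h6 : IsAlgebraic E z := hz
    exact h6.restrictScalars L
  · rw [h5, ← h3, h4, add_zero, ← h2]
    push_cast
    exact add_le_add hF h1

/-- Independence over a larger field implies independence over a smaller one
(`AlgebraicIndependent.restrictScalars`-type lemma with the inclusion `F → F'`, or directly: the evaluation map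
on `MvPolynomial F` factors through `MvPolynomial.map` of the injective inclusion). -/
theorem algInd_mono {F F' : IntermediateField ℚ ℂ} (h : F ≤ F') {ι : Type} (u : ι → ℂ)
    (hu : AlgebraicIndependent F' u) : AlgebraicIndependent F u := by
  let _ : Algebra F F' := (IntermediateField.inclusion h).toRingHom.toAlgebra
  have _ : IsScalarTower F F' ℂ := IsScalarTower.of_algebraMap_eq (fun _ => rfl)
  exact hu.restrictScalars (algebraMap F F').injective

/-- `AlgebraicIndependent` for `n + 1` elements: `u_0, ..., u_{n-1}` independent and `u_n` not algebraic over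
the field generated by them (`AlgebraicIndependent.option_iff_transcendental` or
`algebraicIndependent_insert`-type lemmas, `finSuccEquivLast`). -/
theorem algInd_snoc (F : IntermediateField ℚ ℂ) (n : ℕ) (u : Fin (n + 1) → ℂ)
    (h1 : AlgebraicIndependent F fun i : Fin n => u i.castSucc)
    (h2 : ¬ IsAlgebraic (IntermediateField.adjoin F (Set.range fun i : Fin n => u i.castSucc))
      (u (Fin.last n))) : AlgebraicIndependent F u := by
  have h3 : Transcendental (Algebra.adjoin F (Set.range fun i : Fin n => u i.castSucc))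
      (u (Fin.last n)) := by
    intro h
    let S : Set ℂ := Set.range fun i : Fin n => u i.castSucc
    let _ : Algebra (Algebra.adjoin F S) (IntermediateField.adjoin F S) :=
      (Subalgebra.inclusion (IntermediateField.algebra_adjoin_le_adjoin F S)).toRingHom.toAlgebra
    have _ : IsScalarTower (Algebra.adjoin F S) (IntermediateField.adjoin F S) ℂ :=
      IsScalarTower.of_algebraMap_eq (fun _ => rfl)
    have h6 : Function.Injective (algebraMap (Algebra.adjoin F S)
        (IntermediateField.adjoin F S)) :=
      Subalgebra.inclusion_injective (IntermediateField.algebra_adjoin_le_adjoin F S)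
    exact h2 (IsAlgebraic.extendScalars (R := Algebra.adjoin F S) h6 h)
  have h4 := (h1.option_iff_transcendental (u (Fin.last n))).2 h3
  have h5 := h4.comp finSuccEquivLast finSuccEquivLast.injective
  convert h5 using 1
  ext i
  refine Fin.lastCases ?_ (fun j => ?_) i
  · simp
  · simp

end LTD
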