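import Mathlib

set_option autoImplicit false

namespace LTD

open Module

/-- ROW Prod. `D = finrank K`, `c = D - finrank V < D/m`, so `(c+1) m ≤ D`. Let `x : Fin m → K` be linearly
independent (`m ≤ D`). `Y = {y : x_i y ∈ V for all i}` is the kernel of the linear map
`K → (Fin m → K ⧸ V)`, `y ↦ (x_i y mod V)_i`, whose target has dimension `m c`; so
`finrank Y ≥ D - m c ≥ m`; take `m` linearly independent elements of `Y`. -/
theorem exists_prod (K : Type) [Field K] [Algebra ℚ K] [FiniteDimensional ℚ K]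
    (V : Submodule ℚ K) (m : ℕ) (hm : 1 ≤ m)
    (h : finrank ℚ K < finrank ℚ V + finrank ℚ K / m) :
    ∃ x y : Fin m → K, LinearIndependent ℚ x ∧ LinearIndependent ℚ y ∧
      ∀ i j, x i * y j ∈ V := by
  have hV := Submodule.finrank_quotient_add_finrank V
  set c := finrank ℚ (K ⧸ V) with hc
  set v := finrank ℚ V with hv
  set D := finrank ℚ K with hD
  have h1 : c + 1 ≤ D / m := by omega
  have h2 : (c + 1) * m ≤ D := (Nat.le_div_iff_mul_le hm).1 h1
  have h2' : m * c + m ≤ D := by nlinarith
  have hmD : m ≤ D := by omega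
  obtain ⟨x, hx⟩ := (finrank_pos_iff_exists_ne_zero (R := ℚ) (M := K)).elim
    (fun _ _ => (exists_linearIndependent_of_le_finrank (R := ℚ) (M := K) (n := m) hmD))
  let f : K →ₗ[ℚ] (Fin m → K ⧸ V) :=
    LinearMap.pi fun i => V.mkQ ∘ₗ LinearMap.mulLeft ℚ (x i)
  have h3 := LinearMap.finrank_range_add_finrank_ker f
  have h4 : finrank ℚ (LinearMap.range f) ≤ m * c := by
    refine le_trans (Submodule.finrank_le _) ?_
    rw [Module.finrank_pi_fintype]
    simp [hc]
  have h5 : m ≤ finrank ℚ (LinearMap.ker f) := by omega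
  obtain ⟨y, hy⟩ := exists_linearIndependent_of_le_finrank (R := ℚ) (M := LinearMap.ker f) h5
  refine ⟨x, fun j => (y j : K), hx, ?_, ?_⟩
  · exact hy.map' (LinearMap.ker f).subtype (Submodule.ker_subtype _)
  · intro i j
    have h6 : f (y j) = 0 := (y j).2
    have h7 := congrFun h6 i
    have h8 : V.mkQ (x i * (y j : K)) = 0 := h7
    rwa [Submodule.mkQ_apply, Submodule.Quotient.mk_eq_zero] at h8

end LTD
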