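import Pool.Agent.LTD.Wk

set_option autoImplicit false

namespace LTD

/-- ROW SepL. `|z| ≥ e^{-c_z}` with `c_z ≥ 0`, and `∑ |l_i| ≥ 1` for `l ≠ 0`:
`|∑ l_i z w_i| ≥ |z| e^{-C|l|} ≥ e^{-(C + c_z)|l|}`. -/
theorem sep_smul {m : ℕ} (w : Fin m → ℂ) (z : ℂ) (hz : z ≠ 0) (h : Sep w) :
    Sep fun i => z * w i := by
  obtain ⟨C, hC, hw⟩ := h
  refine ⟨C + |Real.log ‖z‖|, by positivity, fun l hl => ?_⟩
  have h1 : (1 : ℝ) ≤ ∑ i, |((l i : ℤ) : ℝ)| := by
    obtain ⟨i, hi⟩ := Function.ne_iff.1 hl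
    have h2 : (1 : ℝ) ≤ |((l i : ℤ) : ℝ)| := by
      have h3 : (1 : ℤ) ≤ |l i| := Int.one_le_abs hi
      exact_mod_cast h3
    exact h2.trans (Finset.single_le_sum (f := fun i => |((l i : ℤ) : ℝ)|)
      (fun j _ => abs_nonneg _) (Finset.mem_univ i))
  have h2 := hw l hl
  have hzp : 0 < ‖z‖ := norm_pos_iff.2 hz
  have h3 : ∑ i, (l i : ℂ) * (z * w i) = z * ∑ i, (l i : ℂ) * w i := by
    rw [Finset.mul_sum]
    exact Finset.sum_congr rfl fun i _ => by ring
  rw [h3, norm_mul]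
  have h4 : Real.exp (-|Real.log ‖z‖|) ≤ ‖z‖ := by
    calc Real.exp (-|Real.log ‖z‖|) ≤ Real.exp (Real.log ‖z‖) :=
          Real.exp_le_exp.2 (neg_abs_le _)
      _ = ‖z‖ := Real.exp_log hzp
  calc Real.exp (-((C + |Real.log ‖z‖|) * ∑ i, |((l i : ℤ) : ℝ)|))
      ≤ Real.exp (-|Real.log ‖z‖| + -(C * ∑ i, |((l i : ℤ) : ℝ)|)) := by
        refine Real.exp_le_exp.2 ?_
        nlinarith [mul_le_mul_of_nonneg_left h1 (abs_nonneg (Real.log ‖z‖))]
    _ = Real.exp (-|Real.log ‖z‖|) * Real.exp (-(C * ∑ i, |((l i : ℤ) : ℝ)|)) :=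
        Real.exp_add _ _
    _ ≤ ‖z‖ * ‖∑ i, (l i : ℂ) * w i‖ :=
        mul_le_mul h4 h2 (Real.exp_pos _).le hzp.le

/-- `∑ l_i x^{e_i} = P(x)` with `P = ∑ l_i X^{e_i} ≠ 0`, degree `< K`, `∑_i |coeff i| = ∑ |l_i|` (injectivity
of `e`). Constant `max c 0`. -/
theorem sep_pow (x : ℂ) (K : ℕ) (h : Wk x K) (m : ℕ) (e : Fin m → ℕ) (he : Function.Injective e)
    (heK : ∀ i, e i < K) : Sep fun i => x ^ e i := by
  classical
  obtain ⟨c, hc⟩ := h
  refine ⟨max c 0, le_max_right _ _, fun l hl => ?_⟩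
  set P : Polynomial ℤ := ∑ i, Polynomial.monomial (e i) (l i) with hP
  have hcoef : ∀ k, P.coeff k = ∑ i, if e i = k then l i else 0 := by
    intro k
    rw [hP, Polynomial.finsetSum_coeff]
    exact Finset.sum_congr rfl fun i _ => Polynomial.coeff_monomial
  have hcoefe : ∀ i, P.coeff (e i) = l i := by
    intro i
    rw [hcoef, Finset.sum_eq_single i]
    · rw [if_pos rfl]
    · intro j _ hj
      exact if_neg fun h => hj (he h)
    · intro h
      exact absurd (Finset.mem_univ i) h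
  have hcoef0 : ∀ k, (∀ i, e i ≠ k) → P.coeff k = 0 := by
    intro k hk
    rw [hcoef]
    exact Finset.sum_eq_zero fun i _ => if_neg (hk i)
  have hP0 : P ≠ 0 := by
    obtain ⟨i, hi⟩ := Function.ne_iff.1 hl
    intro h0
    apply hi
    rw [← hcoefe i, h0]
    rfl
  have hdeg : P.natDegree < K := by
    by_contra hlt
    have h1 : P.coeff P.natDegree = 0 := hcoef0 _ fun i hi => by
      have := heK i
      omega
    exact hP0 (Polynomial.leadingCoeff_eq_zero.1 h1)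
  have hsum : ∑ k ∈ Finset.range K, |((P.coeff k : ℤ) : ℝ)| = ∑ i, |((l i : ℤ) : ℝ)| := by
    have h1 : ∑ k ∈ Finset.univ.image e, |((P.coeff k : ℤ) : ℝ)| =
        ∑ k ∈ Finset.range K, |((P.coeff k : ℤ) : ℝ)| := by
      refine Finset.sum_subset ?_ ?_
      · intro k hk
        obtain ⟨i, -, rfl⟩ := Finset.mem_image.1 hk
        exact Finset.mem_range.2 (heK i)
      · intro k _ hk
        rw [hcoef0 k fun i hi => hk (Finset.mem_image.2 ⟨i, Finset.mem_univ i, hi⟩)]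
        simp
    rw [← h1, Finset.sum_image fun i _ j _ hij => he hij]
    exact Finset.sum_congr rfl fun i _ => by rw [hcoefe]
  have heval : Polynomial.aeval x P = ∑ i, (l i : ℂ) * x ^ e i := by
    rw [hP, map_sum]
    refine Finset.sum_congr rfl fun i _ => ?_
    rw [Polynomial.aeval_monomial]
    simp
  have h1 := hc P hP0 hdeg
  rw [hsum, heval] at h1
  refine le_trans (Real.exp_le_exp.2 ?_) h1
  have h2 : 0 ≤ ∑ i, |((l i : ℤ) : ℝ)| := Finset.sum_nonneg fun i _ => abs_nonneg _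
  have h3 := mul_le_mul_of_nonneg_right (le_max_left c 0) h2
  linarith

/-- If the powers `x^0, ..., x^{K-1}` satisfy `Sep` then `Wk x K`. -/
theorem wk_of_sep (x : ℂ) (K : ℕ) (h : Sep fun i : Fin K => x ^ (i : ℕ)) : Wk x K := by
  obtain ⟨C, hC, hs⟩ := h
  refine ⟨C, fun P hP hdeg => ?_⟩
  have hl : (fun i : Fin K => P.coeff (i : ℕ)) ≠ 0 := by
    intro h0
    apply hP
    have h1 := congr_fun h0 ⟨P.natDegree, hdeg⟩
    exact Polynomial.leadingCoeff_eq_zero.1 h1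
  have h1 := hs _ hl
  rw [Polynomial.aeval_eq_sum_range' hdeg]
  rw [Finset.sum_range, Finset.sum_range]
  refine h1.trans (le_of_eq ?_)
  congr 1
  refine Finset.sum_congr rfl fun i _ => ?_
  simp

end LTD
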