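import Pool.Agent.LTD.Many
import Pool.Agent.LTD.SepL

set_option autoImplicit false

namespace LTD

open Finset in
/-- ROW SepA (Liouville). `σ = Empty`: `gap_empty` gives `Gap θ s 0` for every `s`. Each `w_i` is a root of
a nonzero integer polynomial `∑_{j ≤ J_i} c_ij Y^j`, `c_{i,J_i} ≠ 0`, `J_i ≥ 1`; use constant polynomials
`C c_ij`, some `p ≥ 1`, `Θ`, and `gap_many` with `q = max 1 ∑|l_i|`, `s = (4p²)^m q`: `Gap w q (c q)` after
`Gap.rename Sum.inr`, with `c` independent of `q`. The polynomial `∑ l_i X_i` has degree `≤ 1 ≤ q` and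
length `≤ ∑ |l_i| ≤ q ≤ e^q`; its value `∑ l_i w_i` is nonzero by linear independence (over `ℚ`, hence over
`ℤ`), so it is `≥ e^{-c q}`, and `q = ∑ |l_i|` as `l ≠ 0`. -/
theorem sep_alg {m : ℕ} (w : Fin m → ℂ) (hw : ∀ i, IsAlgebraic ℚ (w i))
    (hli : LinearIndependent ℚ w) : Sep w := by
  have h1 : ∀ i, ∃ P : Polynomial ℤ, P ≠ 0 ∧ Polynomial.aeval (w i) P = 0 := fun i =>
    (IsFractionRing.isAlgebraic_iff ℤ ℚ ℂ).mpr (hw i)
  choose P hP0 hP using h1
  have hJ : ∀ i, 1 ≤ (P i).natDegree := by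
    intro i
    by_contra h
    have h0 : (P i).natDegree = 0 := by omega
    obtain ⟨c, hc⟩ := Polynomial.natDegree_eq_zero.mp h0
    have h2 := hP i
    rw [← hc] at h2
    simp at h2
    apply hP0 i
    rw [← hc, h2, Polynomial.C_0]
  let θ : Empty → ℂ := fun e => e.elim
  let c : Fin m → ℕ → MvPolynomial Empty ℤ := fun i j => MvPolynomial.C ((P i).coeff j)
  set p : ℝ := 1 + ∑ i, (((P i).natDegree : ℝ) + ∑ j ∈ range ((P i).natDegree + 1),
    |(((P i).coeff j : ℤ) : ℝ)|) with hp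
  have hterm0 : ∀ i, 0 ≤ (((P i).natDegree : ℝ) + ∑ j ∈ range ((P i).natDegree + 1),
    |(((P i).coeff j : ℤ) : ℝ)|) := by
    intro i
    have : 0 ≤ ∑ j ∈ range ((P i).natDegree + 1), |(((P i).coeff j : ℤ) : ℝ)| :=
      Finset.sum_nonneg fun j _ => abs_nonneg _
    positivity
  have hterm : ∀ i, (((P i).natDegree : ℝ) + ∑ j ∈ range ((P i).natDegree + 1),
    |(((P i).coeff j : ℤ) : ℝ)|) ≤ p - 1 := by
    intro i
    have := Finset.single_le_sum (fun j _ => hterm0 j) (Finset.mem_univ i)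
    rw [hp]
    linarith
  have hp1 : 1 ≤ p := by
    have : 0 ≤ ∑ i, (((P i).natDegree : ℝ) + ∑ j ∈ range ((P i).natDegree + 1),
      |(((P i).coeff j : ℤ) : ℝ)|) := Finset.sum_nonneg fun j _ => hterm0 j
    rw [hp]
    linarith
  set Θ : ℝ := 1 + ∑ i, ‖w i‖ with hΘ
  have hΘ1 : 1 ≤ Θ := by
    have : 0 ≤ ∑ i, ‖w i‖ := Finset.sum_nonneg fun j _ => norm_nonneg _
    rw [hΘ]
    linarith
  have hwΘ : ∀ i, ‖w i‖ ≤ Θ := by
    intro i
    have := Finset.single_le_sum (f := fun i => ‖w i‖) (fun j _ => norm_nonneg (w j))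
      (Finset.mem_univ i)
    rw [hΘ]
    linarith
  have hlog : 0 ≤ Real.log Θ := Real.log_nonneg hΘ1
  refine ⟨(m : ℝ) * (6 * p ^ 2 * (4 * p ^ 2) ^ m * (1 + Real.log Θ)), by positivity, ?_⟩
  intro l hl
  set q : ℝ := ∑ i, |((l i : ℤ) : ℝ)| with hq
  have hq1 : 1 ≤ q := by
    obtain ⟨i, hi⟩ := Function.ne_iff.mp hl
    have h3 : (1 : ℝ) ≤ |((l i : ℤ) : ℝ)| := by
      have : (1 : ℤ) ≤ |l i| := Int.one_le_abs hi
      exact_mod_cast this
    have := Finset.single_le_sum (f := fun i => |((l i : ℤ) : ℝ)|) (fun j _ => abs_nonneg _)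
      (Finset.mem_univ i)
    rw [hq]
    linarith
  have hev : ∀ i j, ev θ (c i j) = (((P i).coeff j : ℤ) : ℂ) := by
    intro i j
    simp [ev, c]
  have hgap := gap_many (σ := Empty) (τ := Fin m) (θ := θ) (a := w) (Θ := Θ)
    (s := (4 * p ^ 2) ^ (Fintype.card (Fin m)) * q) (g := 0) (p := p)
    (gap_empty θ _ _ le_rfl) le_rfl hΘ1 (fun i => i.elim) hwΘ hp1
    (fun i => (P i).natDegree) c hJ
    (fun i => by
      have h4 : 0 ≤ ∑ j ∈ range ((P i).natDegree + 1), |(((P i).coeff j : ℤ) : ℝ)| :=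
        Finset.sum_nonneg fun j _ => abs_nonneg _
      have := hterm i
      linarith)
    (fun i => by
      rw [hev]
      have : (P i).leadingCoeff ≠ 0 := Polynomial.leadingCoeff_ne_zero.mpr (hP0 i)
      exact_mod_cast this)
    (fun i => by
      have h5 := hP i
      rw [Polynomial.aeval_eq_sum_range] at h5
      rw [← h5]
      refine Finset.sum_congr rfl fun j _ => ?_
      rw [hev]
      simp)
    (fun i => by
      have h6 : ∑ j ∈ range ((P i).natDegree + 1), len (c i j) =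
        ∑ j ∈ range ((P i).natDegree + 1), |(((P i).coeff j : ℤ) : ℝ)| :=
        Finset.sum_congr rfl fun j _ => len_C _
      rw [h6]
      have h7 := hterm i
      have h8 : (0 : ℝ) ≤ ((P i).natDegree : ℝ) := Nat.cast_nonneg _
      have h9 := Real.add_one_le_exp p
      linarith)
    (fun i j _ => by
      have : (c i j).totalDegree = 0 := MvPolynomial.totalDegree_C _
      rw [this]
      simp
      linarith)
    q hq1 le_rfl
  have hgap2 := hgap.rename (Sum.inr : Fin m → Empty ⊕ Fin m)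
  have hcomp : (Sum.elim θ w) ∘ (Sum.inr : Fin m → Empty ⊕ Fin m) = w := by
    funext i; rfl
  rw [hcomp] at hgap2
  let Q : MvPolynomial (Fin m) ℤ := ∑ i, MvPolynomial.C (l i) * MvPolynomial.X i
  have hQ1 : ev w Q = ∑ i, (l i : ℂ) * w i := by
    have hC : ∀ a : ℤ, ev w (MvPolynomial.C a) = (a : ℂ) := fun a => by
      rw [ev, MvPolynomial.coe_eval₂Hom, MvPolynomial.eval₂_C, eq_intCast]
    have hX : ∀ i, ev w (MvPolynomial.X i) = w i := fun i => by
      rw [ev, MvPolynomial.coe_eval₂Hom, MvPolynomial.eval₂_X]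
    simp only [Q, map_sum, map_mul, hC, hX]
  have hQlen : len Q ≤ q := by
    refine le_trans (len_sum _ _) ?_
    rw [hq]
    refine Finset.sum_le_sum fun i _ => ?_
    refine le_trans (len_mul _ _) ?_
    rw [len_C, len_X, mul_one]
  have hQdeg : (Q.totalDegree : ℝ) ≤ q := by
    refine le_trans ?_ hq1
    have : Q.totalDegree ≤ 1 := by
      refine le_trans (MvPolynomial.totalDegree_finsetSum _ _) ?_
      refine Finset.sup_le fun i _ => ?_
      refine le_trans (MvPolynomial.totalDegree_mul _ _) ?_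
      rw [MvPolynomial.totalDegree_C, MvPolynomial.totalDegree_X]
    exact_mod_cast this
  have hSz : Sz Q q := ⟨hQdeg, le_trans hQlen (by have := Real.add_one_le_exp q; linarith)⟩
  rcases hgap2 Q hSz with h0 | h0
  · exfalso
    rw [hQ1] at h0
    apply hl
    have h10 := Fintype.linearIndependent_iff.mp hli (fun i => (l i : ℚ)) (by
      rw [← h0]
      refine Finset.sum_congr rfl fun i _ => ?_
      rw [Algebra.smul_def]
      simp)
    funext i
    have := h10 i
    simpa using this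
  · rw [hQ1] at h0
    refine le_trans (le_of_eq ?_) h0
    congr 1
    rw [Fintype.card_fin]
    ring

/-- The powers `x^0, ..., x^{K-1}` are linearly independent if `K ≤ deg x` (`linearIndependent_pow`). -/
theorem wk_alg (x : ℂ) (K : ℕ) (hx : IsAlgebraic ℚ x) (hK : K ≤ (minpoly ℚ x).natDegree) :
    Wk x K := by
  apply wk_of_sep
  apply sep_alg
  · intro i
    exact hx.pow _
  · have h := linearIndependent_pow (K := ℚ) x
    exact h.comp (Fin.castLE hK) (Fin.castLE_injective hK)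

end LTD
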