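import Pool.Agent.LTD.Ltd
import Pool.Agent.LTD.SepA
import Pool.Agent.LTD.Prod

set_option autoImplicit false

namespace LTD

open Module

theorem NFs_smul (F : IntermediateField ℚ ℂ) (hcl : Clo F) (c : ℚ) (v : ℂ)
    (h : Complex.exp v ∈ F) : Complex.exp ((c : ℂ) * v) ∈ F := by
  apply hcl
  have h3 : Complex.exp ((c : ℂ) * v) ^ c.den = Complex.exp v ^ c.num := by
    rw [← Complex.exp_nat_mul, ← Complex.exp_int_mul]
    congr 1
    rw [← mul_assoc]
    congr 1
    have := Rat.den_mul_eq_num c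
    exact_mod_cast congrArg (fun x : ℚ => (x : ℂ)) this
  have h4 : Complex.exp ((c : ℂ) * v) ^ c.den ∈ F := by
    rw [h3]
    exact zpow_mem h c.num
  refine IsAlgebraic.of_pow c.den_pos ?_
  exact isAlgebraic_algebraMap (⟨_, h4⟩ : F)

/-- ROW NFs. `m` from `ltd t`. `V = {g ∈ K : e^{zg} ∈ F}` is a `ℚ`-subspace: sums are clear; for
`q = a/b`, `(e^{z q g})^b = (e^{zg})^a ∈ F`, so `e^{zqg}` is algebraic over `F` and lies in `F` by `Clo F` (see
`exp_span_subset` in `Pool/Agent/MP_4aec10_nt/LW5.lean` for the same computation). If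
`finrank K < finrank V + finrank K / m`, `exists_prod` gives `x, y : Fin m → K`; as complex numbers they are
algebraic and linearly independent, so `Sep x` and `Sep (z y)` (`sep_alg`, `sep_smul`), and
`e^{x_i (z y_j)} = e^{z (x_i y_j)} ∈ F` for all `i, j`, contradicting `ltd`. -/
theorem nf_sub (t : ℕ) : ∃ m : ℕ, 1 ≤ m ∧ ∀ F : IntermediateField ℚ ℂ,
    Algebra.trdeg ℚ F ≤ (t : Cardinal) → Clo F → ∀ z : ℂ, z ≠ 0 →
      ∀ (K : IntermediateField ℚ ℂ) [FiniteDimensional ℚ K], ∃ V : Submodule ℚ K,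
        (∀ g : K, g ∈ V ↔ Complex.exp (z * (g : ℂ)) ∈ F) ∧
        finrank ℚ V + finrank ℚ K / m ≤ finrank ℚ K := by
  obtain ⟨m, hm, hltd⟩ := ltd t
  refine ⟨m, hm, fun F hF hcl z hz K _ => ?_⟩
  let V : Submodule ℚ K :=
    { carrier := {g : K | Complex.exp (z * (g : ℂ)) ∈ F}
      zero_mem' := by
        show Complex.exp (z * ((0 : K) : ℂ)) ∈ F
        rw [ZeroMemClass.coe_zero, mul_zero, Complex.exp_zero]
        exact one_mem F
      add_mem' := by
        intro a b ha hb
        show Complex.exp (z * ((a + b : K) : ℂ)) ∈ F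
        rw [AddMemClass.coe_add, mul_add, Complex.exp_add]
        exact mul_mem ha hb
      smul_mem' := by
        intro c a ha
        show Complex.exp (z * ((c • a : K) : ℂ)) ∈ F
        have h1 : z * ((c • a : K) : ℂ) = (c : ℂ) * (z * (a : ℂ)) := by
          rw [IntermediateField.coe_smul, Rat.smul_def]
          ring
        rw [h1]
        exact NFs_smul F hcl c _ ha }
  refine ⟨V, fun g => Iff.rfl, ?_⟩
  by_contra hcon
  push Not at hcon
  obtain ⟨x, y, hx, hy, hxy⟩ := exists_prod K V m hm hcon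
  have halg : ∀ g : K, IsAlgebraic ℚ (g : ℂ) := fun g =>
    (Algebra.IsAlgebraic.isAlgebraic (R := ℚ) g).algebraMap
  have hli : ∀ u : Fin m → K, LinearIndependent ℚ u → LinearIndependent ℚ fun i => (u i : ℂ) := by
    intro u hu
    exact hu.map' K.val.toLinearMap (LinearMap.ker_eq_bot.2 K.val.injective)
  have h1 : Sep fun i => ((x i : K) : ℂ) := sep_alg _ (fun i => halg _) (hli x hx)
  have h2 : Sep fun i => z * ((y i : K) : ℂ) := sep_smul _ z hz (sep_alg _ (fun i => halg _) (hli y hy))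
  obtain ⟨i, j, hij⟩ := hltd F hF _ _ h1 h2
  apply hij
  have h3 : ((x i : K) : ℂ) * (z * ((y j : K) : ℂ)) = z * ((x i * y j : K) : ℂ) := by
    rw [MulMemClass.coe_mul]
    ring
  rw [h3]
  exact hxy i j

end LTD
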