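import Mathlib

set_option autoImplicit false

namespace LTD

open Module

/-- ROW Box. There is a set `J` of `finrank V` coordinates such that the projection `V → ℚ^J` is injective:
the restrictions to `V` of the coordinate functionals span the dual of `V` (their common kernel is `0`), so some
of them form a basis of it (`exists_linearIndependent`-type lemmas, `LinearIndependent.extend`, or a maximal
linearly independent subfamily); or by induction on `D`. An integer point `a ∈ V`, `|a_j| ≤ H`, is determined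
by `(a_j)_{j ∈ J}`, for which there are `(2H+1)^{finrank V}` possibilities. -/
theorem box_sub (D H : ℕ) (V : Submodule ℚ (Fin D → ℚ)) :
    Set.ncard {a : Fin D → ℤ | (∀ j, |a j| ≤ (H : ℤ)) ∧ (fun j => ((a j : ℤ) : ℚ)) ∈ V} ≤
      (2 * H + 1) ^ finrank ℚ V := by
  classical
  let φ : Fin D → Dual ℚ V := fun j => (LinearMap.proj j : (Fin D → ℚ) →ₗ[ℚ] ℚ) ∘ₗ V.subtype
  obtain ⟨κ, a, ha, hsp, hli⟩ := exists_linearIndependent' ℚ φ
  have : Finite κ := Finite.of_injective a ha
  have : Fintype κ := Fintype.ofFinite κ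
  have hcard : Fintype.card κ ≤ finrank ℚ V := by
    have h := hli.fintype_card_le_finrank
    rwa [Subspace.dual_finrank_eq] at h
  have hinj : ∀ d : V, (∀ k, (d : Fin D → ℚ) (a k) = 0) → d = 0 := by
    intro d hd
    have h1 : ∀ ψ ∈ Submodule.span ℚ (Set.range (φ ∘ a)), ψ d = 0 := by
      intro ψ hψ
      refine Submodule.span_induction (p := fun ψ _ => ψ d = 0) ?_ ?_ ?_ ?_ hψ
      · rintro _ ⟨k, rfl⟩
        exact hd k
      · rfl
      · intro x y _ _ hx hy
        rw [LinearMap.add_apply, hx, hy, add_zero]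
      · intro c x _ hx
        rw [LinearMap.smul_apply, hx, smul_zero]
    apply Subtype.ext
    funext j
    have h2 : φ j ∈ Submodule.span ℚ (Set.range (φ ∘ a)) := by
      rw [hsp]
      exact Submodule.subset_span ⟨j, rfl⟩
    exact h1 _ h2
  let T : Finset (κ → ℤ) := Fintype.piFinset fun _ : κ => Finset.Icc (-(H : ℤ)) H
  have hT : T.card = (2 * H + 1) ^ Fintype.card κ := by
    rw [Fintype.card_piFinset]
    simp only [Int.card_Icc, Finset.prod_const, Finset.card_univ]
    congr 1
    omega
  have hle : Set.ncard {b : Fin D → ℤ | (∀ j, |b j| ≤ (H : ℤ)) ∧ (fun j => ((b j : ℤ) : ℚ)) ∈ V} ≤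
      (T : Set (κ → ℤ)).ncard := by
    apply Set.ncard_le_ncard_of_injOn (fun b k => b (a k))
    · rintro b ⟨hb, -⟩
      simp only [T, Finset.mem_coe, Fintype.mem_piFinset, Finset.mem_Icc]
      exact fun k => abs_le.1 (hb (a k))
    · rintro b ⟨-, hb⟩ c ⟨-, hc⟩ hbc
      have h1 := hinj (⟨_, hb⟩ - ⟨_, hc⟩) (fun k => by
        have h2 : b (a k) = c (a k) := congrFun hbc k
        show ((b (a k) : ℤ) : ℚ) - ((c (a k) : ℤ) : ℚ) = 0
        rw [h2, sub_self])
      funext j
      have h3 : ((b j : ℤ) : ℚ) - ((c j : ℤ) : ℚ) = 0 :=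
        congrFun (congrArg (Subtype.val) h1) j
      have h4 : ((b j : ℤ) : ℚ) = ((c j : ℤ) : ℚ) := sub_eq_zero.1 h3
      exact_mod_cast h4
  rw [Set.ncard_coe_finset, hT] at hle
  exact le_trans hle (Nat.pow_le_pow_right (by omega) hcard)

end LTD
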