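import Pool.Agent.LTD.CloR

set_option autoImplicit false

namespace LTD

/-- ROW CntD. Induction on `n` (for all `t, F`). `n = 0`: the empty family is algebraically independent, the
set is empty. `n + 1`: identify `Fin (n+1) → E` with `(Fin n → E) × E` (`Fin.snocEquiv`/`Fin.init`, `Fin.last`). By
`algInd_snoc` a dependent tuple in `X^{n+1}` either has a dependent initial part (at most
`n |X|^{n-1} B · |X|` of them; `n = 0`: none), or its last entry `k` satisfies `f k ∈ F'`, `F'` from `clo_adjoin F t n`
for the initial part, of transcendence degree `≤ t + n ≤ T` (at most `|X|^n B` of them). Sum: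
`(n+1) |X|^n B`. -/
theorem count_dep {E : Type} (X : Set E) (hX : X.Finite) (f : E → ℂ) (T B : ℕ)
    (hB : ∀ F : IntermediateField ℚ ℂ, Algebra.trdeg ℚ F ≤ (T : Cardinal) → Clo F →
      Set.ncard {k : E | k ∈ X ∧ f k ∈ F} ≤ B) :
    ∀ (n t : ℕ) (F : IntermediateField ℚ ℂ), Algebra.trdeg ℚ F ≤ (t : Cardinal) → t + n ≤ T + 1 →
      Set.ncard {k : Fin n → E | (∀ i, k i ∈ X) ∧ ¬ AlgebraicIndependent F fun i => f (k i)} ≤
        n * X.ncard ^ (n - 1) * B := by
  classical
  intro n
  induction n with
  | zero =>
    intro t F _ _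
    have : {k : Fin 0 → E | (∀ i, k i ∈ X) ∧ ¬ AlgebraicIndependent F fun i => f (k i)} = ∅ := by
      ext k
      simp only [Set.mem_ofPred_eq, Set.mem_empty_iff_false, iff_false, not_and, not_not]
      intro _
      rw [algebraicIndependent_empty_type_iff]
      exact (algebraMap F ℂ).injective
    rw [this]
    simp
  | succ n ih =>
    intro t F hF htn
    have hfin : ∀ j : ℕ, {k : Fin j → E | ∀ i, k i ∈ X}.Finite := fun j => by
      have := Set.Finite.pi' (fun _ : Fin j => hX)
      exact this
    have hSn : {k : Fin n → E | (∀ i, k i ∈ X) ∧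
        ¬ AlgebraicIndependent F fun i => f (k i)}.Finite :=
      (hfin n).subset fun k hk => hk.1
    have hF' : ∀ k : Fin n → E, ∃ F' : IntermediateField ℚ ℂ, F ≤ F' ∧ Clo F' ∧
      Algebra.trdeg ℚ F' ≤ ((t + n : ℕ) : Cardinal) ∧
      ∀ z : ℂ, z ∈ F' ↔ IsAlgebraic (IntermediateField.adjoin F
        (Set.range fun i => f (k i))) z := fun k => clo_adjoin F t n hF _
    choose F' _ hClo htr hmem using hF'
    -- the image set
    let φ : (Fin (n + 1) → E) → (Fin n → E) × E := fun k => (fun i => k i.castSucc, k (Fin.last n))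
    have hφ : Function.Injective φ := by
      intro k k' h
      have h1 : (fun i : Fin n => k i.castSucc) = fun i => k' i.castSucc := congrArg Prod.fst h
      have h2 : k (Fin.last n) = k' (Fin.last n) := congrArg Prod.snd h
      funext i
      refine Fin.lastCases h2 (fun j => ?_) i
      exact congrFun h1 j
    let A : Set ((Fin n → E) × E) := {k : Fin n → E | (∀ i, k i ∈ X) ∧
        ¬ AlgebraicIndependent F fun i => f (k i)} ×ˢ X
    let V : Set ((Fin n → E) × E) := {p | (∀ i, p.1 i ∈ X) ∧ p.2 ∈ X ∧ f p.2 ∈ F' p.1}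
    have hV : V.Finite := by
      refine ((hfin n).prod hX).subset fun p hp => ?_
      exact ⟨hp.1, hp.2.1⟩
    have hA : A.Finite := hSn.prod hX
    have hsub : φ '' {k : Fin (n + 1) → E | (∀ i, k i ∈ X) ∧
        ¬ AlgebraicIndependent F fun i => f (k i)} ⊆ A ∪ V := by
      rintro _ ⟨k, ⟨hk1, hk2⟩, rfl⟩
      by_cases h : AlgebraicIndependent F fun i : Fin n => f (k i.castSucc)
      · right
        refine ⟨fun i => hk1 _, hk1 _, ?_⟩
        show f (k (Fin.last n)) ∈ F' fun i => k i.castSucc
        rw [hmem]
        by_contra h3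
        exact hk2 (algInd_snoc F n (fun i => f (k i)) h h3)
      · left
        exact ⟨⟨fun i => hk1 _, h⟩, hk1 _⟩
    have hVcard : V.ncard ≤ B * X.ncard ^ n := by
      rw [Set.ncard_eq_toFinset_card V hV]
      have h5 : ∀ b ∈ Fintype.piFinset (fun _ : Fin n => hX.toFinset),
          (hV.toFinset.filter (fun p => p.1 = b)).card ≤ B := by
        intro b hb
        have h6 := hB (F' b) ((htr b).trans (by
          have : t + n ≤ T := by omega
          exact_mod_cast this)) (hClo b)
        refine le_trans ?_ h6
        have hfinb : {k : E | k ∈ X ∧ f k ∈ F' b}.Finite := hX.subset fun k hk => hk.1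
        rw [Set.ncard_eq_toFinset_card _ hfinb]
        refine Finset.card_le_card_of_injOn Prod.snd ?_ ?_
        · intro p hp
          simp only [Finset.coe_filter, Set.Finite.mem_toFinset, Set.mem_ofPred_eq] at hp
          simp only [Set.Finite.coe_toFinset, Set.mem_ofPred_eq]
          obtain ⟨hp1, hp2⟩ := hp
          refine ⟨hp1.2.1, ?_⟩
          rw [← hp2]
          exact hp1.2.2
        · intro p hp p' hp' h
          simp only [Finset.coe_filter, Set.Finite.mem_toFinset, Set.mem_ofPred_eq] at hp hp'
          exact Prod.ext (hp.2.trans hp'.2.symm) h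
      have h7 := Finset.card_le_mul_card_image_of_maps_to (f := Prod.fst) (s := hV.toFinset)
        (t := Fintype.piFinset (fun _ : Fin n => hX.toFinset)) (by
          intro p hp
          simp only [Set.Finite.mem_toFinset] at hp
          rw [Fintype.mem_piFinset]
          intro i
          rw [Set.Finite.mem_toFinset]
          exact hp.1 i) B h5
      refine h7.trans ?_
      rw [Fintype.card_piFinset_const, Set.ncard_eq_toFinset_card X hX]
    have hAcard : A.ncard ≤ n * X.ncard ^ (n - 1) * B * X.ncard := by
      rw [Set.ncard_prod]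
      exact Nat.mul_le_mul_right _ (ih t F hF (by omega))
    calc Set.ncard {k : Fin (n + 1) → E | (∀ i, k i ∈ X) ∧
          ¬ AlgebraicIndependent F fun i => f (k i)}
        = (φ '' {k : Fin (n + 1) → E | (∀ i, k i ∈ X) ∧
          ¬ AlgebraicIndependent F fun i => f (k i)}).ncard :=
          (Set.ncard_image_of_injective _ hφ).symm
      _ ≤ (A ∪ V).ncard := Set.ncard_le_ncard hsub (hA.union hV)
      _ ≤ A.ncard + V.ncard := Set.ncard_union_le _ _
      _ ≤ n * X.ncard ^ (n - 1) * B * X.ncard + B * X.ncard ^ n := Nat.add_le_add hAcard hVcard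
      _ = (n + 1) * X.ncard ^ (n + 1 - 1) * B := by
          rcases n with _ | n
          · simp
          · simp only [Nat.add_sub_cancel]
            ring

end LTD
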