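import Pool.Agent.LTD.NFs
import Pool.Agent.LTD.Box
import Pool.Agent.LTD.CntD

set_option autoImplicit false

namespace LTD

open Module

theorem NFf_box (D H : ℕ) : ({a : Fin D → ℤ | ∀ j, |a j| ≤ (H : ℤ)}).Finite ∧
    ({a : Fin D → ℤ | ∀ j, |a j| ≤ (H : ℤ)}).ncard = (2 * H + 1) ^ D := by
  have h : {a : Fin D → ℤ | ∀ j, |a j| ≤ (H : ℤ)} =
      ((Fintype.piFinset fun _ : Fin D => Finset.Icc (-(H : ℤ)) H : Finset (Fin D → ℤ)) :
        Set (Fin D → ℤ)) := by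
    ext a
    simp [abs_le, Pi.le_def, forall_and]
  rw [h]
  refine ⟨Finset.finite_toSet _, ?_⟩
  rw [Set.ncard_coe_finset, Fintype.card_piFinset]
  simp only [Int.card_Icc, Finset.prod_const, Finset.card_univ, Fintype.card_fin]
  congr 1
  omega

/-- ROW NFf (R2). `m` from `nf_sub (t + n)`; `count_dep` with `E = Fin D → ℤ`, `X` = the box
`{a : ∀ j, |a j| ≤ H}` (`ncard = (2H+1)^D`), `f a = e^{z ∑ a_j w_j}`, `T = t + n`, `B = (2H+1)^{D - D/m}`:
for closed `F` of transcendence degree `≤ T`, `f a ∈ F` iff `∑ a_j w_j ∈ V`, i.e. `(a_j)` lies in the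
preimage `V'` of `V` under `(Fin D → ℚ) ≃ K` given by the basis `w` (`Basis.equivFun`), `finrank V' =
finrank V ≤ D - D/m` (`D = finrank K`), and `box_sub`. Result: `n ((2H+1)^D)^{n-1} (2H+1)^{D-D/m} =
n (2H+1)^{nD - D/m}` (`n ≥ 1`; `n = 0` trivial). -/
theorem nf_final (n t : ℕ) : ∃ m : ℕ, 1 ≤ m ∧ ∀ F : IntermediateField ℚ ℂ,
    Algebra.trdeg ℚ F ≤ (t : Cardinal) → ∀ z : ℂ, z ≠ 0 →
      ∀ (K : IntermediateField ℚ ℂ) (D : ℕ) (w : Basis (Fin D) ℚ K) (H : ℕ),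
        Set.ncard {a : Fin n → Fin D → ℤ | (∀ i j, |a i j| ≤ (H : ℤ)) ∧
          ¬ AlgebraicIndependent F fun i =>
            Complex.exp (z * ∑ j, ((a i j : ℤ) : ℂ) * (w j : ℂ))} ≤
          n * (2 * H + 1) ^ (n * D - D / m) := by
  obtain ⟨m, hm, h⟩ := nf_sub (t + n)
  refine ⟨m, hm, fun F hF z hz K D w H => ?_⟩
  have : FiniteDimensional ℚ K := Module.Finite.of_basis w
  have hD : finrank ℚ K = D := by
    rw [finrank_eq_card_basis w, Fintype.card_fin]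
  obtain ⟨hXf, hXc⟩ := NFf_box D H
  have hB : ∀ F' : IntermediateField ℚ ℂ, Algebra.trdeg ℚ F' ≤ ((t + n : ℕ) : Cardinal) →
      Clo F' → Set.ncard {a : Fin D → ℤ | a ∈ {a : Fin D → ℤ | ∀ j, |a j| ≤ (H : ℤ)} ∧
        Complex.exp (z * ∑ j, ((a j : ℤ) : ℂ) * (w j : ℂ)) ∈ F'} ≤ (2 * H + 1) ^ (D - D / m) := by
    intro F' hF' hcl
    obtain ⟨V, hV, hVd⟩ := h F' hF' hcl z hz K
    set V' : Submodule ℚ (Fin D → ℚ) := V.comap (w.equivFun.symm : (Fin D → ℚ) →ₗ[ℚ] K) with hV'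
    have hfin : finrank ℚ V' = finrank ℚ V := by
      have h1 : V' = V.map (w.equivFun : K →ₗ[ℚ] (Fin D → ℚ)) := by
        rw [hV']
        exact (Submodule.map_equiv_eq_comap_symm w.equivFun V).symm
      rw [h1]
      exact LinearEquiv.finrank_map_eq w.equivFun V
    have hle := box_sub D H V'
    rw [hfin] at hle
    have hexp : finrank ℚ V ≤ D - D / m := by
      rw [hD] at hVd
      omega
    have hset : {a : Fin D → ℤ | a ∈ {a : Fin D → ℤ | ∀ j, |a j| ≤ (H : ℤ)} ∧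
        Complex.exp (z * ∑ j, ((a j : ℤ) : ℂ) * (w j : ℂ)) ∈ F'} =
        {a : Fin D → ℤ | (∀ j, |a j| ≤ (H : ℤ)) ∧ (fun j => ((a j : ℤ) : ℚ)) ∈ V'} := by
      ext a
      have h2 : ((w.equivFun.symm fun j => ((a j : ℤ) : ℚ) : K) : ℂ) =
          ∑ j, ((a j : ℤ) : ℂ) * (w j : ℂ) := by
        rw [Basis.equivFun_symm_apply]
        push_cast
        refine Finset.sum_congr rfl fun j _ => ?_
        rw [Rat.smul_def]
        push_cast
        rfl
      constructor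
      · rintro ⟨h3, h4⟩
        refine ⟨h3, ?_⟩
        show w.equivFun.symm (fun j => ((a j : ℤ) : ℚ)) ∈ V
        rw [hV, h2]
        exact h4
      · rintro ⟨h3, h4⟩
        refine ⟨h3, ?_⟩
        have h5 : w.equivFun.symm (fun j => ((a j : ℤ) : ℚ)) ∈ V := h4
        rw [hV, h2] at h5
        exact h5
    rw [hset]
    exact le_trans hle (Nat.pow_le_pow_right (by omega) hexp)
  have hmain := count_dep {a : Fin D → ℤ | ∀ j, |a j| ≤ (H : ℤ)} hXf
    (fun a => Complex.exp (z * ∑ j, ((a j : ℤ) : ℂ) * (w j : ℂ))) (t + n)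
    ((2 * H + 1) ^ (D - D / m)) hB n t F hF (by omega)
  rw [hXc] at hmain
  refine le_trans hmain (le_of_eq ?_)
  rcases Nat.eq_zero_or_pos n with hn | hn
  · subst hn
    simp
  rw [mul_assoc]
  congr 1
  rw [← pow_mul, ← pow_add]
  congr 1
  have h6 : D / m ≤ D := Nat.div_le_self D m
  obtain ⟨n', rfl⟩ : ∃ n', n = n' + 1 := ⟨n - 1, by omega⟩
  have h7 : (n' + 1) * D = n' * D + D := by ring
  have h8 : D * (n' + 1 - 1) = n' * D := by
    rw [Nat.add_sub_cancel]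
    ring
  rw [h7, h8]
  omega

end LTD
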