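import Pool.Agent.LTD.Def

set_option autoImplicit false

namespace LTD

open MvPolynomial

variable {σ : Type}

/-- ROW Len. All these are elementary facts on the `l^1`-norm `len` of the coefficients of an integer
polynomial. `len_eq_sum`: coefficients outside the support are `0`. `len_add`: both sums over the union
of the supports (`support_add`, `abs_add_le`). `len_mul`: `coeff (P*Q) m = ∑_{(a,b) ∈ antidiagonal m}
coeff a P * coeff b Q`; cleanest: `P * Q = ∑_{a ∈ P.support} ∑_{b ∈ Q.support} monomial (a+b) (coeff a P *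
coeff b Q)` and `len_sum`, `len (monomial m c) = |c|`. -/
theorem len_nonneg (P : MvPolynomial σ ℤ) : 0 ≤ len P := by
  exact Finset.sum_nonneg fun m _ => abs_nonneg _


theorem len_eq_sum (P : MvPolynomial σ ℤ) (S : Finset (σ →₀ ℕ)) (h : P.support ⊆ S) :
    len P = ∑ m ∈ S, |((P.coeff m : ℤ) : ℝ)| := by
  refine Finset.sum_subset h fun m _ hm => ?_
  rw [notMem_support_iff.1 hm, Int.cast_zero, abs_zero]


theorem len_zero : len (0 : MvPolynomial σ ℤ) = 0 := by
  simp [len]


theorem len_monomial (m : σ →₀ ℕ) (c : ℤ) : len (monomial m c) = |(c : ℝ)| := by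
  classical
  rw [len_eq_sum _ {m} support_monomial_subset, Finset.sum_singleton, coeff_monomial, if_pos rfl]


theorem len_C (c : ℤ) : len (C c : MvPolynomial σ ℤ) = |(c : ℝ)| := by
  exact len_monomial 0 c


theorem len_one : len (1 : MvPolynomial σ ℤ) = 1 := by
  have h := len_C (σ := σ) 1
  rw [map_one] at h
  rw [h, Int.cast_one, abs_one]


theorem len_X (i : σ) : len (X i : MvPolynomial σ ℤ) = 1 := by
  have h := len_monomial (Finsupp.single i 1) 1
  rw [Int.cast_one, abs_one] at h
  exact h


theorem len_neg (P : MvPolynomial σ ℤ) : len (-P) = len P := by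
  unfold len
  rw [support_neg]
  refine Finset.sum_congr rfl fun m _ => ?_
  rw [coeff_neg, Int.cast_neg, abs_neg]


theorem len_add (P Q : MvPolynomial σ ℤ) : len (P + Q) ≤ len P + len Q := by
  classical
  rw [len_eq_sum (P + Q) (P.support ∪ Q.support) support_add,
    len_eq_sum P (P.support ∪ Q.support) Finset.subset_union_left,
    len_eq_sum Q (P.support ∪ Q.support) Finset.subset_union_right, ← Finset.sum_add_distrib]
  refine Finset.sum_le_sum fun m _ => ?_
  rw [coeff_add, Int.cast_add]
  exact abs_add_le _ _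


theorem len_sum {ι : Type} (s : Finset ι) (f : ι → MvPolynomial σ ℤ) :
    len (∑ i ∈ s, f i) ≤ ∑ i ∈ s, len (f i) := by
  classical
  induction s using Finset.induction_on with
  | empty => rw [Finset.sum_empty, Finset.sum_empty, len_zero]
  | insert a s ha ih =>
    rw [Finset.sum_insert ha, Finset.sum_insert ha]
    exact (len_add _ _).trans (add_le_add le_rfl ih)


theorem len_mul (P Q : MvPolynomial σ ℤ) : len (P * Q) ≤ len P * len Q := by
  have h1 : P * Q = ∑ a ∈ P.support, ∑ b ∈ Q.support, monomial (a + b) (P.coeff a * Q.coeff b) := by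
    conv_lhs => rw [P.as_sum, Q.as_sum]
    rw [Finset.sum_mul_sum]
    refine Finset.sum_congr rfl fun a _ => Finset.sum_congr rfl fun b _ => ?_
    rw [monomial_mul]
  rw [h1]
  refine (len_sum _ _).trans ?_
  unfold len
  rw [Finset.sum_mul_sum]
  refine Finset.sum_le_sum fun a _ => ?_
  refine (len_sum _ _).trans (le_of_eq ?_)
  refine Finset.sum_congr rfl fun b _ => ?_
  rw [len_monomial, Int.cast_mul, abs_mul]


theorem len_pow (P : MvPolynomial σ ℤ) (n : ℕ) : len (P ^ n) ≤ len P ^ n := by
  induction n with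
  | zero => rw [pow_zero, pow_zero, len_one]
  | succ n ih =>
    rw [pow_succ, pow_succ]
    exact (len_mul _ _).trans (mul_le_mul_of_nonneg_right ih (len_nonneg P))


theorem len_prod {ι : Type} (s : Finset ι) (f : ι → MvPolynomial σ ℤ) :
    len (∏ i ∈ s, f i) ≤ ∏ i ∈ s, len (f i) := by
  classical
  induction s using Finset.induction_on with
  | empty => rw [Finset.prod_empty, Finset.prod_empty, len_one]
  | insert a s ha ih =>
    rw [Finset.prod_insert ha, Finset.prod_insert ha]
    exact (len_mul _ _).trans (mul_le_mul_of_nonneg_left ih (len_nonneg _))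


theorem one_le_len {P : MvPolynomial σ ℤ} (h : P ≠ 0) : 1 ≤ len P := by
  obtain ⟨m, hm⟩ := support_nonempty.2 h
  have h1 : (1 : ℝ) ≤ |((P.coeff m : ℤ) : ℝ)| := by
    have h2 : (1 : ℤ) ≤ |P.coeff m| := Int.one_le_abs (mem_support_iff.1 hm)
    have h3 : ((1 : ℤ) : ℝ) ≤ ((|P.coeff m| : ℤ) : ℝ) := Int.cast_le.2 h2
    rwa [Int.cast_one, Int.cast_abs] at h3
  exact h1.trans (Finset.single_le_sum (f := fun m => |((P.coeff m : ℤ) : ℝ)|)
    (fun m _ => abs_nonneg _) hm)


end LTD
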