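import Pool.Agent.LTD.Len

set_option autoImplicit false

namespace LTD

open MvPolynomial

variable {σ : Type}

/-- evaluation as a sum -/
theorem Ev_sum (θ : σ → ℂ) (P : MvPolynomial σ ℤ) :
    ev θ P = ∑ α ∈ P.support, ((P.coeff α : ℤ) : ℂ) * ∏ i ∈ α.support, θ i ^ α i := by
  unfold ev
  rw [coe_eval₂Hom, eval₂_eq]
  rfl

/-- a bound for a monomial -/
theorem Ev_mon (θ : σ → ℂ) (Θ : ℝ) (hθ : ∀ i, ‖θ i‖ ≤ Θ) (α : σ →₀ ℕ) (S : Finset σ) :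
    ‖∏ i ∈ S, θ i ^ α i‖ ≤ Θ ^ (∑ i ∈ S, α i) := by
  rw [norm_prod, ← Finset.prod_pow_eq_pow_sum]
  refine Finset.prod_le_prod (fun i _ => norm_nonneg _) fun i _ => ?_
  rw [norm_pow]
  exact pow_le_pow_left₀ (norm_nonneg _) (hθ i) _

/-- the difference of two powers -/
theorem Ev_pow (a b : ℂ) (Θ ε : ℝ) (hΘ : 1 ≤ Θ) (hε : 0 ≤ ε) (ha : ‖a‖ ≤ Θ) (hb : ‖b‖ ≤ Θ)
    (h : ‖a - b‖ ≤ ε) (n : ℕ) : ‖a ^ n - b ^ n‖ ≤ n * Θ ^ n * ε := by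
  have hΘ0 : 0 ≤ Θ := zero_le_one.trans hΘ
  induction n with
  | zero => simp
  | succ n ih =>
    have h1 : a ^ (n + 1) - b ^ (n + 1) = (a ^ n - b ^ n) * a + b ^ n * (a - b) := by ring
    rw [h1]
    refine (norm_add_le _ _).trans ?_
    rw [norm_mul, norm_mul, norm_pow]
    have h2 : ‖a ^ n - b ^ n‖ * ‖a‖ ≤ (n * Θ ^ n * ε) * Θ :=
      mul_le_mul ih ha (norm_nonneg _) (by positivity)
    have h3 : ‖b‖ ^ n * ‖a - b‖ ≤ Θ ^ (n + 1) * ε := by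
      refine mul_le_mul ?_ h (norm_nonneg _) (by positivity)
      exact (pow_le_pow_left₀ (norm_nonneg _) hb n).trans
        (pow_le_pow_right₀ hΘ (Nat.le_succ n))
    calc _ ≤ (n * Θ ^ n * ε) * Θ + Θ ^ (n + 1) * ε := add_le_add h2 h3
      _ = ((n + 1 : ℕ) : ℝ) * Θ ^ (n + 1) * ε := by push_cast; ring

/-- the difference of two monomials -/
theorem Ev_dif (θ θ' : σ → ℂ) (Θ ε : ℝ) (hΘ : 1 ≤ Θ) (hε : 0 ≤ ε) (hθ : ∀ i, ‖θ i‖ ≤ Θ)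
    (hθ' : ∀ i, ‖θ' i‖ ≤ Θ) (h : ∀ i, ‖θ' i - θ i‖ ≤ ε) (α : σ →₀ ℕ) (S : Finset σ) :
    ‖∏ i ∈ S, θ' i ^ α i - ∏ i ∈ S, θ i ^ α i‖ ≤
      ((∑ i ∈ S, α i : ℕ) : ℝ) * Θ ^ (∑ i ∈ S, α i) * ε := by
  classical
  have hΘ0 : 0 ≤ Θ := zero_le_one.trans hΘ
  induction S using Finset.induction_on with
  | empty => simp
  | insert j S hj ih =>
    rw [Finset.prod_insert hj, Finset.prod_insert hj, Finset.sum_insert hj]
    have h1 : θ' j ^ α j * ∏ i ∈ S, θ' i ^ α i - θ j ^ α j * ∏ i ∈ S, θ i ^ α i =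
        θ' j ^ α j * (∏ i ∈ S, θ' i ^ α i - ∏ i ∈ S, θ i ^ α i) +
        (θ' j ^ α j - θ j ^ α j) * ∏ i ∈ S, θ i ^ α i := by ring
    rw [h1]
    refine (norm_add_le _ _).trans ?_
    rw [norm_mul, norm_mul, norm_pow]
    have h2 : ‖θ' j‖ ^ α j * ‖∏ i ∈ S, θ' i ^ α i - ∏ i ∈ S, θ i ^ α i‖ ≤
        Θ ^ α j * (((∑ i ∈ S, α i : ℕ) : ℝ) * Θ ^ (∑ i ∈ S, α i) * ε) :=
      mul_le_mul (pow_le_pow_left₀ (norm_nonneg _) (hθ' j) _) ih (norm_nonneg _) (by positivity)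
    have h3 : ‖θ' j ^ α j - θ j ^ α j‖ * ‖∏ i ∈ S, θ i ^ α i‖ ≤
        ((α j : ℕ) * Θ ^ α j * ε) * Θ ^ (∑ i ∈ S, α i) :=
      mul_le_mul (Ev_pow _ _ Θ ε hΘ hε (hθ' j) (hθ j) (h j) _) (Ev_mon θ Θ hθ α S)
        (norm_nonneg _) (by positivity)
    refine (add_le_add h2 h3).trans (le_of_eq ?_)
    rw [pow_add]
    push_cast
    ring

/-- ROW Ev. `ev θ P = ∑_{α ∈ P.support} coeff α P * ∏_{i ∈ α.support} θ_i ^ α_i`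
(`MvPolynomial.eval₂_eq`), and `∏ ‖θ_i‖^{α_i} ≤ Θ^{|α|} ≤ Θ^{totalDegree P}` (`le_totalDegree`). -/
theorem norm_ev_le (θ : σ → ℂ) (Θ : ℝ) (hΘ : 1 ≤ Θ) (hθ : ∀ i, ‖θ i‖ ≤ Θ) (P : MvPolynomial σ ℤ) :
    ‖ev θ P‖ ≤ len P * Θ ^ P.totalDegree := by
  rw [Ev_sum, len, Finset.sum_mul]
  refine (norm_sum_le _ _).trans (Finset.sum_le_sum fun α hα => ?_)
  rw [norm_mul, Complex.norm_intCast]
  refine mul_le_mul_of_nonneg_left ?_ (abs_nonneg _)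
  refine (Ev_mon θ Θ hθ α α.support).trans (pow_le_pow_right₀ hΘ ?_)
  exact le_totalDegree hα


/-- For a monomial of degree `d = |α| ≥ 1`: `|θ'^α - θ^α| ≤ d Θ^{d-1} ε` (telescope: induction on the
monomial, `|ab - a'b'| ≤ |a||b-b'| + |b'||a-a'|`), `≤ d Θ^d ε`; sum over the support. -/
theorem norm_ev_sub_le (θ θ' : σ → ℂ) (Θ ε : ℝ) (hΘ : 1 ≤ Θ) (hε : 0 ≤ ε) (hθ : ∀ i, ‖θ i‖ ≤ Θ)
    (hθ' : ∀ i, ‖θ' i‖ ≤ Θ) (h : ∀ i, ‖θ' i - θ i‖ ≤ ε) (P : MvPolynomial σ ℤ) :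
    ‖ev θ' P - ev θ P‖ ≤ len P * P.totalDegree * Θ ^ P.totalDegree * ε := by
  have hΘ0 : 0 ≤ Θ := zero_le_one.trans hΘ
  have h0 : len P * P.totalDegree * Θ ^ P.totalDegree * ε =
      len P * (P.totalDegree * Θ ^ P.totalDegree * ε) := by ring
  rw [Ev_sum, Ev_sum, ← Finset.sum_sub_distrib, h0, len, Finset.sum_mul]
  refine (norm_sum_le _ _).trans (Finset.sum_le_sum fun α hα => ?_)
  rw [← mul_sub, norm_mul, Complex.norm_intCast]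
  refine mul_le_mul_of_nonneg_left ?_ (abs_nonneg _)
  refine (Ev_dif θ θ' Θ ε hΘ hε hθ hθ' h α α.support).trans ?_
  have h1 : ∑ i ∈ α.support, α i ≤ P.totalDegree := le_totalDegree hα
  have h2 : ((∑ i ∈ α.support, α i : ℕ) : ℝ) ≤ (P.totalDegree : ℝ) := by exact_mod_cast h1
  refine mul_le_mul_of_nonneg_right ?_ hε
  exact mul_le_mul h2 (pow_le_pow_right₀ hΘ h1) (by positivity) (by positivity)


end LTD
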