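import Mathlib

set_option autoImplicit false

namespace LTD

open Finset

/-- ROW Dir (L1), Dirichlet's box principle (`M = card μ`, `L = card Λ`). Consider
`q : Λ → {0, ..., H}` (`(H+1)^L` of them) and the linear forms `S_j(q) = ∑_l q_l c_{jl}`; real and imaginary
parts lie in `[-LHQ, LHQ]`. Map `q` to `(⌊Re S_j/(ε/2)⌋, ⌊Im S_j/(ε/2)⌋)_j`: each integer takes at most
`4LHQ/ε + 2` values, so there are at most `(4LHQ/ε + 2)^{2M} < (H+1)^L` images; two distinct `q, q'` have the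
same image and `p = q - q'` has `p ≠ 0`, `|p_l| ≤ H`, `|Re|, |Im| < ε/2`, so `|∑_l p_l c_{jl}| < ε`. The
hypothesis is given in logarithmic form. -/
theorem dirichlet {μ Λ : Type} [Fintype μ] [Fintype Λ] (c : μ → Λ → ℂ) (Q ε : ℝ) (H : ℕ)
    (hQ : 0 ≤ Q) (hε : 0 < ε) (hc : ∀ j l, ‖c j l‖ ≤ Q)
    (h : 2 * (Fintype.card μ : ℝ) *
        Real.log (4 * (Fintype.card Λ : ℝ) * H * Q / ε + 2) <
      (Fintype.card Λ : ℝ) * Real.log (H + 1)) :
    ∃ p : Λ → ℤ, p ≠ 0 ∧ (∀ l, |((p l : ℤ) : ℝ)| ≤ H) ∧ ∀ j, ‖∑ l, (p l : ℂ) * c j l‖ < ε := by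
  classical
  set L : ℝ := (Fintype.card Λ : ℝ) with hL
  have hL0 : 0 ≤ L := Nat.cast_nonneg _
  have hH0 : (0 : ℝ) ≤ H := Nat.cast_nonneg _
  set A : ℝ := 2 * L * H * Q / ε with hA
  have hA0 : 0 ≤ A := by positivity
  have hAe : 4 * L * H * Q / ε + 2 = 2 * A + 2 := by rw [hA]; ring
  rw [hAe] at h
  set S : (Λ → Fin (H + 1)) → μ → ℂ := fun q j => ∑ l, ((q l : ℕ) : ℂ) * c j l with hS
  have hSb : ∀ q j, ‖S q j‖ ≤ L * H * Q := by
    intro q j
    refine (norm_sum_le _ _).trans ?_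
    have h1 : ∀ l ∈ (univ : Finset Λ), ‖((q l : ℕ) : ℂ) * c j l‖ ≤ H * Q := by
      intro l _
      rw [norm_mul, Complex.norm_natCast]
      have h2 : ((q l : ℕ) : ℝ) ≤ H := by exact_mod_cast Nat.lt_succ_iff.1 (q l).2
      exact mul_le_mul h2 (hc j l) (norm_nonneg _) hH0
    refine (Finset.sum_le_sum h1).trans (le_of_eq ?_)
    rw [Finset.sum_const, Finset.card_univ, nsmul_eq_mul]
    ring
  set f : (Λ → Fin (H + 1)) → (μ × Bool → ℤ) := fun q jb =>
    if jb.2 then ⌊(S q jb.1).re / (ε / 2)⌋ else ⌊(S q jb.1).im / (ε / 2)⌋ with hf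
  set t : Finset (μ × Bool → ℤ) := Fintype.piFinset (fun _ => Finset.Icc ⌊-A⌋ ⌊A⌋) with ht
  have hfloor : ∀ x : ℝ, |x| ≤ L * H * Q → ⌊x / (ε / 2)⌋ ∈ Finset.Icc ⌊-A⌋ ⌊A⌋ := by
    intro x hx
    have h1 : L * H * Q / (ε / 2) = A := by rw [hA]; field_simp
    rw [Finset.mem_Icc]
    constructor
    · apply Int.floor_mono
      rw [← h1, ← neg_div]
      exact div_le_div_of_nonneg_right (neg_le_of_abs_le hx) (by positivity)
    · apply Int.floor_mono
      rw [← h1]
      exact div_le_div_of_nonneg_right (le_of_abs_le hx) (by positivity)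
  have hmaps : ∀ q ∈ (univ : Finset (Λ → Fin (H + 1))), f q ∈ t := by
    intro q _
    rw [ht, Fintype.mem_piFinset]
    intro jb
    simp only [hf]
    split_ifs
    · exact hfloor _ ((Complex.abs_re_le_norm _).trans (hSb q _))
    · exact hfloor _ ((Complex.abs_im_le_norm _).trans (hSb q _))
  have hcard : t.card < (univ : Finset (Λ → Fin (H + 1))).card := by
    rw [ht, Fintype.card_piFinset, Finset.prod_const, Finset.card_univ, Finset.card_univ,
      Fintype.card_fun, Fintype.card_fin, Fintype.card_prod, Fintype.card_bool, Int.card_Icc]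
    have h1 : (((⌊A⌋ + 1 - ⌊-A⌋).toNat : ℕ) : ℝ) ≤ 2 * A + 2 := by
      have h2 : (0 : ℤ) ≤ ⌊A⌋ + 1 - ⌊-A⌋ := by
        have := Int.floor_mono (show -A ≤ A by linarith)
        omega
      have h3 : (((⌊A⌋ + 1 - ⌊-A⌋).toNat : ℕ) : ℝ) = ((⌊A⌋ + 1 - ⌊-A⌋ : ℤ) : ℝ) := by
        exact_mod_cast congrArg (fun z : ℤ => (z : ℝ)) (Int.toNat_of_nonneg h2)
      rw [h3]
      push_cast
      have h4 := Int.floor_le A
      have h5 := Int.lt_floor_add_one (-A)
      linarith
    have h6 : ((2 * A + 2) ^ (Fintype.card μ * 2) : ℝ) < ((H + 1 : ℕ) : ℝ) ^ (Fintype.card Λ) := by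
      have h7 : 0 < 2 * A + 2 := by linarith
      rw [← Real.log_lt_log_iff (by positivity) (by positivity), Real.log_pow, Real.log_pow]
      push_cast
      calc (Fintype.card μ : ℝ) * 2 * Real.log (2 * A + 2) =
          2 * (Fintype.card μ : ℝ) * Real.log (2 * A + 2) := by ring
        _ < _ := h
    have h8 : ((((⌊A⌋ + 1 - ⌊-A⌋).toNat) ^ (Fintype.card μ * 2) : ℕ) : ℝ) <
        (((H + 1) ^ (Fintype.card Λ) : ℕ) : ℝ) := by
      push_cast
      refine lt_of_le_of_lt (pow_le_pow_left₀ (Nat.cast_nonneg _) h1 _) ?_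
      have := h6
      push_cast at this
      exact this
    exact_mod_cast h8
  obtain ⟨q, _, q', _, hne, heq⟩ := Finset.exists_ne_map_eq_of_card_lt_of_maps_to hcard hmaps
  refine ⟨fun l => ((q l : ℕ) : ℤ) - ((q' l : ℕ) : ℤ), ?_, ?_, ?_⟩
  · intro h0
    apply hne
    funext l
    have h1 := congrFun h0 l
    simp only [Pi.zero_apply] at h1
    exact Fin.ext (by omega)
  · intro l
    have h1 := (q l).2
    have h2 := (q' l).2
    have h3 : |((q l : ℕ) : ℤ) - ((q' l : ℕ) : ℤ)| ≤ (H : ℤ) := by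
      rw [abs_le]
      constructor <;> omega
    have h4 : ((|((q l : ℕ) : ℤ) - ((q' l : ℕ) : ℤ)| : ℤ) : ℝ) ≤ ((H : ℤ) : ℝ) := by exact_mod_cast h3
    rw [Int.cast_abs] at h4
    exact_mod_cast h4
  · intro j
    have h1 : ∑ l, (((((q l : ℕ) : ℤ) - ((q' l : ℕ) : ℤ) : ℤ)) : ℂ) * c j l = S q j - S q' j := by
      simp only [hS]
      rw [← Finset.sum_sub_distrib]
      refine Finset.sum_congr rfl fun l _ => ?_
      push_cast
      ring
    rw [h1]
    have hε2 : 0 < ε / 2 := by positivity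
    have key : ∀ x y : ℝ, ⌊x / (ε / 2)⌋ = ⌊y / (ε / 2)⌋ → |x - y| < ε / 2 := by
      intro x y hxy
      have h2 := Int.abs_sub_lt_one_of_floor_eq_floor hxy
      rw [← sub_div, abs_div, abs_of_pos hε2, div_lt_one hε2] at h2
      exact h2
    have h3 := congrFun heq (j, true)
    have h4 := congrFun heq (j, false)
    simp only [hf, if_true] at h3
    simp only [hf, Bool.false_eq_true, if_false] at h4
    have h5 := key _ _ h3
    have h6 := key _ _ h4
    have h7 := Complex.norm_le_abs_re_add_abs_im (S q j - S q' j)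
    rw [Complex.sub_re, Complex.sub_im] at h7
    linarith

end LTD
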