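import Mathlib

set_option autoImplicit false

/-! Definitions for the large transcendence degree theorem. -/

namespace LTD

/-- The sum of the absolute values of the coefficients. -/
noncomputable def len {σ : Type} (P : MvPolynomial σ ℤ) : ℝ :=
  ∑ m ∈ P.support, |((P.coeff m : ℤ) : ℝ)|

/-- `P` has total degree at most `s` and length at most `e^s`. -/
def Sz {σ : Type} (P : MvPolynomial σ ℤ) (s : ℝ) : Prop :=
  (P.totalDegree : ℝ) ≤ s ∧ len P ≤ Real.exp s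

/-- Evaluation at a complex point. -/
noncomputable def ev {σ : Type} (θ : σ → ℂ) : MvPolynomial σ ℤ →+* ℂ :=
  MvPolynomial.eval₂Hom (Int.castRingHom ℂ) θ

/-- Every integer polynomial of size at most `s` vanishes at `θ` or is at least `e^{-g}` there. -/
def Gap {σ : Type} (θ : σ → ℂ) (s g : ℝ) : Prop :=
  ∀ P : MvPolynomial σ ℤ, Sz P s → ev θ P = 0 ∨ Real.exp (-g) ≤ ‖ev θ P‖

/-- The point `θ` with one more coordinate `a`. -/
def ext {σ : Type} (θ : σ → ℂ) (a : ℂ) : Option σ → ℂ := fun o => o.elim a θ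

/-- Integer linear combinations of the `x i` are not exponentially small. -/
def Sep {m : ℕ} (x : Fin m → ℂ) : Prop :=
  ∃ C : ℝ, 0 ≤ C ∧ ∀ l : Fin m → ℤ, l ≠ 0 →
    Real.exp (-(C * ∑ i, |((l i : ℤ) : ℝ)|)) ≤ ‖∑ i, (l i : ℂ) * x i‖

/-- The auxiliary polynomial `∑_l p_l ∏_{i,j} X_{ij}^{l_i μ_j}`, `l` in `[0,D)^m`. -/
noncomputable def Phi (m D : ℕ) (p : (Fin m → Fin D) → ℤ) (μ : Fin m → ℕ) :
    MvPolynomial (Fin m × Fin m) ℤ :=
  ∑ l : Fin m → Fin D, MvPolynomial.C (p l) *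
    ∏ i : Fin m, ∏ j : Fin m, MvPolynomial.X (i, j) ^ ((l i : ℕ) * μ j)

/-- The point `(e^{x_i y_j})`. -/
noncomputable def pt {m : ℕ} (x y : Fin m → ℂ) : Fin m × Fin m → ℂ :=
  fun k => Complex.exp (x k.1 * y k.2)

/-- The auxiliary function `∑_l p_l e^{(l·x) w}`. -/
noncomputable def Fp (m D : ℕ) (p : (Fin m → Fin D) → ℤ) (x : Fin m → ℂ) (w : ℂ) : ℂ :=
  ∑ l : Fin m → Fin D, (p l : ℂ) * Complex.exp ((∑ i, ((l i : ℕ) : ℂ) * x i) * w)

/-- The error term `D^m H · 4m²D² · U^{4m²D²} · e^{-V}`. -/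
noncomputable def eps (m D H : ℕ) (U V : ℝ) : ℝ :=
  (D : ℝ) ^ m * H * (4 * m ^ 2 * D ^ 2) * U ^ (4 * m ^ 2 * D ^ 2) * Real.exp (-V)

/-- Relative algebraic closedness in `ℂ`. -/
def Clo (F : IntermediateField ℚ ℂ) : Prop := ∀ z : ℂ, IsAlgebraic F z → z ∈ F

end LTD
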