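import Pool.Agent.MP_4aec10_nt.LW10
import Pool.Agent.MP_4aec10_nt.Defs2
import Pool.Agent.LTD.Def

set_option autoImplicit false

namespace LTD

open Pool.Agent.MP_4aec10_nt

/-- The field `F(r, e^r)`, `F` the algebraic closure of `ℚ(2πi)`. -/
noncomputable def FFr {κ : Type} (r : κ → ℂ) : IntermediateField ℚ ℂ :=
  (IntermediateField.adjoin FF (comps r)).restrictScalars ℚ

theorem IneqE_card {k : ℕ} (r : Fin k → ℂ) (S : Set ℂ) (hS : S ⊆ comps r) :
    Cardinal.mk S ≤ ((2 * k : ℕ) : Cardinal) := by
  have h1 : Cardinal.mk (Set.range r) ≤ (k : Cardinal) := by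
    have := Cardinal.mk_range_le (f := r)
    simpa using this
  have h2 : Cardinal.mk (Set.range fun i => Complex.exp (r i)) ≤ (k : Cardinal) := by
    have := Cardinal.mk_range_le (f := fun i => Complex.exp (r i))
    simpa using this
  calc Cardinal.mk S ≤ Cardinal.mk (comps r) := Cardinal.mk_le_mk_of_subset hS
    _ ≤ Cardinal.mk (Set.range r) + Cardinal.mk (Set.range fun i => Complex.exp (r i)) :=
        Cardinal.mk_union_le _ _
    _ ≤ (k : Cardinal) + k := add_le_add h1 h2
    _ = ((2 * k : ℕ) : Cardinal) := by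
        push_cast
        ring

/-- ROW IneqE. `trdeg ℚ FF ≤ 1` (`trdeg_FF`-type lemma in LW6/LW7) and `2 k` generators. -/
theorem trdeg_FFr (k : ℕ) (r : Fin k → ℂ) :
    Algebra.trdeg ℚ (FFr r) ≤ ((1 + 2 * k : ℕ) : Cardinal) := by
  obtain ⟨S, hST, hS, hcard⟩ := exists_indep_subset FF (comps r)
  have h1 : Algebra.trdeg ℚ FF + Algebra.trdeg FF (IntermediateField.adjoin FF (comps r)) =
      Algebra.trdeg ℚ (IntermediateField.adjoin FF (comps r)) := trdeg_add_eq ℚ FF
  have h2 : Algebra.trdeg ℚ (FFr r) =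
      Algebra.trdeg ℚ (IntermediateField.adjoin FF (comps r)) := rfl
  rw [h2, ← h1]
  push_cast
  have h3 := trdeg_FF
  rw [Nat.cast_one] at h3
  have h4 := hcard.trans (IneqE_card r S hST)
  push_cast at h4
  exact add_le_add h3 h4

theorem IneqE_indep {n : ℕ} (r : Fin n → ℂ)
    (h : AlgebraicIndependent FF fun i => Complex.exp (r i)) : Indep r := by
  classical
  intro a ha
  by_contra hne
  set c : FF := ⟨Complex.exp (lin a r), alg_FF ha⟩ with hc
  let p : Fin n →₀ ℕ := Finsupp.equivFunOnFinite.symm fun i => (a i).toNat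
  let q : Fin n →₀ ℕ := Finsupp.equivFunOnFinite.symm fun i => (-(a i)).toNat
  have hpq : p ≠ q := by
    intro hpq
    apply hne
    funext i
    have h1 : (a i).toNat = (-(a i)).toNat := DFunLike.congr_fun hpq i
    show a i = 0
    omega
  have h0 : MvPolynomial.aeval (fun i => Complex.exp (r i))
      (MvPolynomial.monomial p (1 : FF)) = MvPolynomial.aeval (fun i => Complex.exp (r i))
      (MvPolynomial.monomial q c) := by
    rw [MvPolynomial.aeval_monomial, MvPolynomial.aeval_monomial]
    have e1 : (p.prod fun i k => Complex.exp (r i) ^ k) =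
        ∏ i, Complex.exp (r i) ^ (a i).toNat := by
      rw [Finsupp.prod_fintype _ _ (fun i => pow_zero _)]
      rfl
    have e2 : (q.prod fun i k => Complex.exp (r i) ^ k) =
        ∏ i, Complex.exp (r i) ^ (-(a i)).toNat := by
      rw [Finsupp.prod_fintype _ _ (fun i => pow_zero _)]
      rfl
    have e3 : algebraMap FF ℂ c = ∏ i, Complex.exp (r i) ^ a i := by
      show Complex.exp (lin a r) = _
      rw [exp_lin]
    rw [e1, e2, e3, map_one, one_mul, ← Finset.prod_mul_distrib]
    refine Finset.prod_congr rfl fun i _ => ?_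
    rw [← zpow_natCast, ← zpow_natCast, ← zpow_add₀ (Complex.exp_ne_zero _)]
    congr 1
    omega
  have h1 : MvPolynomial.monomial p (1 : FF) = MvPolynomial.monomial q c := h h0
  have h2 := congrArg (MvPolynomial.coeff p) h1
  rw [MvPolynomial.coeff_monomial, MvPolynomial.coeff_monomial, if_pos rfl,
    if_neg (Ne.symm hpq)] at h2
  exact one_ne_zero h2

theorem IneqE_dd {n : ℕ} (r : Fin n → ℂ) : dd (fun i => Complex.exp (r i)) ≤ n := by
  have h := dd_le r Finset.univ (fun i hi => absurd (Finset.mem_univ i) hi)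
  simpa using h

/-- If `e^{r_1}, ..., e^{r_n}` are algebraically independent over `FF` then `d(e^r) = n` (`card_le_dd`:
`Indep r` because an algebraic `e^{lin a r} = ∏ (e^{r_i})^{a_i}` is an algebraic relation over `ℚ̄ ⊂ FF`;
`dd_le` with `univ`) and the inequality of Q1 holds at `r`. -/
theorem ineq_of_indep (n : ℕ) (r : Fin n → ℂ)
    (h : AlgebraicIndependent FF fun i => Complex.exp (r i)) :
    dd (fun i => Complex.exp (r i)) = n ∧ Ineq r := by
  have h1 := card_le_dd (IneqE_indep r h)
  rw [Fintype.card_fin] at h1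
  have h2 := IneqE_dd r
  refine ⟨le_antisymm h2 h1, ?_⟩
  have hmem : ∀ i, Complex.exp (r i) ∈ IntermediateField.adjoin FF
      (Set.range r ∪ Set.range fun i => Complex.exp (r i)) := fun i =>
    IntermediateField.subset_adjoin FF _ (Or.inr ⟨i, rfl⟩)
  have h3 : AlgebraicIndependent FF fun i => (⟨_, hmem i⟩ : IntermediateField.adjoin FF
      (Set.range r ∪ Set.range fun i => Complex.exp (r i))) :=
    AlgebraicIndependent.of_comp (IntermediateField.val _) h
  have h4 := h3.cardinalMk_le_trdeg
  rw [Cardinal.mk_fintype, Fintype.card_fin] at h4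
  show ((dd (fun i => Complex.exp (r i)) : ℕ) : Cardinal) ≤ _
  exact le_trans (by exact_mod_cast h2) h4

/-- If the inequality holds at `r'` and `e^{r_1}, ..., e^{r_n}` are algebraically independent over
`F(r', e^{r'})`, then it holds at `(r', r)`: `dd_sum` (LW8: `dd (Sum.elim x y) ≤ dd x + dd y`-type bound,
`dd (exp r) ≤ n`), and `trdeg` is additive in the tower `FF ⊆ F(r',e^{r'}) ⊆ F(r',r,e^{r'},e^r)`
(see the proof of `ineq_sum` in LW8 and `comps_elim` in LW9). -/
theorem ineq_ext {k n : ℕ} (r' : Fin k → ℂ) (r : Fin n → ℂ) (h' : Ineq r')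
    (h : AlgebraicIndependent (FFr r') fun i => Complex.exp (r i)) :
    Ineq (Sum.elim r' r) := by
  classical
  set L' := IntermediateField.adjoin FF (Set.range r' ∪ Set.range fun i => Complex.exp (r' i))
    with hL'
  obtain ⟨S, hST, hS, hcard⟩ :=
    exists_indep_subset FF (Set.range r' ∪ Set.range fun i => Complex.exp (r' i))
  have hind' : AlgebraicIndependent L' fun i => Complex.exp (r i) := h
  have hSL : Set.range ((↑) : S → ℂ) ⊆ Set.range (algebraMap L' ℂ) := by
    rintro _ ⟨s, rfl⟩
    exact ⟨⟨s, IntermediateField.subset_adjoin FF _ (hST s.2)⟩, rfl⟩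
  have hsum : AlgebraicIndependent FF
      (Sum.elim (fun i => Complex.exp (r i)) ((↑) : S → ℂ)) :=
    hS.sumElim_of_tower hSL hind'
  set s : Fin k ⊕ Fin n → ℂ := Sum.elim r' r with hs
  set L := IntermediateField.adjoin FF (Set.range s ∪ Set.range fun i => Complex.exp (s i))
    with hL
  have hmem : ∀ j, Sum.elim (fun i => Complex.exp (r i)) ((↑) : S → ℂ) j ∈ L := by
    rintro (i | x)
    · exact IntermediateField.subset_adjoin FF _ (Or.inr ⟨Sum.inr i, rfl⟩)
    · rw [Sum.elim_inr]
      rcases hST x.2 with ⟨i, hi⟩ | ⟨i, hi⟩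
      · rw [← hi]
        exact IntermediateField.subset_adjoin FF _ (Or.inl ⟨Sum.inl i, rfl⟩)
      · rw [← hi]
        exact IntermediateField.subset_adjoin FF _ (Or.inr ⟨Sum.inl i, rfl⟩)
  have h1 : AlgebraicIndependent FF fun j => (⟨_, hmem j⟩ : L) :=
    AlgebraicIndependent.of_comp L.val hsum
  have h2 := h1.cardinalMk_le_trdeg
  rw [Cardinal.mk_sum, Cardinal.lift_id, Cardinal.lift_id] at h2
  have h3 : dd (fun i => Complex.exp (s i)) ≤ dd (fun i => Complex.exp (r' i)) + n := by
    have h4 : (fun i => Complex.exp (s i)) =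
        Sum.elim (fun i => Complex.exp (r' i)) (fun i => Complex.exp (r i)) := by
      funext i
      rcases i with i | i <;> rfl
    rw [h4]
    have := IneqE_dd r
    exact (dd_sum _ _).trans (by omega)
  show ((dd (fun i => Complex.exp (s i)) : ℕ) : Cardinal) ≤ Algebra.trdeg FF L
  calc ((dd (fun i => Complex.exp (s i)) : ℕ) : Cardinal)
      ≤ ((dd (fun i => Complex.exp (r' i)) + n : ℕ) : Cardinal) := by exact_mod_cast h3
    _ = (dd (fun i => Complex.exp (r' i)) : Cardinal) + (n : Cardinal) := by push_cast; rfl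
    _ ≤ Cardinal.mk S + (n : Cardinal) := add_le_add_left (h'.trans hcard) _
    _ = Cardinal.mk (Fin n) + Cardinal.mk S := by
        rw [Cardinal.mk_fintype (Fin n), Fintype.card_fin, add_comm]
    _ ≤ _ := h2

end LTD
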