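import Pool.Agent.LTD.GeoF
import Pool.Agent.LTD.NFf
import Pool.Agent.LTD.IneqE

set_option autoImplicit false

namespace LTD

open Module Pool.Agent.MP_4aec10_nt

theorem FF_le_FFr {κ : Type} (r : κ → ℂ) : FF ≤ FFr r := by
  intro x hx
  exact (IntermediateField.algebraMap_mem (IntermediateField.adjoin FF (comps r)) ⟨x, hx⟩)

theorem good_of_indep {k n : ℕ} (r : Fin k → ℂ) (hr : Ineq r) (s : Fin n → ℂ)
    (h : AlgebraicIndependent (FFr r) fun i => Complex.exp (s i)) :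
    dd (fun i => Complex.exp (s i)) = n ∧ Ineq s ∧ Ineq (Sum.elim r s) := by
  obtain ⟨h1, h2⟩ := ineq_of_indep n s (algInd_mono (FF_le_FFr r) _ h)
  exact ⟨h1, h2, ineq_ext r s hr h⟩

theorem geo_q1 (n k : ℕ) : ∃ m : ℕ, 1 ≤ m ∧ ∀ (x z : ℂ) (K : ℕ), z ≠ 0 → Wk x K →
    ∀ r : Fin k → ℂ, Ineq r →
      (Set.ncard {e : Fin n → ℕ | (∀ i, e i < K) ∧
        ¬ (dd (fun i => Complex.exp (z * x ^ e i)) = n ∧ Ineq (fun i => z * x ^ e i) ∧
          Ineq (Sum.elim r fun i => z * x ^ e i))} : ℝ) ≤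
        3 * m * n * (K : ℝ) ^ ((n : ℝ) - 1 / (m : ℝ)) := by
  obtain ⟨m, hm, h⟩ := geo_final n (1 + 2 * k)
  refine ⟨m, hm, fun x z K hz hx r hr => le_trans ?_ (h (FFr r) (trdeg_FFr k r) x z K hz hx)⟩
  have hfin : {e : Fin n → ℕ | (∀ i, e i < K) ∧
      ¬ AlgebraicIndependent (FFr r) fun i => Complex.exp (z * x ^ e i)}.Finite := by
    refine (Set.Finite.pi' (fun _ : Fin n => Set.finite_lt_nat K)).subset ?_
    intro e he i
    exact he.1 i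
  have hsub : {e : Fin n → ℕ | (∀ i, e i < K) ∧
        ¬ (dd (fun i => Complex.exp (z * x ^ e i)) = n ∧ Ineq (fun i => z * x ^ e i) ∧
          Ineq (Sum.elim r fun i => z * x ^ e i))} ⊆ {e : Fin n → ℕ | (∀ i, e i < K) ∧
      ¬ AlgebraicIndependent (FFr r) fun i => Complex.exp (z * x ^ e i)} :=
    fun e he => ⟨he.1, fun hi => he.2 (good_of_indep r hr (fun i => z * x ^ e i) hi)⟩
  exact_mod_cast Set.ncard_le_ncard hsub hfin

theorem nf_q1 (n k : ℕ) : ∃ m : ℕ, 1 ≤ m ∧ ∀ z : ℂ, z ≠ 0 →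
    ∀ (K : IntermediateField ℚ ℂ) (D : ℕ) (w : Basis (Fin D) ℚ K) (H : ℕ),
    ∀ r : Fin k → ℂ, Ineq r →
      Set.ncard {a : Fin n → Fin D → ℤ | (∀ i j, |a i j| ≤ (H : ℤ)) ∧
        ¬ (dd (fun i => Complex.exp (z * ∑ j, ((a i j : ℤ) : ℂ) * (w j : ℂ))) = n ∧
          Ineq (fun i => z * ∑ j, ((a i j : ℤ) : ℂ) * (w j : ℂ)) ∧
          Ineq (Sum.elim r fun i => z * ∑ j, ((a i j : ℤ) : ℂ) * (w j : ℂ)))} ≤
        n * (2 * H + 1) ^ (n * D - D / m) := by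
  obtain ⟨m, hm, h⟩ := nf_final n (1 + 2 * k)
  refine ⟨m, hm, fun z hz K D w H r hr =>
    le_trans ?_ (h (FFr r) (trdeg_FFr k r) z hz K D w H)⟩
  have hfin : {a : Fin n → Fin D → ℤ | (∀ i j, |a i j| ≤ (H : ℤ)) ∧
      ¬ AlgebraicIndependent (FFr r) fun i =>
        Complex.exp (z * ∑ j, ((a i j : ℤ) : ℂ) * (w j : ℂ))}.Finite := by
    refine (Set.Finite.pi' (fun _ : Fin n => Set.Finite.pi'
      (fun _ : Fin D => Set.finite_Icc (-(H : ℤ)) H))).subset ?_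
    intro a ha i j
    exact abs_le.1 (ha.1 i j)
  exact Set.ncard_le_ncard (fun a ha => ⟨ha.1, fun hi =>
    ha.2 (good_of_indep r hr _ hi)⟩) hfin

end LTD
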