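import Pool.Agent.LTD.Opt

set_option autoImplicit false

namespace LTD

open Finset

/-- the companion matrix -/
noncomputable def AMat_A {σ : Type} (J : ℕ) (c : ℕ → MvPolynomial σ ℤ) :
    Matrix (Fin J) (Fin J) (MvPolynomial σ ℤ) :=
  fun i j => if (i : ℕ) + 1 < J then (if (j : ℕ) = i + 1 then c J else 0) else -(c j)

theorem AMat_row {σ : Type} (J : ℕ) (c : ℕ → MvPolynomial σ ℤ) (ℓ : ℝ)
    (hℓ : ∑ j ∈ range (J + 1), len (c j) ≤ ℓ) (i : Fin J) : ∑ j, len (AMat_A J c i j) ≤ ℓ := by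
  by_cases h : (i : ℕ) + 1 < J
  · have e : ∑ j, len (AMat_A J c i j) = len (c J) := by
      rw [Finset.sum_eq_single (⟨(i : ℕ) + 1, h⟩ : Fin J)]
      · simp [AMat_A, h]
      · intro j _ hj
        have hj' : (j : ℕ) ≠ i + 1 := fun h' => hj (Fin.ext h')
        simp [AMat_A, h, hj', len_zero]
      · intro h'
        exact absurd (Finset.mem_univ _) h'
    rw [e]
    refine le_trans ?_ hℓ
    exact Finset.single_le_sum (f := fun j => len (c j)) (fun j _ => len_nonneg _)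
      (Finset.mem_range.2 (Nat.lt_succ_self J))
  · have e : ∑ j, len (AMat_A J c i j) = ∑ j : Fin J, len (c j) := by
      refine Finset.sum_congr rfl fun j _ => ?_
      simp [AMat_A, h, len_neg]
    rw [e, Fin.sum_univ_eq_sum_range (fun j => len (c j)) J]
    refine le_trans ?_ hℓ
    rw [Finset.sum_range_succ]
    have := len_nonneg (c J)
    linarith

theorem AMat_deg {σ : Type} (J : ℕ) (c : ℕ → MvPolynomial σ ℤ) (dc : ℕ)
    (hdc : ∀ j ≤ J, (c j).totalDegree ≤ dc) (i j : Fin J) :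
    (AMat_A J c i j).totalDegree ≤ dc := by
  unfold AMat_A
  split_ifs with h1 h2
  · exact hdc J le_rfl
  · simp
  · rw [MvPolynomial.totalDegree_neg]
    exact hdc j j.2.le

theorem AMat_ev {σ : Type} (J : ℕ) (c : ℕ → MvPolynomial σ ℤ) (θ : σ → ℂ) (a : ℂ)
    (h : ∑ j ∈ range (J + 1), ev θ (c j) * a ^ j = 0) (i : Fin J) :
    ∑ j : Fin J, ev θ (AMat_A J c i j) * a ^ (j : ℕ) = (ev θ (c J) * a) * a ^ (i : ℕ) := by
  by_cases h1 : (i : ℕ) + 1 < J
  · rw [Finset.sum_eq_single (⟨(i : ℕ) + 1, h1⟩ : Fin J)]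
    · simp only [AMat_A, h1, if_true]
      rw [pow_succ]
      ring
    · intro j _ hj
      have hj' : (j : ℕ) ≠ i + 1 := fun h' => hj (Fin.ext h')
      simp [AMat_A, h1, hj']
    · intro h'
      exact absurd (Finset.mem_univ _) h'
  · have e : ∑ j : Fin J, ev θ (AMat_A J c i j) * a ^ (j : ℕ) =
        ∑ j : Fin J, -(ev θ (c j) * a ^ (j : ℕ)) := by
      refine Finset.sum_congr rfl fun j _ => ?_
      simp [AMat_A, h1]
    rw [e, Fin.sum_univ_eq_sum_range (fun j => -(ev θ (c j) * a ^ j)) J, Finset.sum_neg_distrib]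
    rw [Finset.sum_range_succ] at h
    have hi : (i : ℕ) + 1 = J := by
      have := i.2
      omega
    have e3 : a ^ J = a ^ ((i : ℕ) + 1) := by rw [hi]
    have e2 : (ev θ (c J) * a) * a ^ (i : ℕ) = ev θ (c J) * a ^ J := by
      rw [e3, pow_succ]
      ring
    rw [e2]
    linear_combination -h

theorem AMat_pow {σ : Type} (J : ℕ) (c : ℕ → MvPolynomial σ ℤ) (ℓ : ℝ) (hℓ1 : 1 ≤ ℓ)
    (hℓ : ∑ j ∈ range (J + 1), len (c j) ≤ ℓ) (dc : ℕ)
    (hdc : ∀ j ≤ J, (c j).totalDegree ≤ dc) (k : ℕ) :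
    (∀ i, ∑ j, len ((AMat_A J c ^ k) i j) ≤ ℓ ^ k) ∧
    (∀ i j, ((AMat_A J c ^ k) i j).totalDegree ≤ k * dc) ∧
    ∀ (θ : σ → ℂ) (a : ℂ), ∑ j ∈ range (J + 1), ev θ (c j) * a ^ j = 0 →
      ∀ i : Fin J, ∑ j : Fin J, ev θ ((AMat_A J c ^ k) i j) * a ^ (j : ℕ) =
        (ev θ (c J) * a) ^ k * a ^ (i : ℕ) := by
  induction k with
  | zero =>
    refine ⟨fun i => ?_, fun i j => ?_, fun θ a _ i => ?_⟩
    · rw [pow_zero, pow_zero, Finset.sum_eq_single i]
      · rw [Matrix.one_apply_eq, len_one]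
      · intro j _ hj
        rw [Matrix.one_apply_ne (Ne.symm hj), len_zero]
      · intro h'
        exact absurd (Finset.mem_univ _) h'
    · rw [pow_zero, Matrix.one_apply]
      split_ifs <;> simp
    · rw [pow_zero, pow_zero, one_mul, Finset.sum_eq_single i]
      · rw [Matrix.one_apply_eq, map_one, one_mul]
      · intro j _ hj
        rw [Matrix.one_apply_ne (Ne.symm hj), map_zero, zero_mul]
      · intro h'
        exact absurd (Finset.mem_univ _) h'
  | succ k ih =>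
    obtain ⟨ih1, ih2, ih3⟩ := ih
    have hℓ0 : 0 ≤ ℓ := by linarith
    have hm : ∀ i j, (AMat_A J c ^ (k + 1)) i j =
        ∑ l, (AMat_A J c ^ k) i l * AMat_A J c l j := by
      intro i j
      rw [pow_succ, Matrix.mul_apply]
    refine ⟨fun i => ?_, fun i j => ?_, fun θ a h i => ?_⟩
    · calc ∑ j, len ((AMat_A J c ^ (k + 1)) i j)
          ≤ ∑ j, ∑ l, len ((AMat_A J c ^ k) i l) * len (AMat_A J c l j) := by
            refine Finset.sum_le_sum fun j _ => ?_
            rw [hm]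
            exact (len_sum _ _).trans (Finset.sum_le_sum fun l _ => len_mul _ _)
        _ = ∑ l, len ((AMat_A J c ^ k) i l) * ∑ j, len (AMat_A J c l j) := by
            rw [Finset.sum_comm]
            exact Finset.sum_congr rfl fun l _ => (Finset.mul_sum _ _ _).symm
        _ ≤ ∑ l, len ((AMat_A J c ^ k) i l) * ℓ :=
            Finset.sum_le_sum fun l _ =>
              mul_le_mul_of_nonneg_left (AMat_row J c ℓ hℓ l) (len_nonneg _)
        _ = (∑ l, len ((AMat_A J c ^ k) i l)) * ℓ := (Finset.sum_mul _ _ _).symm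
        _ ≤ ℓ ^ k * ℓ := mul_le_mul_of_nonneg_right (ih1 i) hℓ0
        _ = ℓ ^ (k + 1) := (pow_succ _ _).symm
    · rw [hm]
      refine MvPolynomial.totalDegree_finsetSum_le fun l _ => ?_
      refine (MvPolynomial.totalDegree_mul _ _).trans ?_
      have h1 := ih2 i l
      have h2 := AMat_deg J c dc hdc l j
      rw [add_mul, one_mul]
      exact Nat.add_le_add h1 h2
    · calc ∑ j : Fin J, ev θ ((AMat_A J c ^ (k + 1)) i j) * a ^ (j : ℕ)
          = ∑ j : Fin J, ∑ l, ev θ ((AMat_A J c ^ k) i l) * (ev θ (AMat_A J c l j) * a ^ (j : ℕ)) := by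
            refine Finset.sum_congr rfl fun j _ => ?_
            rw [hm, map_sum, Finset.sum_mul]
            refine Finset.sum_congr rfl fun l _ => ?_
            rw [map_mul, mul_assoc]
        _ = ∑ l, ev θ ((AMat_A J c ^ k) i l) * ∑ j : Fin J, ev θ (AMat_A J c l j) * a ^ (j : ℕ) := by
            rw [Finset.sum_comm]
            exact Finset.sum_congr rfl fun l _ => (Finset.mul_sum _ _ _).symm
        _ = ∑ l : Fin J, (ev θ (c J) * a) * (ev θ ((AMat_A J c ^ k) i l) * a ^ (l : ℕ)) := by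
            refine Finset.sum_congr rfl fun l _ => ?_
            rw [AMat_ev J c θ a h l]
            ring
        _ = (ev θ (c J) * a) * ((ev θ (c J) * a) ^ k * a ^ (i : ℕ)) := by
            rw [← Finset.mul_sum, ih3 θ a h i]
        _ = (ev θ (c J) * a) ^ (k + 1) * a ^ (i : ℕ) := by ring

/-- ROW AMat. Multiplication by `Q(θ, a)` (up to a power of the leading coefficient) as a matrix.
Let `A` be the `J × J` matrix over `ℤ[X]`: row `i < J - 1` has `c_J` in column `i + 1` and `0` elsewhere,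
the last row is `(-c_0, ..., -c_{J-1})`. Its row sums of lengths are `≤ ℓ`, its degrees `≤ dc`, and if
`∑_{j ≤ J} c_j(θ) a^j = 0` then `A(θ) v = c_J(θ) a · v` for `v = (1, a, ..., a^{J-1})`.
With `Q = ∑_k Q_k X^k` from `split` (`deg Q_k + k ≤ deg Q ≤ E`, `∑ len Q_k ≤ len Q`) put
`B = ∑_{k ≤ deg Q} Q_k c_J^{E-k} A^k`. The row-sum norm `max_i ∑_j len (M i j)` is submultiplicative and
subadditive, so the row sums of `B` are `≤ ∑_k len Q_k · ℓ^{E-k} · ℓ^k ≤ len Q · ℓ^E`; degrees: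
`(E - k) + (E - k) dc + k dc ≤ E + E dc`; `A(θ)^k v = (c_J(θ) a)^k v`, so
`B(θ) v = ∑_k Q_k(θ) c_J(θ)^{E-k} c_J(θ)^k a^k v = c_J(θ)^E Q(θ,a) v`.
(Suggestion: prove by induction on `k` the existence of a matrix `M_k` with row sums `≤ ℓ^k`, degrees
`≤ k dc` and `M_k(θ) v = (c_J(θ) a)^k v` for all such `θ, a`.) -/
theorem alg_matrix {σ : Type} (J : ℕ) (hJ : 1 ≤ J) (c : ℕ → MvPolynomial σ ℤ) (ℓ : ℝ) (hℓ1 : 1 ≤ ℓ)
    (hℓ : ∑ j ∈ range (J + 1), len (c j) ≤ ℓ) (dc : ℕ) (hdc : ∀ j ≤ J, (c j).totalDegree ≤ dc)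
    (Q : MvPolynomial (Option σ) ℤ) (E : ℕ) (hE : Q.totalDegree ≤ E) :
    ∃ B : Matrix (Fin J) (Fin J) (MvPolynomial σ ℤ),
      (∀ i, ∑ j, len (B i j) ≤ len Q * ℓ ^ E) ∧
      (∀ i j, (B i j).totalDegree ≤ E + E * dc) ∧
      ∀ (θ : σ → ℂ) (a : ℂ), ∑ j ∈ range (J + 1), ev θ (c j) * a ^ j = 0 →
        ∀ i : Fin J, ∑ j : Fin J, ev θ (B i j) * a ^ (j : ℕ) =
          (ev θ (c J) ^ E * ev (ext θ a) Q) * a ^ (i : ℕ) := by
  obtain ⟨Qk, hQ1, hQ2, hQ3⟩ := split Q
  have hℓ0 : 0 ≤ ℓ := by linarith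
  have hcJ : len (c J) ≤ ℓ := by
    refine le_trans ?_ hℓ
    exact Finset.single_le_sum (f := fun j => len (c j)) (fun j _ => len_nonneg _)
      (Finset.mem_range.2 (Nat.lt_succ_self J))
  obtain ⟨B, hB⟩ : ∃ B : Matrix (Fin J) (Fin J) (MvPolynomial σ ℤ), ∀ i j, B i j =
      ∑ k ∈ range (Q.totalDegree + 1), (Qk k * c J ^ (E - k)) * (AMat_A J c ^ k) i j :=
    ⟨fun i j => _, fun i j => rfl⟩
  refine ⟨B, fun i => ?_, fun i j => ?_, fun θ a h i => ?_⟩
  · calc ∑ j, len (B i j)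
        ≤ ∑ j, ∑ k ∈ range (Q.totalDegree + 1),
            (len (Qk k) * ℓ ^ (E - k)) * len ((AMat_A J c ^ k) i j) := by
          refine Finset.sum_le_sum fun j _ => ?_
          rw [hB]
          refine (len_sum _ _).trans (Finset.sum_le_sum fun k _ => ?_)
          refine (len_mul _ _).trans (mul_le_mul_of_nonneg_right ?_ (len_nonneg _))
          refine (len_mul _ _).trans (mul_le_mul_of_nonneg_left ?_ (len_nonneg _))
          exact (len_pow _ _).trans (pow_le_pow_left₀ (len_nonneg _) hcJ _)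
      _ = ∑ k ∈ range (Q.totalDegree + 1),
            (len (Qk k) * ℓ ^ (E - k)) * ∑ j, len ((AMat_A J c ^ k) i j) := by
          rw [Finset.sum_comm]
          exact Finset.sum_congr rfl fun k _ => (Finset.mul_sum _ _ _).symm
      _ ≤ ∑ k ∈ range (Q.totalDegree + 1), len (Qk k) * ℓ ^ E := by
          refine Finset.sum_le_sum fun k hk => ?_
          have hkE : k ≤ E := by
            have := Finset.mem_range.1 hk
            omega
          have h1 := (AMat_pow J c ℓ hℓ1 hℓ dc hdc k).1 i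
          have h2 : 0 ≤ len (Qk k) * ℓ ^ (E - k) := mul_nonneg (len_nonneg _) (pow_nonneg hℓ0 _)
          refine (mul_le_mul_of_nonneg_left h1 h2).trans (le_of_eq ?_)
          rw [mul_assoc, ← pow_add, Nat.sub_add_cancel hkE]
      _ = (∑ k ∈ range (Q.totalDegree + 1), len (Qk k)) * ℓ ^ E := (Finset.sum_mul _ _ _).symm
      _ ≤ len Q * ℓ ^ E := mul_le_mul_of_nonneg_right hQ2 (pow_nonneg hℓ0 _)
  · rw [hB]
    refine MvPolynomial.totalDegree_finsetSum_le fun k hk => ?_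
    have hkd : k ≤ Q.totalDegree := by
      have := Finset.mem_range.1 hk
      omega
    have h1 := hQ1 k hkd
    have h2 := (AMat_pow J c ℓ hℓ1 hℓ dc hdc k).2.1 i j
    have h3 : (c J ^ (E - k)).totalDegree ≤ (E - k) * dc :=
      (MvPolynomial.totalDegree_pow _ _).trans (Nat.mul_le_mul_left _ (hdc J le_rfl))
    have h4 : (E - k) * dc + k * dc = E * dc := by
      rw [← add_mul, Nat.sub_add_cancel (hkd.trans hE)]
    refine (MvPolynomial.totalDegree_mul _ _).trans ?_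
    have h5 := MvPolynomial.totalDegree_mul (Qk k) (c J ^ (E - k))
    omega
  · have e1 : ∑ j : Fin J, ev θ (B i j) * a ^ (j : ℕ) = ∑ k ∈ range (Q.totalDegree + 1),
        (ev θ (Qk k) * ev θ (c J) ^ (E - k)) *
          ∑ j : Fin J, ev θ ((AMat_A J c ^ k) i j) * a ^ (j : ℕ) := by
      have e2 : ∀ j : Fin J, ev θ (B i j) * a ^ (j : ℕ) = ∑ k ∈ range (Q.totalDegree + 1),
          (ev θ (Qk k) * ev θ (c J) ^ (E - k)) *
            (ev θ ((AMat_A J c ^ k) i j) * a ^ (j : ℕ)) := by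
        intro j
        rw [hB, map_sum, Finset.sum_mul]
        refine Finset.sum_congr rfl fun k _ => ?_
        rw [map_mul, map_mul, map_pow, mul_assoc]
      rw [Finset.sum_congr rfl fun j _ => e2 j, Finset.sum_comm]
      exact Finset.sum_congr rfl fun k _ => (Finset.mul_sum _ _ _).symm
    rw [e1, hQ3 θ a, Finset.mul_sum, Finset.sum_mul]
    refine Finset.sum_congr rfl fun k hk => ?_
    have hkE : k ≤ E := by
      have := Finset.mem_range.1 hk
      omega
    rw [(AMat_pow J c ℓ hℓ1 hℓ dc hdc k).2.2 θ a h i]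
    have e3 : ev θ (c J) ^ E = ev θ (c J) ^ (E - k) * ev θ (c J) ^ k := by
      rw [← pow_add, Nat.sub_add_cancel hkE]
    rw [e3, mul_pow]
    ring

end LTD
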