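import Pool.Agent.LTD.CharP
import Pool.Agent.LTD.Ev

set_option autoImplicit false

namespace LTD

theorem Eig_eval_charpoly {σ : Type} {J : ℕ} {θ : σ → ℂ} (B : Matrix (Fin J) (Fin J) (MvPolynomial σ ℤ))
    (v : Fin J → ℂ) (hv : v ≠ 0) (ζ : ℂ)
    (hBv : ∀ i, ∑ j, ev θ (B i j) * v j = ζ * v i) :
    ∑ i ∈ Finset.range (J + 1), ev θ (B.charpoly.coeff i) * ζ ^ i = 0 := by
  classical
  have h1 : (B.map (ev θ)).charpoly.eval ζ = 0 := by
    rw [Matrix.eval_charpoly]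
    apply Matrix.exists_mulVec_eq_zero_iff.1
    refine ⟨v, hv, ?_⟩
    funext i
    have h2 : (Matrix.scalar (Fin J) ζ - B.map (ev θ)).mulVec v i
        = ζ * v i - ∑ j, ev θ (B i j) * v j := by
      rw [Matrix.sub_mulVec, Pi.sub_apply]
      congr 1
      rw [Matrix.scalar_apply, Matrix.mulVec_diagonal]
    rw [h2, hBv i, sub_self]
    rfl
  have h3 : (B.map (ev θ)).charpoly = B.charpoly.map (ev θ) := Matrix.charpoly_map B (ev θ)
  have hdeg : (B.charpoly.map (ev θ)).natDegree < J + 1 := by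
    have := B.charpoly_natDegree_eq_dim
    rw [Fintype.card_fin] at this
    have h4 : (B.charpoly.map (ev θ)).natDegree ≤ B.charpoly.natDegree := Polynomial.natDegree_map_le
    omega
  rw [h3, Polynomial.eval_eq_sum_range' hdeg] at h1
  rw [← h1]
  exact Finset.sum_congr rfl fun i _ => by rw [Polynomial.coeff_map]

/-- ROW Eig (lemma G1). `χ = B.charpoly`, coefficients `r_0, ..., r_J = 1` (`Matrix.charpoly_monic`,
`charpoly_natDegree_eq_dim`; `Nontrivial (MvPolynomial σ ℤ)`). The matrix `B(θ) = B.map (ev θ)` has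
characteristic polynomial `χ.map (ev θ)` (`Matrix.charpoly_map`), and it vanishes at the eigenvalue `ζ`
(e.g. `Matrix.mem_spectrum_iff_isRoot_charpoly` or `det (ζ - B(θ)) = 0` from
`Matrix.exists_mulVec_eq_zero_iff`). Let `i₀` be minimal with `ev θ (r_{i₀}) ≠ 0` (exists: `r_J = 1`).
Then `∑_{i ≥ i₀} r_i(θ) ζ^{i - i₀} = 0` (`ζ ≠ 0`), so if `‖ζ‖ ≤ 1`:
`|r_{i₀}(θ)| ≤ |ζ| ∑_{i > i₀} |r_i(θ)| ≤ |ζ| (∑ len r_i) Θ^{Jd} ≤ |ζ| (1+b)^J Θ^{Jd}` (`norm_ev_le`,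
`Θ ≥ 1`), and `|r_{i₀}(θ)| ≥ e^{-g}` by `hGap`, as `totalDegree r_{i₀} ≤ Jd ≤ s` and
`len r_{i₀} ≤ (1+b)^J = e^{J log(1+b)} ≤ e^s`. If `‖ζ‖ > 1` the claim is trivial: the left side is `≤ 1`
(`g ≥ 0`). -/
theorem eig_lower {σ : Type} {J : ℕ} {θ : σ → ℂ} {Θ s g b : ℝ} {d : ℕ}
    (hGap : Gap θ s g) (hg : 0 ≤ g) (hΘ : 1 ≤ Θ) (hθ : ∀ i, ‖θ i‖ ≤ Θ)
    (B : Matrix (Fin J) (Fin J) (MvPolynomial σ ℤ)) (hb : 1 ≤ b)
    (hB : ∀ i, ∑ j, len (B i j) ≤ b) (hd : ∀ i j, (B i j).totalDegree ≤ d)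
    (hJd : (J : ℝ) * d ≤ s) (hJb : J * Real.log (1 + b) ≤ s)
    (v : Fin J → ℂ) (hv : v ≠ 0) (ζ : ℂ) (hζ : ζ ≠ 0)
    (hBv : ∀ i, ∑ j, ev θ (B i j) * v j = ζ * v i) :
    Real.exp (-g) ≤ ‖ζ‖ * (1 + b) ^ J * Θ ^ (J * d) := by
  classical
  have hb1 : (1 : ℝ) ≤ (1 + b) ^ J := one_le_pow₀ (by linarith)
  have hT1 : (1 : ℝ) ≤ Θ ^ (J * d) := one_le_pow₀ hΘ
  have hg1 : Real.exp (-g) ≤ 1 := by rw [Real.exp_le_one_iff]; linarith
  rcases lt_or_ge 1 ‖ζ‖ with h1 | h1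
  · calc Real.exp (-g) ≤ 1 * 1 * 1 := by rw [mul_one, mul_one]; exact hg1
      _ ≤ ‖ζ‖ * (1 + b) ^ J * Θ ^ (J * d) :=
        mul_le_mul (mul_le_mul h1.le hb1 zero_le_one (norm_nonneg _)) hT1 zero_le_one
          (mul_nonneg (norm_nonneg _) (by linarith))
  obtain ⟨hdg, hln⟩ := charpoly_bounds B b (by linarith) hB d hd
  have hsum := Eig_eval_charpoly B v hv ζ hBv
  have hJ : ev θ (B.charpoly.coeff J) ≠ 0 := by
    have h2 := B.charpoly_natDegree_eq_dim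
    rw [Fintype.card_fin] at h2
    have h3 := B.charpoly_monic
    rw [Polynomial.Monic, Polynomial.leadingCoeff, h2] at h3
    rw [h3, map_one]
    exact one_ne_zero
  have hex : ∃ i, ev θ (B.charpoly.coeff i) ≠ 0 := ⟨J, hJ⟩
  have hi0 := Nat.find_spec hex
  have hmin := fun (j : ℕ) (hj : j < Nat.find hex) => not_not.1 (Nat.find_min hex hj)
  have hle : Nat.find hex ≤ J := Nat.find_min' hex hJ
  generalize Nat.find hex = i₀ at hi0 hmin hle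
  have hlen : ∀ i ∈ Finset.range (J + 1), len (B.charpoly.coeff i) ≤ (1 + b) ^ J := fun i hi =>
    (Finset.single_le_sum (f := fun i => len (B.charpoly.coeff i)) (fun j _ => len_nonneg _) hi).trans hln
  have hmem : i₀ ∈ Finset.range (J + 1) := Finset.mem_range.2 (by omega)
  have hsz : Sz (B.charpoly.coeff i₀) s := by
    constructor
    · calc ((B.charpoly.coeff i₀).totalDegree : ℝ) ≤ ((J * d : ℕ) : ℝ) := by exact_mod_cast hdg i₀
        _ = (J : ℝ) * d := by push_cast; rfl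
        _ ≤ s := hJd
    · calc len (B.charpoly.coeff i₀) ≤ (1 + b) ^ J := hlen i₀ hmem
        _ = Real.exp (J * Real.log (1 + b)) := by
          rw [mul_comm, Real.exp_mul, Real.exp_log (by linarith), Real.rpow_natCast]
        _ ≤ Real.exp s := Real.exp_le_exp.2 hJb
  have hlow : Real.exp (-g) ≤ ‖ev θ (B.charpoly.coeff i₀)‖ := (hGap _ hsz).resolve_left hi0
  have hz : 0 < ‖ζ‖ := norm_pos_iff.2 hζ
  -- isolate the term of index `i₀`
  rw [← Finset.add_sum_erase _ _ hmem] at hsum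
  have heq : ev θ (B.charpoly.coeff i₀) * ζ ^ i₀
      = -∑ i ∈ (Finset.range (J + 1)).erase i₀, ev θ (B.charpoly.coeff i) * ζ ^ i :=
    eq_neg_of_add_eq_zero_left hsum
  have hterm : ∀ i ∈ (Finset.range (J + 1)).erase i₀,
      ‖ev θ (B.charpoly.coeff i) * ζ ^ i‖ ≤ len (B.charpoly.coeff i) * (Θ ^ (J * d) * ‖ζ‖ ^ (i₀ + 1)) := by
    intro i hi
    rcases lt_or_ge i i₀ with h | h
    · rw [hmin i h, zero_mul, norm_zero]
      exact mul_nonneg (len_nonneg _) (mul_nonneg (by linarith) (pow_nonneg hz.le _))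
    · have hne : i ≠ i₀ := Finset.ne_of_mem_erase hi
      rw [norm_mul, norm_pow]
      have h5 : ‖ev θ (B.charpoly.coeff i)‖ ≤ len (B.charpoly.coeff i) * Θ ^ (J * d) :=
        (norm_ev_le θ Θ hΘ hθ _).trans
          (mul_le_mul_of_nonneg_left (pow_le_pow_right₀ hΘ (hdg i)) (len_nonneg _))
      calc ‖ev θ (B.charpoly.coeff i)‖ * ‖ζ‖ ^ i
          ≤ (len (B.charpoly.coeff i) * Θ ^ (J * d)) * ‖ζ‖ ^ (i₀ + 1) :=
            mul_le_mul h5 (pow_le_pow_of_le_one hz.le h1 (by omega)) (pow_nonneg hz.le _)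
              (mul_nonneg (len_nonneg _) (by linarith))
        _ = _ := by ring
  have hfin : ‖ev θ (B.charpoly.coeff i₀)‖ * ‖ζ‖ ^ i₀
      ≤ ((1 + b) ^ J * (Θ ^ (J * d) * ‖ζ‖)) * ‖ζ‖ ^ i₀ := by
    calc ‖ev θ (B.charpoly.coeff i₀)‖ * ‖ζ‖ ^ i₀ = ‖ev θ (B.charpoly.coeff i₀) * ζ ^ i₀‖ := by
          rw [norm_mul, norm_pow]
      _ = ‖∑ i ∈ (Finset.range (J + 1)).erase i₀, ev θ (B.charpoly.coeff i) * ζ ^ i‖ := by
          rw [heq, norm_neg]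
      _ ≤ ∑ i ∈ (Finset.range (J + 1)).erase i₀, len (B.charpoly.coeff i) * (Θ ^ (J * d) * ‖ζ‖ ^ (i₀ + 1)) :=
          norm_sum_le_of_le _ hterm
      _ = (∑ i ∈ (Finset.range (J + 1)).erase i₀, len (B.charpoly.coeff i)) * (Θ ^ (J * d) * ‖ζ‖ ^ (i₀ + 1)) := by
          rw [Finset.sum_mul]
      _ ≤ (1 + b) ^ J * (Θ ^ (J * d) * ‖ζ‖ ^ (i₀ + 1)) := by
          refine mul_le_mul_of_nonneg_right ?_ (mul_nonneg (by linarith) (pow_nonneg hz.le _))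
          exact (Finset.sum_le_sum_of_subset_of_nonneg (Finset.erase_subset _ _)
            (fun j _ _ => len_nonneg _)).trans hln
      _ = _ := by rw [pow_succ]; ring
  calc Real.exp (-g) ≤ ‖ev θ (B.charpoly.coeff i₀)‖ := hlow
    _ ≤ (1 + b) ^ J * (Θ ^ (J * d) * ‖ζ‖) := le_of_mul_le_mul_right hfin (pow_pos hz _)
    _ = ‖ζ‖ * (1 + b) ^ J * Θ ^ (J * d) := by ring

end LTD
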