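import Pool.Agent.LTD.AMat
import Pool.Agent.LTD.Eig

set_option autoImplicit false

namespace LTD

open Finset

/-- ROW Alg (lemma G2a): adding an algebraic coordinate. Let `Sz Q q`, `Q(θ,a) ≠ 0`, `E = ⌊q⌋` (so
`Q.totalDegree ≤ E`, `E ≤ q`), `ℓ = e^p`, `dc = ⌊p⌋`. `alg_matrix` gives `B` with row sums
`≤ len Q · e^{pE} ≤ e^{q + pq} ≤ e^{2pq} =: b` (`q ≤ pq`) and degrees `≤ E + E dc ≤ 2pq`; take
`d = E + E * dc`. With `v_i = a^i` (`v_0 = 1`, `J ≥ 1`) and `ζ = c_J(θ)^E Q(θ,a) ≠ 0` apply `eig_lower`: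
`J d ≤ 2p²q ≤ s`; `J log(1+b) ≤ p (1 + 2pq) ≤ 3p²q ≤ s` (`log(1+e^x) ≤ 1 + x` for `x ≥ 0` since
`1 + e^x ≤ 2 e^x ≤ e^{1+x}`). So `e^{-g} ≤ ‖ζ‖ (1+b)^J Θ^{Jd} ≤ ‖ζ‖ e^{3p²q} Θ^{2p²q}` and
`‖ζ‖ = |c_J(θ)|^E ‖Q(θ,a)‖ ≤ (e^p Θ^p)^q ‖Q(θ,a)‖` (`norm_ev_le`). Hence
`‖Q(θ,a)‖ ≥ exp(-g - 3p²q - pq - (2p²q + pq) log Θ) ≥ exp(-(g + 6p²q(1 + log Θ)))`. -/
theorem gap_alg {σ : Type} {θ : σ → ℂ} {a : ℂ} {Θ s g p q : ℝ} (hGap : Gap θ s g) (hg : 0 ≤ g)
    (hΘ : 1 ≤ Θ) (hθ : ∀ i, ‖θ i‖ ≤ Θ) (ha : ‖a‖ ≤ Θ) (J : ℕ) (hJ : 1 ≤ J)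
    (c : ℕ → MvPolynomial σ ℤ) (hcJ : ev θ (c J) ≠ 0)
    (hc : ∑ j ∈ range (J + 1), ev θ (c j) * a ^ j = 0) (hp : 1 ≤ p)
    (hlen : ∑ j ∈ range (J + 1), len (c j) ≤ Real.exp p)
    (hdeg : ∀ j ≤ J, ((c j).totalDegree : ℝ) ≤ p) (hJp : (J : ℝ) ≤ p)
    (hq : 1 ≤ q) (hs : 4 * p ^ 2 * q ≤ s) :
    Gap (ext θ a) q (g + 6 * p ^ 2 * q * (1 + Real.log Θ)) := by
  intro Q hQ
  by_cases hQ0 : ev (ext θ a) Q = 0
  · exact Or.inl hQ0
  right
  have hp0 : 0 < p := by linarith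
  have hq0 : 0 < q := by linarith
  have hL0 : 0 ≤ Real.log Θ := Real.log_nonneg hΘ
  have hΘ0 : 0 < Θ := by linarith
  set L := Real.log Θ with hL
  set E := ⌊q⌋₊ with hE
  set dc := ⌊p⌋₊ with hdc
  have hEq : (E : ℝ) ≤ q := Nat.floor_le hq0.le
  have hdcp : (dc : ℝ) ≤ p := Nat.floor_le hp0.le
  have hQE : Q.totalDegree ≤ E := Nat.le_floor hQ.1
  have hcdc : ∀ j ≤ J, (c j).totalDegree ≤ dc := fun j hj => Nat.le_floor (hdeg j hj)
  obtain ⟨B, hB1, hB2, hB3⟩ := alg_matrix J hJ c (Real.exp p) (Real.one_le_exp hp0.le) hlen dc hcdc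
    Q E hQE
  have hpq : q ≤ p * q := by nlinarith
  have hppq : p * q ≤ p ^ 2 * q := by nlinarith [mul_pos hp0 hq0]
  have hp2q : p ≤ p ^ 2 * q := by nlinarith [mul_pos hp0 hq0]
  have hb : ∀ i, ∑ j, len (B i j) ≤ Real.exp (2 * p * q) := by
    intro i
    refine (hB1 i).trans ?_
    rw [← Real.exp_nat_mul]
    calc len Q * Real.exp (E * p) ≤ Real.exp q * Real.exp (q * p) :=
          mul_le_mul hQ.2 (Real.exp_le_exp.2 (mul_le_mul_of_nonneg_right hEq hp0.le))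
            (Real.exp_pos _).le (Real.exp_pos _).le
      _ = Real.exp (q + q * p) := (Real.exp_add _ _).symm
      _ ≤ Real.exp (2 * p * q) := Real.exp_le_exp.2 (by nlinarith)
  have hb1 : 1 ≤ Real.exp (2 * p * q) := Real.one_le_exp (by positivity)
  have hd : ((E + E * dc : ℕ) : ℝ) ≤ 2 * p * q := by
    push_cast
    have h1 : (E : ℝ) * dc ≤ q * p := mul_le_mul hEq hdcp (Nat.cast_nonneg _) hq0.le
    nlinarith
  have hd0 : (0 : ℝ) ≤ ((E + E * dc : ℕ) : ℝ) := Nat.cast_nonneg _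
  have hJ0 : (0 : ℝ) ≤ J := Nat.cast_nonneg _
  have hJd : (J : ℝ) * ((E + E * dc : ℕ) : ℝ) ≤ 2 * p ^ 2 * q := by
    calc (J : ℝ) * ((E + E * dc : ℕ) : ℝ) ≤ p * (2 * p * q) := mul_le_mul hJp hd hd0 hp0.le
      _ = 2 * p ^ 2 * q := by ring
  have hlog : Real.log (1 + Real.exp (2 * p * q)) ≤ 1 + 2 * p * q := by
    rw [← Real.log_exp (1 + 2 * p * q)]
    refine Real.log_le_log (by positivity) ?_
    rw [Real.exp_add]
    have h1 : (2 : ℝ) ≤ Real.exp 1 := by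
      have := Real.add_one_le_exp (1 : ℝ)
      linarith
    have h2 : 2 * Real.exp (2 * p * q) ≤ Real.exp 1 * Real.exp (2 * p * q) :=
      mul_le_mul_of_nonneg_right h1 (Real.exp_pos _).le
    linarith
  have hlog0 : 0 ≤ Real.log (1 + Real.exp (2 * p * q)) :=
    Real.log_nonneg (by linarith [Real.exp_pos (2 * p * q)])
  have hJb : (J : ℝ) * Real.log (1 + Real.exp (2 * p * q)) ≤ 3 * p ^ 2 * q := by
    calc (J : ℝ) * Real.log (1 + Real.exp (2 * p * q)) ≤ p * (1 + 2 * p * q) :=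
          mul_le_mul hJp hlog hlog0 hp0.le
      _ ≤ 3 * p ^ 2 * q := by nlinarith
  set ζ : ℂ := ev θ (c J) ^ E * ev (ext θ a) Q with hζdef
  have hζ : ζ ≠ 0 := mul_ne_zero (pow_ne_zero _ hcJ) hQ0
  have hv : (fun i : Fin J => a ^ (i : ℕ)) ≠ 0 := by
    intro h0
    have h1 := congr_fun h0 ⟨0, by omega⟩
    simp at h1
  have h2pq : 0 ≤ p ^ 2 * q := by positivity
  have key := eig_lower (J := J) (θ := θ) (Θ := Θ) (s := s) (g := g)
    (b := Real.exp (2 * p * q)) (d := E + E * dc) hGap hg hΘ hθ B hb1 hb hB2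
    (hJd.trans (by nlinarith)) (hJb.trans (by nlinarith)) (fun i : Fin J => a ^ (i : ℕ)) hv ζ hζ
    (hB3 θ a hc)
  have k1 : (1 + Real.exp (2 * p * q)) ^ J ≤ Real.exp (3 * p ^ 2 * q) := by
    have h1 : (0 : ℝ) < 1 + Real.exp (2 * p * q) := by positivity
    rw [← Real.exp_log h1, ← Real.exp_nat_mul]
    exact Real.exp_le_exp.2 hJb
  have k2 : Θ ^ (J * (E + E * dc)) ≤ Real.exp (2 * p ^ 2 * q * L) := by
    have h1 : Θ = Real.exp L := (Real.exp_log hΘ0).symm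
    rw [h1, ← Real.exp_nat_mul]
    refine Real.exp_le_exp.2 (mul_le_mul_of_nonneg_right ?_ hL0)
    rw [Nat.cast_mul]
    exact hJd
  have k3 : ‖ζ‖ ≤ Real.exp (p * q * (1 + L)) * ‖ev (ext θ a) Q‖ := by
    rw [hζdef, norm_mul, norm_pow]
    refine mul_le_mul_of_nonneg_right ?_ (norm_nonneg _)
    have h1 : ‖ev θ (c J)‖ ≤ Real.exp (p * (1 + L)) := by
      refine (norm_ev_le θ Θ hΘ hθ (c J)).trans ?_
      have h2 : len (c J) ≤ Real.exp p := le_trans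
        (Finset.single_le_sum (f := fun j => len (c j)) (fun j _ => len_nonneg _)
          (Finset.mem_range.2 (Nat.lt_succ_self J))) hlen
      have h3 : Θ ^ (c J).totalDegree ≤ Real.exp (p * L) := by
        have h4 : Θ = Real.exp L := (Real.exp_log hΘ0).symm
        conv_lhs => rw [h4]
        rw [← Real.exp_nat_mul]
        exact Real.exp_le_exp.2 (mul_le_mul_of_nonneg_right (hdeg J le_rfl) hL0)
      calc len (c J) * Θ ^ (c J).totalDegree ≤ Real.exp p * Real.exp (p * L) :=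
            mul_le_mul h2 h3 (by positivity) (Real.exp_pos _).le
        _ = Real.exp (p * (1 + L)) := by rw [← Real.exp_add]; ring_nf
    calc ‖ev θ (c J)‖ ^ E ≤ Real.exp (p * (1 + L)) ^ E := pow_le_pow_left₀ (norm_nonneg _) h1 _
      _ = Real.exp (E * (p * (1 + L))) := (Real.exp_nat_mul _ _).symm
      _ ≤ Real.exp (p * q * (1 + L)) := by
          refine Real.exp_le_exp.2 ?_
          have h5 : 0 ≤ p * (1 + L) := by positivity
          nlinarith [mul_le_mul_of_nonneg_right hEq h5]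
  set T : ℝ := ‖ev (ext θ a) Q‖ with hT
  have hT0 : 0 ≤ T := norm_nonneg _
  have k4 : Real.exp (-g) ≤ Real.exp (p * q * (1 + L)) * T * Real.exp (3 * p ^ 2 * q) *
      Real.exp (2 * p ^ 2 * q * L) := by
    refine key.trans ?_
    refine mul_le_mul (mul_le_mul k3 k1 (by positivity) (by positivity)) k2 (by positivity)
      (by positivity)
  have k5 : Real.exp (p * q * (1 + L)) * T * Real.exp (3 * p ^ 2 * q) *
      Real.exp (2 * p ^ 2 * q * L) =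
      Real.exp (p * q * (1 + L) + 3 * p ^ 2 * q + 2 * p ^ 2 * q * L) * T := by
    rw [Real.exp_add, Real.exp_add]
    ring
  rw [k5] at k4
  have k6 : Real.exp (-(g + 6 * p ^ 2 * q * (1 + L))) *
      Real.exp (p * q * (1 + L) + 3 * p ^ 2 * q + 2 * p ^ 2 * q * L) ≤ Real.exp (-g) := by
    rw [← Real.exp_add]
    refine Real.exp_le_exp.2 ?_
    have h1 : p * q * (1 + L) ≤ p ^ 2 * q * (1 + L) :=
      mul_le_mul_of_nonneg_right hppq (by linarith)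
    have h2 : 0 ≤ p ^ 2 * q * L := mul_nonneg h2pq hL0
    nlinarith
  have hX : 0 < Real.exp (p * q * (1 + L) + 3 * p ^ 2 * q + 2 * p ^ 2 * q * L) := Real.exp_pos _
  have k7 := k6.trans k4
  rw [mul_comm] at k7
  exact le_of_mul_le_mul_left k7 hX


end LTD
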