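import Pool.Agent.LTD.Len

set_option autoImplicit false

namespace LTD

open MvPolynomial in
/-- the length of a polynomial over `ℤ[X]` -/
noncomputable def CharP_L {σ : Type} (f : Polynomial (MvPolynomial σ ℤ)) : ℝ :=
  ∑ i ∈ f.support, len (f.coeff i)

variable {σ : Type}

theorem CharP_L_eq (f : Polynomial (MvPolynomial σ ℤ)) (S : Finset ℕ) (h : f.support ⊆ S) :
    CharP_L f = ∑ i ∈ S, len (f.coeff i) := by
  unfold CharP_L
  apply Finset.sum_subset h
  intro i _ hi
  rw [Polynomial.notMem_support_iff.1 hi, len_zero]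

theorem CharP_L_nonneg (f : Polynomial (MvPolynomial σ ℤ)) : 0 ≤ CharP_L f :=
  Finset.sum_nonneg fun _ _ => len_nonneg _

theorem CharP_L_range (f : Polynomial (MvPolynomial σ ℤ)) {n : ℕ} (h : f.natDegree < n) :
    CharP_L f = ∑ i ∈ Finset.range n, len (f.coeff i) := by
  apply CharP_L_eq
  intro i hi
  rw [Finset.mem_range]
  exact lt_of_le_of_lt (Polynomial.le_natDegree_of_mem_supp i hi) h

theorem CharP_L_add (f g : Polynomial (MvPolynomial σ ℤ)) : CharP_L (f + g) ≤ CharP_L f + CharP_L g := by
  classical
  rw [CharP_L_eq f (f.support ∪ g.support) Finset.subset_union_left,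
    CharP_L_eq g (f.support ∪ g.support) Finset.subset_union_right,
    CharP_L_eq (f + g) (f.support ∪ g.support) Polynomial.support_add, ← Finset.sum_add_distrib]
  refine Finset.sum_le_sum fun i _ => ?_
  rw [Polynomial.coeff_add]
  exact len_add _ _

theorem CharP_L_neg (f : Polynomial (MvPolynomial σ ℤ)) : CharP_L (-f) = CharP_L f := by
  unfold CharP_L
  rw [Polynomial.support_neg]
  exact Finset.sum_congr rfl fun i _ => by rw [Polynomial.coeff_neg, len_neg]

theorem CharP_L_zero : CharP_L (0 : Polynomial (MvPolynomial σ ℤ)) = 0 := by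
  unfold CharP_L
  rw [Polynomial.support_zero, Finset.sum_empty]

theorem CharP_L_sum {ι : Type*} (s : Finset ι) (f : ι → Polynomial (MvPolynomial σ ℤ)) :
    CharP_L (∑ i ∈ s, f i) ≤ ∑ i ∈ s, CharP_L (f i) := by
  classical
  induction s using Finset.induction_on with
  | empty => rw [Finset.sum_empty, Finset.sum_empty, CharP_L_zero]
  | insert a s ha ih =>
    rw [Finset.sum_insert ha, Finset.sum_insert ha]
    exact (CharP_L_add _ _).trans (by linarith)

theorem CharP_L_monomial (n : ℕ) (a : MvPolynomial σ ℤ) :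
    CharP_L (Polynomial.monomial n a) = len a := by
  rw [CharP_L_eq _ {n} (Polynomial.support_monomial_subset n a), Finset.sum_singleton,
    Polynomial.coeff_monomial, if_pos rfl]

theorem CharP_L_C (a : MvPolynomial σ ℤ) : CharP_L (Polynomial.C a) = len a := CharP_L_monomial 0 a

theorem CharP_L_X : CharP_L (Polynomial.X : Polynomial (MvPolynomial σ ℤ)) = 1 := by
  rw [← Polynomial.monomial_one_one_eq_X, CharP_L_monomial, len_one]

theorem CharP_L_mul (f g : Polynomial (MvPolynomial σ ℤ)) : CharP_L (f * g) ≤ CharP_L f * CharP_L g := by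
  have h1 : f * g = ∑ i ∈ f.support, ∑ j ∈ g.support, Polynomial.monomial (i + j) (f.coeff i * g.coeff j) := by
    conv_lhs => rw [f.as_sum_support, g.as_sum_support]
    rw [Finset.sum_mul_sum]
    exact Finset.sum_congr rfl fun i _ => Finset.sum_congr rfl fun j _ => by rw [Polynomial.monomial_mul_monomial]
  calc CharP_L (f * g) ≤ ∑ i ∈ f.support, ∑ j ∈ g.support, len (f.coeff i * g.coeff j) := by
        rw [h1]
        refine (CharP_L_sum _ _).trans (Finset.sum_le_sum fun i _ => (CharP_L_sum _ _).trans
          (Finset.sum_le_sum fun j _ => by rw [CharP_L_monomial]))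
    _ ≤ ∑ i ∈ f.support, ∑ j ∈ g.support, len (f.coeff i) * len (g.coeff j) :=
        Finset.sum_le_sum fun i _ => Finset.sum_le_sum fun j _ => len_mul _ _
    _ = CharP_L f * CharP_L g := by
        unfold CharP_L
        rw [Finset.sum_mul_sum]

theorem CharP_L_prod {ι : Type*} (s : Finset ι) (f : ι → Polynomial (MvPolynomial σ ℤ)) :
    CharP_L (∏ i ∈ s, f i) ≤ ∏ i ∈ s, CharP_L (f i) := by
  classical
  induction s using Finset.induction_on with
  | empty =>
    rw [Finset.prod_empty, Finset.prod_empty]
    have : (1 : Polynomial (MvPolynomial σ ℤ)) = Polynomial.C 1 := by rw [map_one]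
    rw [this, CharP_L_C, len_one]
  | insert a s ha ih =>
    rw [Finset.prod_insert ha, Finset.prod_insert ha]
    exact (CharP_L_mul _ _).trans (mul_le_mul_of_nonneg_left ih (CharP_L_nonneg _))

/-- all coefficients have total degree at most `e` -/
def CharP_D (f : Polynomial (MvPolynomial σ ℤ)) (e : ℕ) : Prop := ∀ i, (f.coeff i).totalDegree ≤ e

theorem CharP_D_add {f g : Polynomial (MvPolynomial σ ℤ)} {e : ℕ} (hf : CharP_D f e) (hg : CharP_D g e) :
    CharP_D (f + g) e := by
  intro i
  rw [Polynomial.coeff_add]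
  exact (MvPolynomial.totalDegree_add _ _).trans (max_le (hf i) (hg i))

theorem CharP_D_neg {f : Polynomial (MvPolynomial σ ℤ)} {e : ℕ} (hf : CharP_D f e) : CharP_D (-f) e := by
  intro i
  rw [Polynomial.coeff_neg, MvPolynomial.totalDegree_neg]
  exact hf i

theorem CharP_D_mul {f g : Polynomial (MvPolynomial σ ℤ)} {e e' : ℕ} (hf : CharP_D f e) (hg : CharP_D g e') :
    CharP_D (f * g) (e + e') := by
  intro i
  rw [Polynomial.coeff_mul]
  refine MvPolynomial.totalDegree_finsetSum_le fun x _ => ?_
  exact (MvPolynomial.totalDegree_mul _ _).trans (Nat.add_le_add (hf _) (hg _))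

theorem CharP_D_sum {ι : Type*} (s : Finset ι) (f : ι → Polynomial (MvPolynomial σ ℤ)) {e : ℕ}
    (h : ∀ i ∈ s, CharP_D (f i) e) : CharP_D (∑ i ∈ s, f i) e := by
  intro i
  rw [Polynomial.finsetSum_coeff]
  exact MvPolynomial.totalDegree_finsetSum_le fun x hx => h x hx i

theorem CharP_D_prod {ι : Type*} (s : Finset ι) (f : ι → Polynomial (MvPolynomial σ ℤ)) {e : ℕ}
    (h : ∀ i ∈ s, CharP_D (f i) e) : CharP_D (∏ i ∈ s, f i) (s.card * e) := by
  classical
  induction s using Finset.induction_on with
  | empty =>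
    intro i
    rw [Finset.prod_empty, Polynomial.coeff_one]
    split_ifs
    · rw [MvPolynomial.totalDegree_one]; exact Nat.zero_le _
    · rw [MvPolynomial.totalDegree_zero]; exact Nat.zero_le _
  | insert a s ha ih =>
    rw [Finset.prod_insert ha, Finset.card_insert_of_notMem ha]
    have h1 := CharP_D_mul (h a (Finset.mem_insert_self a s)) (ih fun i hi => h i (Finset.mem_insert_of_mem hi))
    have h2 : e + s.card * e = (s.card + 1) * e := by ring
    rwa [h2] at h1

/-- ROW CharP. Bounds for the characteristic polynomial of a matrix over `ℤ[X]`. For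
`f : Polynomial (MvPolynomial σ ℤ)` put `L f = ∑_{i ∈ f.support} len (f.coeff i)`; `L (f+g) ≤ L f + L g`,
`L (f g) ≤ L f L g`, `L (C a) = len a`, `L X = 1`. `charpoly B = det (charmatrix B) =
∑_π sign π ∏_i (charmatrix B) (π i) i` so `L (charpoly B) ≤ ∑_π ∏_i L (M (π i) i) = ∑_π ∏_i L (M i (π i))`
(reindex by `π⁻¹`, or use `det_transpose`/`Matrix.det_apply`) `≤ ∏_i ∑_j L (M i j)` (sum over permutations
`≤` sum over all functions, `Finset.prod_univ_sum`/`Fintype.piFinset`), and for `M = X·1 - C B` the row
sum is `≤ 1 + ∑_j len (B i j) ≤ 1 + b`. Degrees: all coefficients of `f` have total degree `≤ e` is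
preserved by sums, and `(e₁, e₂) ↦ e₁ + e₂` under products; entries of `M` have `e = d`; `J` factors. -/
theorem charpoly_bounds {σ : Type} {J : ℕ} (B : Matrix (Fin J) (Fin J) (MvPolynomial σ ℤ))
    (b : ℝ) (hb : 0 ≤ b) (hB : ∀ i, ∑ j, len (B i j) ≤ b) (d : ℕ)
    (hd : ∀ i j, (B i j).totalDegree ≤ d) :
    (∀ i, (B.charpoly.coeff i).totalDegree ≤ J * d) ∧
      ∑ i ∈ Finset.range (J + 1), len (B.charpoly.coeff i) ≤ (1 + b) ^ J := by
  classical
  have hdet : B.charpoly = ∑ π : Equiv.Perm (Fin J), Equiv.Perm.sign π • ∏ i, B.charmatrix i (π i) := by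
    unfold Matrix.charpoly
    rw [← Matrix.det_transpose, Matrix.det_apply]
    rfl
  have hsg : ∀ π : Equiv.Perm (Fin J), ∀ f : Polynomial (MvPolynomial σ ℤ),
      Equiv.Perm.sign π • f = f ∨ Equiv.Perm.sign π • f = -f := by
    intro π f
    rcases Int.units_eq_one_or (Equiv.Perm.sign π) with h | h
    · left; rw [h, one_smul]
    · right; rw [h]; simp
  have hent : ∀ i j, B.charmatrix i j = (if i = j then Polynomial.X else 0) - Polynomial.C (B i j) := by
    intro i j
    rw [Matrix.charmatrix_apply, Matrix.diagonal_apply]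
  have hDe : ∀ i j, CharP_D (B.charmatrix i j) d := by
    intro i j
    rw [hent, sub_eq_add_neg]
    refine CharP_D_add ?_ (CharP_D_neg ?_)
    · intro k
      split_ifs
      · rw [Polynomial.coeff_X]
        split_ifs
        · rw [MvPolynomial.totalDegree_one]; exact Nat.zero_le _
        · rw [MvPolynomial.totalDegree_zero]; exact Nat.zero_le _
      · rw [Polynomial.coeff_zero, MvPolynomial.totalDegree_zero]; exact Nat.zero_le _
    · intro k
      rw [Polynomial.coeff_C]
      split_ifs
      · exact hd i j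
      · rw [MvPolynomial.totalDegree_zero]; exact Nat.zero_le _
  have hLe : ∀ i j, CharP_L (B.charmatrix i j) ≤ (if i = j then 1 else 0) + len (B i j) := by
    intro i j
    rw [hent, sub_eq_add_neg]
    refine (CharP_L_add _ _).trans ?_
    rw [CharP_L_neg, CharP_L_C]
    refine add_le_add ?_ le_rfl
    split_ifs
    · rw [CharP_L_X]
    · rw [CharP_L_zero]
  constructor
  · have h1 : CharP_D B.charpoly (J * d) := by
      rw [hdet]
      refine CharP_D_sum _ _ fun π _ => ?_
      have h2 := CharP_D_prod Finset.univ (fun i => B.charmatrix i (π i)) (e := d) fun i _ => hDe i (π i)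
      rw [Finset.card_univ, Fintype.card_fin] at h2
      rcases hsg π (∏ i, B.charmatrix i (π i)) with h | h
      · rw [h]; exact h2
      · rw [h]; exact CharP_D_neg h2
    exact h1
  · have hnd : B.charpoly.natDegree < J + 1 := by
      have := Matrix.charpoly_natDegree_eq_dim B
      rw [Fintype.card_fin] at this
      omega
    rw [← CharP_L_range _ hnd]
    calc CharP_L B.charpoly ≤ ∑ π : Equiv.Perm (Fin J), ∏ i, CharP_L (B.charmatrix i (π i)) := by
          rw [hdet]
          refine (CharP_L_sum _ _).trans (Finset.sum_le_sum fun π _ => ?_)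
          rcases hsg π (∏ i, B.charmatrix i (π i)) with h | h
          · rw [h]; exact CharP_L_prod _ _
          · rw [h, CharP_L_neg]; exact CharP_L_prod _ _
      _ ≤ ∑ f : Fin J → Fin J, ∏ i, CharP_L (B.charmatrix i (f i)) := by
          have hinj : Function.Injective (fun π : Equiv.Perm (Fin J) => (π : Fin J → Fin J)) :=
            fun a b h => Equiv.ext fun x => congrFun h x
          rw [← Finset.sum_image (s := (Finset.univ : Finset (Equiv.Perm (Fin J))))
            (f := fun f : Fin J → Fin J => ∏ i, CharP_L (B.charmatrix i (f i)))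
            (g := fun π : Equiv.Perm (Fin J) => (π : Fin J → Fin J)) (hinj.injOn)]
          exact Finset.sum_le_sum_of_subset_of_nonneg (Finset.subset_univ _)
            fun f _ _ => Finset.prod_nonneg fun i _ => CharP_L_nonneg _
      _ = ∏ i, ∑ j, CharP_L (B.charmatrix i j) := by
          rw [Finset.prod_univ_sum]
          simp
      _ ≤ ∏ _i : Fin J, (1 + b) := by
          refine Finset.prod_le_prod (fun i _ => Finset.sum_nonneg fun j _ => CharP_L_nonneg _) fun i _ => ?_
          calc ∑ j, CharP_L (B.charmatrix i j) ≤ ∑ j, ((if i = j then 1 else 0) + len (B i j)) :=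
                Finset.sum_le_sum fun j _ => hLe i j
            _ = 1 + ∑ j, len (B i j) := by
                rw [Finset.sum_add_distrib]
                simp
            _ ≤ 1 + b := by linarith [hB i]
      _ = (1 + b) ^ J := by
          rw [Finset.prod_const, Finset.card_univ, Fintype.card_fin]

end LTD
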