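import Pool.Agent.LTD.Mom

set_option autoImplicit false

namespace LTD

open Finset

/-- ROW Coef (L4). `moment` with `κ = Λ`, `ζ = ω`, `T = univ.erase l₀`: all terms with `l ≠ l₀` vanish, so
`|p_{l₀}| ∏_{l ≠ l₀} |ω_{l₀} - ω_l| ≤ (L-1)! R^{-(L-1)} e^{RΔ} B`, `L = card Λ`; the product is `≥ δ^{L-1}`,
and `R ≥ 1`, `0 < δ ≤ 1`, `(L-1)! ≤ L!`. -/
theorem coef_bound {Λ : Type} [Fintype Λ] [DecidableEq Λ] (p ω : Λ → ℂ) (R B Δ δ : ℝ)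
    (hR : 1 ≤ R) (hω : ∀ l, ‖ω l‖ ≤ Δ) (hδ : 0 < δ) (hδ1 : δ ≤ 1)
    (hsep : ∀ l l', l ≠ l' → δ ≤ ‖ω l - ω l'‖)
    (hF : ∀ w : ℂ, ‖w‖ ≤ R → ‖∑ l, p l * Complex.exp (ω l * w)‖ ≤ B) (l₀ : Λ) :
    ‖p l₀‖ ≤ (Nat.factorial (Fintype.card Λ) : ℝ) * Real.exp (R * Δ) *
      (δ⁻¹) ^ (Fintype.card Λ) * B := by
  have hR0 : 0 < R := by linarith
  have hB0 : 0 ≤ B := (norm_nonneg _).trans (hF 0 (by rw [norm_zero]; exact hR0.le))
  have hΔ : 0 ≤ Δ := (norm_nonneg _).trans (hω l₀)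
  have h1 := moment p ω ω (univ.erase l₀) R B Δ hR0 hΔ (fun i _ => hω i) hF
  have hcard : (univ.erase l₀ : Finset Λ).card = Fintype.card Λ - 1 := by
    rw [Finset.card_erase_of_mem (mem_univ _), Finset.card_univ]
  have hcard0 : 0 < Fintype.card Λ := Fintype.card_pos_iff.2 ⟨l₀⟩
  have h2 : ∑ l, p l * ∏ i ∈ univ.erase l₀, (ω l - ω i) =
      p l₀ * ∏ i ∈ univ.erase l₀, (ω l₀ - ω i) := by
    refine Finset.sum_eq_single l₀ (fun l _ hl => ?_) (fun h => absurd (mem_univ _) h)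
    rw [Finset.prod_eq_zero (i := l) (Finset.mem_erase.2 ⟨hl, mem_univ _⟩) (sub_self _), mul_zero]
  rw [h2, norm_mul, hcard] at h1
  set L := Fintype.card Λ with hL
  have h3 : δ ^ (L - 1) ≤ ‖∏ i ∈ univ.erase l₀, (ω l₀ - ω i)‖ := by
    rw [norm_prod, ← hcard, ← Finset.prod_const]
    refine Finset.prod_le_prod (fun i _ => hδ.le) fun i hi => ?_
    exact hsep l₀ i (Finset.ne_of_mem_erase hi).symm
  have h4 : ‖p l₀‖ * δ ^ (L - 1) ≤ (Nat.factorial L : ℝ) * Real.exp (R * Δ) * B := by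
    refine (mul_le_mul_of_nonneg_left h3 (norm_nonneg _)).trans (h1.trans ?_)
    refine mul_le_mul_of_nonneg_right ?_ hB0
    refine mul_le_mul_of_nonneg_right ?_ (Real.exp_pos _).le
    have h5 : (Nat.factorial (L - 1) : ℝ) ≤ (Nat.factorial L : ℝ) := by
      exact_mod_cast Nat.factorial_le (Nat.sub_le L 1)
    have h6 : 1 ≤ R ^ (L - 1) := one_le_pow₀ hR
    exact (div_le_self (by positivity) h6).trans h5
  have h7 : ‖p l₀‖ = (‖p l₀‖ * δ ^ (L - 1)) * (δ⁻¹) ^ (L - 1) := by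
    rw [mul_assoc, ← mul_pow, mul_inv_cancel₀ hδ.ne', one_pow, mul_one]
  have h8 : (δ⁻¹) ^ (L - 1) ≤ (δ⁻¹) ^ L :=
    pow_le_pow_right₀ ((one_le_inv₀ hδ).2 hδ1) (Nat.sub_le L 1)
  rw [h7]
  calc ‖p l₀‖ * δ ^ (L - 1) * (δ⁻¹) ^ (L - 1) ≤
        ((Nat.factorial L : ℝ) * Real.exp (R * Δ) * B) * (δ⁻¹) ^ L :=
        mul_le_mul h4 h8 (by positivity) (by positivity)
    _ = _ := by ring

end LTD
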