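import Mathlib

set_option autoImplicit false

namespace LTD

open Finset

/-- ROW Fac. An entire function vanishing on a finite set `T` is `∏_{a ∈ T}(w - a)` times an entire
function: induction on `T`; `dslope H a` is entire (`Differentiable`, e.g. `differentiableOn_dslope`,
`Complex.differentiableOn_dslope`), `H w = (w - a) * dslope H a w` if `H a = 0` (`sub_smul_dslope`), and
`dslope H a` vanishes on `T \ {a}`. -/
theorem factor (H : ℂ → ℂ) (hH : Differentiable ℂ H) (T : Finset ℂ) (hT : ∀ a ∈ T, H a = 0) :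
    ∃ G : ℂ → ℂ, Differentiable ℂ G ∧ ∀ w, H w = (∏ a ∈ T, (w - a)) * G w := by
  classical
  induction T using Finset.induction_on generalizing H with
  | empty => exact ⟨H, hH, fun w => by simp⟩
  | insert a T ha ih =>
    have hHa : H a = 0 := hT a (Finset.mem_insert_self a T)
    have hd : Differentiable ℂ (dslope H a) := by
      rw [← differentiableOn_univ]
      rw [Complex.differentiableOn_dslope Filter.univ_mem]
      exact hH.differentiableOn
    have hHw : ∀ w, H w = (w - a) * dslope H a w := by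
      intro w
      have := sub_smul_dslope H a w
      rw [smul_eq_mul, hHa, sub_zero] at this
      exact this.symm
    obtain ⟨G, hG, hG2⟩ := ih (dslope H a) hd (by
      intro b hb
      have hba : b ≠ a := fun h => ha (h ▸ hb)
      have h1 : H b = 0 := hT b (Finset.mem_insert_of_mem hb)
      have h2 := hHw b
      rw [h1] at h2
      exact (mul_eq_zero.1 h2.symm).resolve_left (sub_ne_zero.2 hba))
    refine ⟨G, hG, fun w => ?_⟩
    rw [hHw, hG2, Finset.prod_insert ha]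
    ring

/-- Schwarz lemma: if moreover `T ⊂ {|w| ≤ ρ}`, `R ≥ 13ρ > 0` and `|H| ≤ B` on `|w| = R`, then
`|H(w)| ≤ 6^{-|T|} B` for `|w| ≤ ρ`: on `|w| = R` we have `|∏| ≥ (R - ρ)^{|T|}`, so
`|G| ≤ B (R-ρ)^{-|T|}` on `|w| ≤ R` (maximum principle,
`Complex.norm_le_of_forall_mem_frontier_norm_le`), and `|∏| ≤ (2ρ)^{|T|}`, `2ρ/(R-ρ) ≤ 1/6`. -/
theorem schwarz0 (H : ℂ → ℂ) (hH : Differentiable ℂ H) (T : Finset ℂ) (hT : ∀ a ∈ T, H a = 0)
    (ρ R B : ℝ) (hρ : 0 < ρ) (hR : 13 * ρ ≤ R) (hTρ : ∀ a ∈ T, ‖a‖ ≤ ρ)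
    (hB : ∀ w : ℂ, ‖w‖ = R → ‖H w‖ ≤ B) (w : ℂ) (hw : ‖w‖ ≤ ρ) :
    ‖H w‖ ≤ ((6 : ℝ)⁻¹) ^ T.card * B := by
  obtain ⟨G, hG, hGH⟩ := factor H hH T hT
  have hR0 : 0 < R := by nlinarith
  have hRρ : 12 * ρ ≤ R - ρ := by linarith
  have hRρ0 : 0 < R - ρ := by nlinarith
  have hB0 : 0 ≤ B := (norm_nonneg _).trans (hB (R : ℂ) (by
    rw [Complex.norm_real, Real.norm_eq_abs, abs_of_pos hR0]))
  have hP : ∀ z : ℂ, ‖z‖ = R → (R - ρ) ^ T.card ≤ ‖∏ a ∈ T, (z - a)‖ := by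
    intro z hz
    rw [norm_prod, ← Finset.prod_const]
    refine Finset.prod_le_prod (fun i _ => hRρ0.le) fun a ha => ?_
    have h1 := norm_sub_norm_le z a
    have h2 := hTρ a ha
    linarith
  have hGb : ∀ z ∈ frontier (Metric.ball (0 : ℂ) R), ‖G z‖ ≤ B / (R - ρ) ^ T.card := by
    intro z hz
    rw [frontier_ball (0 : ℂ) hR0.ne', mem_sphere_zero_iff_norm] at hz
    rw [le_div_iff₀ (pow_pos hRρ0 _)]
    have h1 := hB z hz
    rw [hGH z, norm_mul] at h1
    calc ‖G z‖ * (R - ρ) ^ T.card ≤ ‖G z‖ * ‖∏ a ∈ T, (z - a)‖ :=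
          mul_le_mul_of_nonneg_left (hP z hz) (norm_nonneg _)
      _ = ‖∏ a ∈ T, (z - a)‖ * ‖G z‖ := mul_comm _ _
      _ ≤ B := h1
  have hGw : ‖G w‖ ≤ B / (R - ρ) ^ T.card := by
    refine Complex.norm_le_of_forall_mem_frontier_norm_le Metric.isBounded_ball hG.diffContOnCl hGb ?_
    rw [closure_ball (0 : ℂ) hR0.ne', mem_closedBall_zero_iff]
    linarith
  have hPw : ‖∏ a ∈ T, (w - a)‖ ≤ (2 * ρ) ^ T.card := by
    rw [norm_prod, ← Finset.prod_const]
    refine Finset.prod_le_prod (fun i _ => norm_nonneg _) fun a ha => ?_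
    have h1 := norm_sub_le w a
    have h2 := hTρ a ha
    linarith
  rw [hGH w, norm_mul]
  calc ‖∏ a ∈ T, (w - a)‖ * ‖G w‖ ≤ (2 * ρ) ^ T.card * (B / (R - ρ) ^ T.card) :=
        mul_le_mul hPw hGw (norm_nonneg _) (by positivity)
    _ = (2 * ρ / (R - ρ)) ^ T.card * B := by rw [div_pow]; ring
    _ ≤ ((6 : ℝ)⁻¹) ^ T.card * B := by
        refine mul_le_mul_of_nonneg_right (pow_le_pow_left₀ (by positivity) ?_ _) hB0
        rw [div_le_iff₀ hRρ0]
        linarith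

end LTD
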