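import Pool.Agent.LTD.Def

set_option autoImplicit false

namespace LTD

open Finset

/-- ROW FpR. Elementary facts on `Fp` and on the points `∑ μ_j y_j`. -/
theorem Fp_diff (m D : ℕ) (p : (Fin m → Fin D) → ℤ) (x : Fin m → ℂ) :
    Differentiable ℂ (Fp m D p x) := by
  unfold Fp
  fun_prop

/-- `|∑ l_i x_i| ≤ m D W`. -/
theorem freq_le (m D : ℕ) (x : Fin m → ℂ) (W : ℝ) (hx : ∀ i, ‖x i‖ ≤ W) (l : Fin m → Fin D) :
    ‖∑ i, ((l i : ℕ) : ℂ) * x i‖ ≤ m * D * W := by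
  have h1 : ∀ i ∈ (Finset.univ : Finset (Fin m)), ‖((l i : ℕ) : ℂ) * x i‖ ≤ D * W := by
    intro i _
    rw [norm_mul, Complex.norm_natCast]
    have h2 : ((l i : ℕ) : ℝ) ≤ D := by exact_mod_cast (l i).2.le
    exact mul_le_mul h2 (hx i) (norm_nonneg _) (Nat.cast_nonneg _)
  refine (norm_sum_le _ _).trans ((Finset.sum_le_sum h1).trans (le_of_eq ?_))
  rw [Finset.sum_const, Finset.card_univ, Fintype.card_fin, nsmul_eq_mul]
  ring

theorem Fp_le (m D H : ℕ) (p : (Fin m → Fin D) → ℤ) (hp : ∀ l, |((p l : ℤ) : ℝ)| ≤ H)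
    (x : Fin m → ℂ) (W : ℝ) (hx : ∀ i, ‖x i‖ ≤ W) (w : ℂ) (R : ℝ) (hw : ‖w‖ ≤ R) :
    ‖Fp m D p x w‖ ≤ (D : ℝ) ^ m * H * Real.exp (m * D * W * R) := by
  unfold Fp
  have h1 : ∀ l ∈ (Finset.univ : Finset (Fin m → Fin D)),
      ‖(p l : ℂ) * Complex.exp ((∑ i, ((l i : ℕ) : ℂ) * x i) * w)‖ ≤
        H * Real.exp (m * D * W * R) := by
    intro l _
    have h2 := freq_le m D x W hx l
    have h3 : ‖(∑ i, ((l i : ℕ) : ℂ) * x i) * w‖ ≤ m * D * W * R := by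
      rw [norm_mul]
      exact mul_le_mul h2 hw (norm_nonneg _) ((norm_nonneg _).trans h2)
    rw [norm_mul]
    refine mul_le_mul ?_ ?_ (norm_nonneg _) (Nat.cast_nonneg _)
    · rw [Complex.norm_intCast]
      exact hp l
    · rw [Complex.norm_exp]
      exact Real.exp_le_exp.2 ((Complex.re_le_norm _).trans h3)
  refine (norm_sum_le _ _).trans ((Finset.sum_le_sum h1).trans (le_of_eq ?_))
  rw [Finset.sum_const, Finset.card_univ, Fintype.card_fun, Fintype.card_fin, Fintype.card_fin,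
    nsmul_eq_mul]
  push_cast
  ring

/-- The frequencies are separated: for `l ≠ l'` the difference is a nonzero integer combination with
`∑ |l_i - l'_i| ≤ mD`. -/
theorem freq_sep (m D : ℕ) (x : Fin m → ℂ) (C : ℝ) (hC : 0 ≤ C)
    (hsep : ∀ l : Fin m → ℤ, l ≠ 0 →
      Real.exp (-(C * ∑ i, |((l i : ℤ) : ℝ)|)) ≤ ‖∑ i, (l i : ℂ) * x i‖)
    (l l' : Fin m → Fin D) (hl : l ≠ l') :
    Real.exp (-(C * (m * D))) ≤
      ‖∑ i, ((l i : ℕ) : ℂ) * x i - ∑ i, ((l' i : ℕ) : ℂ) * x i‖ := by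
  have hL : (fun i => (((l i : ℕ) : ℤ) - ((l' i : ℕ) : ℤ))) ≠ 0 := by
    intro h0
    apply hl
    funext i
    have h1 := congr_fun h0 i
    simp only [Pi.zero_apply] at h1
    apply Fin.ext
    omega
  have h1 := hsep _ hL
  have e1 : ∑ i, ((l i : ℕ) : ℂ) * x i - ∑ i, ((l' i : ℕ) : ℂ) * x i =
      ∑ i, (((((l i : ℕ) : ℤ) - ((l' i : ℕ) : ℤ)) : ℤ) : ℂ) * x i := by
    rw [← Finset.sum_sub_distrib]
    refine Finset.sum_congr rfl fun i _ => ?_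
    push_cast
    ring
  rw [e1]
  refine le_trans (Real.exp_le_exp.2 (neg_le_neg (mul_le_mul_of_nonneg_left ?_ hC))) h1
  have h2 : ∀ i ∈ (Finset.univ : Finset (Fin m)),
      |(((((l i : ℕ) : ℤ) - ((l' i : ℕ) : ℤ)) : ℤ) : ℝ)| ≤ D := by
    intro i _
    have h3 : |((((l i : ℕ) : ℤ) - ((l' i : ℕ) : ℤ)) : ℤ)| ≤ (D : ℤ) := by
      have := (l i).2
      have := (l' i).2
      rw [abs_le]
      constructor <;> omega
    exact_mod_cast h3
  refine (Finset.sum_le_sum h2).trans (le_of_eq ?_)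
  rw [Finset.sum_const, Finset.card_univ, Fintype.card_fin, nsmul_eq_mul]

/-- The set of the points `μ·y`, `μ ∈ [0,T)^m`: it has `T^m` elements, of absolute value `≤ mTW`, at
mutual distance `≥ e^{-CmT}`. -/
theorem pts (m T : ℕ) (y : Fin m → ℂ) (W C : ℝ) (hy : ∀ i, ‖y i‖ ≤ W) (hC : 0 ≤ C)
    (hsep : ∀ l : Fin m → ℤ, l ≠ 0 →
      Real.exp (-(C * ∑ i, |((l i : ℤ) : ℝ)|)) ≤ ‖∑ i, (l i : ℂ) * y i‖) :
    ∃ P : Finset ℂ, P.card = T ^ m ∧ (∀ a ∈ P, ‖a‖ ≤ m * T * W) ∧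
      (∀ a ∈ P, ∀ b ∈ P, a ≠ b → Real.exp (-(C * (m * T))) ≤ ‖a - b‖) ∧
      (∀ a ∈ P, ∃ μ : Fin m → ℕ, (∀ j, μ j < T) ∧ a = ∑ j, ((μ j : ℕ) : ℂ) * y j) := by
  classical
  set f : (Fin m → Fin T) → ℂ := fun μ => ∑ j, ((μ j : ℕ) : ℂ) * y j with hf
  have hinj : Function.Injective f := by
    intro l l' hll
    by_contra hne
    have h1 := freq_sep m T y C hC hsep l l' hne
    have h2 : ∑ i, ((l i : ℕ) : ℂ) * y i - ∑ i, ((l' i : ℕ) : ℂ) * y i = 0 :=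
      sub_eq_zero.2 hll
    rw [h2, norm_zero] at h1
    exact absurd h1 (not_le.2 (Real.exp_pos _))
  refine ⟨Finset.univ.image f, ?_, ?_, ?_, ?_⟩
  · rw [Finset.card_image_of_injective _ hinj, Finset.card_univ, Fintype.card_fun,
      Fintype.card_fin, Fintype.card_fin]
  · intro a ha
    obtain ⟨μ, -, rfl⟩ := Finset.mem_image.1 ha
    exact freq_le m T y W hy μ
  · intro a ha b hb hab
    obtain ⟨μ, -, rfl⟩ := Finset.mem_image.1 ha
    obtain ⟨ν, -, rfl⟩ := Finset.mem_image.1 hb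
    exact freq_sep m T y C hC hsep μ ν fun h => hab (by rw [h])
  · intro a ha
    obtain ⟨μ, -, rfl⟩ := Finset.mem_image.1 ha
    exact ⟨fun j => (μ j : ℕ), fun j => (μ j).2, rfl⟩

end LTD
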