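import Pool.Agent.LTD.Step

set_option autoImplicit false

namespace LTD

private theorem Gam_le_one {x : ℝ} (hx : 0 ≤ x) : Real.exp (-x) ≤ 1 := by
  rw [Real.exp_le_one_iff]
  linarith

private theorem Gam_step (α : Type) (A σ : ℝ) (hA : 1 ≤ A) (hσ : 1 ≤ σ) (Θ : ℝ) (hΘ : 1 ≤ Θ)
    (N : ℝ) (hN4 : 4 ≤ N) (hNL : 7 + 6 * Real.log (Θ + 1 + 1) ≤ N) (θ : Option α → ℂ)
    (hθ : ∀ i, ‖θ i‖ ≤ Θ) (γ₀ Γ₀ : ℝ) (hγ₀ : 4 * (4 * σ) ≤ γ₀) (hγ₀2 : γ₀ ≤ Γ₀) (θ' : α → ℂ)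
    (hcl : ∀ i, ‖θ' i - θ (some i)‖ ≤ Real.exp (-(N ^ (16 * A ^ 2 * γ₀))))
    (hGap : Gap θ' (N ^ (4 * σ)) (N ^ γ₀)) :
    ∃ γ : ℝ, 4 * σ ≤ γ ∧ γ ≤ 4 * A * Γ₀ ∧ ∃ θ'' : Option α → ℂ,
      (∀ i, ‖θ'' i - θ i‖ ≤ Real.exp (-(N ^ (A * γ)))) ∧ Gap θ'' (N ^ σ) (N ^ γ) := by
  have hN0 : 0 < N := by linarith
  have hN1 : 1 ≤ N := by linarith
  have hγ₀0 : 0 < γ₀ := by linarith
  have hA0 : 0 < A := by linarith
  have hAA : A ≤ A ^ 2 := by nlinarith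
  have hA2 : 1 ≤ A ^ 2 := by nlinarith
  set Z : ℝ := N ^ σ with hZ
  set W : ℝ := N ^ γ₀ with hW
  have hZN : N ≤ Z := by
    calc N = N ^ (1 : ℝ) := (Real.rpow_one N).symm
      _ ≤ N ^ σ := Real.rpow_le_rpow_of_exponent_le hN1 hσ
  have hZ4 : 4 ≤ Z := hN4.trans hZN
  have hNW : N ≤ W := by
    calc N = N ^ (1 : ℝ) := (Real.rpow_one N).symm
      _ ≤ N ^ γ₀ := Real.rpow_le_rpow_of_exponent_le hN1 (by linarith)
  have hZ3 : Z ^ 3 ≤ W := by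
    have e : Z ^ 3 = N ^ (σ * 3) := by
      rw [hZ, ← Real.rpow_natCast, ← Real.rpow_mul hN0.le]
      norm_num
    rw [e]
    exact Real.rpow_le_rpow_of_exponent_le hN1 (by linarith)
  have hW1 : 1 ≤ W := hN1.trans hNW
  have hZ43 : 4 * Z ^ 3 ≤ N ^ (4 * σ) := by
    have e : N ^ (4 * σ) = Z ^ 4 := by
      rw [hZ, ← Real.rpow_natCast, ← Real.rpow_mul hN0.le]
      congr 1
      push_cast
      ring
    rw [e]
    nlinarith [pow_pos (lt_of_lt_of_le (by norm_num : (0 : ℝ) < 4) hZ4) 3]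
  have hθ'b : ∀ i, ‖θ' i‖ ≤ Θ + 1 := by
    intro i
    have h1 : θ' i = θ (some i) + (θ' i - θ (some i)) := by ring
    rw [h1]
    exact (norm_add_le _ _).trans (add_le_add (hθ _) ((hcl i).trans
      (Gam_le_one (Real.rpow_nonneg hN0.le _))))
  have hgg : W ≤ N ^ (4 * A * γ₀) := by
    refine Real.rpow_le_rpow_of_exponent_le hN1 ?_
    nlinarith
  rcases gap_step (θ := θ') (v := θ none) (Θ := Θ + 1) (s := N ^ (4 * σ)) (g := W) (s₁ := Z)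
    (g₁ := N ^ (4 * A * γ₀)) hGap (by linarith) (by linarith) hθ'b ((hθ none).trans (by linarith))
    (by linarith) hZ43 hgg with h1 | ⟨a, ha, h1⟩
  · refine ⟨4 * A * γ₀, ?_, ?_, ext θ' (θ none), ?_, h1⟩
    · nlinarith
    · exact mul_le_mul_of_nonneg_left hγ₀2 (by positivity)
    · intro i
      cases i with
      | none =>
        have e : ext θ' (θ none) none - θ none = 0 := by simp [ext]
        rw [e, norm_zero]
        exact (Real.exp_pos _).le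
      | some i =>
        have e : ext θ' (θ none) (some i) = θ' i := rfl
        rw [e]
        refine (hcl i).trans (Real.exp_le_exp.2 (neg_le_neg ?_))
        refine Real.rpow_le_rpow_of_exponent_le hN1 ?_
        have e2 : A * (4 * A * γ₀) = 4 * (A ^ 2 * γ₀) := by ring
        rw [e2]
        nlinarith [mul_pos (pow_pos hA0 2) hγ₀0]
  · refine ⟨2 * γ₀, by linarith, ?_, ext θ' a, ?_, ?_⟩
    · nlinarith [mul_le_mul_of_nonneg_left hγ₀2 (by positivity : 0 ≤ 4 * A)]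
    · intro i
      cases i with
      | none =>
        have e : ext θ' a none = a := rfl
        rw [e]
        refine ha.trans (Real.exp_le_exp.2 (neg_le_neg ?_))
        set Y : ℝ := N ^ (A * (2 * γ₀)) with hY
        have eY : N ^ (4 * A * γ₀) = Y ^ 2 := by
          rw [hY, ← Real.rpow_natCast, ← Real.rpow_mul hN0.le]
          congr 1
          push_cast
          ring
        have hWY : W ≤ Y := by
          refine Real.rpow_le_rpow_of_exponent_le hN1 ?_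
          nlinarith
        have hZW : Z + 1 ≤ W := by
          nlinarith [hZ3, mul_nonneg (sub_nonneg.2 hZ4) (sub_nonneg.2 hZ4),
            pow_pos (lt_of_lt_of_le (by norm_num : (0 : ℝ) < 4) hZ4) 3]
        have hZ0 : 0 < Z := by linarith
        have hY0 : 0 < Y := by linarith
        rw [le_div_iff₀ hZ0, eY]
        nlinarith [mul_le_mul_of_nonneg_left (hZW.trans hWY) hY0.le]
      | some i =>
        have e : ext θ' a (some i) = θ' i := rfl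
        rw [e]
        refine (hcl i).trans (Real.exp_le_exp.2 (neg_le_neg ?_))
        refine Real.rpow_le_rpow_of_exponent_le hN1 ?_
        have h3 : A * γ₀ ≤ A ^ 2 * γ₀ := mul_le_mul_of_nonneg_right hAA hγ₀0.le
        nlinarith [mul_pos (pow_pos hA0 2) hγ₀0]
    · refine h1.mono le_rfl ?_
      have e : N ^ (2 * γ₀) = W ^ 2 := by
        rw [hW, ← Real.rpow_natCast, ← Real.rpow_mul hN0.le]
        congr 1
        push_cast
        ring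
      rw [e]
      have hlog : 0 ≤ Real.log (Θ + 1 + 1) := Real.log_nonneg (by linarith)
      have h2 : 6 * Z ^ 3 * (1 + Real.log (Θ + 1 + 1)) ≤ 6 * W * (1 + Real.log (Θ + 1 + 1)) := by
        refine mul_le_mul_of_nonneg_right ?_ (by linarith)
        linarith
      have h3 : W * (7 + 6 * Real.log (Θ + 1 + 1)) ≤ W * W :=
        mul_le_mul_of_nonneg_left (hNL.trans hNW) (by linarith)
      nlinarith

/-- ROW Gam (lemma G3): every point has a very close neighbour with a gap. Induction with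
`Finite.induction_empty_option` (or on `Fintype.card`), `Gap.rename` for equivalences. Empty type: `θ' = θ`,
`γ = 4σ`, `Γ = 4σ`, `gap_empty`. Step `τ → Option τ`: use the induction hypothesis with
`(A', σ') = (16A², 4σ)` and the bound `Θ` for `θ ∘ some`, getting `γ₀ ∈ [16σ, Γ₀]` and `θ'` with
`‖θ'_i - θ_i‖ ≤ exp(-N^{16A²γ₀})` (so `‖θ'_i‖ ≤ Θ + 1`) and `Gap θ' (N^{4σ}) (N^{γ₀})`. Apply `gap_step`
with bound `Θ + 1`, `s = N^{4σ}`, `g = N^{γ₀}`, `s₁ = N^σ`, `g₁ = N^{4Aγ₀}`, `v = θ none`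
(`4 N^{3σ} ≤ N^{4σ}` for `N ≥ 4`).
First case: `θ'' = ext θ' v`, `γ = 4Aγ₀`: closeness `exp(-N^{16A²γ₀}) ≤ exp(-N^{4A²γ₀})`. ✓
Second case: `θ'' = ext θ' a`, `γ = 2γ₀`: `(g₁ - g)/s₁ ≥ N^{2Aγ₀}` because
`N^{4Aγ₀} ≥ 2 N^{γ₀}` and `N^{4Aγ₀}/2 ≥ N^{2Aγ₀ + σ}` (`2Aγ₀ - σ ≥ 31σ`, `N ≥ 2`); and
`N^{γ₀} + 6 N^{3σ} (1 + log(Θ+2)) ≤ N^{2γ₀}` if `N ≥ 7 + 6 log(Θ+2)` (`3σ ≤ γ₀`, `γ₀ ≥ 1`).
`Γ = 4AΓ₀`. In both cases `γ ≥ 4σ`. -/
theorem gap_theta (τ : Type) [Finite τ] : ∀ A σ : ℝ, 1 ≤ A → 1 ≤ σ → ∃ Γ : ℝ, ∀ Θ : ℝ, 1 ≤ Θ →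
    ∃ N₀ : ℝ, ∀ N : ℝ, N₀ ≤ N → ∀ θ : τ → ℂ, (∀ i, ‖θ i‖ ≤ Θ) →
      ∃ γ : ℝ, 4 * σ ≤ γ ∧ γ ≤ Γ ∧ ∃ θ' : τ → ℂ,
        (∀ i, ‖θ' i - θ i‖ ≤ Real.exp (-(N ^ (A * γ)))) ∧ Gap θ' (N ^ σ) (N ^ γ) := by
  induction τ using Finite.induction_empty_option with
  | of_equiv e ih =>
    intro A σ hA hσ
    obtain ⟨Γ, hΓ⟩ := ih A σ hA hσ
    refine ⟨Γ, fun Θ hΘ => ?_⟩
    obtain ⟨N₀, hN₀⟩ := hΓ Θ hΘ
    refine ⟨N₀, fun N hN θ hθ => ?_⟩
    obtain ⟨γ, h1, h2, θ', h3, h4⟩ := hN₀ N hN (θ ∘ e) fun i => hθ _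
    refine ⟨γ, h1, h2, θ' ∘ e.symm, fun i => ?_, h4.rename e.symm⟩
    have := h3 (e.symm i)
    simpa using this
  | h_empty =>
    intro A σ hA hσ
    refine ⟨4 * σ, fun Θ _ => ⟨0, fun N hN θ _ => ⟨4 * σ, le_rfl, le_rfl, θ, fun i => i.elim, ?_⟩⟩⟩
    exact gap_empty θ _ _ (Real.rpow_nonneg hN _)
  | h_option ih =>
    intro A σ hA hσ
    obtain ⟨Γ₀, hΓ₀⟩ := ih (16 * A ^ 2) (4 * σ) (by nlinarith) (by linarith)
    refine ⟨4 * A * Γ₀, fun Θ hΘ => ?_⟩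
    obtain ⟨N₀, hN₀⟩ := hΓ₀ Θ hΘ
    refine ⟨max N₀ (max 4 (7 + 6 * Real.log (Θ + 1 + 1))), fun N hN θ hθ => ?_⟩
    have a1 : N₀ ≤ N := (le_max_left _ _).trans hN
    have a2 : 4 ≤ N := ((le_max_left _ _).trans (le_max_right _ _)).trans hN
    have a3 : 7 + 6 * Real.log (Θ + 1 + 1) ≤ N :=
      ((le_max_right _ _).trans (le_max_right _ _)).trans hN
    obtain ⟨γ₀, h1, h2, θ', h3, h4⟩ := hN₀ N a1 (fun i => θ (some i)) fun i => hθ _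
    exact Gam_step _ A σ hA hσ Θ hΘ N a2 a3 θ hθ γ₀ Γ₀ h1 h2 θ' h3 h4


end LTD
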