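import Mathlib

set_option autoImplicit false

namespace LTD

open Finset

private lemma Kst_count (m K : ℕ) (hm : 1 ≤ m) (S : Finset ℕ) (hS : ∀ k ∈ S, k < K)
    (h : ∀ (a : Fin m → ℤ) (b : Fin m → ℕ), Function.Injective a → Function.Injective b →
      (∀ j, b j < K) → ∃ i j, ∀ k ∈ S, (k : ℤ) ≠ a i + b j) :
    K * (S.card.choose m) ≤ (m - 1) * ((2 * K - 1).choose m) := by
  classical
  let X : Finset (ℕ × Finset ℕ) := range K ×ˢ powersetCard m S
  let Y : Finset (Finset ℤ) := powersetCard m (Finset.Ioo (-(K : ℤ)) K)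
  let f : ℕ × Finset ℕ → Finset ℤ := fun p => p.2.image (fun k : ℕ => (k : ℤ) - p.1)
  have hinj : ∀ b : ℕ, Function.Injective (fun k : ℕ => (k : ℤ) - b) := by
    intro b x y hxy
    simpa using hxy
  have hmaps : ∀ p ∈ X, f p ∈ Y := by
    intro p hp
    simp only [X, mem_product, mem_range, mem_powersetCard] at hp
    obtain ⟨hb, hT, hc⟩ := hp
    simp only [Y, mem_powersetCard]
    refine ⟨?_, ?_⟩
    · intro z hz
      simp only [f, mem_image] at hz
      obtain ⟨k, hk, rfl⟩ := hz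
      have := hS k (hT hk)
      rw [Finset.mem_Ioo]
      constructor <;> omega
    · simp only [f]
      rw [card_image_of_injective _ (hinj _), hc]
  have hfib : ∀ A ∈ Y, (X.filter (fun p => f p = A)).card ≤ m - 1 := by
    intro A hA
    by_contra hlt
    push Not at hlt
    have hge : m ≤ (X.filter (fun p => f p = A)).card := by omega
    have hAc : A.card = m := (mem_powersetCard.1 hA).2
    -- the first coordinates are distinct
    have hinj2 : Set.InjOn Prod.fst ((X.filter (fun p => f p = A) : Finset (ℕ × Finset ℕ)) : Set (ℕ × Finset ℕ)) := by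
      intro p hp q hq hpq
      simp only [coe_filter, Set.mem_ofPred_eq] at hp hq
      have h1 : f p = f q := hp.2.trans hq.2.symm
      have h2 : p.2 = q.2 := by
        have h3 : p.2.image (fun k : ℕ => (k : ℤ) - p.1) = q.2.image (fun k : ℕ => (k : ℤ) - p.1) := by
          have h4 : f q = q.2.image (fun k : ℕ => (k : ℤ) - p.1) := by
            simp only [f]; rw [hpq]
          rw [← h4, ← h1]
        exact Finset.image_injective (hinj p.1) h3
      exact Prod.ext hpq h2
    let B : Finset ℕ := (X.filter (fun p => f p = A)).image Prod.fst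
    have hBc : m ≤ B.card := by
      rw [card_image_of_injOn hinj2]; exact hge
    obtain ⟨B', hB', hB'c⟩ := exists_subset_card_eq hBc
    let a : Fin m → ℤ := fun i => A.orderEmbOfFin hAc i
    let b : Fin m → ℕ := fun j => B'.orderEmbOfFin hB'c j
    have ha : Function.Injective a := (A.orderEmbOfFin hAc).injective
    have hb : Function.Injective b := (B'.orderEmbOfFin hB'c).injective
    have hbm : ∀ j, b j ∈ B := fun j => hB' (B'.orderEmbOfFin_mem hB'c j)
    have hbK : ∀ j, b j < K := by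
      intro j
      obtain ⟨p, hp, hpe⟩ := mem_image.1 (hbm j)
      simp only [mem_filter, X, mem_product, mem_range] at hp
      rw [← hpe]; exact hp.1.1
    obtain ⟨i, j, hij⟩ := h a b ha hb hbK
    obtain ⟨p, hp, hpe⟩ := mem_image.1 (hbm j)
    simp only [mem_filter, X, mem_product, mem_range, mem_powersetCard] at hp
    have hai : a i ∈ f p := by rw [hp.2]; exact A.orderEmbOfFin_mem hAc i
    simp only [f, mem_image] at hai
    obtain ⟨k, hk, hke⟩ := hai
    refine hij k (hp.1.2.1 hk) ?_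
    rw [← hke, ← hpe]; ring
  have hcard := card_le_mul_card_image_of_maps_to hmaps (m - 1) hfib
  have hX : X.card = K * (S.card.choose m) := by
    simp only [X, card_product, card_range, card_powersetCard]
  have hY : Y.card = (2 * K - 1).choose m := by
    simp only [Y, card_powersetCard, Int.card_Ioo]
    congr 1
    omega
  rw [hX, hY] at hcard
  exact hcard

/-- ROW Kst (Kővári–Sós–Turán count). Let `S ⊆ [0,K)` contain no `A + B`, `A ⊂ ℤ`, `|A| = m`, `B ⊂ [0,K)`,
`|B| = m`. Count pairs `(b, T)`, `b ∈ [0,K)`, `T ⊆ S`, `|T| = m` (`powersetCard m S`): the map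
`(b, T) ↦ T - b ⊂ (-K, K)` takes values in the `m`-subsets of `(-K, K)`; a value `A` taken by `m` pairs has
`m` distinct `b`'s (`T = A + b`) and then `A + {b's} ⊆ S`, excluded. So
`K · binom(|S|, m) ≤ (m-1) · binom(2K-1, m)` (`Finset.card_le_mul_card_image` or
`exists_lt_card_fiber_of_mul_lt_card_of_maps_to`). With `binom(n,m) ≥ (n-m)^m/m!` (`n ≥ m`:
`Nat.pow_sub_le_descFactorial`, `(n+1-m)^m ≤ descFactorial n m`) and `binom(2K,m) ≤ (2K)^m/m!`:
`K (|S| - m)^m ≤ (m-1)(2K)^m ≤ m^m (2K)^m`, so `|S| - m ≤ 2m K · K^{-1/m}`, `|S| ≤ 3m K^{1-1/m}`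
(`m ≤ m K^{1-1/m}` as `K ≥ 1`). -/
theorem kst (m K : ℕ) (hm : 1 ≤ m) (hK : 1 ≤ K) (S : Finset ℕ) (hS : ∀ k ∈ S, k < K)
    (h : ∀ (a : Fin m → ℤ) (b : Fin m → ℕ), Function.Injective a → Function.Injective b →
      (∀ j, b j < K) → ∃ i j, ∀ k ∈ S, (k : ℤ) ≠ a i + b j) :
    (S.card : ℝ) ≤ 3 * m * (K : ℝ) ^ (1 - 1 / (m : ℝ)) := by
  have hm0 : (0 : ℝ) < m := by exact_mod_cast hm
  have hK1 : (1 : ℝ) ≤ K := by exact_mod_cast hK
  have hexp : (0 : ℝ) ≤ 1 - 1 / (m : ℝ) := by
    have : 1 / (m : ℝ) ≤ 1 := by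
      rw [div_le_one hm0]; exact_mod_cast hm
    linarith
  have hP1 : (1 : ℝ) ≤ (K : ℝ) ^ (1 - 1 / (m : ℝ)) := Real.one_le_rpow hK1 hexp
  have hmP : (m : ℝ) ≤ m * (K : ℝ) ^ (1 - 1 / (m : ℝ)) := by nlinarith
  by_cases hs : S.card < m
  · have h1 : (S.card : ℝ) ≤ m := by exact_mod_cast hs.le
    nlinarith
  · push Not at hs
    have hcount := Kst_count m K hm S hS h
    have h1 : (S.card + 1 - m) ^ m ≤ S.card.choose m * m.factorial := by
      rw [mul_comm, ← Nat.descFactorial_eq_factorial_mul_choose]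
      exact Nat.pow_sub_le_descFactorial _ _
    have h2 : (2 * K - 1).choose m * m.factorial ≤ (2 * K) ^ m := by
      rw [mul_comm, ← Nat.descFactorial_eq_factorial_mul_choose]
      exact (Nat.descFactorial_le_pow _ _).trans (Nat.pow_le_pow_left (by omega) _)
    have h3 : K * (S.card + 1 - m) ^ m ≤ (m - 1) * (2 * K) ^ m := by
      calc K * (S.card + 1 - m) ^ m ≤ K * (S.card.choose m * m.factorial) := by gcongr
        _ = (K * S.card.choose m) * m.factorial := by ring
        _ ≤ ((m - 1) * (2 * K - 1).choose m) * m.factorial := by gcongr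
        _ = (m - 1) * ((2 * K - 1).choose m * m.factorial) := by ring
        _ ≤ (m - 1) * (2 * K) ^ m := by gcongr
    have h4 : m - 1 ≤ m ^ m := by
      calc m - 1 ≤ m := by omega
        _ = m ^ 1 := (pow_one m).symm
        _ ≤ m ^ m := Nat.pow_le_pow_right (by omega) hm
    have h5 : K * (S.card + 1 - m) ^ m ≤ m ^ m * (2 * K) ^ m :=
      h3.trans (Nat.mul_le_mul_right _ h4)
    obtain ⟨x, hx⟩ : ∃ x : ℕ, S.card + 1 - m = x := ⟨_, rfl⟩
    have hSx : S.card + 1 = x + m := by omega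
    rw [hx] at h5
    have h6 : (K : ℝ) * (x : ℝ) ^ m ≤ (m : ℝ) ^ m * (2 * (K : ℝ)) ^ m := by exact_mod_cast h5
    have h7 : (2 * m * (K : ℝ) ^ (1 - 1 / (m : ℝ))) ^ m * K = (m : ℝ) ^ m * (2 * (K : ℝ)) ^ m := by
      have h8 : ((K : ℝ) ^ (1 - 1 / (m : ℝ))) ^ m * K = (K : ℝ) ^ m := by
        rw [← Real.rpow_natCast ((K : ℝ) ^ (1 - 1 / (m : ℝ))) m, ← Real.rpow_mul (by positivity)]
        have h9 : (1 - 1 / (m : ℝ)) * (m : ℕ) = (m : ℝ) - 1 := by
          field_simp
        rw [h9]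
        have h10 : (K : ℝ) ^ ((m : ℝ) - 1) * K = (K : ℝ) ^ ((m : ℝ) - 1) * (K : ℝ) ^ (1 : ℝ) := by
          rw [Real.rpow_one]
        rw [h10, ← Real.rpow_add (by linarith)]
        rw [← Real.rpow_natCast]
        congr 1
        ring
      rw [mul_pow, mul_assoc, h8]
      ring
    have h8 : (x : ℝ) ^ m ≤ (2 * m * (K : ℝ) ^ (1 - 1 / (m : ℝ))) ^ m := by
      have h9 : (x : ℝ) ^ m * K ≤ (2 * m * (K : ℝ) ^ (1 - 1 / (m : ℝ))) ^ m * K := by
        rw [h7, mul_comm]; exact h6
      exact le_of_mul_le_mul_right h9 (by linarith)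
    have h9 : (x : ℝ) ≤ 2 * m * (K : ℝ) ^ (1 - 1 / (m : ℝ)) :=
      le_of_pow_le_pow_left₀ (by omega) (by positivity) h8
    have h10 : (S.card : ℝ) + 1 = x + m := by exact_mod_cast hSx
    nlinarith

end LTD
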