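import Pool.Agent.LTD.Ltd
import Pool.Agent.LTD.Kst
import Pool.Agent.LTD.SepL

set_option autoImplicit false

namespace LTD

/-- ROW Geo. `m` from `ltd t`. Let `S = {k < K : e^{z x^k} ∈ F}` (`K ≥ 1`; `K = 0` is trivial). `kst`: if
`a : Fin m → ℤ`, `b : Fin m → ℕ` are injective and all `a i + b j` are (casts of) elements `k_ij` of `S`, let
`i₀` be an index with `a i₀` minimal. Put `x_i = x^{(a_i - a_{i₀}).toNat}` (exponents injective,
`a_i - a_{i₀} = k_{i j} - k_{i₀ j} < K`) and `y_j = z x^{k_{i₀ j}}` (`k_{i₀j} = a_{i₀} + b_j` injective in `j`,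
`< K`); `sep_pow`, `sep_smul`; `x_i y_j = z x^{k_ij}`, so all `e^{x_i y_j} ∈ F`, contradicting `ltd`. -/
theorem geo_field (t : ℕ) : ∃ m : ℕ, 1 ≤ m ∧ ∀ F : IntermediateField ℚ ℂ,
    Algebra.trdeg ℚ F ≤ t → ∀ (x z : ℂ) (K : ℕ), z ≠ 0 → Wk x K →
      (Set.ncard {k : ℕ | k < K ∧ Complex.exp (z * x ^ k) ∈ F} : ℝ) ≤
        3 * m * (K : ℝ) ^ (1 - 1 / (m : ℝ)) := by
  classical
  obtain ⟨m, hm, hltd⟩ := ltd t
  refine ⟨m, hm, fun F hF x z K hz hW => ?_⟩
  set S : Finset ℕ := (Finset.range K).filter fun k => Complex.exp (z * x ^ k) ∈ F with hSdef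
  have hSset : {k : ℕ | k < K ∧ Complex.exp (z * x ^ k) ∈ F} = (S : Set ℕ) := by
    ext k
    simp [hSdef]
  rw [hSset, Set.ncard_coe_finset]
  rcases Nat.eq_zero_or_pos K with hK | hK
  · have : S = ∅ := by simp [hSdef, hK]
    rw [this, Finset.card_empty, Nat.cast_zero]
    positivity
  apply kst m K hm hK S
  · intro k hk
    simpa using (Finset.mem_filter.1 hk).1
  intro a b ha hb hbK
  by_contra hcon
  push Not at hcon
  choose k hkS hk using hcon
  have hkK : ∀ i j, k i j < K := fun i j => by simpa using (Finset.mem_filter.1 (hkS i j)).1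
  have hkF : ∀ i j, Complex.exp (z * x ^ k i j) ∈ F := fun i j => (Finset.mem_filter.1 (hkS i j)).2
  have : Nonempty (Fin m) := ⟨⟨0, hm⟩⟩
  obtain ⟨i₀, hi₀⟩ := Finite.exists_min a
  have j₀ : Fin m := ⟨0, hm⟩
  have hnn : ∀ i, ((a i - a i₀).toNat : ℤ) = a i - a i₀ := fun i =>
    Int.toNat_of_nonneg (by linarith [hi₀ i])
  have h1 : Sep fun i => x ^ (a i - a i₀).toNat := by
    apply sep_pow x K hW m (fun i => (a i - a i₀).toNat)
    · intro i j hij
      apply ha
      have h2 := hnn i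
      have h3 := hnn j
      simp only at hij
      rw [hij] at h2
      linarith
    · intro i
      have h2 := hnn i
      have h3 := hk i j₀
      have h4 := hk i₀ j₀
      have h5 := hkK i j₀
      omega
  have h2 : Sep fun j => z * x ^ (k i₀ j) := by
    apply sep_smul (fun j => x ^ (k i₀ j)) z hz
    apply sep_pow x K hW m (fun j => k i₀ j)
    · intro j j' hjj
      apply hb
      have h3 := hk i₀ j
      have h4 := hk i₀ j'
      simp only at hjj
      rw [hjj] at h3
      omega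
    · intro j
      exact hkK i₀ j
  obtain ⟨i, j, hij⟩ := hltd F hF _ _ h1 h2
  apply hij
  have h3 : x ^ (a i - a i₀).toNat * (z * x ^ (k i₀ j)) = z * x ^ k i j := by
    have h4 : (a i - a i₀).toNat + k i₀ j = k i j := by
      have h5 := hnn i
      have h6 := hk i j
      have h7 := hk i₀ j
      omega
    rw [← h4, pow_add]
    ring
  rw [h3]
  exact hkF i j

end LTD
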