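import Pool.Agent.LTD.Geo
import Pool.Agent.LTD.CntD

set_option autoImplicit false

namespace LTD

/-- ROW GeoF (R1). `m` from `geo_field (t + n)`; `count_dep` with `X = {k | k < K}` (`ncard = K`),
`f k = e^{z x^k}`, `T = t + n`, `B = ⌊3 m K^{1-1/m}⌋₊`: the count is `≤ n K^{n-1} · 3m K^{1-1/m} =
3 m n K^{n - 1/m}` (`K ≥ 1`, `n ≥ 1`; for `n = 0` the set is empty, for `K = 0 < n` too). -/
theorem geo_final (n t : ℕ) : ∃ m : ℕ, 1 ≤ m ∧ ∀ F : IntermediateField ℚ ℂ,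
    Algebra.trdeg ℚ F ≤ (t : Cardinal) → ∀ (x z : ℂ) (K : ℕ), z ≠ 0 → Wk x K →
      (Set.ncard {k : Fin n → ℕ | (∀ i, k i < K) ∧
        ¬ AlgebraicIndependent F fun i => Complex.exp (z * x ^ k i)} : ℝ) ≤
        3 * m * n * (K : ℝ) ^ ((n : ℝ) - 1 / (m : ℝ)) := by
  obtain ⟨m, hm, h⟩ := geo_field (t + n)
  refine ⟨m, hm, fun F hF x z K hz hW => ?_⟩
  set B : ℕ := ⌊3 * m * (K : ℝ) ^ (1 - 1 / (m : ℝ))⌋₊ with hB
  have hX : ({k : ℕ | k < K} : Set ℕ).Finite := Set.finite_lt_nat K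
  have hXc : ({k : ℕ | k < K} : Set ℕ).ncard = K := by
    have : ({k : ℕ | k < K} : Set ℕ) = (Finset.range K : Set ℕ) := by
      ext k
      simp
    rw [this, Set.ncard_coe_finset, Finset.card_range]
  have hmain := count_dep {k : ℕ | k < K} hX (fun k => Complex.exp (z * x ^ k)) (t + n) B
    (fun F' hF' _ => Nat.le_floor (h F' hF' x z K hz hW)) n t F hF (by omega)
  rw [hXc] at hmain
  have h0 : (0 : ℝ) ≤ 3 * m * (K : ℝ) ^ (1 - 1 / (m : ℝ)) := by positivity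
  have hBle : (B : ℝ) ≤ 3 * m * (K : ℝ) ^ (1 - 1 / (m : ℝ)) := Nat.floor_le h0
  have h1 : (Set.ncard {k : Fin n → ℕ | (∀ i, k i < K) ∧
        ¬ AlgebraicIndependent F fun i => Complex.exp (z * x ^ k i)} : ℝ) ≤
      (n * K ^ (n - 1) * B : ℕ) := by exact_mod_cast hmain
  rcases Nat.eq_zero_or_pos n with hn | hn
  · subst hn
    have h2 : ((0 * K ^ (0 - 1) * B : ℕ) : ℝ) = 0 := by simp
    rw [h2] at h1
    refine le_trans h1 ?_
    simp
  rcases Nat.eq_zero_or_pos K with hK | hK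
  · subst hK
    have h2 : {k : Fin n → ℕ | (∀ i, k i < 0) ∧
        ¬ AlgebraicIndependent F fun i => Complex.exp (z * x ^ k i)} = ∅ := by
      ext k
      simp only [Set.mem_setOf_eq, Set.mem_empty_iff_false, iff_false, not_and]
      intro hk
      exact absurd (hk ⟨0, hn⟩) (Nat.not_lt_zero _)
    rw [h2, Set.ncard_empty, Nat.cast_zero]
    positivity
  refine le_trans h1 ?_
  push_cast
  have hK0 : (0 : ℝ) < K := by exact_mod_cast hK
  have h3 : (K : ℝ) ^ ((n : ℝ) - 1 / (m : ℝ)) = (K : ℝ) ^ (n - 1) * (K : ℝ) ^ (1 - 1 / (m : ℝ)) := by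
    rw [← Real.rpow_natCast, ← Real.rpow_add hK0]
    congr 1
    rw [Nat.cast_sub hn]
    push_cast
    ring
  rw [h3]
  have h4 : (n : ℝ) * (K : ℝ) ^ (n - 1) * B ≤
      (n : ℝ) * (K : ℝ) ^ (n - 1) * (3 * m * (K : ℝ) ^ (1 - 1 / (m : ℝ))) :=
    mul_le_mul_of_nonneg_left hBle (by positivity)
  refine le_trans h4 (le_of_eq ?_)
  ring

end LTD
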