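import Mathlib

set_option autoImplicit false

namespace LTD

open Finset

private noncomputable def Newt_d (ζ : ℕ → ℂ) : ℕ → ℕ → ℂ
  | 0, 0 => 1
  | 0, _ + 1 => 0
  | n + 1, 0 => ζ 0 * Newt_d ζ n 0
  | n + 1, k + 1 => Newt_d ζ n k + ζ (k + 1) * Newt_d ζ n (k + 1)

private theorem Newt_bound (ζ : ℕ → ℂ) (Δ : ℝ) (hΔ : 0 ≤ Δ) (hζ : ∀ i, ‖ζ i‖ ≤ Δ) (n : ℕ) :
    ∀ k, ‖Newt_d ζ n k‖ ≤ (n.choose k : ℝ) * Δ ^ (n - k) := by
  induction n with
  | zero =>
    intro k
    cases k with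
    | zero => simp [Newt_d]
    | succ k => simp [Newt_d]
  | succ n ih =>
    intro k
    cases k with
    | zero =>
      rw [Newt_d, norm_mul]
      have h := mul_le_mul (hζ 0) (ih 0) (norm_nonneg _) hΔ
      refine h.trans (le_of_eq ?_)
      rw [Nat.choose_zero_right, Nat.choose_zero_right, Nat.sub_zero, Nat.sub_zero, pow_succ]
      ring
    | succ k =>
      rw [Newt_d]
      refine (norm_add_le _ _).trans ?_
      rw [norm_mul, Nat.succ_sub_succ]
      have h := mul_le_mul (hζ (k + 1)) (ih (k + 1)) (norm_nonneg _) hΔ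
      refine (add_le_add (ih k) h).trans (le_of_eq ?_)
      rw [Nat.choose_succ_succ]
      push_cast
      rcases Nat.lt_or_ge n (k + 1) with hk | hk
      · rw [Nat.choose_eq_zero_of_lt hk]
        push_cast
        ring
      · have e : n - k = (n - (k + 1)) + 1 := by omega
        rw [e, pow_succ]
        ring

private theorem Newt_zero (ζ : ℕ → ℂ) (n : ℕ) : ∀ k, n < k → Newt_d ζ n k = 0 := by
  intro k hk
  have h := Newt_bound (fun i => if i ≤ k then ζ i else 0) (∑ i ∈ range (k + 1), ‖ζ i‖)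
    (Finset.sum_nonneg fun i _ => norm_nonneg _) (fun i => by
      by_cases hi : i ≤ k
      · simp only [hi, if_true]
        exact Finset.single_le_sum (f := fun i => ‖ζ i‖) (fun i _ => norm_nonneg _)
          (Finset.mem_range.2 (by omega))
      · simp only [hi, if_false, norm_zero]
        exact Finset.sum_nonneg fun i _ => norm_nonneg _) n k
  rw [Nat.choose_eq_zero_of_lt hk] at h
  have h0 : Newt_d (fun i => if i ≤ k then ζ i else 0) n k = 0 := by
    have : ‖Newt_d (fun i => if i ≤ k then ζ i else 0) n k‖ ≤ 0 := by simpa using h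
    exact norm_le_zero_iff.1 this
  rw [← h0]
  have key : ∀ n k', k' ≤ k → Newt_d ζ n k' = Newt_d (fun i => if i ≤ k then ζ i else 0) n k' := by
    intro n
    induction n with
    | zero =>
      intro k' _
      cases k' with
      | zero => rfl
      | succ _ => rfl
    | succ n ih =>
      intro k' hk'
      cases k' with
      | zero =>
        rw [Newt_d, Newt_d, ih 0 (by omega)]
        simp
      | succ k' =>
        rw [Newt_d, Newt_d, ih k' (by omega), ih (k' + 1) hk']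
        simp [hk']
  exact key n k le_rfl

private theorem Newt_pow (ζ : ℕ → ℂ) (x : ℂ) (n : ℕ) :
    x ^ n = ∑ k ∈ range (n + 1), Newt_d ζ n k * ∏ i ∈ range k, (x - ζ i) := by
  induction n with
  | zero => simp [Newt_d]
  | succ n ih =>
    have e1 : ∀ k, x * ∏ i ∈ range k, (x - ζ i) =
        ∏ i ∈ range (k + 1), (x - ζ i) + ζ k * ∏ i ∈ range k, (x - ζ i) := by
      intro k
      rw [Finset.prod_range_succ]
      ring
    have e2 : ∑ k ∈ range (n + 1), Newt_d ζ n k * (∏ i ∈ range k, (x - ζ i)) * x =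
        ∑ k ∈ range (n + 1), Newt_d ζ n k * ∏ i ∈ range (k + 1), (x - ζ i) +
        ∑ k ∈ range (n + 1), ζ k * Newt_d ζ n k * ∏ i ∈ range k, (x - ζ i) := by
      rw [← Finset.sum_add_distrib]
      refine Finset.sum_congr rfl fun k _ => ?_
      linear_combination (Newt_d ζ n k) * e1 k
    have e3 : ∑ k ∈ range (n + 1), ζ k * Newt_d ζ n k * ∏ i ∈ range k, (x - ζ i) =
        ∑ k ∈ range (n + 2), ζ k * Newt_d ζ n k * ∏ i ∈ range k, (x - ζ i) := by
      rw [Finset.sum_range_succ _ (n + 1), Newt_zero ζ n (n + 1) (by omega)]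
      ring
    rw [pow_succ, ih, Finset.sum_mul, e2, e3,
      Finset.sum_range_succ' (fun k => ζ k * Newt_d ζ n k * ∏ i ∈ range k, (x - ζ i)) (n + 1),
      Finset.sum_range_succ' (fun k => Newt_d ζ (n + 1) k * ∏ i ∈ range k, (x - ζ i)) (n + 1)]
    simp only [Newt_d]
    rw [← add_assoc, ← Finset.sum_add_distrib]
    congr 1
    refine Finset.sum_congr rfl fun k _ => ?_
    ring

private theorem Newt_pow' (ζ : ℕ → ℂ) (L l : ℕ) (hl : l < L) (n : ℕ) :
    (ζ l) ^ n = ∑ k ∈ range L, Newt_d ζ n k * ∏ i ∈ range k, (ζ l - ζ i) := by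
  have h1 : ∑ k ∈ range (n + 1), Newt_d ζ n k * ∏ i ∈ range k, (ζ l - ζ i) =
      ∑ k ∈ range (max (n + 1) L), Newt_d ζ n k * ∏ i ∈ range k, (ζ l - ζ i) := by
    refine Finset.sum_subset (Finset.range_subset_range.2 (le_max_left _ _)) fun k _ hk => ?_
    rw [Finset.mem_range, not_lt] at hk
    rw [Newt_zero ζ n k (by omega), zero_mul]
  have h2 : ∑ k ∈ range L, Newt_d ζ n k * ∏ i ∈ range k, (ζ l - ζ i) =
      ∑ k ∈ range (max (n + 1) L), Newt_d ζ n k * ∏ i ∈ range k, (ζ l - ζ i) := by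
    refine Finset.sum_subset (Finset.range_subset_range.2 (le_max_right _ _)) fun k _ hk => ?_
    rw [Finset.mem_range, not_lt] at hk
    rw [Finset.prod_eq_zero (i := l) (Finset.mem_range.2 (by omega)) (sub_self _), mul_zero]
  rw [Newt_pow ζ (ζ l) n, h1, ← h2]

private theorem Newt_sum (a Δ : ℝ) (k : ℕ) :
    HasSum (fun n : ℕ => a ^ n / (Nat.factorial n : ℝ) * ((n.choose k : ℝ) * Δ ^ (n - k)))
      (a ^ k * Real.exp (Δ * a) / (Nat.factorial k : ℝ)) := by
  have h1 : HasSum (fun j : ℕ => (a * Δ) ^ j / (Nat.factorial j : ℝ)) (Real.exp (a * Δ)) := by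
    rw [Real.exp_eq_exp_ℝ]
    exact NormedSpace.expSeries_div_hasSum_exp (a * Δ)
  have h2 := h1.mul_left (a ^ k / (Nat.factorial k : ℝ))
  have e1 : ∀ j : ℕ, a ^ (j + k) / (Nat.factorial (j + k) : ℝ) *
      (((j + k).choose k : ℝ) * Δ ^ (j + k - k)) =
      a ^ k / (Nat.factorial k : ℝ) * ((a * Δ) ^ j / (Nat.factorial j : ℝ)) := by
    intro j
    have h4 : (((j + k).choose k : ℕ) : ℝ) * (Nat.factorial k : ℝ) * (Nat.factorial j : ℝ) =
        (Nat.factorial (j + k) : ℝ) := by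
      have := Nat.choose_mul_factorial_mul_factorial (Nat.le_add_left k j)
      rw [Nat.add_sub_cancel] at this
      exact_mod_cast this
    have hf : (Nat.factorial k : ℝ) ≠ 0 := by exact_mod_cast Nat.factorial_ne_zero _
    have hf2 : (Nat.factorial j : ℝ) ≠ 0 := by exact_mod_cast Nat.factorial_ne_zero _
    have hf3 : (((j + k).choose k : ℕ) : ℝ) ≠ 0 := by
      exact_mod_cast (Nat.choose_pos (Nat.le_add_left k j)).ne'
    rw [Nat.add_sub_cancel, ← h4, pow_add, mul_pow]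
    field_simp
  have h3 : HasSum (fun j : ℕ => a ^ (j + k) / (Nat.factorial (j + k) : ℝ) *
      (((j + k).choose k : ℝ) * Δ ^ (j + k - k)))
      (a ^ k / (Nat.factorial k : ℝ) * Real.exp (a * Δ)) := by
    simp_rw [e1]
    exact h2
  have h4 := (hasSum_nat_add_iff (f := fun n : ℕ => a ^ n / (Nat.factorial n : ℝ) *
    ((n.choose k : ℝ) * Δ ^ (n - k))) k).1 h3
  have h5 : ∑ i ∈ range k, a ^ i / (Nat.factorial i : ℝ) * ((i.choose k : ℝ) * Δ ^ (i - k)) = 0 := by
    refine Finset.sum_eq_zero fun i hi => ?_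
    rw [Nat.choose_eq_zero_of_lt (Finset.mem_range.1 hi)]
    simp
  rw [h5, add_zero] at h4
  have e2 : a ^ k * Real.exp (Δ * a) / (Nat.factorial k : ℝ) =
      a ^ k / (Nat.factorial k : ℝ) * Real.exp (a * Δ) := by
    rw [mul_comm Δ a]
    ring
  rw [e2]
  exact h4

/-- ROW Newt. Newton expansion of `ω ↦ e^{ωw}` at the nodes `ζ_0, ζ_1, ...`. Extend `ζ` by `0` beyond `L`.
Define `d_{n,k}` by `d_{0,0} = 1`, `d_{0,k} = 0` (`k > 0`), `d_{n+1,k} = d_{n,k-1} + ζ_k d_{n,k}`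
(`d_{n,-1} = 0`). Since `ω ∏_{i<k}(ω - ζ_i) = ∏_{i<k+1}(ω - ζ_i) + ζ_k ∏_{i<k}(ω - ζ_i)`, induction on `n`
gives `ω^n = ∑_{k ≤ n} d_{n,k} ∏_{i<k}(ω - ζ_i)`, and Pascal's rule `|d_{n,k}| ≤ binom(n,k) Δ^{n-k}`
(`0` for `k > n`). At `ω = ζ_l` the terms with `k > l`, in particular those with `k ≥ L`, vanish, so
`ζ_l^n = ∑_{k < L} d_{n,k} ∏_{i<k}(ζ_l - ζ_i)`. Put `d k = ∑_n w^n/n! d_{n,k}`:
`‖d k‖ ≤ ∑_{n ≥ k} ‖w‖^n/n! binom(n,k) Δ^{n-k} = ‖w‖^k/k! ∑_j (‖w‖Δ)^j/j!` (absolutely summable), and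
`e^{ζ_l w} = ∑_n (w^n/n!) ζ_l^n`; interchange the finite sum and the series. -/
theorem newton (L : ℕ) (ζ : Fin L → ℂ) (Δ : ℝ) (hΔ : 0 ≤ Δ) (hζ : ∀ i, ‖ζ i‖ ≤ Δ) (w : ℂ) :
    ∃ d : Fin L → ℂ,
      (∀ k : Fin L, ‖d k‖ ≤ ‖w‖ ^ (k : ℕ) * Real.exp (Δ * ‖w‖) / (Nat.factorial (k : ℕ) : ℝ)) ∧
      ∀ l : Fin L, Complex.exp (ζ l * w) =
        ∑ k : Fin L, d k * ∏ i ∈ univ.filter (fun i : Fin L => i < k), (ζ l - ζ i) := by
  set z : ℕ → ℂ := fun i => if h : i < L then ζ ⟨i, h⟩ else 0 with hz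
  have hzf : ∀ i : Fin L, z i = ζ i := by
    intro i
    simp only [hz, i.2, dif_pos]
  have hzb : ∀ i, ‖z i‖ ≤ Δ := by
    intro i
    by_cases h : i < L
    · simp only [hz, h, dif_pos]
      exact hζ _
    · simp only [hz, h, dif_neg, not_false_eq_true, norm_zero]
      exact hΔ
  have hnb : ∀ k n : ℕ, ‖w ^ n / (Nat.factorial n : ℂ) * Newt_d z n k‖ ≤
      ‖w‖ ^ n / (Nat.factorial n : ℝ) * ((n.choose k : ℝ) * Δ ^ (n - k)) := by
    intro k n
    rw [norm_mul, norm_div, norm_pow, Complex.norm_natCast]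
    exact mul_le_mul_of_nonneg_left (Newt_bound z Δ hΔ hzb n k) (by positivity)
  have hs : ∀ k : ℕ, Summable (fun n : ℕ => w ^ n / (Nat.factorial n : ℂ) * Newt_d z n k) :=
    fun k => Summable.of_norm_bounded (Newt_sum ‖w‖ Δ k).summable (hnb k)
  refine ⟨fun k => ∑' n : ℕ, w ^ n / (Nat.factorial n : ℂ) * Newt_d z n k, ?_, ?_⟩
  · intro k
    exact tsum_of_norm_bounded (Newt_sum ‖w‖ Δ k) (hnb k)
  · intro l
    have h1 : HasSum (fun n : ℕ => (ζ l * w) ^ n / (Nat.factorial n : ℂ)) (Complex.exp (ζ l * w)) := by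
      rw [Complex.exp_eq_exp_ℂ]
      exact NormedSpace.expSeries_div_hasSum_exp (ζ l * w)
    have h2 : HasSum (fun n : ℕ => ∑ k : Fin L, (w ^ n / (Nat.factorial n : ℂ) * Newt_d z n k) *
        ∏ i ∈ univ.filter (fun i : Fin L => i < k), (ζ l - ζ i))
        (∑ k : Fin L, (∑' n : ℕ, w ^ n / (Nat.factorial n : ℂ) * Newt_d z n k) *
        ∏ i ∈ univ.filter (fun i : Fin L => i < k), (ζ l - ζ i)) :=
      hasSum_sum fun k _ => (hs k).hasSum.mul_right _
    suffices h5 : (fun n : ℕ => (ζ l * w) ^ n / (Nat.factorial n : ℂ)) =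
        (fun n : ℕ => ∑ k : Fin L, (w ^ n / (Nat.factorial n : ℂ) * Newt_d z n k) *
        ∏ i ∈ univ.filter (fun i : Fin L => i < k), (ζ l - ζ i)) by
      rw [h5] at h1
      exact h1.unique h2
    funext n
    have h3 := Newt_pow' z L l l.2 n
    rw [hzf] at h3
    rw [mul_pow, h3, ← Fin.sum_univ_eq_sum_range (fun k => Newt_d z n k * ∏ i ∈ range k, (ζ l - z i)) L,
      Finset.sum_mul, Finset.sum_div]
    refine Finset.sum_congr rfl fun k _ => ?_
    have h4 : ∏ i ∈ range (k : ℕ), (ζ l - z i) =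
        ∏ i ∈ univ.filter (fun i : Fin L => i < k), (ζ l - ζ i) := by
      symm
      refine Finset.prod_bij (fun (i : Fin L) _ => (i : ℕ)) ?_ ?_ ?_ ?_
      · intro i hi
        rw [Finset.mem_filter] at hi
        exact Finset.mem_range.2 hi.2
      · intro i _ j _ hij
        exact Fin.ext hij
      · intro b hb
        rw [Finset.mem_range] at hb
        exact ⟨⟨b, hb.trans k.2⟩, by rw [Finset.mem_filter]; exact ⟨mem_univ _, hb⟩, rfl⟩
      · intro i _
        rw [hzf]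
    rw [h4]
    ring

end LTD
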