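import Pool.Agent.LTD.Mom
import Pool.Agent.LTD.Newt

set_option autoImplicit false

namespace LTD

open Finset

private theorem Grow_geom {γ : ℝ} (hγ : 2 ≤ γ) (L : ℕ) : ∑ k ∈ range L, γ ^ k ≤ γ ^ L := by
  induction L with
  | zero => simp
  | succ L ih =>
    rw [Finset.sum_range_succ, pow_succ]
    have : 0 ≤ γ ^ L := by positivity
    nlinarith

private theorem Grow_card {L : ℕ} (k : Fin L) :
    (univ.filter (fun i : Fin L => i < k)).card = (k : ℕ) := by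
  have : (univ.filter (fun i : Fin L => i < k)) = Finset.Iio k := by
    ext i
    simp
  rw [this, Fin.card_Iio]

/-- ROW Grow (L3). Enumerate `Λ` (`Fintype.equivFin`), `L = card Λ`, `ζ` the enumeration of `ω`; `newton`:
`F w = ∑_l p_l e^{ω_l w} = ∑_{k<L} d_k ∑_l p_l ∏_{i<k}(ω_l - ζ_i)`, and `moment` bounds the inner sums by
`k! R^{-k} e^{RΔ} B`. So `|F w| ≤ ∑_{k<L} (‖w‖^k e^{Δ‖w‖}/k!) k! R^{-k} e^{RΔ} B ≤ e^{(γ+1)RΔ} B ∑_{k<L} γ^k`
(`‖w‖ ≤ γR`) and `∑_{k<L} γ^k ≤ γ^L` for `γ ≥ 2`. (`B ≥ 0` by `hF` at `0`.) -/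
theorem growth {Λ : Type} [Fintype Λ] (p ω : Λ → ℂ) (R B Δ γ : ℝ)
    (hR : 0 < R) (hΔ : 0 ≤ Δ) (hω : ∀ l, ‖ω l‖ ≤ Δ) (hγ : 2 ≤ γ)
    (hF : ∀ w : ℂ, ‖w‖ ≤ R → ‖∑ l, p l * Complex.exp (ω l * w)‖ ≤ B) (w : ℂ) (hw : ‖w‖ ≤ γ * R) :
    ‖∑ l, p l * Complex.exp (ω l * w)‖ ≤
      γ ^ (Fintype.card Λ) * Real.exp ((γ + 1) * R * Δ) * B := by
  have hB0 : 0 ≤ B := (norm_nonneg _).trans (hF 0 (by rw [norm_zero]; exact hR.le))
  set L := Fintype.card Λ with hL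
  let e : Λ ≃ Fin L := Fintype.equivFin Λ
  set ζ : Fin L → ℂ := fun k => ω (e.symm k) with hζ
  obtain ⟨d, hd, hexp⟩ := newton L ζ Δ hΔ (fun i => hω _) w
  have h1 : ∑ l, p l * Complex.exp (ω l * w) = ∑ k : Fin L, d k *
      ∑ l, p l * ∏ i ∈ univ.filter (fun i : Fin L => i < k), (ω l - ζ i) := by
    have e1 : ∀ l, p l * Complex.exp (ω l * w) = ∑ k : Fin L, d k *
        (p l * ∏ i ∈ univ.filter (fun i : Fin L => i < k), (ω l - ζ i)) := by
      intro l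
      have h2 := hexp (e l)
      have h3 : ζ (e l) = ω l := by rw [hζ]; simp
      rw [h3] at h2
      rw [h2, Finset.mul_sum]
      refine Finset.sum_congr rfl fun k _ => ?_
      ring
    simp_rw [e1]
    rw [Finset.sum_comm]
    refine Finset.sum_congr rfl fun k _ => ?_
    rw [Finset.mul_sum]
  rw [h1]
  have hwR : ‖w‖ / R ≤ γ := by rwa [div_le_iff₀ hR]
  have h4 : ∀ k : Fin L, ‖d k * ∑ l, p l * ∏ i ∈ univ.filter (fun i : Fin L => i < k), (ω l - ζ i)‖ ≤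
      γ ^ (k : ℕ) * (Real.exp ((γ + 1) * R * Δ) * B) := by
    intro k
    have h5 := moment p ω ζ (univ.filter (fun i : Fin L => i < k)) R B Δ hR hΔ (fun i _ => hω _) hF
    rw [Grow_card] at h5
    rw [norm_mul]
    refine (mul_le_mul (hd k) h5 (norm_nonneg _) (by positivity)).trans ?_
    have hf : (Nat.factorial (k : ℕ) : ℝ) ≠ 0 := by exact_mod_cast Nat.factorial_ne_zero _
    have h6 : ‖w‖ ^ (k : ℕ) * Real.exp (Δ * ‖w‖) / (Nat.factorial (k : ℕ) : ℝ) *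
        ((Nat.factorial (k : ℕ) : ℝ) / R ^ (k : ℕ) * Real.exp (R * Δ) * B) =
        (‖w‖ / R) ^ (k : ℕ) * (Real.exp (Δ * ‖w‖ + R * Δ) * B) := by
      rw [Real.exp_add, div_pow]
      field_simp
    rw [h6]
    have h7 : Real.exp (Δ * ‖w‖ + R * Δ) ≤ Real.exp ((γ + 1) * R * Δ) := by
      apply Real.exp_le_exp.2
      nlinarith
    exact mul_le_mul (pow_le_pow_left₀ (by positivity) hwR _)
      (mul_le_mul_of_nonneg_right h7 hB0) (by positivity) (by positivity)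
  refine (norm_sum_le _ _).trans ((Finset.sum_le_sum fun k _ => h4 k).trans ?_)
  rw [← Finset.sum_mul, Fin.sum_univ_eq_sum_range (fun k => γ ^ k) L,
    mul_assoc (γ ^ L) (Real.exp ((γ + 1) * R * Δ)) B]
  exact mul_le_mul_of_nonneg_right (Grow_geom hγ L) (by positivity)

end LTD
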