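import Mathlib

set_option autoImplicit false

namespace LTD

/-- ROW Num1. Choice of the parameters `S, D`. `S = ⌈(c₃ N^γ)^{1/m}⌉`, so `c₃N^γ ≤ S^m` and, as
`(c₃N^γ)^{1/m} ≥ 1`, `S ≤ 2 (c₃N^γ)^{1/m}`, `S^m ≤ 2^m c₃ N^γ`. `D = ⌊(c₆N^{2γ-1})^{1/m}⌋ + 1`:
`c₆N^{2γ-1} < D^m ≤ 2^m c₆ N^{2γ-1}`. `S ≤ D`: `S < (c₃N^γ)^{1/m} + 1 ≤ 2(c₃N^γ)^{1/m} =
(2^m c₃ N^γ)^{1/m} ≤ (c₆N^{2γ-1})^{1/m} < D` (`2γ - 1 ≥ γ`). `K D² ≤ N`: `D² ≤ 4 (c₆N^{2γ-1})^{2/m} ≤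
4 c₆^2 N^{(4γ-2)/m}` and `(4γ-2)/m ≤ (4Γ-2)/(4Γ) = 1 - 1/(2Γ)` (`1 ≤ γ ≤ Γ`, `4Γ ≤ m`), so
`K D² ≤ 4Kc₆² N^{1 - 1/(2Γ)} ≤ N` for `N^{1/(2Γ)} ≥ 4Kc₆²`. `K ≤ D`: `D ≥ (c₆N^{2γ-1})^{1/m} ≥ N^{1/m}`,
large with `N`. (All thresholds depend only on `m, Γ, c₃, c₆, K`.) -/
theorem choose_SD (m : ℕ) (Γ c₃ c₆ K : ℝ) (hm : 1 ≤ m) (hΓ : 1 ≤ Γ) (hmΓ : 4 * Γ ≤ m)
    (hc₃ : 1 ≤ c₃) (hc₆ : 2 ^ m * c₃ ≤ c₆) (hK : 1 ≤ K) :
    ∃ N₀ : ℝ, 1 ≤ N₀ ∧ ∀ N : ℝ, N₀ ≤ N → ∀ γ : ℝ, 1 ≤ γ → γ ≤ Γ →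
      ∃ S D : ℕ, 1 ≤ S ∧ S ≤ D ∧ c₃ * N ^ γ ≤ (S : ℝ) ^ m ∧ (S : ℝ) ^ m ≤ 2 ^ m * c₃ * N ^ γ ∧
        c₆ * N ^ (2 * γ - 1) < (D : ℝ) ^ m ∧ (D : ℝ) ^ m ≤ 2 ^ m * c₆ * N ^ (2 * γ - 1) ∧
        K * (D : ℝ) ^ 2 ≤ N ∧ K ≤ D := by
  have hm0 : (m : ℝ) ≠ 0 := by
    have : (1 : ℝ) ≤ m := by exact_mod_cast hm
    linarith
  have hm1 : (1 : ℝ) ≤ m := by exact_mod_cast hm
  have hmn : m ≠ 0 := by omega
  have hΓ0 : 0 < Γ := by linarith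
  have hc61 : 1 ≤ c₆ := by
    refine le_trans ?_ hc₆
    have : (1 : ℝ) ≤ 2 ^ m := one_le_pow₀ (by norm_num)
    nlinarith
  have hc60 : 0 < c₆ := by linarith
  refine ⟨max 1 (max ((4 * K * c₆ ^ 2) ^ (2 * Γ)) (K ^ (m : ℝ))), le_max_left _ _, ?_⟩
  intro N hN γ hγ1 hγΓ
  have hN1 : 1 ≤ N := (le_max_left _ _).trans hN
  have hNa : (4 * K * c₆ ^ 2) ^ (2 * Γ) ≤ N :=
    (le_max_left _ _).trans ((le_max_right _ _).trans hN)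
  have hNb : K ^ (m : ℝ) ≤ N := (le_max_right _ _).trans ((le_max_right _ _).trans hN)
  have hN0 : 0 < N := by linarith
  -- the two real numbers
  set A : ℝ := (c₃ * N ^ γ) ^ ((m : ℝ)⁻¹) with hA
  set B : ℝ := (c₆ * N ^ (2 * γ - 1)) ^ ((m : ℝ)⁻¹) with hB
  have hx0 : 0 ≤ c₃ * N ^ γ := by positivity
  have hy0 : 0 ≤ c₆ * N ^ (2 * γ - 1) := by positivity
  have hx1 : 1 ≤ c₃ * N ^ γ :=
    one_le_mul_of_one_le_of_one_le hc₃ (Real.one_le_rpow hN1 (by linarith))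
  have hy1 : 1 ≤ c₆ * N ^ (2 * γ - 1) :=
    one_le_mul_of_one_le_of_one_le hc61 (Real.one_le_rpow hN1 (by linarith))
  have hA1 : 1 ≤ A := Real.one_le_rpow hx1 (by positivity)
  have hB1 : 1 ≤ B := Real.one_le_rpow hy1 (by positivity)
  have hAm : A ^ m = c₃ * N ^ γ := Real.rpow_inv_natCast_pow hx0 hmn
  have hBm : B ^ m = c₆ * N ^ (2 * γ - 1) := Real.rpow_inv_natCast_pow hy0 hmn
  have h2A : 2 * A ≤ B := by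
    have h1 : (2 * A) ^ m ≤ B ^ m := by
      rw [mul_pow, hAm, hBm]
      have h2 : N ^ γ ≤ N ^ (2 * γ - 1) := Real.rpow_le_rpow_of_exponent_le hN1 (by linarith)
      have h3 : 0 ≤ N ^ γ := by positivity
      have h4 : (0 : ℝ) ≤ 2 ^ m * c₃ := by positivity
      calc 2 ^ m * (c₃ * N ^ γ) = (2 ^ m * c₃) * N ^ γ := by ring
        _ ≤ c₆ * N ^ (2 * γ - 1) := mul_le_mul hc₆ h2 h3 hc60.le
    exact le_of_pow_le_pow_left₀ hmn (by linarith) h1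
  have hS1 : A ≤ (⌈A⌉₊ : ℝ) := Nat.le_ceil A
  have hS2 : (⌈A⌉₊ : ℝ) ≤ 2 * A := by
    have := Nat.ceil_lt_add_one (show 0 ≤ A by linarith)
    linarith
  have hD1 : B < ((⌊B⌋₊ + 1 : ℕ) : ℝ) := by
    push_cast
    exact Nat.lt_floor_add_one B
  have hD2 : ((⌊B⌋₊ + 1 : ℕ) : ℝ) ≤ 2 * B := by
    push_cast
    have := Nat.floor_le (show 0 ≤ B by linarith)
    linarith
  have hA0 : 0 ≤ A := by linarith
  have hB0 : 0 ≤ B := by linarith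
  refine ⟨⌈A⌉₊, ⌊B⌋₊ + 1, ?_, ?_, ?_, ?_, ?_, ?_, ?_, ?_⟩
  · exact Nat.one_le_ceil_iff.2 (by linarith)
  · have : ((⌈A⌉₊ : ℕ) : ℝ) ≤ ((⌊B⌋₊ + 1 : ℕ) : ℝ) := by linarith
    exact_mod_cast this
  · rw [← hAm]
    exact pow_le_pow_left₀ hA0 hS1 m
  · calc ((⌈A⌉₊ : ℕ) : ℝ) ^ m ≤ (2 * A) ^ m := pow_le_pow_left₀ (by positivity) hS2 m
      _ = 2 ^ m * c₃ * N ^ γ := by rw [mul_pow, hAm]; ring
  · rw [← hBm]
    exact pow_lt_pow_left₀ hD1 hB0 hmn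
  · calc ((⌊B⌋₊ + 1 : ℕ) : ℝ) ^ m ≤ (2 * B) ^ m := pow_le_pow_left₀ (by positivity) hD2 m
      _ = 2 ^ m * c₆ * N ^ (2 * γ - 1) := by rw [mul_pow, hBm]; ring
  · have h5 : ((⌊B⌋₊ + 1 : ℕ) : ℝ) ^ 2 ≤ 4 * B ^ 2 := by
      have : ((⌊B⌋₊ + 1 : ℕ) : ℝ) ^ 2 ≤ (2 * B) ^ 2 := pow_le_pow_left₀ (by positivity) hD2 2
      linarith [mul_pow (2 : ℝ) B 2]
    have h6 : B ≤ c₆ * N ^ ((2 * γ - 1) / m) := by
      rw [hB, Real.mul_rpow hc60.le (by positivity), ← Real.rpow_mul hN0.le]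
      have h7 : c₆ ^ ((m : ℝ)⁻¹) ≤ c₆ := by
        calc c₆ ^ ((m : ℝ)⁻¹) ≤ c₆ ^ (1 : ℝ) :=
              Real.rpow_le_rpow_of_exponent_le hc61 (inv_le_one_of_one_le₀ hm1)
          _ = c₆ := Real.rpow_one _
      have h8 : N ^ ((2 * γ - 1) * (m : ℝ)⁻¹) = N ^ ((2 * γ - 1) / m) := by
        rw [div_eq_mul_inv]
      rw [h8]
      exact mul_le_mul_of_nonneg_right h7 (by positivity)
    have h9 : B ^ 2 ≤ c₆ ^ 2 * N ^ (1 - 1 / (2 * Γ)) := by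
      have h10 : B ^ 2 ≤ (c₆ * N ^ ((2 * γ - 1) / m)) ^ 2 := pow_le_pow_left₀ hB0 h6 2
      refine h10.trans ?_
      rw [mul_pow]
      refine mul_le_mul_of_nonneg_left ?_ (by positivity)
      rw [← Real.rpow_natCast, ← Real.rpow_mul hN0.le]
      refine Real.rpow_le_rpow_of_exponent_le hN1 ?_
      push_cast
      have h11 : (2 * γ - 1) / m * 2 ≤ (4 * Γ - 2) / (4 * Γ) := by
        rw [div_mul_eq_mul_div, div_le_div_iff₀ (by linarith) (by linarith)]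
        have h12 : (2 * γ - 1) * 2 ≤ 4 * Γ - 2 := by linarith
        have h13 : 0 ≤ 4 * Γ - 2 := by linarith
        nlinarith
      refine h11.trans (le_of_eq ?_)
      field_simp
      ring
    have h14 : 4 * K * c₆ ^ 2 ≤ N ^ (1 / (2 * Γ)) := by
      have h15 : ((4 * K * c₆ ^ 2) ^ (2 * Γ)) ^ (1 / (2 * Γ)) ≤ N ^ (1 / (2 * Γ)) :=
        Real.rpow_le_rpow (by positivity) hNa (by positivity)
      rw [← Real.rpow_mul (by positivity)] at h15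
      have h16 : 2 * Γ * (1 / (2 * Γ)) = 1 := by field_simp
      rw [h16, Real.rpow_one] at h15
      exact h15
    have h17 : N ^ (1 / (2 * Γ)) * N ^ (1 - 1 / (2 * Γ)) = N := by
      rw [← Real.rpow_add hN0]
      have : 1 / (2 * Γ) + (1 - 1 / (2 * Γ)) = 1 := by ring
      rw [this, Real.rpow_one]
    have h18 : 0 ≤ N ^ (1 - 1 / (2 * Γ)) := by positivity
    calc K * ((⌊B⌋₊ + 1 : ℕ) : ℝ) ^ 2 ≤ K * (4 * B ^ 2) :=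
          mul_le_mul_of_nonneg_left h5 (by linarith)
      _ ≤ K * (4 * (c₆ ^ 2 * N ^ (1 - 1 / (2 * Γ)))) := by
          refine mul_le_mul_of_nonneg_left ?_ (by linarith)
          linarith
      _ = (4 * K * c₆ ^ 2) * N ^ (1 - 1 / (2 * Γ)) := by ring
      _ ≤ N ^ (1 / (2 * Γ)) * N ^ (1 - 1 / (2 * Γ)) := mul_le_mul_of_nonneg_right h14 h18
      _ = N := h17
  · have h19 : K ≤ B := by
      have h20 : K ^ m ≤ B ^ m := by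
        rw [hBm]
        have h21 : K ^ m ≤ N := by
          rw [← Real.rpow_natCast]
          exact hNb
        have h22 : N ≤ N ^ (2 * γ - 1) := by
          calc N = N ^ (1 : ℝ) := (Real.rpow_one N).symm
            _ ≤ N ^ (2 * γ - 1) := Real.rpow_le_rpow_of_exponent_le hN1 (by linarith)
        have h23 : 0 ≤ N ^ (2 * γ - 1) := by positivity
        nlinarith
      exact le_of_pow_le_pow_left₀ hmn hB0 h20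
    linarith

end LTD
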