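import Mathlib

set_option autoImplicit false

namespace LTD

/-- ROW Num2. All by taking logarithms; `N^γ ≥ N ≥ 2`. (1) `H ≤ e^{N/8}` and
`D^m ≤ 2^m c₆ N^{2Γ} ≤ e^{7N/8}` for `N` large. (2) `log(4Y + 2) ≤ log 6 + log Y` for `Y ≥ 1`
(`Y = D^m H U^{..} e^{N^γ}`; `H ≥ 1`) `≤ 2 + N + m²DS log U + N^γ ≤ 2 + N + N log U + N^γ ≤ (4 + log U) N^γ`
(`m²DS ≤ m²D² ≤ N`, and (1)); `log(H+1) ≥ N/8`; so the left side is `≤ 2·2^m c₃ (4 + log U) N^{2γ}` and the right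
side is `> c₆ N^{2γ-1} N/8 = 2·2^m c₃(4 + log U) N^{2γ}`. (3) by (1) the left side is
`≤ exp(N + 13W²N - S^m log 6)` (`52m²D²W² ≤ 13W²N`), `S^m log 6 ≥ S^m ≥ (3 + 13W²) N^γ` and
`e^{-N^γ}/4 ≥ e^{-2N^γ}` (`N^γ ≥ 2 ≥ log 4`). (4) `(4D)^m = 4^m D^m`, `4^m log 6 - log 13 ≥ 4 log 6 - log 13 ≥ 1`,
`D^m ≥ D³ ≥ (56m²W² + 1) D² ≥ 56m²D²W² + log 2`. -/
theorem num2 (m : ℕ) (Γ W U c₃ c₆ : ℝ) (hm : 4 ≤ m) (hΓ : 1 ≤ Γ) (hW : 1 ≤ W) (hU : 1 ≤ U)
    (hc₃ : c₃ = 3 + 13 * W ^ 2) (hc₆ : c₆ = 16 * 2 ^ m * c₃ * (4 + Real.log U)) :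
    ∃ N₀ : ℝ, 1 ≤ N₀ ∧ ∀ N : ℝ, N₀ ≤ N → ∀ γ : ℝ, 1 ≤ γ → γ ≤ Γ → ∀ S D H : ℕ,
      1 ≤ S → S ≤ D → H = ⌊Real.exp (N / 8)⌋₊ →
      c₃ * N ^ γ ≤ (S : ℝ) ^ m → (S : ℝ) ^ m ≤ 2 ^ m * c₃ * N ^ γ →
      c₆ * N ^ (2 * γ - 1) < (D : ℝ) ^ m → (D : ℝ) ^ m ≤ 2 ^ m * c₆ * N ^ (2 * γ - 1) →
      4 * (m : ℝ) ^ 2 * D ^ 2 ≤ N → 56 * (m : ℝ) ^ 2 * W ^ 2 + 1 ≤ D →
      (D : ℝ) ^ m * H ≤ Real.exp N ∧
      2 * (S : ℝ) ^ m *
          Real.log (4 * (D : ℝ) ^ m * H * U ^ (m ^ 2 * D * S) * Real.exp (N ^ γ) + 2) <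
        (D : ℝ) ^ m * Real.log (H + 1) ∧
      (D : ℝ) ^ m * H * Real.exp (52 * m ^ 2 * D ^ 2 * W ^ 2) * ((6 : ℝ)⁻¹) ^ (S ^ m) ≤
        Real.exp (-(N ^ γ)) / 4 ∧
      ((6 : ℝ)⁻¹) ^ ((4 * D) ^ m) * 13 ^ (D ^ m) * Real.exp (56 * m ^ 2 * D ^ 2 * W ^ 2) ≤
        1 / 2 := by
  have hlogU : 0 ≤ Real.log U := Real.log_nonneg hU
  have hc₃3 : 3 ≤ c₃ := by rw [hc₃]; nlinarith
  have h2m : (1 : ℝ) ≤ 2 ^ m := one_le_pow₀ (by norm_num)
  have hc₆1 : 1 ≤ c₆ := by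
    rw [hc₆]
    have h1 : (1 : ℝ) ≤ 2 ^ m * c₃ := by nlinarith
    have h2 : (1 : ℝ) ≤ 4 + Real.log U := by linarith
    nlinarith [mul_le_mul h1 h2 zero_le_one (by linarith)]
  -- the threshold
  have hev : ∀ᶠ N : ℝ in Filter.atTop, 2 ≤ N ∧ 2 ^ m * c₆ * N ^ (2 * Γ) ≤ Real.exp (7 / 8 * N) := by
    refine Filter.Eventually.and (Filter.eventually_ge_atTop _) ?_
    have h1 : (fun N : ℝ => N ^ (2 * Γ)) =o[Filter.atTop] fun N : ℝ => Real.exp (7 / 8 * N) :=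
      isLittleO_rpow_exp_pos_mul_atTop _ (by norm_num)
    have h2 := h1.bound (c := (2 ^ m * c₆)⁻¹) (by positivity)
    filter_upwards [h2, Filter.eventually_ge_atTop 0] with N hN hN0
    rw [Real.norm_of_nonneg (Real.rpow_nonneg hN0 _), Real.norm_of_nonneg (Real.exp_pos _).le] at hN
    have h3 : (0 : ℝ) < 2 ^ m * c₆ := by positivity
    calc 2 ^ m * c₆ * N ^ (2 * Γ) ≤ 2 ^ m * c₆ * ((2 ^ m * c₆)⁻¹ * Real.exp (7 / 8 * N)) :=
          mul_le_mul_of_nonneg_left hN h3.le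
      _ = Real.exp (7 / 8 * N) := by
          rw [← mul_assoc, mul_inv_cancel₀ h3.ne', one_mul]
  obtain ⟨N₀, hN₀⟩ := Filter.eventually_atTop.mp hev
  refine ⟨max 1 N₀, le_max_left _ _, fun N hN γ hγ1 hγΓ S D H hS hSD hH hS1 hS2 hD1 hD2 hDN hDW => ?_⟩
  obtain ⟨hN2, hNe⟩ := hN₀ N ((le_max_right _ _).trans hN)
  have hN0 : 0 < N := by linarith
  have hN1 : 1 ≤ N := by linarith
  have hD : 1 ≤ D := hS.trans hSD
  have hDr : (1 : ℝ) ≤ (D : ℝ) := by exact_mod_cast hD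
  have hSr : (1 : ℝ) ≤ (S : ℝ) := by exact_mod_cast hS
  have hSDr : (S : ℝ) ≤ (D : ℝ) := by exact_mod_cast hSD
  have hDm1 : (1 : ℝ) ≤ (D : ℝ) ^ m := one_le_pow₀ hDr
  have hSm1 : (1 : ℝ) ≤ (S : ℝ) ^ m := one_le_pow₀ hSr
  have hNγ : N ≤ N ^ γ := by
    calc N = N ^ (1 : ℝ) := (Real.rpow_one N).symm
      _ ≤ N ^ γ := Real.rpow_le_rpow_of_exponent_le hN1 hγ1
  have hNγ0 : 0 < N ^ γ := by linarith
  have hHe : (H : ℝ) ≤ Real.exp (N / 8) := by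
    rw [hH]
    exact Nat.floor_le (Real.exp_pos _).le
  have hHlt : Real.exp (N / 8) < (H : ℝ) + 1 := by
    rw [hH]
    exact Nat.lt_floor_add_one _
  have hH1 : (1 : ℝ) ≤ (H : ℝ) := by
    have h1 : 1 ≤ H := by
      rw [hH]
      refine Nat.le_floor ?_
      rw [Nat.cast_one]
      exact Real.one_le_exp (by linarith)
    exact_mod_cast h1
  have hDexp : (D : ℝ) ^ m ≤ Real.exp (7 / 8 * N) := by
    refine hD2.trans (le_trans ?_ hNe)
    refine mul_le_mul_of_nonneg_left ?_ (by positivity)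
    exact Real.rpow_le_rpow_of_exponent_le hN1 (by linarith)
  have h1 : (D : ℝ) ^ m * H ≤ Real.exp N := by
    calc (D : ℝ) ^ m * H ≤ Real.exp (7 / 8 * N) * Real.exp (N / 8) :=
          mul_le_mul hDexp hHe (by linarith) (Real.exp_pos _).le
      _ = Real.exp N := by
          rw [← Real.exp_add]
          congr 1
          ring
  refine ⟨h1, ?_, ?_, ?_⟩
  · -- (2)
    have hmDS : ((m ^ 2 * D * S : ℕ) : ℝ) ≤ N := by
      push_cast
      have h3 : (m : ℝ) ^ 2 * D * S ≤ (m : ℝ) ^ 2 * D * D :=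
        mul_le_mul_of_nonneg_left hSDr (by positivity)
      have h4 : (0 : ℝ) ≤ (m : ℝ) ^ 2 * D ^ 2 := by positivity
      nlinarith
    set Y : ℝ := (D : ℝ) ^ m * H * U ^ (m ^ 2 * D * S) * Real.exp (N ^ γ) with hY
    have hUp : 1 ≤ U ^ (m ^ 2 * D * S) := one_le_pow₀ hU
    have he1 : 1 ≤ Real.exp (N ^ γ) := Real.one_le_exp hNγ0.le
    have hDH : 1 ≤ (D : ℝ) ^ m * H := by nlinarith
    have hY1 : 1 ≤ Y := by
      rw [hY]
      have h3 : 1 ≤ (D : ℝ) ^ m * H * U ^ (m ^ 2 * D * S) := by nlinarith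
      nlinarith
    have hlogY : Real.log Y ≤ N + N * Real.log U + N ^ γ := by
      rw [hY, Real.log_mul (by positivity) (by positivity), Real.log_mul (by positivity)
        (by positivity), Real.log_exp, Real.log_pow]
      have h3 : Real.log ((D : ℝ) ^ m * H) ≤ N := by
        rw [← Real.log_exp N]
        exact Real.log_le_log (by positivity) h1
      have h4 : ((m ^ 2 * D * S : ℕ) : ℝ) * Real.log U ≤ N * Real.log U :=
        mul_le_mul_of_nonneg_right hmDS hlogU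
      linarith
    have hlog6 : Real.log 6 ≤ 2 := by
      rw [Real.log_le_iff_le_exp (by norm_num)]
      have h3 := Real.add_one_le_exp (1 : ℝ)
      have h4 : Real.exp 2 = Real.exp 1 * Real.exp 1 := by rw [← Real.exp_add]; norm_num
      have h5 := Real.exp_one_gt_d9
      rw [h4]
      nlinarith
    have hlogA : Real.log (4 * (D : ℝ) ^ m * H * U ^ (m ^ 2 * D * S) * Real.exp (N ^ γ) + 2) ≤
        (4 + Real.log U) * N ^ γ := by
      have h3 : 4 * (D : ℝ) ^ m * H * U ^ (m ^ 2 * D * S) * Real.exp (N ^ γ) + 2 ≤ 6 * Y := by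
        have : 4 * (D : ℝ) ^ m * H * U ^ (m ^ 2 * D * S) * Real.exp (N ^ γ) = 4 * Y := by
          rw [hY]; ring
        rw [this]
        linarith
      calc Real.log (4 * (D : ℝ) ^ m * H * U ^ (m ^ 2 * D * S) * Real.exp (N ^ γ) + 2)
          ≤ Real.log (6 * Y) := Real.log_le_log (by positivity) h3
        _ = Real.log 6 + Real.log Y := Real.log_mul (by norm_num) (by linarith)
        _ ≤ 2 + (N + N * Real.log U + N ^ γ) := add_le_add hlog6 hlogY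
        _ ≤ (4 + Real.log U) * N ^ γ := by
            have h5 : N * Real.log U ≤ N ^ γ * Real.log U :=
              mul_le_mul_of_nonneg_right hNγ hlogU
            nlinarith
    have hlogH : N / 8 ≤ Real.log ((H : ℝ) + 1) := by
      rw [Real.le_log_iff_exp_le (by linarith)]
      exact hHlt.le
    have hlogA0 : 0 ≤ Real.log (4 * (D : ℝ) ^ m * H * U ^ (m ^ 2 * D * S) * Real.exp (N ^ γ) + 2) := by
      apply Real.log_nonneg
      have : (0 : ℝ) ≤ 4 * (D : ℝ) ^ m * H * U ^ (m ^ 2 * D * S) * Real.exp (N ^ γ) := by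
        positivity
      linarith
    have hNN : N ^ (2 * γ - 1) * N = N ^ γ * N ^ γ := by
      calc N ^ (2 * γ - 1) * N = N ^ (2 * γ - 1) * N ^ (1 : ℝ) := by rw [Real.rpow_one]
        _ = N ^ (γ + γ) := by rw [← Real.rpow_add hN0]; congr 1; ring
        _ = N ^ γ * N ^ γ := Real.rpow_add hN0 _ _
    calc 2 * (S : ℝ) ^ m *
          Real.log (4 * (D : ℝ) ^ m * H * U ^ (m ^ 2 * D * S) * Real.exp (N ^ γ) + 2)
        ≤ 2 * (2 ^ m * c₃ * N ^ γ) * ((4 + Real.log U) * N ^ γ) := by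
          refine mul_le_mul ?_ hlogA hlogA0 (by positivity)
          linarith
      _ = c₆ * (N ^ γ * N ^ γ) / 8 := by rw [hc₆]; ring
      _ = c₆ * N ^ (2 * γ - 1) * (N / 8) := by rw [← hNN]; ring
      _ < (D : ℝ) ^ m * (N / 8) := mul_lt_mul_of_pos_right hD1 (by positivity)
      _ ≤ (D : ℝ) ^ m * Real.log ((H : ℝ) + 1) :=
          mul_le_mul_of_nonneg_left hlogH (by positivity)
  · -- (3)
    have h3 : Real.exp (52 * m ^ 2 * D ^ 2 * W ^ 2) ≤ Real.exp (13 * W ^ 2 * N) := by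
      apply Real.exp_le_exp.mpr
      have : 13 * W ^ 2 * (4 * (m : ℝ) ^ 2 * D ^ 2) ≤ 13 * W ^ 2 * N :=
        mul_le_mul_of_nonneg_left hDN (by positivity)
      nlinarith
    have h4 : ((6 : ℝ)⁻¹) ^ (S ^ m) ≤ Real.exp (-((3 + 13 * W ^ 2) * N ^ γ)) := by
      have h5 : ((6 : ℝ)⁻¹) ≤ Real.exp (-1) := by
        rw [Real.exp_neg]
        apply inv_anti₀ (Real.exp_pos _)
        have := Real.exp_one_lt_d9
        linarith
      calc ((6 : ℝ)⁻¹) ^ (S ^ m) ≤ (Real.exp (-1)) ^ (S ^ m) :=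
            pow_le_pow_left₀ (by norm_num) h5 _
        _ = Real.exp (((S ^ m : ℕ) : ℝ) * (-1)) := by rw [← Real.exp_nat_mul]
        _ ≤ Real.exp (-((3 + 13 * W ^ 2) * N ^ γ)) := by
            apply Real.exp_le_exp.mpr
            rw [← hc₃]
            push_cast
            linarith
    have h6 : Real.exp (-(N ^ γ)) ≤ 1 / 4 := by
      have h7 : Real.exp (-(N ^ γ)) ≤ Real.exp (-2) := Real.exp_le_exp.mpr (by linarith)
      have h8 : Real.exp (-2) ≤ 1 / 4 := by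
        rw [Real.exp_neg, one_div]
        apply inv_anti₀ (by norm_num)
        have h4 : Real.exp 2 = Real.exp 1 * Real.exp 1 := by rw [← Real.exp_add]; norm_num
        have h5 := Real.exp_one_gt_d9
        rw [h4]
        nlinarith
      linarith
    have he : 0 < Real.exp (-(N ^ γ)) := Real.exp_pos _
    calc (D : ℝ) ^ m * H * Real.exp (52 * m ^ 2 * D ^ 2 * W ^ 2) * ((6 : ℝ)⁻¹) ^ (S ^ m)
        ≤ Real.exp N * Real.exp (13 * W ^ 2 * N) * Real.exp (-((3 + 13 * W ^ 2) * N ^ γ)) := by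
          refine mul_le_mul ?_ h4 (by positivity) (by positivity)
          exact mul_le_mul h1 h3 (Real.exp_pos _).le (Real.exp_pos _).le
      _ = Real.exp (N + 13 * W ^ 2 * N - (3 + 13 * W ^ 2) * N ^ γ) := by
          rw [← Real.exp_add, ← Real.exp_add]
          congr 1
      _ ≤ Real.exp (-(N ^ γ) + -(N ^ γ)) := by
          apply Real.exp_le_exp.mpr
          have h9 : 13 * W ^ 2 * N ≤ 13 * W ^ 2 * N ^ γ :=
            mul_le_mul_of_nonneg_left hNγ (by positivity)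
          nlinarith
      _ = Real.exp (-(N ^ γ)) * Real.exp (-(N ^ γ)) := Real.exp_add _ _
      _ ≤ Real.exp (-(N ^ γ)) * (1 / 4) := mul_le_mul_of_nonneg_left h6 he.le
      _ = Real.exp (-(N ^ γ)) / 4 := by ring
  · -- (4)
    have h4D : (4 * D) ^ m = 4 * D ^ m + (4 ^ m - 4) * D ^ m := by
      have h5 : 4 ≤ 4 ^ m := by
        calc 4 = 4 ^ 1 := by norm_num
          _ ≤ 4 ^ m := Nat.pow_le_pow_right (by norm_num) (by omega)
      rw [mul_pow, ← add_mul]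
      congr 1
      omega
    have h6 : ((6 : ℝ)⁻¹) ^ ((4 * D) ^ m) ≤ ((1 : ℝ) / 1296) ^ (D ^ m) := by
      calc ((6 : ℝ)⁻¹) ^ ((4 * D) ^ m) ≤ ((6 : ℝ)⁻¹) ^ (4 * D ^ m) := by
            apply pow_le_pow_of_le_one (by norm_num) (by norm_num)
            rw [h4D]
            exact Nat.le_add_right _ _
        _ = ((1 : ℝ) / 1296) ^ (D ^ m) := by
            rw [pow_mul]
            norm_num
    have h7 : ((6 : ℝ)⁻¹) ^ ((4 * D) ^ m) * 13 ^ (D ^ m) ≤ Real.exp (-((D : ℝ) ^ m)) := by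
      calc ((6 : ℝ)⁻¹) ^ ((4 * D) ^ m) * 13 ^ (D ^ m)
          ≤ ((1 : ℝ) / 1296) ^ (D ^ m) * 13 ^ (D ^ m) :=
            mul_le_mul_of_nonneg_right h6 (by positivity)
        _ = ((13 : ℝ) / 1296) ^ (D ^ m) := by
            rw [← mul_pow]
            norm_num
        _ ≤ (Real.exp (-1)) ^ (D ^ m) := by
            apply pow_le_pow_left₀ (by norm_num)
            rw [Real.exp_neg]
            have h8 := Real.exp_one_lt_d9
            have h9 : (3 : ℝ)⁻¹ ≤ (Real.exp 1)⁻¹ := inv_anti₀ (Real.exp_pos _) (by linarith)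
            refine le_trans ?_ h9
            norm_num
        _ = Real.exp (((D ^ m : ℕ) : ℝ) * (-1)) := by rw [← Real.exp_nat_mul]
        _ = Real.exp (-((D : ℝ) ^ m)) := by
            congr 1
            push_cast
            ring
    have h8 : (D : ℝ) ^ 3 ≤ (D : ℝ) ^ m := pow_le_pow_right₀ hDr (by omega)
    have h9 : 56 * (m : ℝ) ^ 2 * D ^ 2 * W ^ 2 + 1 ≤ (D : ℝ) ^ m := by
      have h10 : (56 * (m : ℝ) ^ 2 * W ^ 2 + 1) * D ^ 2 ≤ (D : ℝ) * D ^ 2 :=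
        mul_le_mul_of_nonneg_right hDW (by positivity)
      have h11 : (1 : ℝ) ≤ (D : ℝ) ^ 2 := one_le_pow₀ hDr
      nlinarith
    calc ((6 : ℝ)⁻¹) ^ ((4 * D) ^ m) * 13 ^ (D ^ m) * Real.exp (56 * m ^ 2 * D ^ 2 * W ^ 2)
        ≤ Real.exp (-((D : ℝ) ^ m)) * Real.exp (56 * m ^ 2 * D ^ 2 * W ^ 2) :=
          mul_le_mul_of_nonneg_right h7 (Real.exp_pos _).le
      _ = Real.exp (-((D : ℝ) ^ m) + 56 * m ^ 2 * D ^ 2 * W ^ 2) := by rw [← Real.exp_add]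
      _ ≤ Real.exp (-1) := Real.exp_le_exp.mpr (by linarith)
      _ ≤ 1 / 2 := by
          rw [Real.exp_neg, one_div]
          apply inv_anti₀ (by norm_num)
          have h5 := Real.exp_one_gt_d9
          linarith

end LTD
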