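import Pool.Agent.LTD.Def

set_option autoImplicit false

namespace LTD

private lemma Num3_le_exp (x : ℝ) : x ≤ Real.exp x := by
  have := Real.add_one_le_exp x
  linarith

private lemma Num3_base (m D : ℕ) (W C : ℝ) :
    104 * m * D * W * Real.exp (4 * C * m * D) ≤ Real.exp ((104 * m * W + 4 * C * m) * D) := by
  have h1 : (104 * m * D * W : ℝ) ≤ Real.exp (104 * m * D * W) := Num3_le_exp _
  calc 104 * m * D * W * Real.exp (4 * C * m * D)
      ≤ Real.exp (104 * m * D * W) * Real.exp (4 * C * m * D) :=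
        mul_le_mul_of_nonneg_right h1 (Real.exp_pos _).le
    _ = Real.exp ((104 * m * W + 4 * C * m) * D) := by
        rw [← Real.exp_add]; congr 1; ring

private lemma Num3_basepow (m D k : ℕ) (W C : ℝ) (hW : 1 ≤ W) :
    (104 * m * D * W * Real.exp (4 * C * m * D)) ^ k
      ≤ Real.exp (k * ((104 * m * W + 4 * C * m) * D)) := by
  rw [Real.exp_nat_mul]
  refine pow_le_pow_left₀ ?_ (Num3_base m D W C) k
  positivity

private lemma Num3_eps (m D H : ℕ) (N U X : ℝ) (hN : 0 ≤ N) (hU : 1 ≤ U)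
    (h1 : 4 * (m : ℝ) ^ 2 * D ^ 2 ≤ N) (h2 : (D : ℝ) ^ m * H ≤ Real.exp N) :
    eps m D H U X ≤ Real.exp ((2 + Real.log U) * N - X) := by
  unfold eps
  have hU0 : 0 < U := by linarith
  have hlog : 0 ≤ Real.log U := Real.log_nonneg hU
  have h3 : (4 * (m : ℝ) ^ 2 * D ^ 2) ≤ Real.exp N := h1.trans (Num3_le_exp N)
  have h4 : U ^ (4 * m ^ 2 * D ^ 2) ≤ Real.exp (Real.log U * N) := by
    have h5 : U ^ (4 * m ^ 2 * D ^ 2) = Real.exp (((4 * m ^ 2 * D ^ 2 : ℕ) : ℝ) * Real.log U) := by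
      rw [Real.exp_nat_mul, Real.exp_log hU0]
    rw [h5]
    apply Real.exp_le_exp.2
    rw [mul_comm]
    apply mul_le_mul_of_nonneg_left _ hlog
    push_cast
    exact h1
  have h0 : (0 : ℝ) ≤ 4 * (m : ℝ) ^ 2 * D ^ 2 := by positivity
  calc (D : ℝ) ^ m * H * (4 * m ^ 2 * D ^ 2) * U ^ (4 * m ^ 2 * D ^ 2) * Real.exp (-X)
      ≤ Real.exp N * Real.exp N * Real.exp (Real.log U * N) * Real.exp (-X) := by
        gcongr
    _ = Real.exp ((2 + Real.log U) * N - X) := by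
        rw [← Real.exp_add, ← Real.exp_add, ← Real.exp_add]; congr 1; ring

private lemma Num3_fact (m D : ℕ) :
    (Nat.factorial (D ^ m) : ℝ) ≤ Real.exp (m * ((D : ℝ) ^ m * D)) := by
  have h1 : (Nat.factorial (D ^ m) : ℝ) ≤ ((D : ℝ) ^ m) ^ (D ^ m) := by
    exact_mod_cast Nat.factorial_le_pow (D ^ m)
  have h2 : (D : ℝ) ^ m ≤ Real.exp (m * D) := by
    rw [Real.exp_nat_mul]
    exact pow_le_pow_left₀ (by positivity) (Num3_le_exp _) m
  calc (Nat.factorial (D ^ m) : ℝ) ≤ ((D : ℝ) ^ m) ^ (D ^ m) := h1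
    _ ≤ (Real.exp (m * D)) ^ (D ^ m) := pow_le_pow_left₀ (by positivity) h2 _
    _ = Real.exp (m * ((D : ℝ) ^ m * D)) := by
        rw [← Real.exp_nat_mul]; congr 1; push_cast; ring

/-- ROW Num3. Take logarithms; let `c` be a constant depending only on `m, W, U, C, c₃, c₆`. `D ≤ D² ≤ N`,
`N^γ ≤ N^{2γ-1} N`, `S^m, D^m ≤ c N^{2γ-1}`, so `S^m D, D^m D ≤ c N^{2γ}` (`S^m ≤ D^m`), `N ≤ N^{2γ}`;
`log eps ≤ N + N + N log U - N^{3γ}` (`log(D^m H) ≤ N`, `log(4m²D²) ≤ 4m²D² ≤ N`);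
`log(104mDW e^{4CmD}) ≤ (104mW + 4Cm) D`; `log(2S^m) ≤ 2S^m`; `log (D^m)! ≤ D^m log(D^m) ≤ D^m · m · D`;
`4m²D²W² ≤ W²N`; `C m D · D^m ≤ c N^{2γ}`; `log(4 (4D)^m) ≤ 4 · 4^m D^m`; `(4D)^m (104mW + 4Cm) D ≤ c N^{2γ}`.
So the logarithm of the left side of (1) is `≤ c N^{2γ} - N^{3γ} ≤ -N^γ - log 4` and that of (2) is
`≤ c N^{2γ} - N^{3γ} < 0` for `N` large (`N^{3γ} ≥ N · N^{2γ}`, `γ ≥ 1`). If `H = 0` then `eps = 0` and both
are trivial. -/
theorem num3 (m : ℕ) (Γ W U C c₃ c₆ : ℝ) (hm : 4 ≤ m) (hΓ : 1 ≤ Γ) (hW : 1 ≤ W) (hU : 1 ≤ U)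
    (hC : 0 ≤ C) (hc₃ : 1 ≤ c₃) (hc₆ : 1 ≤ c₆) :
    ∃ N₀ : ℝ, 1 ≤ N₀ ∧ ∀ N : ℝ, N₀ ≤ N → ∀ γ : ℝ, 1 ≤ γ → γ ≤ Γ → ∀ S D H : ℕ,
      1 ≤ S → S ≤ D → (S : ℝ) ^ m ≤ 2 ^ m * c₃ * N ^ γ →
      (D : ℝ) ^ m ≤ 2 ^ m * c₆ * N ^ (2 * γ - 1) →
      4 * (m : ℝ) ^ 2 * D ^ 2 ≤ N → (D : ℝ) ^ m * H ≤ Real.exp N →
      2 * (S : ℝ) ^ m * eps m D H U (N ^ (3 * γ)) *
          (104 * m * D * W * Real.exp (4 * C * m * D)) ^ (S ^ m) ≤ Real.exp (-(N ^ γ)) / 4 ∧
      (Nat.factorial (D ^ m) : ℝ) * Real.exp (4 * m ^ 2 * D ^ 2 * W ^ 2) *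
          (Real.exp (C * m * D)) ^ (D ^ m) *
          (4 * ((4 * D : ℕ) : ℝ) ^ m * eps m D H U (N ^ (3 * γ)) *
            (104 * m * D * W * Real.exp (4 * C * m * D)) ^ ((4 * D) ^ m)) < 1 := by
  have hlog : 0 ≤ Real.log U := Real.log_nonneg hU
  set A : ℝ := 104 * m * W + 4 * C * m with hA
  set P : ℝ := 2 ^ m * c₃ with hP
  set R : ℝ := 2 ^ m * c₆ with hR
  have hA0 : 0 ≤ A := by positivity
  have hP0 : 0 ≤ P := by positivity
  have hR0 : 0 ≤ R := by positivity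
  set c : ℝ := 2 * P + (2 + Real.log U) + A * P with hc
  set c' : ℝ := m * R + W ^ 2 + C * m * R + 4 * (4 ^ m * R) + (2 + Real.log U) + A * (4 ^ m * R)
    with hc'
  have hc0 : 0 ≤ c := by positivity
  have hc'0 : 0 ≤ c' := by positivity
  refine ⟨c + c' + 5, by linarith, ?_⟩
  intro N hN γ hγ hγ2 S D H hS1 hSD hSm hDm hD2 hDH
  have hN1 : 1 ≤ N := by linarith
  have hN0 : 0 < N := by linarith
  have hD1 : 1 ≤ D := hS1.trans hSD
  have hD1' : (1 : ℝ) ≤ D := by exact_mod_cast hD1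
  have hS1' : (1 : ℝ) ≤ S := by exact_mod_cast hS1
  have hm' : (4 : ℝ) ≤ m := by exact_mod_cast hm
  obtain ⟨X, hX⟩ : ∃ X : ℝ, N ^ γ = X := ⟨_, rfl⟩
  have hNX : N ≤ X := by
    rw [← hX]
    calc N = N ^ (1 : ℝ) := (Real.rpow_one N).symm
      _ ≤ N ^ γ := Real.rpow_le_rpow_of_exponent_le hN1 hγ
  have hX3 : N ^ (3 * γ) = X ^ 3 := by
    rw [← hX, mul_comm, Real.rpow_mul hN0.le]
    norm_cast
  have hXY : N * N ^ (2 * γ - 1) = X ^ 2 := by
    rw [← hX, ← Real.rpow_natCast (N ^ γ) 2, ← Real.rpow_mul hN0.le]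
    have : N * N ^ (2 * γ - 1) = N ^ (1 : ℝ) * N ^ (2 * γ - 1) := by rw [Real.rpow_one]
    rw [this, ← Real.rpow_add hN0]
    congr 1
    push_cast
    ring
  have hX1 : 1 ≤ X := hN1.trans hNX
  have hXX : X ≤ X ^ 2 := by nlinarith
  have hDN : (D : ℝ) ≤ N := by
    have h1 : (D : ℝ) ≤ D ^ 2 := by nlinarith
    have h2 : (D : ℝ) ^ 2 ≤ 4 * (m : ℝ) ^ 2 * D ^ 2 := by
      have h3 : (1 : ℝ) ≤ 4 * (m : ℝ) ^ 2 := by nlinarith
      have h4 : (0 : ℝ) ≤ (D : ℝ) ^ 2 := by positivity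
      nlinarith
    linarith
  rw [hX] at hSm
  rw [hX3, hX]
  have hSmD : (S : ℝ) ^ m * D ≤ P * X ^ 2 := by
    calc (S : ℝ) ^ m * D ≤ (P * X) * X :=
          mul_le_mul hSm (hDN.trans hNX) (by positivity) (by positivity)
      _ = P * X ^ 2 := by ring
  have hSmX : (S : ℝ) ^ m ≤ P * X ^ 2 := by
    calc (S : ℝ) ^ m ≤ P * X := hSm
      _ ≤ P * X ^ 2 := mul_le_mul_of_nonneg_left hXX hP0
  have hDmD : (D : ℝ) ^ m * D ≤ R * X ^ 2 := by
    have hY0 : 0 ≤ N ^ (2 * γ - 1) := Real.rpow_nonneg hN0.le _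
    calc (D : ℝ) ^ m * D ≤ (R * N ^ (2 * γ - 1)) * N :=
          mul_le_mul hDm hDN (by positivity) (by positivity)
      _ = R * (N * N ^ (2 * γ - 1)) := by ring
      _ = R * X ^ 2 := by rw [hXY]
  have hDm2 : (D : ℝ) ^ m ≤ R * X ^ 2 := by
    have h1 : (D : ℝ) ^ m ≤ (D : ℝ) ^ m * D := by
      have : (0 : ℝ) ≤ (D : ℝ) ^ m := by positivity
      nlinarith
    linarith
  have hNX2 : N ≤ X ^ 2 := hNX.trans hXX
  have heps : eps m D H U (X ^ 3) ≤ Real.exp ((2 + Real.log U) * X ^ 2 - X ^ 3) := by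
    refine (Num3_eps m D H N U (X ^ 3) hN0.le hU hD2 hDH).trans ?_
    apply Real.exp_le_exp.2
    have : (2 + Real.log U) * N ≤ (2 + Real.log U) * X ^ 2 :=
      mul_le_mul_of_nonneg_left hNX2 (by linarith)
    linarith
  have heps0 : 0 ≤ eps m D H U (X ^ 3) := by
    unfold eps
    have : 0 ≤ U := by linarith
    positivity
  constructor
  · have e1 : 2 * (S : ℝ) ^ m ≤ Real.exp (2 * (P * X ^ 2)) :=
      (Num3_le_exp _).trans (Real.exp_le_exp.2 (by linarith))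
    have e2 : (104 * m * D * W * Real.exp (4 * C * m * D)) ^ (S ^ m)
        ≤ Real.exp (A * (P * X ^ 2)) := by
      refine (Num3_basepow m D (S ^ m) W C hW).trans (Real.exp_le_exp.2 ?_)
      push_cast
      calc (S : ℝ) ^ m * ((104 * m * W + 4 * C * m) * D) = A * ((S : ℝ) ^ m * D) := by
            rw [hA]; ring
        _ ≤ A * (P * X ^ 2) := mul_le_mul_of_nonneg_left hSmD hA0
    calc 2 * (S : ℝ) ^ m * eps m D H U (X ^ 3) *
          (104 * m * D * W * Real.exp (4 * C * m * D)) ^ (S ^ m)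
        ≤ Real.exp (2 * (P * X ^ 2)) * Real.exp ((2 + Real.log U) * X ^ 2 - X ^ 3) *
          Real.exp (A * (P * X ^ 2)) := by
          refine mul_le_mul (mul_le_mul e1 heps heps0 (Real.exp_pos _).le) e2 ?_ (by positivity)
          have : 0 ≤ W := by linarith
          positivity
      _ = Real.exp (c * X ^ 2 - X ^ 3) := by
          rw [← Real.exp_add, ← Real.exp_add]; congr 1; rw [hc]; ring
      _ ≤ Real.exp (-X - 2) := by
          apply Real.exp_le_exp.2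
          have hXc : c + 5 ≤ X := by linarith
          have h3 : (c + 5) * X ^ 2 ≤ X ^ 3 := by
            have : X ^ 3 = X * X ^ 2 := by ring
            rw [this]
            exact mul_le_mul_of_nonneg_right hXc (by positivity)
          nlinarith
      _ ≤ Real.exp (-X) / 4 := by
          rw [Real.exp_sub]
          apply div_le_div_of_nonneg_left (Real.exp_pos _).le (by norm_num)
          have h := Real.add_one_le_exp (1 : ℝ)
          have h2 : Real.exp 2 = Real.exp 1 * Real.exp 1 := by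
            rw [← Real.exp_add]; norm_num
          rw [h2]
          nlinarith
  · have hcast : (((4 * D : ℕ) : ℝ)) ^ m = 4 ^ m * (D : ℝ) ^ m := by
      push_cast
      rw [mul_pow]
    have f1 : (Nat.factorial (D ^ m) : ℝ) ≤ Real.exp (m * (R * X ^ 2)) :=
      (Num3_fact m D).trans (Real.exp_le_exp.2 (mul_le_mul_of_nonneg_left hDmD (by positivity)))
    have f2 : Real.exp (4 * (m : ℝ) ^ 2 * D ^ 2 * W ^ 2) ≤ Real.exp (W ^ 2 * X ^ 2) := by
      apply Real.exp_le_exp.2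
      calc 4 * (m : ℝ) ^ 2 * D ^ 2 * W ^ 2 ≤ X ^ 2 * W ^ 2 :=
            mul_le_mul_of_nonneg_right (hD2.trans hNX2) (by positivity)
        _ = W ^ 2 * X ^ 2 := by ring
    have f3 : (Real.exp (C * m * D)) ^ (D ^ m) ≤ Real.exp (C * m * (R * X ^ 2)) := by
      rw [← Real.exp_nat_mul]
      apply Real.exp_le_exp.2
      push_cast
      calc (D : ℝ) ^ m * (C * m * D) = C * m * ((D : ℝ) ^ m * D) := by ring
        _ ≤ C * m * (R * X ^ 2) := mul_le_mul_of_nonneg_left hDmD (by positivity)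
    have f4 : 4 * (((4 * D : ℕ) : ℝ)) ^ m ≤ Real.exp (4 * (4 ^ m * (R * X ^ 2))) := by
      refine (Num3_le_exp _).trans (Real.exp_le_exp.2 ?_)
      rw [hcast]
      have : (4 : ℝ) ^ m * (D : ℝ) ^ m ≤ 4 ^ m * (R * X ^ 2) :=
        mul_le_mul_of_nonneg_left hDm2 (by positivity)
      linarith
    have f5 : (104 * m * D * W * Real.exp (4 * C * m * D)) ^ ((4 * D) ^ m)
        ≤ Real.exp (A * (4 ^ m * (R * X ^ 2))) := by
      refine (Num3_basepow m D ((4 * D) ^ m) W C hW).trans (Real.exp_le_exp.2 ?_)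
      push_cast
      rw [mul_pow]
      calc (4 : ℝ) ^ m * (D : ℝ) ^ m * ((104 * m * W + 4 * C * m) * D)
          = A * (4 ^ m * ((D : ℝ) ^ m * D)) := by rw [hA]; ring
        _ ≤ A * (4 ^ m * (R * X ^ 2)) := by
            apply mul_le_mul_of_nonneg_left _ hA0
            exact mul_le_mul_of_nonneg_left hDmD (by positivity)
    have hW0 : 0 ≤ W := by linarith
    have g1 : 4 * (((4 * D : ℕ) : ℝ)) ^ m * eps m D H U (X ^ 3) *
            (104 * m * D * W * Real.exp (4 * C * m * D)) ^ ((4 * D) ^ m)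
        ≤ Real.exp (4 * (4 ^ m * (R * X ^ 2))) * Real.exp ((2 + Real.log U) * X ^ 2 - X ^ 3) *
          Real.exp (A * (4 ^ m * (R * X ^ 2))) := by
      refine mul_le_mul (mul_le_mul f4 heps heps0 (Real.exp_pos _).le) f5 ?_ (by positivity)
      positivity
    have g2 : (Nat.factorial (D ^ m) : ℝ) * Real.exp (4 * m ^ 2 * D ^ 2 * W ^ 2) *
          (Real.exp (C * m * D)) ^ (D ^ m)
        ≤ Real.exp (m * (R * X ^ 2)) * Real.exp (W ^ 2 * X ^ 2) *
          Real.exp (C * m * (R * X ^ 2)) := by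
      refine mul_le_mul (mul_le_mul f1 f2 (Real.exp_pos _).le (Real.exp_pos _).le) f3
        (by positivity) (by positivity)
    have g3 : 0 ≤ 4 * (((4 * D : ℕ) : ℝ)) ^ m * eps m D H U (X ^ 3) *
            (104 * m * D * W * Real.exp (4 * C * m * D)) ^ ((4 * D) ^ m) := by
      have h1 : 0 ≤ 4 * (((4 * D : ℕ) : ℝ)) ^ m := by positivity
      have h2 : 0 ≤ (104 * m * D * W * Real.exp (4 * C * m * D)) ^ ((4 * D) ^ m) := by positivity
      exact mul_nonneg (mul_nonneg h1 heps0) h2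
    calc (Nat.factorial (D ^ m) : ℝ) * Real.exp (4 * m ^ 2 * D ^ 2 * W ^ 2) *
          (Real.exp (C * m * D)) ^ (D ^ m) *
          (4 * ((4 * D : ℕ) : ℝ) ^ m * eps m D H U (X ^ 3) *
            (104 * m * D * W * Real.exp (4 * C * m * D)) ^ ((4 * D) ^ m))
        ≤ (Real.exp (m * (R * X ^ 2)) * Real.exp (W ^ 2 * X ^ 2) *
          Real.exp (C * m * (R * X ^ 2))) *
          (Real.exp (4 * (4 ^ m * (R * X ^ 2))) * Real.exp ((2 + Real.log U) * X ^ 2 - X ^ 3) *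
          Real.exp (A * (4 ^ m * (R * X ^ 2)))) :=
          mul_le_mul g2 g1 g3 (by positivity)
      _ = Real.exp (c' * X ^ 2 - X ^ 3) := by
          simp only [← Real.exp_add]; congr 1; rw [hc']; ring
      _ < 1 := by
          rw [Real.exp_lt_one_iff]
          have hXc : c' + 5 ≤ X := by linarith
          have h3 : (c' + 5) * X ^ 2 ≤ X ^ 3 := by
            have : X ^ 3 = X * X ^ 2 := by ring
            rw [this]
            exact mul_le_mul_of_nonneg_right hXc (by positivity)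
          have h4 : 1 ≤ X ^ 2 := by nlinarith
          nlinarith

end LTD
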