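import Pool.Agent.LTD.PhiR
import Pool.Agent.LTD.Dir

set_option autoImplicit false

namespace LTD

open Finset

/-- ROW St1 (step (i)). `dirichlet` with `μ = Fin m → Fin S` (`S^m` elements), `Λ = Fin m → Fin D` (`D^m`),
`c_{μ,l} = ∏_{i,j} u'_ij^{l_i μ_j}`, `Q = U^{m²DS}` (`∑_{i,j} l_i μ_j ≤ m² D S`, `U ≥ 1`), `ε = e^{-g}`
(`Q/ε = Q e^g`): `p ≠ 0`, `|p_l| ≤ H`, `|Φ_μ(u')| < e^{-g}` for all `μ ∈ [0,S)^m`; by `Phi_Sz` (`S ≤ D ≤ 4D`)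
and `hGap` they vanish. -/
theorem step1 (m D S H : ℕ) (N g U : ℝ) (u' : Fin m × Fin m → ℂ) (hU : 1 ≤ U)
    (hu' : ∀ k, ‖u' k‖ ≤ U) (hGap : Gap u' N g) (hSD : S ≤ D)
    (hdeg : 4 * (m : ℝ) ^ 2 * D ^ 2 ≤ N) (hlen : (D : ℝ) ^ m * H ≤ Real.exp N)
    (hDir : 2 * (S : ℝ) ^ m *
        Real.log (4 * (D : ℝ) ^ m * H * U ^ (m ^ 2 * D * S) * Real.exp g + 2) <
      (D : ℝ) ^ m * Real.log (H + 1)) :
    ∃ p : (Fin m → Fin D) → ℤ, p ≠ 0 ∧ (∀ l, |((p l : ℤ) : ℝ)| ≤ H) ∧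
      ∀ μ : Fin m → ℕ, (∀ j, μ j < S) → ev u' (Phi m D p μ) = 0 := by
  have hU0 : 0 ≤ U := by linarith
  have hc : ∀ (μ : Fin m → Fin S) (l : Fin m → Fin D),
      ‖∏ i : Fin m, ∏ j : Fin m, u' (i, j) ^ ((l i : ℕ) * (μ j : ℕ))‖ ≤ U ^ (m ^ 2 * D * S) := by
    intro μ l
    have h1 : ‖∏ i : Fin m, ∏ j : Fin m, u' (i, j) ^ ((l i : ℕ) * (μ j : ℕ))‖
        ≤ ∏ i : Fin m, ∏ j : Fin m, U ^ (D * S) := by
      rw [norm_prod]
      refine Finset.prod_le_prod (fun i _ => norm_nonneg _) fun i _ => ?_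
      rw [norm_prod]
      refine Finset.prod_le_prod (fun j _ => norm_nonneg _) fun j _ => ?_
      rw [norm_pow]
      calc ‖u' (i, j)‖ ^ ((l i : ℕ) * (μ j : ℕ)) ≤ U ^ ((l i : ℕ) * (μ j : ℕ)) :=
            pow_le_pow_left₀ (norm_nonneg _) (hu' _) _
        _ ≤ U ^ (D * S) := by
            refine pow_le_pow_right₀ hU ?_
            exact Nat.mul_le_mul (l i).2.le (μ j).2.le
    refine h1.trans (le_of_eq ?_)
    simp only [Finset.prod_const, Finset.card_univ, Fintype.card_fin]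
    rw [← pow_mul, ← pow_mul]
    congr 1
    ring
  have hcard1 : (Fintype.card (Fin m → Fin S) : ℝ) = (S : ℝ) ^ m := by
    simp
  have hcard2 : (Fintype.card (Fin m → Fin D) : ℝ) = (D : ℝ) ^ m := by
    simp
  obtain ⟨p, hp0, hpH, hpc⟩ := dirichlet
    (fun (μ : Fin m → Fin S) (l : Fin m → Fin D) =>
      ∏ i : Fin m, ∏ j : Fin m, u' (i, j) ^ ((l i : ℕ) * (μ j : ℕ)))
    (U ^ (m ^ 2 * D * S)) (Real.exp (-g)) H (by positivity) (Real.exp_pos _) hc (by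
      rw [hcard1, hcard2]
      have e : 4 * (D : ℝ) ^ m * H * U ^ (m ^ 2 * D * S) / Real.exp (-g)
          = 4 * (D : ℝ) ^ m * H * U ^ (m ^ 2 * D * S) * Real.exp g := by
        rw [Real.exp_neg, div_inv_eq_mul]
      rw [e]
      exact hDir)
  refine ⟨p, hp0, hpH, fun μ hμ => ?_⟩
  have h2 := hpc (fun j => ⟨μ j, hμ j⟩)
  have h3 : ev u' (Phi m D p μ)
      = ∑ l : Fin m → Fin D, (p l : ℂ) * ∏ i : Fin m, ∏ j : Fin m,
          u' (i, j) ^ ((l i : ℕ) * μ j) := Phi_ev' m D p μ u'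
  have hμ4 : ∀ j, μ j ≤ 4 * D := fun j => by have := hμ j; omega
  rcases hGap (Phi m D p μ) (Phi_Sz m D H N p hpH μ hμ4 hdeg hlen) with h | h
  · exact h
  · exfalso
    rw [h3] at h
    exact absurd h2 (not_lt.2 h)

end LTD
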