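import Pool.Agent.LTD.Fac

set_option autoImplicit false

namespace LTD

open Finset

/-- the interpolation polynomial -/
private noncomputable def Sch_P (F : ℂ → ℂ) (T : Finset ℂ) (w : ℂ) : ℂ :=
  ∑ a ∈ T, F a * ∏ b ∈ T.erase a, ((w - b) / (a - b))

private theorem Sch_P_diff (F : ℂ → ℂ) (T : Finset ℂ) : Differentiable ℂ (Sch_P F T) := by
  unfold Sch_P
  refine Differentiable.fun_sum fun a _ => ?_
  refine Differentiable.const_mul (Differentiable.fun_finsetProd fun b _ => ?_) _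
  exact (differentiable_id.sub_const b).div_const (a - b)

private theorem Sch_P_eq (F : ℂ → ℂ) (T : Finset ℂ) (a : ℂ) (ha : a ∈ T) : Sch_P F T a = F a := by
  unfold Sch_P
  rw [Finset.sum_eq_single_of_mem a ha]
  · rw [Finset.prod_eq_one, mul_one]
    intro b hb
    have h1 : a - b ≠ 0 := sub_ne_zero.2 (Finset.ne_of_mem_erase hb).symm
    exact div_self h1
  · intro c hc hca
    rw [Finset.prod_eq_zero (Finset.mem_erase.2 ⟨hca.symm, ha⟩), mul_zero]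
    rw [sub_self, zero_div]

private theorem Sch_P_le (F : ℂ → ℂ) (T : Finset ℂ) (ρ R ε δ : ℝ) (hρR : ρ ≤ R)
    (hδ : 0 < δ) (hδR : δ ≤ 2 * R) (hε : 0 ≤ ε)
    (hTρ : ∀ a ∈ T, ‖a‖ ≤ ρ) (hT : ∀ a ∈ T, ∀ b ∈ T, a ≠ b → δ ≤ ‖a - b‖)
    (hTε : ∀ a ∈ T, ‖F a‖ ≤ ε) (w : ℂ) (hw : ‖w‖ ≤ R) :
    ‖Sch_P F T w‖ ≤ T.card * ε * (2 * R / δ) ^ T.card := by
  unfold Sch_P
  have hX : 1 ≤ 2 * R / δ := by
    rw [le_div_iff₀ hδ, one_mul]
    exact hδR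
  have h1 : ∀ a ∈ T, ‖F a * ∏ b ∈ T.erase a, ((w - b) / (a - b))‖ ≤
      ε * (2 * R / δ) ^ T.card := by
    intro a ha
    rw [norm_mul]
    refine mul_le_mul (hTε a ha) ?_ (norm_nonneg _) hε
    rw [norm_prod]
    calc ∏ b ∈ T.erase a, ‖(w - b) / (a - b)‖ ≤ ∏ _b ∈ T.erase a, (2 * R / δ) := by
          refine Finset.prod_le_prod (fun b _ => norm_nonneg _) fun b hb => ?_
          rw [norm_div]
          have hb' := Finset.mem_of_mem_erase hb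
          have h2 : ‖w - b‖ ≤ 2 * R := (norm_sub_le _ _).trans (by
            have := hTρ b hb'
            linarith)
          have h3 : δ ≤ ‖a - b‖ := hT a ha b hb' (Finset.ne_of_mem_erase hb).symm
          have h4 : 0 ≤ 2 * R := hδ.le.trans hδR
          exact div_le_div₀ h4 h2 hδ h3
      _ = (2 * R / δ) ^ (T.erase a).card := by rw [Finset.prod_const]
      _ ≤ (2 * R / δ) ^ T.card :=
          pow_le_pow_right₀ hX (Finset.card_le_card (Finset.erase_subset a T))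
  refine (norm_sum_le _ _).trans ((Finset.sum_le_sum h1).trans (le_of_eq ?_))
  rw [Finset.sum_const, nsmul_eq_mul]
  ring

/-- ROW Sch (L2). `P` = Lagrange interpolation polynomial of `F` at the points of `T` (`M = |T|`):
`P(w) = ∑_{a ∈ T} F(a) ∏_{b ∈ T, b ≠ a} (w - b)/(a - b)` (`Lagrange.interpolate` or by hand). For
`‖w‖ ≤ R`: `|P(w)| ≤ M ε (2R/δ)^{M-1} ≤ M ε (2R/δ)^M` (`‖w - b‖ ≤ 2R`, `2R ≥ δ`). `H = F - P` vanishes on `T`
and is entire, `|H| ≤ B + M ε (2R/δ)^M` on `|w| = R`; `schwarz0`: `|H(w)| ≤ 6^{-M}(B + M ε (2R/δ)^M)` for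
`|w| ≤ ρ`, so `|F(w)| ≤ |P(w)| + |H(w)| ≤ 2 M ε (2R/δ)^M + 6^{-M} B`. -/
theorem schwarz (F : ℂ → ℂ) (hF : Differentiable ℂ F) (T : Finset ℂ) (ρ R B ε δ : ℝ)
    (hρ : 0 < ρ) (hR : 13 * ρ ≤ R) (hδ : 0 < δ) (hδR : δ ≤ 2 * R) (hε : 0 ≤ ε)
    (hTρ : ∀ a ∈ T, ‖a‖ ≤ ρ) (hT : ∀ a ∈ T, ∀ b ∈ T, a ≠ b → δ ≤ ‖a - b‖)
    (hTε : ∀ a ∈ T, ‖F a‖ ≤ ε) (hB : ∀ w : ℂ, ‖w‖ ≤ R → ‖F w‖ ≤ B) (w : ℂ) (hw : ‖w‖ ≤ ρ) :
    ‖F w‖ ≤ 2 * T.card * ε * (2 * R / δ) ^ T.card + ((6 : ℝ)⁻¹) ^ T.card * B := by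
  have hρR : ρ ≤ R := by linarith
  have hP := Sch_P_le F T ρ R ε δ hρR hδ hδR hε hTρ hT hTε
  set X : ℝ := T.card * ε * (2 * R / δ) ^ T.card with hX
  have hX0 : 0 ≤ X := (norm_nonneg _).trans (hP w (hw.trans hρR))
  have h1 := schwarz0 (fun z => F z - Sch_P F T z) (hF.sub (Sch_P_diff F T)) T
    (fun a ha => by rw [Sch_P_eq F T a ha, sub_self]) ρ R (B + X) hρ hR hTρ
    (fun z hz => (norm_sub_le _ _).trans (add_le_add (hB z hz.le) (hP z hz.le))) w hw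
  have h2 : ‖F w‖ ≤ ‖F w - Sch_P F T w‖ + ‖Sch_P F T w‖ := by
    have := norm_add_le (F w - Sch_P F T w) (Sch_P F T w)
    rwa [sub_add_cancel] at this
  have h3 : ((6 : ℝ)⁻¹) ^ T.card ≤ 1 := pow_le_one₀ (by norm_num) (by norm_num)
  have h4 := hP w (hw.trans hρR)
  have h5 : ((6 : ℝ)⁻¹) ^ T.card * X ≤ 1 * X := mul_le_mul_of_nonneg_right h3 hX0
  have e : 2 * T.card * ε * (2 * R / δ) ^ T.card = X + X := by
    rw [hX]
    ring
  rw [e]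
  nlinarith

end LTD
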