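import Pool.Agent.LTD.PhiR
import Pool.Agent.LTD.FpR
import Pool.Agent.LTD.Sch

set_option autoImplicit false

namespace LTD

open Finset

/-- ROW St2 (step (ii), extrapolation). Let `μ ∈ [0,4D)^m`, `w = ∑ μ_j y_j`, `ρ = 4mDW > 0`, `R = 13ρ =
52mDW`, `P` from `pts m S` (`S^m` points, `‖a‖ ≤ mSW ≤ ρ`, distances `≥ e^{-CmS} ≥ δ := e^{-4CmD}`),
`‖Fp a‖ ≤ eps` on `P` (`Phi_close` and `h1`), `‖Fp‖ ≤ D^m H e^{52m²D²W²}` on `‖w‖ ≤ R` (`Fp_le`). `schwarz`: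
`‖Fp w‖ ≤ 2 S^m eps (2R/δ)^{S^m} + 6^{-S^m} D^m H e^{52m²D²W²} ≤ e^{-g}/2` by `hA`, `hB`, where
`2R/δ = 104mDW e^{4CmD}`. And `‖Φ_μ(u') - Fp w‖ ≤ eps ≤ e^{-g}/4` (from `hB`: `2 S^m (104mDW e^{..})^{S^m} ≥ 1`).
So `‖Φ_μ(u')‖ ≤ 3/4 e^{-g} < e^{-g}`, and `Φ_μ(u') = 0` by `Phi_Sz` and `hGap`. -/
theorem step2 (m D S H : ℕ) (N g U W C V : ℝ) (x y : Fin m → ℂ) (u' : Fin m × Fin m → ℂ)
    (hm : 1 ≤ m) (hS : 1 ≤ S) (hSD : S ≤ D) (hW : 1 ≤ W) (hC : 0 ≤ C)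
    (hx : ∀ i, ‖x i‖ ≤ W) (hy : ∀ i, ‖y i‖ ≤ W) (hU : 1 ≤ U)
    (hu : ∀ k, ‖pt x y k‖ ≤ U) (hu' : ∀ k, ‖u' k‖ ≤ U)
    (hV : ∀ k, ‖u' k - pt x y k‖ ≤ Real.exp (-V))
    (hsep : ∀ l : Fin m → ℤ, l ≠ 0 →
      Real.exp (-(C * ∑ i, |((l i : ℤ) : ℝ)|)) ≤ ‖∑ i, (l i : ℂ) * y i‖)
    (hGap : Gap u' N g) (hdeg : 4 * (m : ℝ) ^ 2 * D ^ 2 ≤ N)
    (hlen : (D : ℝ) ^ m * H ≤ Real.exp N)
    (p : (Fin m → Fin D) → ℤ) (hp : ∀ l, |((p l : ℤ) : ℝ)| ≤ H)
    (h1 : ∀ μ : Fin m → ℕ, (∀ j, μ j < S) → ev u' (Phi m D p μ) = 0)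
    (hA : (D : ℝ) ^ m * H * Real.exp (52 * m ^ 2 * D ^ 2 * W ^ 2) * ((6 : ℝ)⁻¹) ^ (S ^ m) ≤
      Real.exp (-g) / 4)
    (hB : 2 * (S : ℝ) ^ m * eps m D H U V *
        (104 * m * D * W * Real.exp (4 * C * m * D)) ^ (S ^ m) ≤ Real.exp (-g) / 4) :
    ∀ μ : Fin m → ℕ, (∀ j, μ j < 4 * D) → ev u' (Phi m D p μ) = 0 := by
  intro μ hμ
  have hD : 1 ≤ D := hS.trans hSD
  have hmR : (1 : ℝ) ≤ m := by exact_mod_cast hm
  have hDR : (1 : ℝ) ≤ D := by exact_mod_cast hD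
  have hSR : (1 : ℝ) ≤ S := by exact_mod_cast hS
  have hSDR : (S : ℝ) ≤ D := by exact_mod_cast hSD
  have hmD : (1 : ℝ) ≤ m * D := one_le_mul_of_one_le_of_one_le hmR hDR
  have hmDW : (1 : ℝ) ≤ m * D * W := one_le_mul_of_one_le_of_one_le hmD hW
  have hU0 : 0 ≤ U := by linarith
  have heps0 : 0 ≤ eps m D H U V := by
    unfold eps
    positivity
  set w : ℂ := ∑ j, ((μ j : ℕ) : ℂ) * y j with hw
  obtain ⟨P, hcard, hPn, hPd, hPm⟩ := pts m S y W C hy hC hsep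
  have hwn : ‖w‖ ≤ 4 * m * D * W := by
    rw [hw]
    refine (norm_sum_le _ _).trans ?_
    have h2 : ∀ j ∈ (Finset.univ : Finset (Fin m)), ‖((μ j : ℕ) : ℂ) * y j‖ ≤ 4 * D * W := by
      intro j _
      rw [norm_mul, Complex.norm_natCast]
      have h3 : ((μ j : ℕ) : ℝ) ≤ 4 * D := by exact_mod_cast (hμ j).le
      have h4 := hy j
      have h5 := norm_nonneg (y j)
      nlinarith
    refine (Finset.sum_le_sum h2).trans (le_of_eq ?_)
    simp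
    ring
  have hR : ∀ w : ℂ, ‖w‖ ≤ 13 * (4 * m * D * W) →
      ‖Fp m D p x w‖ ≤ (D : ℝ) ^ m * H * Real.exp (52 * m ^ 2 * D ^ 2 * W ^ 2) := by
    intro w hw
    refine (Fp_le m D H p hp x W hx w _ hw).trans (le_of_eq ?_)
    congr 2
    ring
  have hδ2R : Real.exp (-(4 * C * m * D)) ≤ 2 * (13 * (4 * m * D * W)) := by
    have h3 : Real.exp (-(4 * C * m * D)) ≤ 1 := by
      apply Real.exp_le_one_iff.2
      have : 0 ≤ 4 * C * m * D := by positivity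
      linarith
    nlinarith
  have hS2 := schwarz (Fp m D p x) (Fp_diff m D p x) P (4 * m * D * W) (13 * (4 * m * D * W))
    ((D : ℝ) ^ m * H * Real.exp (52 * m ^ 2 * D ^ 2 * W ^ 2)) (eps m D H U V)
    (Real.exp (-(4 * C * m * D))) (by nlinarith) le_rfl (Real.exp_pos _) hδ2R heps0
    (by
      intro a ha
      refine (hPn a ha).trans ?_
      have : (m : ℝ) * S ≤ 4 * m * D := by nlinarith
      nlinarith)
    (by
      intro a ha b hb hab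
      refine le_trans ?_ (hPd a ha b hb hab)
      apply Real.exp_le_exp.2
      have h5 : (m : ℝ) * S ≤ 4 * m * D := by nlinarith
      have h6 := mul_le_mul_of_nonneg_left h5 hC
      nlinarith)
    (by
      intro a ha
      obtain ⟨ν, hν, rfl⟩ := hPm a ha
      have h5 := Phi_close m D H U V hU x y u' hu hu' hV p hp ν (fun j => by
        have := hν j; omega)
      rw [h1 ν hν] at h5
      simpa using h5)
    hR w hwn
  rw [hcard] at hS2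
  have e1 : 2 * (13 * (4 * (m : ℝ) * D * W)) / Real.exp (-(4 * C * m * D))
      = 104 * m * D * W * Real.exp (4 * C * m * D) := by
    rw [Real.exp_neg, div_inv_eq_mul]
    ring
  rw [e1] at hS2
  have hFw : ‖Fp m D p x w‖ ≤ Real.exp (-g) / 2 := by
    refine hS2.trans ?_
    have e2 : 2 * ((S ^ m : ℕ) : ℝ) * eps m D H U V *
        (104 * m * D * W * Real.exp (4 * C * m * D)) ^ (S ^ m) ≤ Real.exp (-g) / 4 := by
      push_cast
      exact hB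
    have e3 : ((6 : ℝ)⁻¹) ^ (S ^ m) * ((D : ℝ) ^ m * H * Real.exp (52 * m ^ 2 * D ^ 2 * W ^ 2))
        ≤ Real.exp (-g) / 4 := by
      rw [mul_comm]
      exact hA
    linarith
  have heps : eps m D H U V ≤ Real.exp (-g) / 4 := by
    refine le_trans ?_ hB
    have h7 : (1 : ℝ) ≤ 104 * m * D * W * Real.exp (4 * C * m * D) := by
      have h8 : (1 : ℝ) ≤ Real.exp (4 * C * m * D) := by
        apply Real.one_le_exp
        positivity
      have h9 : (1 : ℝ) ≤ 104 * m * D * W := by nlinarith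
      exact one_le_mul_of_one_le_of_one_le h9 h8
    have h10 : (1 : ℝ) ≤ (104 * m * D * W * Real.exp (4 * C * m * D)) ^ (S ^ m) :=
      one_le_pow₀ h7
    have h11 : (1 : ℝ) ≤ (S : ℝ) ^ m := one_le_pow₀ hSR
    have h12 : (1 : ℝ) ≤ 2 * (S : ℝ) ^ m := by linarith
    calc eps m D H U V = 1 * eps m D H U V * 1 := by ring
      _ ≤ 2 * (S : ℝ) ^ m * eps m D H U V *
        (104 * m * D * W * Real.exp (4 * C * m * D)) ^ (S ^ m) := by
          apply mul_le_mul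
          · exact mul_le_mul_of_nonneg_right h12 heps0
          · exact h10
          · norm_num
          · positivity
  have hcl := Phi_close m D H U V hU x y u' hu hu' hV p hp μ (fun j => (hμ j).le)
  rw [← hw] at hcl
  have hval : ‖ev u' (Phi m D p μ)‖ ≤ 3 / 4 * Real.exp (-g) := by
    have h13 : ‖ev u' (Phi m D p μ)‖ ≤ ‖ev u' (Phi m D p μ) - Fp m D p x w‖ + ‖Fp m D p x w‖ := by
      have := norm_add_le (ev u' (Phi m D p μ) - Fp m D p x w) (Fp m D p x w)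
      simpa using this
    linarith
  rcases hGap (Phi m D p μ) (Phi_Sz m D H N p hp μ (fun j => (hμ j).le) hdeg hlen) with h | h
  · exact h
  · exfalso
    have := Real.exp_pos (-g)
    linarith

end LTD
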