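import Pool.Agent.LTD.PhiR
import Pool.Agent.LTD.FpR
import Pool.Agent.LTD.Sch
import Pool.Agent.LTD.Grow
import Pool.Agent.LTD.Coef

set_option autoImplicit false

namespace LTD

open Finset

/-- ROW St3 (step (iii), contradiction). `ρ = 4mDW`, `R = 13ρ`, `Δ = mDW`, `P` from `pts m (4D)`
(`(4D)^m` points, `‖a‖ ≤ ρ`, distances `≥ δ_y := e^{-4CmD}`), `‖Fp a‖ ≤ eps` on `P` by `Phi_close` and `h2`.
Let `B` be the maximum of `‖Fp‖` on `‖w‖ ≤ ρ` (compactness). `growth` with `γ = 13`, radius `ρ`: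
`‖Fp‖ ≤ 13^{D^m} e^{14ρΔ} B` on `‖w‖ ≤ R`, `14ρΔ = 56m²D²W²`. `schwarz` at the point where the maximum is
attained: `B ≤ 2 (4D)^m eps (2R/δ_y)^{(4D)^m} + 6^{-(4D)^m} 13^{D^m} e^{56m²D²W²} B`, so by `hD`
`B ≤ 4 (4D)^m eps (2R/δ_y)^{(4D)^m}`. `coef_bound` with radius `ρ ≥ 1`, `δ = e^{-C(mD)} ≤ 1` (`freq_sep`),
`L = D^m`: every `|p_l| ≤ (D^m)! e^{4m²D²W²} (e^{CmD})^{D^m} B < 1` by `hE`, so `p_l = 0`: contradiction. -/
theorem step3 (m D H : ℕ) (U W C V : ℝ) (x y : Fin m → ℂ) (u' : Fin m × Fin m → ℂ)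
    (hm : 1 ≤ m) (hD1 : 1 ≤ D) (hW : 1 ≤ W) (hC : 0 ≤ C)
    (hx : ∀ i, ‖x i‖ ≤ W) (hy : ∀ i, ‖y i‖ ≤ W) (hU : 1 ≤ U)
    (hu : ∀ k, ‖pt x y k‖ ≤ U) (hu' : ∀ k, ‖u' k‖ ≤ U)
    (hV : ∀ k, ‖u' k - pt x y k‖ ≤ Real.exp (-V))
    (hsepx : ∀ l : Fin m → ℤ, l ≠ 0 →
      Real.exp (-(C * ∑ i, |((l i : ℤ) : ℝ)|)) ≤ ‖∑ i, (l i : ℂ) * x i‖)
    (hsepy : ∀ l : Fin m → ℤ, l ≠ 0 →
      Real.exp (-(C * ∑ i, |((l i : ℤ) : ℝ)|)) ≤ ‖∑ i, (l i : ℂ) * y i‖)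
    (p : (Fin m → Fin D) → ℤ) (hp0 : p ≠ 0) (hp : ∀ l, |((p l : ℤ) : ℝ)| ≤ H)
    (h2 : ∀ μ : Fin m → ℕ, (∀ j, μ j < 4 * D) → ev u' (Phi m D p μ) = 0)
    (hD : ((6 : ℝ)⁻¹) ^ ((4 * D) ^ m) * 13 ^ (D ^ m) * Real.exp (56 * m ^ 2 * D ^ 2 * W ^ 2) ≤
      1 / 2)
    (hE : (Nat.factorial (D ^ m) : ℝ) * Real.exp (4 * m ^ 2 * D ^ 2 * W ^ 2) *
        (Real.exp (C * m * D)) ^ (D ^ m) *
        (4 * ((4 * D : ℕ) : ℝ) ^ m * eps m D H U V *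
          (104 * m * D * W * Real.exp (4 * C * m * D)) ^ ((4 * D) ^ m)) < 1) : False := by
  classical
  have hm' : (1 : ℝ) ≤ m := by exact_mod_cast hm
  have hD' : (1 : ℝ) ≤ D := by exact_mod_cast hD1
  have hm0 : (0 : ℝ) < m := by linarith
  have hD0 : (0 : ℝ) < D := by linarith
  have hW0 : (0 : ℝ) < W := by linarith
  have hmD : (1 : ℝ) ≤ m * D := by nlinarith
  have hmDW : (1 : ℝ) ≤ m * D * W := by nlinarith
  obtain ⟨P, hPc, hPn, hPd, hPm⟩ := pts m (4 * D) y W C hy hC hsepy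
  set F : ℂ → ℂ := Fp m D p x with hF
  have hdiff : Differentiable ℂ F := Fp_diff m D p x
  set ρ : ℝ := 4 * m * D * W with hρ
  have hρ1 : 1 ≤ ρ := by
    rw [hρ]
    nlinarith
  have hρ0 : 0 < ρ := by linarith
  have hPρ : ∀ a ∈ P, ‖a‖ ≤ ρ := by
    intro a ha
    refine (hPn a ha).trans (le_of_eq ?_)
    rw [hρ]
    push_cast
    ring
  have hPε : ∀ a ∈ P, ‖F a‖ ≤ eps m D H U V := by
    intro a ha
    obtain ⟨μ, hμ, rfl⟩ := hPm a ha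
    have h3 := Phi_close m D H U V hU x y u' hu hu' hV p hp μ (fun j => (hμ j).le)
    rw [h2 μ hμ, zero_sub, norm_neg] at h3
    exact h3
  have heps : 0 ≤ eps m D H U V := by
    unfold eps
    positivity
  obtain ⟨w0, hw0, hmax⟩ := (isCompact_closedBall (0 : ℂ) ρ).exists_isMaxOn
    ⟨0, by simp [hρ0.le]⟩ (hdiff.continuous.norm.continuousOn)
  have hw0' : ‖w0‖ ≤ ρ := by simpa using hw0
  set B : ℝ := ‖F w0‖ with hB
  have hB0 : 0 ≤ B := norm_nonneg _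
  have hFB : ∀ w : ℂ, ‖w‖ ≤ ρ → ‖F w‖ ≤ B := fun w hw => hmax (by simpa using hw)
  have hcard : Fintype.card (Fin m → Fin D) = D ^ m := by simp
  have hΔ : ∀ l : Fin m → Fin D, ‖∑ i, ((l i : ℕ) : ℂ) * x i‖ ≤ m * D * W :=
    fun l => freq_le m D x W hx l
  have hgrow : ∀ w : ℂ, ‖w‖ ≤ 13 * ρ → ‖F w‖ ≤
      13 ^ (D ^ m) * Real.exp (56 * m ^ 2 * D ^ 2 * W ^ 2) * B := by
    intro w hw
    have h3 := growth (fun l => ((p l : ℤ) : ℂ)) (fun l : Fin m → Fin D =>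
      ∑ i, ((l i : ℕ) : ℂ) * x i) ρ B (m * D * W) 13 hρ0 (by positivity) hΔ (by norm_num)
      (fun w hw => hFB w hw) w hw
    rw [hcard] at h3
    have h4 : (13 + 1) * ρ * (m * D * W) = 56 * m ^ 2 * D ^ 2 * W ^ 2 := by
      rw [hρ]
      ring
    rw [h4] at h3
    exact h3
  have hδ0 : 0 < Real.exp (-(C * (m * ((4 * D : ℕ) : ℝ)))) := Real.exp_pos _
  have hδ1 : Real.exp (-(C * (m * ((4 * D : ℕ) : ℝ)))) ≤ 1 := by
    rw [Real.exp_le_one_iff]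
    have : 0 ≤ C * (m * ((4 * D : ℕ) : ℝ)) := by positivity
    linarith
  have hsch := schwarz F hdiff P ρ (13 * ρ)
    (13 ^ (D ^ m) * Real.exp (56 * m ^ 2 * D ^ 2 * W ^ 2) * B) (eps m D H U V)
    (Real.exp (-(C * (m * ((4 * D : ℕ) : ℝ))))) hρ0 le_rfl hδ0 (by linarith) heps hPρ hPd hPε
    hgrow w0 hw0'
  rw [hPc] at hsch
  have h5 : 2 * (13 * ρ) / Real.exp (-(C * (m * ((4 * D : ℕ) : ℝ)))) =
      104 * m * D * W * Real.exp (4 * C * m * D) := by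
    rw [Real.exp_neg, div_inv_eq_mul, hρ]
    have : C * (m * ((4 * D : ℕ) : ℝ)) = 4 * C * m * D := by
      push_cast
      ring
    rw [this]
    ring
  rw [h5] at hsch
  have h6 : ((6 : ℝ)⁻¹) ^ ((4 * D) ^ m) *
      (13 ^ (D ^ m) * Real.exp (56 * m ^ 2 * D ^ 2 * W ^ 2) * B) ≤ 1 / 2 * B := by
    have h7 := mul_le_mul_of_nonneg_right hD hB0
    calc _ = ((6 : ℝ)⁻¹) ^ ((4 * D) ^ m) * 13 ^ (D ^ m) *
        Real.exp (56 * m ^ 2 * D ^ 2 * W ^ 2) * B := by ring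
      _ ≤ _ := h7
  have h8 : B ≤ 4 * (((4 * D) ^ m : ℕ) : ℝ) * eps m D H U V *
      (104 * m * D * W * Real.exp (4 * C * m * D)) ^ ((4 * D) ^ m) := by
    have h9 : B ≤ 2 * (((4 * D) ^ m : ℕ) : ℝ) * eps m D H U V *
      (104 * m * D * W * Real.exp (4 * C * m * D)) ^ ((4 * D) ^ m) + 1 / 2 * B :=
      hsch.trans (by linarith)
    linarith
  have hmain : ∀ l : Fin m → Fin D, p l = 0 := by
    intro l
    have h3 := coef_bound (fun l => ((p l : ℤ) : ℂ)) (fun l : Fin m → Fin D =>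
      ∑ i, ((l i : ℕ) : ℂ) * x i) ρ B (m * D * W) (Real.exp (-(C * (m * D)))) hρ1 hΔ
      (Real.exp_pos _) (by
        rw [Real.exp_le_one_iff]
        have : 0 ≤ C * (m * D : ℝ) := by positivity
        linarith)
      (fun l l' hl => freq_sep m D x C hC hsepx l l' hl) (fun w hw => hFB w hw) l
    rw [hcard] at h3
    have h4 : ρ * (m * D * W) = 4 * m ^ 2 * D ^ 2 * W ^ 2 := by
      rw [hρ]
      ring
    have h4' : (Real.exp (-(C * (m * D : ℝ))))⁻¹ = Real.exp (C * m * D) := by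
      rw [Real.exp_neg, inv_inv]
      congr 1
      ring
    rw [h4, h4'] at h3
    have h7 : ‖((p l : ℤ) : ℂ)‖ < 1 := by
      refine h3.trans_lt (lt_of_le_of_lt ?_ hE)
      have h10 : (((4 * D) ^ m : ℕ) : ℝ) = ((4 * D : ℕ) : ℝ) ^ m := by push_cast; ring
      rw [h10] at h8
      refine mul_le_mul_of_nonneg_left h8 (by positivity)
    have h9 : |((p l : ℤ) : ℝ)| < 1 := by
      rw [Complex.norm_intCast] at h7
      exact_mod_cast h7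
    have h11 : |p l| < 1 := by exact_mod_cast h9
    exact Int.abs_lt_one_iff.1 h11
  exact hp0 (funext hmain)

end LTD
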