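import Pool.Agent.LTD.GapU
import Pool.Agent.LTD.St1
import Pool.Agent.LTD.St2
import Pool.Agent.LTD.St3
import Pool.Agent.LTD.Num1
import Pool.Agent.LTD.Num2
import Pool.Agent.LTD.Num3

set_option autoImplicit false

namespace LTD

theorem Ltd_sep_mono {m : ℕ} {x : Fin m → ℂ} {C C' : ℝ} (hCC : C ≤ C')
    (h : ∀ l : Fin m → ℤ, l ≠ 0 →
      Real.exp (-(C * ∑ i, |((l i : ℤ) : ℝ)|)) ≤ ‖∑ i, (l i : ℂ) * x i‖) :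
    ∀ l : Fin m → ℤ, l ≠ 0 →
      Real.exp (-(C' * ∑ i, |((l i : ℤ) : ℝ)|)) ≤ ‖∑ i, (l i : ℂ) * x i‖ := by
  intro l hl
  refine le_trans (Real.exp_le_exp.2 (neg_le_neg ?_)) (h l hl)
  exact mul_le_mul_of_nonneg_right hCC (Finset.sum_nonneg fun i _ => abs_nonneg _)

theorem Ltd_bdd {ι : Type} [Finite ι] (f : ι → ℂ) : ∃ W : ℝ, 1 ≤ W ∧ ∀ i, ‖f i‖ ≤ W := by
  obtain ⟨W, hW⟩ := (Set.finite_range fun i => ‖f i‖).bddAbove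
  exact ⟨max 1 W, le_max_left _ _, fun i => le_trans (hW ⟨i, rfl⟩) (le_max_right _ _)⟩

/-- ROW Ltd (assembly). `Γ` from `gap_u t 3`, `m = max 4 ⌈4Γ⌉₊`. Suppose `e^{x_i y_j} ∈ F` for all `i, j`.
`W ≥ 1` bounds `‖x i‖, ‖y j‖`; `U ≥ 1` with `‖pt x y k‖ + 1 ≤ U`; `C` = the larger constant of `Sep x`,
`Sep y` (monotone: `exp (-(C * s)) ` decreases in `C`, `s ≥ 0`); `c₃ = 3 + 13W²`,
`c₆ = 16·2^m c₃ (4 + log U)`, `K = max (4m²) (56m²W² + 1)`. Take `N` above the thresholds of `gap_u`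
(`ι = Fin m × Fin m`, `u = pt x y`), `choose_SD`, `num2`, `num3`: `γ`, `u'`, `S`, `D`, `H = ⌊e^{N/8}⌋₊`,
`V = N^{3γ}`, `g = N^γ` (`‖u'‖ ≤ U` since `e^{-V} ≤ 1`). Then `step1`, `step2`, `step3`. -/
theorem ltd (t : ℕ) : ∃ m : ℕ, 1 ≤ m ∧ ∀ F : IntermediateField ℚ ℂ, Algebra.trdeg ℚ F ≤ t →
    ∀ x y : Fin m → ℂ, Sep x → Sep y → ∃ i j, Complex.exp (x i * y j) ∉ F := by
  obtain ⟨Γ, hΓ1, hΓ⟩ := gap_u t 3 (by norm_num)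
  set m : ℕ := max 4 ⌈4 * Γ⌉₊ with hmdef
  have hm4 : 4 ≤ m := le_max_left _ _
  have hm1 : 1 ≤ m := le_trans (by norm_num) hm4
  have hmΓ : 4 * Γ ≤ m := le_trans (Nat.le_ceil _) (by exact_mod_cast le_max_right _ _)
  refine ⟨m, hm1, fun F hF x y hx hy => ?_⟩
  by_contra hcon
  push Not at hcon
  obtain ⟨Wx, hWx1, hWx⟩ := Ltd_bdd x
  obtain ⟨Wy, hWy1, hWy⟩ := Ltd_bdd y
  obtain ⟨U0, hU01, hU0⟩ := Ltd_bdd (pt x y)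
  obtain ⟨Cx, hCx0, hCx⟩ := hx
  obtain ⟨Cy, hCy0, hCy⟩ := hy
  set W := max Wx Wy with hWdef
  set U := U0 + 1 with hUdef
  set C := max Cx Cy with hCdef
  have hW1 : 1 ≤ W := le_trans hWx1 (le_max_left _ _)
  have hU1 : 1 ≤ U := by linarith
  have hC0 : 0 ≤ C := le_trans hCx0 (le_max_left _ _)
  have hxW : ∀ i, ‖x i‖ ≤ W := fun i => le_trans (hWx i) (le_max_left _ _)
  have hyW : ∀ i, ‖y i‖ ≤ W := fun i => le_trans (hWy i) (le_max_right _ _)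
  have hu : ∀ k, ‖pt x y k‖ ≤ U := fun k => by linarith [hU0 k]
  have hsx := Ltd_sep_mono (le_max_left Cx Cy) hCx
  have hsy := Ltd_sep_mono (le_max_right Cx Cy) hCy
  set c₃ : ℝ := 3 + 13 * W ^ 2 with hc₃
  set c₆ : ℝ := 16 * 2 ^ m * c₃ * (4 + Real.log U) with hc₆
  have hc₃1 : 1 ≤ c₃ := by nlinarith [sq_nonneg W]
  have hlogU : 0 ≤ Real.log U := Real.log_nonneg hU1
  have h2m : (1 : ℝ) ≤ 2 ^ m := one_le_pow₀ (by norm_num)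
  have hc36 : 2 ^ m * c₃ ≤ c₆ := by
    rw [hc₆]
    have : 0 ≤ 2 ^ m * c₃ := by positivity
    nlinarith
  have hc₆1 : 1 ≤ c₆ := le_trans (by nlinarith) hc36
  set K : ℝ := max (4 * (m : ℝ) ^ 2) (56 * (m : ℝ) ^ 2 * W ^ 2 + 1) with hK
  have hK1 : 1 ≤ K := le_trans (by nlinarith [sq_nonneg ((m : ℝ) * W)]) (le_max_right _ _)
  obtain ⟨N1, hN1⟩ := hΓ F hF (Fin m × Fin m) (pt x y) (fun k => hcon k.1 k.2)
  obtain ⟨N2, hN2, h2⟩ := choose_SD m Γ c₃ c₆ K hm1 hΓ1 hmΓ hc₃1 hc36 hK1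
  obtain ⟨N3, hN3, h3⟩ := num2 m Γ W U c₃ c₆ hm4 hΓ1 hW1 hU1 hc₃ hc₆
  obtain ⟨N4, hN4, h4⟩ := num3 m Γ W U C c₃ c₆ hm4 hΓ1 hW1 hU1 hC0 hc₃1 hc₆1
  set N : ℝ := max (max N1 N2) (max N3 N4) with hN
  have hNN1 : N1 ≤ N := le_trans (le_max_left _ _) (le_max_left _ _)
  have hNN2 : N2 ≤ N := le_trans (le_max_right _ _) (le_max_left _ _)
  have hNN3 : N3 ≤ N := le_trans (le_max_left _ _) (le_max_right _ _)
  have hNN4 : N4 ≤ N := le_trans (le_max_right _ _) (le_max_right _ _)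
  have hN0 : 0 ≤ N := by linarith
  obtain ⟨γ, hγ1, hγΓ, u', hclose, hGap⟩ := hN1 N hNN1
  obtain ⟨S, D, hS1, hSD, hS3, hS4, hD3, hD4, hKD, hKD'⟩ := h2 N hNN2 γ hγ1 hγΓ
  have hdeg : 4 * (m : ℝ) ^ 2 * D ^ 2 ≤ N :=
    le_trans (mul_le_mul_of_nonneg_right (le_max_left _ _) (sq_nonneg _)) hKD
  have hDbig : 56 * (m : ℝ) ^ 2 * W ^ 2 + 1 ≤ D := le_trans (le_max_right _ _) hKD'
  obtain ⟨hlen, hDir, hA, hD⟩ := h3 N hNN3 γ hγ1 hγΓ S D _ hS1 hSD rfl hS3 hS4 hD3 hD4 hdeg hDbig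
  obtain ⟨hB, hE⟩ := h4 N hNN4 γ hγ1 hγΓ S D _ hS1 hSD hS4 hD4 hdeg hlen
  have hV : ∀ k, ‖u' k - pt x y k‖ ≤ Real.exp (-(N ^ (3 * γ))) := hclose
  have hu' : ∀ k, ‖u' k‖ ≤ U := by
    intro k
    have h5 : ‖u' k‖ ≤ ‖u' k - pt x y k‖ + ‖pt x y k‖ := by
      simpa using norm_add_le (u' k - pt x y k) (pt x y k)
    have h6 : Real.exp (-(N ^ (3 * γ))) ≤ 1 :=
      Real.exp_le_one_iff.2 (neg_nonpos.2 (Real.rpow_nonneg hN0 _))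
    linarith [hV k, hU0 k]
  obtain ⟨p, hp0, hpH, hp1⟩ := step1 m D S _ N (N ^ γ) U u' hU1 hu' hGap hSD hdeg hlen hDir
  have hp2 := step2 m D S _ N (N ^ γ) U W C (N ^ (3 * γ)) x y u' hm1 hS1 hSD hW1 hC0 hxW hyW hU1
    hu hu' hV hsy hGap hdeg hlen p hpH hp1 hA hB
  exact step3 m D _ U W C (N ^ (3 * γ)) x y u' hm1 (le_trans hS1 hSD) hW1 hC0 hxW hyW hU1 hu hu' hV
    hsx hsy p hp0 hpH hp2 hD hE

end LTD
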