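import Mathlib

set_option autoImplicit false

namespace LTD

open Finset

private theorem Mom_iter {Λ : Type} [Fintype Λ] (p ω : Λ → ℂ) (n : ℕ) :
    iteratedDeriv n (fun w : ℂ => ∑ l, p l * Complex.exp (ω l * w)) =
      fun w => ∑ l, p l * ω l ^ n * Complex.exp (ω l * w) := by
  induction n with
  | zero => simp
  | succ n ih =>
    rw [iteratedDeriv_succ, ih]
    funext w
    have h : HasDerivAt (fun w : ℂ => ∑ l, p l * ω l ^ n * Complex.exp (ω l * w))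
        (∑ l, p l * ω l ^ n * (Complex.exp (ω l * w) * ω l)) w := by
      refine HasDerivAt.fun_sum fun l _ => ?_
      have h1 : HasDerivAt (fun w : ℂ => ω l * w) (ω l) w := by
        simpa using (hasDerivAt_id w).const_mul (ω l)
      exact h1.cexp.const_mul _
    rw [h.deriv]
    refine Finset.sum_congr rfl fun l _ => ?_
    ring

private theorem Mom_cauchy {Λ : Type} [Fintype Λ] (p ω : Λ → ℂ) (R B : ℝ) (hR : 0 < R)
    (hF : ∀ w : ℂ, ‖w‖ ≤ R → ‖∑ l, p l * Complex.exp (ω l * w)‖ ≤ B) (n : ℕ) :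
    ‖∑ l, p l * ω l ^ n‖ ≤ (Nat.factorial n : ℝ) * B / R ^ n := by
  have hd : Differentiable ℂ (fun w : ℂ => ∑ l, p l * Complex.exp (ω l * w)) := by fun_prop
  have h := Complex.norm_iteratedDeriv_le_of_forall_mem_sphere_norm_le (c := 0) (R := R) (C := B)
    (f := fun w : ℂ => ∑ l, p l * Complex.exp (ω l * w)) n hR hd.diffContOnCl (fun z hz => by
      rw [mem_sphere_zero_iff_norm] at hz
      exact hF z hz.le)
  rw [Mom_iter] at h
  simpa using h

/-- ROW Mom (L0). `F w = ∑_l p_l e^{ω_l w}`; `F^{(i)}(0) = ∑_l p_l ω_l^i` and Cauchy's estimate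
(`Complex.norm_iteratedDeriv_le_of_forall_mem_sphere_norm_le`) give `|∑_l p_l ω_l^i| ≤ i! R^{-i} B`.
Expand `∏_{i ∈ T}(ω - ζ_i) = ∑_{S ⊆ T} ω^{|T|-|S|} ∏_{i ∈ S}(-ζ_i)` (`Finset.prod_add`/`prod_sub`-type):
with `k = |T|`, `|∑_l p_l ∏| ≤ ∑_{j ≤ k} binom(k,j) Δ^{k-j} j! R^{-j} B = k! R^{-k} B ∑_j (RΔ)^{k-j}/(k-j)! ≤
k! R^{-k} e^{RΔ} B` (`Real.sum_le_exp_of_nonneg`). Alternative without expansion: induction on `T` over all
functions of the form `D^i F`: the claim `|∑_l p_l ω_l^j ∏_{i∈T}(ω_l - ζ_i)| ≤ ∑_{i} binom(|T|,i) Δ^{|T|-i}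
(i+j)! R^{-(i+j)} B`. -/
theorem moment {Λ κ : Type} [Fintype Λ] (p ω : Λ → ℂ) (ζ : κ → ℂ) (T : Finset κ) (R B Δ : ℝ)
    (hR : 0 < R) (hΔ : 0 ≤ Δ) (hζ : ∀ i ∈ T, ‖ζ i‖ ≤ Δ)
    (hF : ∀ w : ℂ, ‖w‖ ≤ R → ‖∑ l, p l * Complex.exp (ω l * w)‖ ≤ B) :
    ‖∑ l, p l * ∏ i ∈ T, (ω l - ζ i)‖ ≤
      (Nat.factorial T.card : ℝ) / R ^ T.card * Real.exp (R * Δ) * B := by
  classical
  have hB0 : 0 ≤ B := (norm_nonneg _).trans (hF 0 (by rw [norm_zero]; exact hR.le))
  have h1 : ∑ l, p l * ∏ i ∈ T, (ω l - ζ i) =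
      ∑ t ∈ T.powerset, (∏ i ∈ T \ t, (-ζ i)) * ∑ l, p l * ω l ^ t.card := by
    have e1 : ∀ l, p l * ∏ i ∈ T, (ω l - ζ i) =
        ∑ t ∈ T.powerset, (∏ i ∈ T \ t, (-ζ i)) * (p l * ω l ^ t.card) := by
      intro l
      simp_rw [sub_eq_add_neg]
      rw [Finset.prod_add, Finset.mul_sum]
      refine Finset.sum_congr rfl fun t _ => ?_
      rw [Finset.prod_const]
      ring
    simp_rw [e1]
    rw [Finset.sum_comm]
    refine Finset.sum_congr rfl fun t _ => ?_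
    rw [Finset.mul_sum]
  have h2 : ∀ t ∈ T.powerset, ‖(∏ i ∈ T \ t, (-ζ i)) * ∑ l, p l * ω l ^ t.card‖ ≤
      Δ ^ (T.card - t.card) * ((Nat.factorial t.card : ℝ) * B / R ^ t.card) := by
    intro t ht
    rw [Finset.mem_powerset] at ht
    rw [norm_mul]
    refine mul_le_mul ?_ (Mom_cauchy p ω R B hR hF _) (norm_nonneg _) (by positivity)
    rw [norm_prod, ← Finset.card_sdiff_of_subset ht, ← Finset.prod_const]
    refine Finset.prod_le_prod (fun i _ => norm_nonneg _) fun i hi => ?_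
    rw [norm_neg]
    exact hζ i (Finset.sdiff_subset hi)
  rw [h1]
  refine (norm_sum_le _ _).trans ((Finset.sum_le_sum h2).trans ?_)
  rw [Finset.sum_powerset_apply_card
    (fun j => Δ ^ (T.card - j) * ((Nat.factorial j : ℝ) * B / R ^ j))]
  set k := T.card with hk
  have h3 : ∀ j ∈ Finset.range (k + 1), (k.choose j) • (Δ ^ (k - j) *
      ((Nat.factorial j : ℝ) * B / R ^ j)) =
      (Nat.factorial k : ℝ) / R ^ k * B * ((R * Δ) ^ (k - j) / (Nat.factorial (k - j) : ℝ)) := by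
    intro j hj
    have hjk : j ≤ k := Nat.lt_succ_iff.1 (Finset.mem_range.1 hj)
    have h4 : ((k.choose j : ℕ) : ℝ) * (Nat.factorial j : ℝ) * (Nat.factorial (k - j) : ℝ) =
        (Nat.factorial k : ℝ) := by exact_mod_cast Nat.choose_mul_factorial_mul_factorial hjk
    have h5 : R ^ k = R ^ (k - j) * R ^ j := by rw [← pow_add, Nat.sub_add_cancel hjk]
    have hf : (Nat.factorial (k - j) : ℝ) ≠ 0 := by exact_mod_cast Nat.factorial_ne_zero _
    have hR1 : R ^ j ≠ 0 := pow_ne_zero _ hR.ne'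
    have hR2 : R ^ (k - j) ≠ 0 := pow_ne_zero _ hR.ne'
    rw [nsmul_eq_mul, ← h4, h5, mul_pow]
    field_simp
  rw [Finset.sum_congr rfl h3, ← Finset.mul_sum]
  have h6 : ∑ j ∈ Finset.range (k + 1), (R * Δ) ^ (k - j) / (Nat.factorial (k - j) : ℝ) ≤
      Real.exp (R * Δ) := by
    have h7 := Finset.sum_range_reflect (fun j => (R * Δ) ^ j / (Nat.factorial j : ℝ)) (k + 1)
    simp only [add_tsub_cancel_right] at h7
    have h8 : ∀ j ∈ Finset.range (k + 1), (R * Δ) ^ (k + 1 - 1 - j) /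
        (Nat.factorial (k + 1 - 1 - j) : ℝ) = (R * Δ) ^ (k - j) / (Nat.factorial (k - j) : ℝ) :=
      fun j _ => by rw [Nat.add_sub_cancel]
    rw [h7]
    exact Real.sum_le_exp_of_nonneg (by positivity) _
  calc (Nat.factorial k : ℝ) / R ^ k * B * ∑ j ∈ Finset.range (k + 1),
        (R * Δ) ^ (k - j) / (Nat.factorial (k - j) : ℝ) ≤
        (Nat.factorial k : ℝ) / R ^ k * B * Real.exp (R * Δ) :=
        mul_le_mul_of_nonneg_left h6 (by positivity)
    _ = _ := by ring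

end LTD
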