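import Pool.Agent.LTD.Len

set_option autoImplicit false

namespace LTD

open MvPolynomial

theorem Opt_ev {σ : Type} (θ : σ → ℂ) (v : ℂ) (Q : MvPolynomial (Option σ) ℤ) :
    ev (ext θ v) Q = Polynomial.eval₂ (ev θ) v (optionEquivLeft ℤ σ Q) := by
  have h : ev (ext θ v) = (Polynomial.eval₂RingHom (ev θ) v).comp (optionEquivLeft ℤ σ : _ →+* _) := by
    apply MvPolynomial.ringHom_ext
    · intro r
      simp [ev]
    · intro i
      cases i with
      | none => simp [ev, ext]
      | some i => simp [ev, ext]
  rw [h]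
  simp

/-- ROW Opt. Splitting off one variable. Use `c j = (optionEquivLeft ℤ σ Q).coeff j`
(`MvPolynomial.optionEquivLeft : MvPolynomial (Option σ) R ≃ₐ[R] Polynomial (MvPolynomial σ R)`,
`optionEquivLeft_coeff_coeff`-type lemmas), or define `c j` directly as
`∑_{α ∈ Q.support, α none = j} monomial α.some (coeff α Q)`; then everything is a computation with
monomials: `α ↦ (α none, α.some)` is injective, `|α| = α none + |α.some|`. The length inequality is even
an equality; `c j = 0` for `j > Q.totalDegree`. -/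
theorem split {σ : Type} (Q : MvPolynomial (Option σ) ℤ) :
    ∃ c : ℕ → MvPolynomial σ ℤ,
      (∀ j ≤ Q.totalDegree, (c j).totalDegree + j ≤ Q.totalDegree) ∧
      ∑ j ∈ Finset.range (Q.totalDegree + 1), len (c j) ≤ len Q ∧
      ∀ (θ : σ → ℂ) (v : ℂ),
        ev (ext θ v) Q = ∑ j ∈ Finset.range (Q.totalDegree + 1), ev θ (c j) * v ^ j := by
  classical
  refine ⟨fun j => (optionEquivLeft ℤ σ Q).coeff j,
    fun j hj => totalDegree_coeff_optionEquivLeft_add_le ℤ σ Q j hj, ?_, ?_⟩
  · unfold len
    rw [Finset.sum_sigma']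
    have h1 : ∀ x ∈ (Finset.range (Q.totalDegree + 1)).sigma
        (fun j => ((optionEquivLeft ℤ σ Q).coeff j).support),
        |((((optionEquivLeft ℤ σ Q).coeff x.1).coeff x.2 : ℤ) : ℝ)| =
          |((Q.coeff (x.2.optionElim x.1) : ℤ) : ℝ)| := by
      intro x _
      rw [optionEquivLeft_coeff_coeff]
    rw [Finset.sum_congr rfl h1]
    have hinj : Set.InjOn (fun x : (Σ _ : ℕ, (σ →₀ ℕ)) => x.2.optionElim x.1)
        ((Finset.range (Q.totalDegree + 1)).sigma
        (fun j => ((optionEquivLeft ℤ σ Q).coeff j).support)) := by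
      rintro ⟨a, d⟩ _ ⟨a', d'⟩ _ h
      simp only at h
      have h2 : a = a' := by
        have := DFunLike.congr_fun h none
        simpa using this
      have h3 : d = d' := by
        ext i
        have := DFunLike.congr_fun h (some i)
        simpa using this
      rw [h2, h3]
    rw [← Finset.sum_image (f := fun m => |((Q.coeff m : ℤ) : ℝ)|) hinj]
    apply Finset.sum_le_sum_of_subset_of_nonneg
    · intro m hm
      rw [Finset.mem_image] at hm
      obtain ⟨x, hx, rfl⟩ := hm
      rw [Finset.mem_sigma] at hx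
      exact mem_support_coeff_optionEquivLeft ℤ |>.1 hx.2
    · intro _ _ _
      exact abs_nonneg _
  · intro θ v
    rw [Opt_ev, Polynomial.eval₂_eq_sum_range' (ev θ) (n := Q.totalDegree + 1)]
    rw [natDegree_optionEquivLeft]
    exact Nat.lt_succ_of_le (degreeOf_le_totalDegree Q none)

end LTD
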