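import Pool.Agent.LTD.Ev

set_option autoImplicit false

namespace LTD

open Finset

/-- ROW PhiR. The monomial `∏_{i,j} X_ij^{l_i μ_j}` has degree `(∑ l_i)(∑ μ_j) ≤ (mD)(mT)` and length
`≤ 1`. -/
theorem Phi_deg (m D T : ℕ) (p : (Fin m → Fin D) → ℤ) (μ : Fin m → ℕ) (hμ : ∀ j, μ j ≤ T) :
    (Phi m D p μ).totalDegree ≤ m ^ 2 * (D * T) := by
  unfold Phi
  refine MvPolynomial.totalDegree_finsetSum_le fun l _ => ?_
  refine (MvPolynomial.totalDegree_mul _ _).trans ?_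
  rw [MvPolynomial.totalDegree_C, zero_add]
  refine (MvPolynomial.totalDegree_finsetProd _ _).trans ?_
  have h1 : ∀ i ∈ (Finset.univ : Finset (Fin m)),
      (∏ j : Fin m, (MvPolynomial.X (i, j) : MvPolynomial (Fin m × Fin m) ℤ) ^
        ((l i : ℕ) * μ j)).totalDegree ≤ m * (D * T) := by
    intro i _
    refine (MvPolynomial.totalDegree_finsetProd _ _).trans ?_
    have h2 : ∀ j ∈ (Finset.univ : Finset (Fin m)),
        ((MvPolynomial.X (i, j) : MvPolynomial (Fin m × Fin m) ℤ) ^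
          ((l i : ℕ) * μ j)).totalDegree ≤ D * T := by
      intro j _
      refine (MvPolynomial.totalDegree_pow _ _).trans ?_
      rw [MvPolynomial.totalDegree_X, mul_one]
      exact Nat.mul_le_mul (l i).2.le (hμ j)
    refine (Finset.sum_le_sum h2).trans (le_of_eq ?_)
    rw [Finset.sum_const, Finset.card_univ, Fintype.card_fin, smul_eq_mul]
  refine (Finset.sum_le_sum h1).trans (le_of_eq ?_)
  rw [Finset.sum_const, Finset.card_univ, Fintype.card_fin, smul_eq_mul]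
  ring

theorem Phi_len (m D H : ℕ) (p : (Fin m → Fin D) → ℤ) (μ : Fin m → ℕ)
    (hp : ∀ l, |((p l : ℤ) : ℝ)| ≤ H) : len (Phi m D p μ) ≤ (D : ℝ) ^ m * H := by
  unfold Phi
  refine (len_sum _ _).trans ?_
  have h1 : ∀ l ∈ (Finset.univ : Finset (Fin m → Fin D)),
      len (MvPolynomial.C (p l) *
        ∏ i : Fin m, ∏ j : Fin m,
          (MvPolynomial.X (i, j) : MvPolynomial (Fin m × Fin m) ℤ) ^ ((l i : ℕ) * μ j)) ≤ H := by
    intro l _
    refine (len_mul _ _).trans ?_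
    rw [len_C]
    have h2 : len (∏ i : Fin m, ∏ j : Fin m,
        (MvPolynomial.X (i, j) : MvPolynomial (Fin m × Fin m) ℤ) ^ ((l i : ℕ) * μ j)) ≤ 1 := by
      refine (len_prod _ _).trans (Finset.prod_le_one (fun i _ => len_nonneg _) fun i _ => ?_)
      refine (len_prod _ _).trans (Finset.prod_le_one (fun i _ => len_nonneg _) fun j _ => ?_)
      refine (len_pow _ _).trans ?_
      rw [len_X, one_pow]
    calc |((p l : ℤ) : ℝ)| * _ ≤ H * 1 :=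
          mul_le_mul (hp l) h2 (len_nonneg _) (Nat.cast_nonneg _)
      _ = H := mul_one _
  refine (Finset.sum_le_sum h1).trans (le_of_eq ?_)
  rw [Finset.sum_const, Finset.card_univ, Fintype.card_fun, Fintype.card_fin, Fintype.card_fin,
    nsmul_eq_mul]
  push_cast
  ring

theorem Phi_ev' (m D : ℕ) (p : (Fin m → Fin D) → ℤ) (μ : Fin m → ℕ) (u : Fin m × Fin m → ℂ) :
    ev u (Phi m D p μ) =
      ∑ l : Fin m → Fin D, (p l : ℂ) * ∏ i : Fin m, ∏ j : Fin m, u (i, j) ^ ((l i : ℕ) * μ j) := by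
  unfold Phi ev
  rw [map_sum]
  refine Finset.sum_congr rfl fun l _ => ?_
  rw [map_mul, map_prod]
  congr 1
  · simp
  · refine Finset.prod_congr rfl fun i _ => ?_
    rw [map_prod]
    refine Finset.prod_congr rfl fun j _ => ?_
    rw [map_pow]
    simp

/-- `∏_{i,j} e^{x_i y_j l_i μ_j} = e^{(∑ l_i x_i)(∑ μ_j y_j)}`. -/
theorem Phi_ev (m D : ℕ) (p : (Fin m → Fin D) → ℤ) (μ : Fin m → ℕ) (x y : Fin m → ℂ) :
    ev (pt x y) (Phi m D p μ) = Fp m D p x (∑ j, ((μ j : ℕ) : ℂ) * y j) := by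
  rw [Phi_ev']
  unfold Fp pt
  refine Finset.sum_congr rfl fun l _ => ?_
  congr 1
  simp only [← Complex.exp_nat_mul, ← Complex.exp_sum]
  congr 1
  rw [Finset.sum_mul]
  refine Finset.sum_congr rfl fun i _ => ?_
  rw [Finset.mul_sum]
  refine Finset.sum_congr rfl fun j _ => ?_
  push_cast
  ring

/-- `norm_ev_sub_le` with `Phi_deg` (`T = 4D`), `Phi_len`. -/
theorem Phi_close (m D H : ℕ) (U V : ℝ) (hU : 1 ≤ U) (x y : Fin m → ℂ) (u' : Fin m × Fin m → ℂ)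
    (hu : ∀ k, ‖pt x y k‖ ≤ U) (hu' : ∀ k, ‖u' k‖ ≤ U)
    (hV : ∀ k, ‖u' k - pt x y k‖ ≤ Real.exp (-V)) (p : (Fin m → Fin D) → ℤ)
    (hp : ∀ l, |((p l : ℤ) : ℝ)| ≤ H) (μ : Fin m → ℕ) (hμ : ∀ j, μ j ≤ 4 * D) :
    ‖ev u' (Phi m D p μ) - Fp m D p x (∑ j, ((μ j : ℕ) : ℂ) * y j)‖ ≤ eps m D H U V := by
  rw [← Phi_ev]
  have h1 := norm_ev_sub_le (pt x y) u' U (Real.exp (-V)) hU (Real.exp_pos _).le hu hu' hV
    (Phi m D p μ)
  refine h1.trans ?_
  have hdeg : (Phi m D p μ).totalDegree ≤ 4 * m ^ 2 * D ^ 2 :=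
    (Phi_deg m D (4 * D) p μ hμ).trans (le_of_eq (by ring))
  have hdeg' : ((Phi m D p μ).totalDegree : ℝ) ≤ 4 * m ^ 2 * D ^ 2 := by exact_mod_cast hdeg
  have hlen := Phi_len m D H p μ hp
  have hU' : U ^ (Phi m D p μ).totalDegree ≤ U ^ (4 * m ^ 2 * D ^ 2) :=
    pow_le_pow_right₀ hU hdeg
  have hU0 : 0 ≤ U := by linarith
  unfold eps
  have hl0 := len_nonneg (Phi m D p μ)
  gcongr

/-- `Phi` has size at most `N`. -/
theorem Phi_Sz (m D H : ℕ) (N : ℝ) (p : (Fin m → Fin D) → ℤ) (hp : ∀ l, |((p l : ℤ) : ℝ)| ≤ H)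
    (μ : Fin m → ℕ) (hμ : ∀ j, μ j ≤ 4 * D) (hdeg : 4 * (m : ℝ) ^ 2 * D ^ 2 ≤ N)
    (hlen : (D : ℝ) ^ m * H ≤ Real.exp N) : Sz (Phi m D p μ) N := by
  refine ⟨?_, (Phi_len m D H p μ hp).trans hlen⟩
  have hd : (Phi m D p μ).totalDegree ≤ 4 * m ^ 2 * D ^ 2 :=
    (Phi_deg m D (4 * D) p μ hμ).trans (le_of_eq (by ring))
  have hd' : ((Phi m D p μ).totalDegree : ℝ) ≤ 4 * m ^ 2 * D ^ 2 := by exact_mod_cast hd
  exact hd'.trans hdeg

end LTD
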