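import Pool.Agent.LTD.Alg
import Pool.Agent.LTD.Near
import Pool.Agent.LTD.Ren

set_option autoImplicit false

namespace LTD

/-- ROW Step (lemma G2): the dichotomy for one new coordinate. If `Gap (ext θ v) s₁ g₁` fails there is
`P`, `Sz P s₁`, `0 < |P(θ,v)| < e^{-g₁}`. Write `P = ∑_j P_j X^j` (`split`), `J` = the maximal
`j ≤ totalDegree P` with `P_j(θ) ≠ 0` (exists, else `P(θ,v) = 0`); `P(θ,v) = ∑_{j ≤ J} P_j(θ) v^j` and
`|P_J(θ)| ≥ e^{-g}` by `hGap` (`Sz (P_J) s₁`, `s₁ ≤ 4 s₁³ ≤ s`). `J = 0` is impossible: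
`|P(θ,v)| = |P_0(θ)| ≥ e^{-g} ≥ e^{-g₁}`. `near_root'` gives `a` with `∑_{j≤J} P_j(θ) a^j = 0` and
`|a - v|^J ≤ |P(θ,v)| / |P_J(θ)| ≤ e^{g - g₁}`, so `|a - v| ≤ e^{-(g₁-g)/J} ≤ e^{-(g₁-g)/s₁}` (`J ≤ s₁`),
`|a| ≤ Θ + 1`. Now `gap_alg` with `Θ + 1`, `c_j = P_j`, `p = q = s₁`. -/
theorem gap_step {σ : Type} {θ : σ → ℂ} {v : ℂ} {Θ s g s₁ g₁ : ℝ} (hGap : Gap θ s g) (hg : 0 ≤ g)
    (hΘ : 1 ≤ Θ) (hθ : ∀ i, ‖θ i‖ ≤ Θ) (hv : ‖v‖ ≤ Θ) (hs₁ : 1 ≤ s₁) (hs : 4 * s₁ ^ 3 ≤ s)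
    (hg₁ : g ≤ g₁) :
    Gap (ext θ v) s₁ g₁ ∨
      ∃ a : ℂ, ‖a - v‖ ≤ Real.exp (-((g₁ - g) / s₁)) ∧
        Gap (ext θ a) s₁ (g + 6 * s₁ ^ 3 * (1 + Real.log (Θ + 1))) := by
  classical
  by_cases hcase : Gap (ext θ v) s₁ g₁
  · exact Or.inl hcase
  right
  have h0 : ∃ P : MvPolynomial (Option σ) ℤ, Sz P s₁ ∧ ev (ext θ v) P ≠ 0 ∧
      ‖ev (ext θ v) P‖ < Real.exp (-g₁) := by
    by_contra hno
    apply hcase
    intro P hP
    by_contra hP2
    rw [not_or, not_le] at hP2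
    exact hno ⟨P, hP, hP2.1, hP2.2⟩
  obtain ⟨P, hSz, hne, hlt⟩ := h0
  obtain ⟨c, hcd, hcl, hce⟩ := split P
  set d := P.totalDegree with hd
  have hds : (d : ℝ) ≤ s₁ := hSz.1
  have hlP : len P ≤ Real.exp s₁ := hSz.2
  have hs₁s : s₁ ≤ s := by
    refine le_trans ?_ hs
    nlinarith [mul_nonneg (sub_nonneg.2 hs₁) (sub_nonneg.2 hs₁), pow_pos (lt_of_lt_of_le one_pos hs₁) 3,
      mul_nonneg (mul_nonneg (sub_nonneg.2 hs₁) (sub_nonneg.2 hs₁)) (sub_nonneg.2 hs₁)]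
  set S : Finset ℕ := (Finset.range (d + 1)).filter fun j => ev θ (c j) ≠ 0 with hS
  have hSne : S.Nonempty := by
    by_contra hemp
    rw [Finset.not_nonempty_iff_eq_empty] at hemp
    apply hne
    rw [hce θ v]
    refine Finset.sum_eq_zero fun j hj => ?_
    have : j ∉ S := by rw [hemp]; exact Finset.notMem_empty j
    rw [hS, Finset.mem_filter, not_and, not_not] at this
    rw [this hj, zero_mul]
  set J := S.max' hSne with hJdef
  have hJS : J ∈ S := Finset.max'_mem S hSne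
  have hJd : J ≤ d := by
    have := (Finset.mem_filter.1 hJS).1
    rw [Finset.mem_range] at this
    omega
  have hcJ : ev θ (c J) ≠ 0 := (Finset.mem_filter.1 hJS).2
  have hbig : ∀ j, J < j → j ≤ d → ev θ (c j) = 0 := by
    intro j hj hjd
    by_contra hj0
    have : j ∈ S := Finset.mem_filter.2 ⟨Finset.mem_range.2 (by omega), hj0⟩
    have := Finset.le_max' S j this
    omega
  have hsum : ev (ext θ v) P = ∑ j ∈ Finset.range (J + 1), ev θ (c j) * v ^ j := by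
    rw [hce θ v]
    symm
    refine Finset.sum_subset (Finset.range_mono (by omega)) ?_
    intro j hj hj2
    rw [Finset.mem_range] at hj hj2
    rw [hbig j (by omega) (by omega), zero_mul]
  have hlenle : ∀ n, n ≤ d → ∑ j ∈ Finset.range (n + 1), len (c j) ≤ len P := by
    intro n hn
    exact (Finset.sum_le_sum_of_subset_of_nonneg (Finset.range_mono (by omega))
      fun j _ _ => len_nonneg _).trans hcl
  have hszc : ∀ j, j ≤ d → Sz (c j) s := by
    intro j hj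
    refine ⟨?_, ?_⟩
    · have h1 := hcd j hj
      have h2 : ((c j).totalDegree : ℝ) ≤ d := by
        have : (c j).totalDegree ≤ d := by omega
        exact_mod_cast this
      linarith
    · have h1 : len (c j) ≤ ∑ i ∈ Finset.range (d + 1), len (c i) :=
        Finset.single_le_sum (f := fun i => len (c i)) (fun i _ => len_nonneg _)
          (Finset.mem_range.2 (by omega))
      exact (h1.trans hcl).trans (hlP.trans (Real.exp_le_exp.2 hs₁s))
  have hJbig : Real.exp (-g) ≤ ‖ev θ (c J)‖ := (hGap _ (hszc J hJd)).resolve_left hcJ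
  have hJ1 : 1 ≤ J := by
    by_contra hJ0
    have hJ0' : J = 0 := by omega
    rw [hJ0'] at hsum hJbig
    simp only [zero_add, Finset.range_one, Finset.sum_singleton, pow_zero, mul_one] at hsum
    rw [hsum] at hlt
    have := Real.exp_le_exp.2 (neg_le_neg hg₁)
    linarith
  obtain ⟨a, ha0, ha⟩ := near_root' J hJ1 (fun j => ev θ (c j)) hcJ v
  rw [← hsum] at ha
  have hJs : (J : ℝ) ≤ s₁ := by
    have : (J : ℝ) ≤ d := by exact_mod_cast hJd
    linarith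
  have hs₁0 : 0 < s₁ := by linarith
  have hdist : ‖a - v‖ ≤ Real.exp (-((g₁ - g) / s₁)) := by
    by_contra hgt
    rw [not_le] at hgt
    have h1 : Real.exp (-((g₁ - g) / s₁)) ^ J < ‖a - v‖ ^ J :=
      pow_lt_pow_left₀ hgt (Real.exp_pos _).le (by omega)
    have h2 : Real.exp (-(g₁ - g)) ≤ Real.exp (-((g₁ - g) / s₁)) ^ J := by
      rw [← Real.exp_nat_mul]
      refine Real.exp_le_exp.2 ?_
      have h3 : (J : ℝ) * ((g₁ - g) / s₁) ≤ s₁ * ((g₁ - g) / s₁) :=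
        mul_le_mul_of_nonneg_right hJs (div_nonneg (sub_nonneg.2 hg₁) hs₁0.le)
      rw [mul_div_cancel₀ _ hs₁0.ne'] at h3
      linarith
    have h3 : Real.exp (-(g₁ - g)) * Real.exp (-g) < Real.exp (-g₁) := by
      calc Real.exp (-(g₁ - g)) * Real.exp (-g) ≤ ‖a - v‖ ^ J * ‖ev θ (c J)‖ :=
            mul_le_mul (h2.trans h1.le) hJbig (Real.exp_pos _).le (by positivity)
        _ ≤ ‖ev (ext θ v) P‖ := ha
        _ < Real.exp (-g₁) := hlt
    rw [← Real.exp_add] at h3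
    have e : -(g₁ - g) + -g = -g₁ := by ring
    rw [e] at h3
    exact lt_irrefl _ h3
  refine ⟨a, hdist, ?_⟩
  have hexp1 : Real.exp (-((g₁ - g) / s₁)) ≤ 1 := by
    rw [Real.exp_le_one_iff]
    have := div_nonneg (sub_nonneg.2 hg₁) hs₁0.le
    linarith
  have haΘ : ‖a‖ ≤ Θ + 1 := by
    have h1 : a = v + (a - v) := by ring
    rw [h1]
    exact (norm_add_le _ _).trans (add_le_add hv (hdist.trans hexp1))
  have hfin := gap_alg (σ := σ) (θ := θ) (a := a) (Θ := Θ + 1) (s := s) (g := g) (p := s₁)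
    (q := s₁) hGap hg (by linarith) (fun i => (hθ i).trans (by linarith)) haΘ J hJ1 c hcJ ha0
    hs₁ ((hlenle J hJd).trans hlP) (fun j hj => by
      have h1 := hcd j (hj.trans hJd)
      have h2 : ((c j).totalDegree : ℝ) ≤ d := by
        have : (c j).totalDegree ≤ d := by omega
        exact_mod_cast this
      linarith) hJs hs₁ (by
      have e : 4 * s₁ ^ 2 * s₁ = 4 * s₁ ^ 3 := by ring
      rw [e]
      exact hs)
  have e : g + 6 * s₁ ^ 3 * (1 + Real.log (Θ + 1)) =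
      g + 6 * s₁ ^ 2 * s₁ * (1 + Real.log (Θ + 1)) := by ring
  rw [e]
  exact hfin


end LTD
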