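import Pool.Agent.LTD.Def

set_option autoImplicit false

namespace LTD

/-- Nonzero integer polynomials of degree less than `K` are not exponentially small at `x`. -/
def Wk (x : ℂ) (K : ℕ) : Prop := ∃ c : ℝ, ∀ P : Polynomial ℤ, P ≠ 0 → P.natDegree < K →
  Real.exp (-(c * ∑ i ∈ Finset.range K, |((P.coeff i : ℤ) : ℝ)|)) ≤ ‖Polynomial.aeval x P‖

end LTD
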